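import Mathlib
import Pool.Agent.LibTG78.D6b

/-! # The second moment of zeta twisted by powers of zeta to the right of the critical line: definitions -/

set_option autoImplicit false

namespace Pool.Agent.LibSM93

open MeasureTheory Filter Topology Pool.Agent.LibMM99 Pool.Agent.LibTG78
open scoped ComplexConjugate

/-- the cut off exponential `e^{-y} (1 - ρ(y - Y))`, `ρ` the smooth step -/
noncomputable def WW (Y y : ℝ) : ℝ := Real.exp (-y) * (1 - Real.smoothTransition (y - Y))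

/-- the same as a weight on `[0, 1]` -/
noncomputable def ww (Y y : ℝ) : ℂ := ((WW Y ((Y + 1) * y) : ℝ) : ℂ)

/-- the Dirichlet polynomial `∑ n^{-1/2} WW_Y(h log n) x(n)` -/
noncomputable def DY (h Y : ℝ) (x : Om) : ℂ := SS (ww Y) ((Y + 1) / h) x

/-- the tent weight -/
noncomputable def w0 (y : ℝ) : ℂ := ((max (1 - y) 0 : ℝ) : ℂ)

/-- the tent plus the normalised difference of two consecutive weights -/
noncomputable def vm (m y : ℝ) : ℂ :=
  w0 y + ((Real.exp (9 / 10 * m) * (WW (m + 1) ((m + 2) * y) - WW m ((m + 2) * y)) : ℝ) : ℂ)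

/-- the local factor of the mean of `‖ζ_model(1/2+h)‖^β` under the tilted measure -/
noncomputable def fp (β h : ℝ) (p : ℕ) : ℝ :=
  (1 - (p : ℝ)⁻¹) * ∫ x, (‖1 - zp 0 p * ch x p‖⁻¹) ^ 2 * (‖1 - zp (h : ℂ) p * ch x p‖⁻¹) ^ β ∂mu

/-- the local factor with its two zeta factors removed -/
noncomputable def gp (β h : ℝ) (p : ℕ) : ℝ :=
  fp β h p * (1 - (p : ℝ) ^ (-(1 + h))) ^ β * (1 - (p : ℝ) ^ (-(1 + 2 * h))) ^ (β ^ 2 / 4)

/-- the part of zeta not captured by the Dirichlet polynomial -/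
noncomputable def eta (φ : ℝ → ℂ) (h Y t : ℝ) : ℂ :=
  ∫ u : ℝ, riemannZeta (1 / 2 + ((t + h * u : ℝ) : ℂ) * Complex.I) *
    (((Real.exp (-Y) : ℝ) : ℂ) * Complex.exp (((Y * u : ℝ) : ℂ) * Complex.I) * φ u)

/-- the pole term -/
noncomputable def PO (φ : ℝ → ℂ) (h Y t : ℝ) : ℂ :=
  riemannZeta (((1 / 2 + h : ℝ) : ℂ) + (t : ℂ) * Complex.I) - DY h Y (xt t) - eta φ h Y t

/-- `φ` is a rapidly decreasing continuous function with Fourier transform `e^{-y} ρ(y)` -/
structure IsKernel (φ : ℝ → ℂ) : Prop where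
  cont : Continuous φ
  decay : ∀ N : ℕ, ∃ C : ℝ, ∀ u : ℝ, (1 + |u|) ^ N * ‖φ u‖ ≤ C
  ft : ∀ y : ℝ, ∫ u : ℝ, φ u * Complex.exp (-((y * u : ℝ) : ℂ) * Complex.I) =
    ((Real.exp (-y) * Real.smoothTransition y : ℝ) : ℂ)

end Pool.Agent.LibSM93
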