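import Mathlib

/-! # Elementary inequalities for the lower bound -/

set_option autoImplicit false

namespace Pool.Agent.LibSM93

/-- Bernoulli -/
theorem pow_lower {β : ℝ} (hβ : 1 ≤ β) (a b : ℂ) :
    ‖a‖ ^ β - β * (‖a‖ ^ (β - 1) * ‖b‖) ≤ ‖a + b‖ ^ β := by
  have hβ0 : 0 < β := by linarith
  have hx : 0 ≤ ‖a‖ := norm_nonneg a
  have hy : 0 ≤ ‖b‖ := norm_nonneg b
  have hr : 0 ≤ ‖a + b‖ ^ β := Real.rpow_nonneg (norm_nonneg _) _
  rcases hx.eq_or_lt with h0 | h0
  · rw [← h0, Real.zero_rpow hβ0.ne']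
    have h1 : 0 ≤ (0 : ℝ) ^ (β - 1) := Real.rpow_nonneg le_rfl _
    have h2 : 0 ≤ β * ((0 : ℝ) ^ (β - 1) * ‖b‖) := by positivity
    linarith
  · have h1 : ‖a‖ ^ β = ‖a‖ ^ (β - 1) * ‖a‖ := by
      conv_lhs => rw [show β = (β - 1) + 1 by ring]
      rw [Real.rpow_add h0, Real.rpow_one]
    have h2 : 0 < ‖a‖ ^ (β - 1) := Real.rpow_pos_of_pos h0 _
    rcases le_total ‖a‖ ‖b‖ with h3 | h3
    · have h4 : ‖a‖ ^ (β - 1) * (‖a‖ - β * ‖b‖) ≤ 0 := by
        refine mul_nonpos_of_nonneg_of_nonpos h2.le ?_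
        nlinarith
      rw [h1]
      linarith
    · have h4 : ‖a‖ - ‖b‖ ≤ ‖a + b‖ := by
        have := norm_sub_norm_le a (-b)
        rwa [norm_neg, sub_neg_eq_add] at this
      have h5 : (‖a‖ - ‖b‖) ^ β ≤ ‖a + b‖ ^ β := Real.rpow_le_rpow (by linarith) h4 hβ0.le
      refine le_trans ?_ h5
      have h6 : ‖a‖ - ‖b‖ = ‖a‖ * (1 + -(‖b‖ / ‖a‖)) := by field_simp; ring
      have h7 : ‖b‖ / ‖a‖ ≤ 1 := (div_le_one h0).2 h3
      have h8 := one_add_mul_self_le_rpow_one_add (s := -(‖b‖ / ‖a‖)) (by linarith) hβ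
      rw [h6, Real.mul_rpow hx (by linarith)]
      have h9 : 0 < ‖a‖ ^ β := Real.rpow_pos_of_pos h0 _
      calc ‖a‖ ^ β - β * (‖a‖ ^ (β - 1) * ‖b‖) = ‖a‖ ^ β * (1 + β * -(‖b‖ / ‖a‖)) := by
            rw [h1]
            field_simp
            ring
        _ ≤ _ := mul_le_mul_of_nonneg_left h8 h9.le

theorem young_one {β lam x y : ℝ} (hβ : 1 ≤ β) (hl : 0 < lam) (hx : 0 ≤ x) (hy : 0 ≤ y) :
    y ^ (β - 1) * x ≤ lam * y ^ β + lam ^ (1 - β) * x ^ β := by
  have hβ0 : 0 < β := by linarith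
  rcases hx.eq_or_lt with h0 | h0
  · rw [← h0, mul_zero, Real.zero_rpow hβ0.ne', mul_zero, add_zero]
    positivity
  · rcases le_total x (lam * y) with h | h
    · have hy0 : 0 < y := by
        by_contra hc
        have : y = 0 := le_antisymm (not_lt.1 hc) hy
        rw [this, mul_zero] at h
        linarith
      have h1 : y ^ β = y ^ (β - 1) * y := by
        conv_lhs => rw [show β = (β - 1) + 1 by ring]
        rw [Real.rpow_add hy0, Real.rpow_one]
      have h2 : y ^ (β - 1) * x ≤ y ^ (β - 1) * (lam * y) :=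
        mul_le_mul_of_nonneg_left h (Real.rpow_nonneg hy _)
      have h3 : 0 ≤ lam ^ (1 - β) * x ^ β := by positivity
      rw [h1]
      linarith
    · have h1 : y ≤ x / lam := by
        rw [le_div_iff₀ hl]
        linarith
      have h2 : y ^ (β - 1) ≤ (x / lam) ^ (β - 1) := Real.rpow_le_rpow hy h1 (by linarith)
      have h3 : (x / lam) ^ (β - 1) * x = lam ^ (1 - β) * x ^ β := by
        rw [Real.div_rpow hx hl.le]
        have h4 : lam ^ (1 - β) = (lam ^ (β - 1))⁻¹ := by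
          rw [← Real.rpow_neg hl.le]
          congr 1
          ring
        have h5 : x ^ β = x ^ (β - 1) * x := by
          conv_lhs => rw [show β = (β - 1) + 1 by ring]
          rw [Real.rpow_add h0, Real.rpow_one]
        rw [h4, h5]
        field_simp
      have h6 := mul_le_mul_of_nonneg_right h2 hx
      rw [h3] at h6
      have h7 : 0 ≤ lam * y ^ β := by positivity
      linarith

theorem young_two {β lam x y : ℝ} (hβ : 2 < β) (hl : 0 < lam) (hx : 0 ≤ x) (hy : 0 ≤ y) :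
    y ^ (β - 1) * x ≤ lam * y ^ β + lam⁻¹ * (y ^ (β - 2) * x ^ 2) := by
  rcases hy.eq_or_lt with h0 | h0
  · rw [← h0, Real.zero_rpow (by linarith), Real.zero_rpow (by linarith), Real.zero_rpow (by linarith)]
    simp
  · have h1 : y ^ (β - 1) = y ^ (β - 2) * y := by
      conv_lhs => rw [show β - 1 = (β - 2) + 1 by ring]
      rw [Real.rpow_add h0, Real.rpow_one]
    have h2 : y ^ β = y ^ (β - 2) * y ^ 2 := by
      conv_lhs => rw [show β = (β - 2) + 2 by ring]
      rw [Real.rpow_add h0]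
      norm_num
    have h3 : 0 < y ^ (β - 2) := Real.rpow_pos_of_pos h0 _
    have h4 : y * x ≤ lam * y ^ 2 + lam⁻¹ * x ^ 2 := by
      have h5 : lam * (y * x) ≤ lam * (lam * y ^ 2 + lam⁻¹ * x ^ 2) := by
        have e : lam * (lam * y ^ 2 + lam⁻¹ * x ^ 2) = (lam * y) ^ 2 + x ^ 2 := by
          field_simp
        rw [e]
        nlinarith [sq_nonneg (lam * y - x), mul_nonneg (mul_nonneg hl.le hy) hx]
      exact le_of_mul_le_mul_left h5 hl
    calc y ^ (β - 1) * x = y ^ (β - 2) * (y * x) := by rw [h1]; ring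
      _ ≤ y ^ (β - 2) * (lam * y ^ 2 + lam⁻¹ * x ^ 2) := mul_le_mul_of_nonneg_left h4 h3.le
      _ = _ := by rw [h2]; ring

end Pool.Agent.LibSM93
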