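import Mathlib
import Pool.Agent.LibSM93.Defs
import Pool.Agent.LibFG78.Defs
import Pool.Agent.LibGrF.Maj

/-! Row E1. Polynomial majorant with its fourth power tilted means for all parameters near the line. -/

set_option autoImplicit false

namespace Pool.Agent.LibSM93

open MeasureTheory Filter Topology Pool.Agent.LibMM99 Pool.Agent.LibTG78
open scoped ComplexConjugate

theorem E1_nu4 (s : ℂ) (L : ℝ) : LibFG78.nu4 s L = LibGrF.nu4 s L := rfl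

theorem major4 {γ : ℝ} (hγ : 0 < γ) (Λ : ℝ) : ∃ C1 Θ : ℝ, 0 < C1 ∧ 0 < Θ ∧
    ∀ w : ℝ → ℂ, IsWeight w Λ → ∀ L : ℝ, 1 ≤ L → ∃ M : Om → ℝ,
      (∀ x, ‖SS w L x‖ ^ γ ≤ M x) ∧ IsPolyR (Θ * L) M ∧ DependsOn M (coo 1 (Real.exp L)) ∧
      ∀ s : ℂ, |s.re| ≤ 1 / (20 * L) → ∫ x, M x ∂(LibFG78.nu4 s L) ≤ C1 * L ^ (γ ^ 2 / 4 + 2 * γ) := by
  obtain ⟨C1, Θ, hC1, hΘ, H⟩ := LibGrF.major hγ Λ
  refine ⟨C1, Θ, hC1, hΘ, fun w hw L hL => ?_⟩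
  obtain ⟨M, h1, h2, h3, h4⟩ := H w hw L hL
  refine ⟨M, h1, h2, h3, fun s hs => ?_⟩
  rw [E1_nu4]
  exact h4 s ⟨hL, hs⟩

end Pool.Agent.LibSM93
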