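import Mathlib
import Pool.Agent.LibSM93.Defs
import Pool.Agent.LibFG78.Defs
import Pool.Agent.LibTG78.B01

/-! Row E2a. Rotation of the fourth power tilted measure; rotation of polynomials. -/

set_option autoImplicit false

namespace Pool.Agent.LibSM93

open MeasureTheory Filter Topology Pool.Agent.LibMM99 Pool.Agent.LibTG78
open scoped ComplexConjugate

theorem xt_add (t v : ℝ) : xt (t + v) = xt t + xt v := by
  funext p
  rw [Pi.add_apply]
  unfold xt
  rw [← AddCircle.coe_add]
  congr 1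
  ring

theorem ch_add (x y : Om) (n : ℕ) : ch (x + y) n = ch x n * ch y n := by
  unfold ch
  rw [← Finset.prod_mul_distrib]
  refine Finset.prod_congr rfl fun p _ => ?_
  rw [Pi.add_apply, fourier_apply, fourier_apply, fourier_apply, smul_add, AddCircle.toCircle_add]
  push_cast
  rfl

theorem rot_poly {a : ℝ} {M : Om → ℝ} (hM : IsPolyR a M) (v : ℝ) :
    IsPolyR a fun x => M (x + xt v) := by
  obtain ⟨s, c, h1, h2, h3⟩ := hM
  refine ⟨s, fun q => c q * ch (xt v) q.1 * conj (ch (xt v) q.2), h1, ?_, fun x => ?_⟩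
  · refine le_trans (le_of_eq ?_) h2
    refine Finset.sum_congr rfl fun q _ => ?_
    rw [norm_mul, norm_mul, RCLike.norm_conj, norm_ch, norm_ch, mul_one, mul_one]
  · have h4 := h3 (x + xt v)
    simp only at h4 ⊢
    rw [h4]
    refine Finset.sum_congr rfl fun q _ => ?_
    rw [ch_add, ch_add, map_mul]
    ring

theorem rot_dep {M : Om → ℝ} {S : Set ℕ} (hM : DependsOn M S) (v : ℝ) :
    DependsOn (fun x => M (x + xt v)) S := by
  intro x y h
  refine hM fun i hi => ?_
  rw [Pi.add_apply, Pi.add_apply, h i hi]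

theorem map_add_mu (y : Om) : mu.map (fun x => x + y) = mu := by
  have h : (fun x : Om => x + y) = fun x p => (fun (p : ℕ) (z : UnitAddCircle) => z + y p) p (x p) := by
    funext x p
    rfl
  rw [h]
  unfold mu
  rw [Measure.infinitePi_map_pi (μ := fun _ : ℕ => (AddCircle.haarAddCircle : Measure UnitAddCircle))
    (f := fun p z => z + y p) (fun p => measurable_add_const _)]
  congr 1
  funext p
  exact map_add_right_eq_self _ _

theorem E2a_zp (s : ℂ) (v : ℝ) (x : Om) {p : ℕ} (hp : p ≠ 0) :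
    zp (s - v * Complex.I) p * ch (x + xt v) p = zp s p * ch x p := by
  have hp' : (p : ℂ) ≠ 0 := by exact_mod_cast hp
  rw [ch_add, ch_xt v hp]
  unfold zp
  have h1 : (-(1 / 2 : ℂ) - (s - v * Complex.I)) = (-(1 / 2 : ℂ) - s) + v * Complex.I := by ring
  rw [h1, Complex.cpow_add _ _ hp']
  have h2 : (p : ℂ) ^ ((v : ℂ) * Complex.I) = Complex.exp (((v * Real.log p : ℝ) : ℂ) * Complex.I) := by
    rw [Complex.cpow_def_of_ne_zero hp', ← Complex.natCast_log]
    congr 1
    push_cast
    ring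
  rw [h2]
  have h3 : Complex.exp (((v * Real.log p : ℝ) : ℂ) * Complex.I) *
      Complex.exp (-((v * Real.log p : ℝ) : ℂ) * Complex.I) = 1 := by
    rw [← Complex.exp_add]
    rw [show ((v * Real.log p : ℝ) : ℂ) * Complex.I + -((v * Real.log p : ℝ) : ℂ) * Complex.I = 0 by ring,
      Complex.exp_zero]
  linear_combination ((p : ℂ) ^ (-(1 / 2 : ℂ) - s) * ch x p) * h3

theorem E2a_ZZ (s : ℂ) (v a b : ℝ) (x : Om) :
    ZZ (s - v * Complex.I) a b (x + xt v) = ZZ s a b x := by
  unfold ZZ
  refine Finset.prod_congr rfl fun p hp => ?_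
  rw [E2a_zp s v x (mem_prm.1 hp).1.ne_zero]

theorem E2a_nz4 (s : ℂ) (v a b : ℝ) :
    LibFG78.nz4 (s - v * Complex.I) a b = LibFG78.nz4 s a b := by
  unfold LibFG78.nz4
  refine Finset.prod_congr rfl fun p hp => ?_
  have h1 : 1 ≤ p := (mem_prm.1 hp).1.one_lt.le
  rw [norm_zp _ h1, norm_zp _ h1]
  simp

theorem E2a_meas (s : ℂ) (a b : ℝ) : Measurable (ZZ s a b) := by
  unfold ZZ
  refine Finset.measurable_fun_prod _ fun p _ => ?_
  exact (measurable_const.sub (measurable_const.mul (continuous_ch p).measurable)).inv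

theorem E2a_map (v : ℝ) (s : ℂ) (L : ℝ) :
    (LibFG78.nu4 s L).map (fun x => x + xt v) = LibFG78.nu4 (s - v * Complex.I) L := by
  have hT : Measurable fun x : Om => x + xt v := by fun_prop
  set ρ : Om → ENNReal := fun x => ENNReal.ofReal
    (LibFG78.nz4 (s - v * Complex.I) 1 (Real.exp L) * ‖ZZ (s - v * Complex.I) 1 (Real.exp L) x‖ ^ 4)
    with hρ
  have hm : Measurable ρ := by
    refine Measurable.ennreal_ofReal ?_
    exact measurable_const.mul ((E2a_meas _ _ _).norm.pow_const 4)
  have h1 : LibFG78.nu4 s L = mu.withDensity fun x => ρ (x + xt v) := by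
    unfold LibFG78.nu4
    congr 1
    funext x
    rw [hρ]
    simp only
    rw [E2a_nz4, E2a_ZZ]
  have h2 : LibFG78.nu4 (s - v * Complex.I) L = mu.withDensity ρ := rfl
  rw [h1, h2]
  ext A hA
  rw [Measure.map_apply hT hA, withDensity_apply _ (hT hA), withDensity_apply _ hA]
  conv_rhs => rw [← map_add_mu (xt v)]
  rw [setLIntegral_map hA hm hT]

theorem rot_nu4 (v : ℝ) (s : ℂ) (L : ℝ) {f : Om → ℝ} (hf : Continuous f) :
    ∫ x, f (x + xt v) ∂(LibFG78.nu4 s L) = ∫ x, f x ∂(LibFG78.nu4 (s - v * Complex.I) L) := by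
  have hT : Measurable fun x : Om => x + xt v := by fun_prop
  rw [← E2a_map v s L]
  exact (integral_map hT.aemeasurable hf.aestronglyMeasurable).symm

end Pool.Agent.LibSM93
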