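import Mathlib
import Pool.Agent.LibSM93.Defs
import Pool.Agent.LibSM93.E2a
import Pool.Agent.LibST15.Fourth

/-! Row E2b: `fourth_rot` (the twisted fourth moment at translates). `rot_nu4` is row E2a. -/

set_option autoImplicit false

namespace Pool.Agent.LibSM93

open MeasureTheory Filter Topology Pool.Agent.LibMM99 Pool.Agent.LibTG78
open scoped ComplexConjugate


theorem E2b_xt_add (t v : ℝ) : xt (t + v) = xt t + xt v := by
  funext p
  simp only [xt, Pi.add_apply]
  rw [← AddCircle.coe_add]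
  congr 1
  ring

theorem E2b_xt_zero : xt 0 = 0 := by
  funext p
  simp [xt]

theorem E2b_ch_add (x y : Om) (n : ℕ) : ch (x + y) n = ch x n * ch y n := by
  simp only [ch, Pi.add_apply, ← Finset.prod_mul_distrib]
  refine Finset.prod_congr rfl fun p _ => ?_
  simp only [fourier_apply, smul_add, AddCircle.toCircle_add, Circle.coe_mul]

theorem E2b_poly {a : ℝ} {M : Om → ℝ} (h : IsPolyR a M) (y : Om) :
    IsPolyR a (fun x => M (x + y)) := by
  obtain ⟨s, c, h1, h2, h3⟩ := h
  refine ⟨s, fun q => c q * ch y q.1 * conj (ch y q.2), h1, ?_, ?_⟩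
  · refine le_trans (le_of_eq ?_) h2
    refine Finset.sum_congr rfl fun q _ => ?_
    rw [norm_mul, norm_mul, norm_ch, RCLike.norm_conj, norm_ch, mul_one, mul_one]
  · intro x
    rw [h3 (x + y)]
    refine Finset.sum_congr rfl fun q _ => ?_
    rw [E2b_ch_add, E2b_ch_add, map_mul]
    ring

theorem E2b_dep {M : Om → ℝ} {S : Set ℕ} (h : DependsOn M S) (y : Om) :
    DependsOn (fun x => M (x + y)) S := by
  intro x x' hx
  refine h fun i hi => ?_
  simp only [Pi.add_apply]
  rw [hx i hi]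

theorem E2b_bound {a : ℝ} {M : Om → ℝ} (h : IsPolyR a M) (x : Om) : M x ≤ Real.exp a := by
  obtain ⟨s, c, h1, h2, h3⟩ := h
  refine le_trans ?_ h2
  have h4 : M x ≤ ‖((M x : ℝ) : ℂ)‖ := by
    rw [Complex.norm_real]
    exact le_abs_self _
  refine h4.trans ?_
  have h5 := h3 x
  simp only at h5
  rw [h5]
  refine (norm_sum_le _ _).trans (le_of_eq ?_)
  refine Finset.sum_congr rfl fun q _ => ?_
  rw [norm_mul, norm_mul, norm_ch, RCLike.norm_conj, norm_ch, mul_one, mul_one]

theorem fourth_rot : ∃ C δ T0 : ℝ, 0 < C ∧ 0 < δ ∧ 3 ≤ T0 ∧ ∀ (a L A T : ℝ) (M : Om → ℝ), 1 ≤ L →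
    L ≤ Real.log T → T0 ≤ T → a ≤ δ * Real.log T → IsPolyR a M → DependsOn M (coo 1 (Real.exp L)) →
    (∀ x, 0 ≤ M x) → (∀ s : ℂ, |s.re| ≤ 1 / (20 * L) → ∫ x, M x ∂(LibFG78.nu4 s L) ≤ A) → ∀ v : ℝ,
    (1 / T) * (∫ t in (0 : ℝ)..T, ‖riemannZeta (1 / 2 + ((t + v : ℝ) : ℂ) * Complex.I)‖ ^ 4 * M (xt t)) ≤
      C * (1 + |v|) ^ 6 * (Real.log T ^ 4 * A + 1) := by
  obtain ⟨C, δ, T0, hC, hδ, hT0, h⟩ := LibST15.fourth_le
  refine ⟨256 + C, min δ 1, T0, by positivity, lt_min hδ one_pos, hT0, ?_⟩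
  intro a L A T M hL hLT hT ha hM hMd hM0 hA v
  have hT3 : 3 ≤ T := hT0.trans hT
  have hTpos : 0 < T := by linarith
  have hlog1 : 1 ≤ Real.log T := hL.trans hLT
  set V : Om → ℝ := fun x => M (x + xt (-v)) with hV
  have hVp : IsPolyR a V := E2b_poly hM _
  have hVc : Continuous V := hVp.continuous
  have hVd : DependsOn V (coo 1 (Real.exp L)) := E2b_dep hMd _
  have hV0 : ∀ x, 0 ≤ V x := fun x => hM0 _
  have hv0 : 0 ≤ |v| := abs_nonneg v
  have hA0 : 0 ≤ A := (integral_nonneg fun x => hM0 x).trans (hA 0 (by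
    rw [Complex.zero_re, abs_zero]; positivity))
  set F : ℝ → ℝ := fun t => ‖riemannZeta (1 / 2 + (t : ℂ) * Complex.I)‖ ^ 4 * V (xt t) with hF
  have hFc : Continuous F := (D5_zeta_cont.norm.pow 4).mul (hVc.comp continuous_xt)
  have hF0 : ∀ t, 0 ≤ F t := fun t => mul_nonneg (by positivity) (hV0 _)
  -- the translation
  have e1 : (∫ t in (0 : ℝ)..T, ‖riemannZeta (1 / 2 + ((t + v : ℝ) : ℂ) * Complex.I)‖ ^ 4 * M (xt t)) =
      ∫ t in v..(T + v), F t := by
    have e2 : ∀ t : ℝ, ‖riemannZeta (1 / 2 + ((t + v : ℝ) : ℂ) * Complex.I)‖ ^ 4 * M (xt t) =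
        F (t + v) := by
      intro t
      simp only [hF, hV]
      congr 2
      rw [← E2b_xt_add]
      congr 1
      ring
    simp only [e2]
    rw [intervalIntegral.integral_comp_add_right (fun t => F t) v, zero_add]
  rw [e1]
  have hint : ∀ c d : ℝ, IntervalIntegrable F volume c d := fun c d => hFc.intervalIntegrable c d
  have e3 : ∫ t in v..(T + v), F t ≤ ∫ t in (-|v|)..(T + |v|), F t := by
    refine intervalIntegral.integral_mono_interval (neg_abs_le v) (by linarith)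
      (by linarith [le_abs_self v]) ?_ (hint _ _)
    exact Eventually.of_forall fun t => hF0 t
  have e4 : ∫ t in (-|v|)..(T + |v|), F t = (∫ t in (-|v|)..0, F t) + ∫ t in (0 : ℝ)..(T + |v|), F t :=
    (intervalIntegral.integral_add_adjacent_intervals (hint _ _) (hint _ _)).symm
  -- the main part
  set T' := T + |v| with hT'
  have hT'T : T ≤ T' := by linarith
  have hT'pos : 0 < T' := by linarith
  have hlogT' : Real.log T ≤ Real.log T' := Real.log_le_log hTpos hT'T
  have hlogT'' : Real.log T' ≤ (1 + |v|) * Real.log T := by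
    have h1 : T' ≤ T * Real.exp |v| := by
      have := Real.add_one_le_exp |v|
      nlinarith
    have h2 : Real.log T' ≤ Real.log T + |v| := by
      calc Real.log T' ≤ Real.log (T * Real.exp |v|) := Real.log_le_log hT'pos h1
        _ = Real.log T + |v| := by rw [Real.log_mul (by positivity) (by positivity), Real.log_exp]
    nlinarith
  have m1 := h a L A T' V hL (hLT.trans hlogT') (hT.trans hT'T)
    (ha.trans ((mul_le_mul_of_nonneg_right (min_le_left _ _) (by linarith)).trans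
      (mul_le_mul_of_nonneg_left hlogT' hδ.le))) hVp hVd hV0 (by
      intro s hs
      have hr := rot_nu4 (-v) s L hM.continuous
      rw [hV, hr]
      refine hA _ ?_
      have h1 : (s - ((-v : ℝ) : ℂ) * Complex.I).re = s.re := by simp
      rw [h1]
      exact (Complex.abs_re_le_norm s).trans hs.2)
  have m2 : ∫ t in (0 : ℝ)..T', F t ≤ T' * (C * Real.log T' ^ 4 * A + C) := by
    rw [one_div, ← div_eq_inv_mul, div_le_iff₀ hT'pos] at m1
    calc ∫ t in (0 : ℝ)..T', F t ≤ (C * Real.log T' ^ 4 * A + C) * T' := m1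
      _ = _ := by ring
  -- the remaining part
  have hexp : Real.exp a ≤ T := by
    have h1 : a ≤ Real.log T := ha.trans (by
      have := mul_le_mul_of_nonneg_right (min_le_right δ 1) (by linarith : (0 : ℝ) ≤ Real.log T)
      linarith)
    calc Real.exp a ≤ Real.exp (Real.log T) := Real.exp_le_exp.2 h1
      _ = T := Real.exp_log hTpos
  have r1 : ∫ t in (-|v|)..0, F t ≤ |v| * ((4 + 2 * |v|) ^ 4 * T) := by
    have h1 : ∫ t in (-|v|)..0, F t ≤ ∫ _t in (-|v|)..0, (4 + 2 * |v|) ^ 4 * T := by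
      refine intervalIntegral.integral_mono_on (by linarith) (hint _ _)
        intervalIntegrable_const fun t ht => ?_
      have h2 : ‖riemannZeta (1 / 2 + (t : ℂ) * Complex.I)‖ ≤ 4 + 2 * |t| :=
        LibZM.norm_zeta_crit_le t
      have h3 : |t| ≤ |v| := by
        rw [abs_le]
        exact ⟨ht.1, ht.2.trans hv0⟩
      have h4 : V (xt t) ≤ T := (E2b_bound hVp _).trans hexp
      simp only [hF]
      refine mul_le_mul (pow_le_pow_left₀ (norm_nonneg _) (by linarith) 4) h4 (hV0 _) (by positivity)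
    rw [intervalIntegral.integral_const, smul_eq_mul] at h1
    linarith
  have hw : 1 ≤ 1 + |v| := by linarith
  set w := 1 + |v| with hwdef
  have hlT : 0 ≤ Real.log T ^ 4 * A := by positivity
  have r2 : (1 / T) * (∫ t in v..(T + v), F t) ≤ |v| * (4 + 2 * |v|) ^ 4 +
      w * (C * (w * Real.log T) ^ 4 * A + C) := by
    have h1 : (1 / T) * (∫ t in v..(T + v), F t) ≤
        (1 / T) * (|v| * ((4 + 2 * |v|) ^ 4 * T) + T' * (C * Real.log T' ^ 4 * A + C)) :=
      mul_le_mul_of_nonneg_left (by linarith) (by positivity)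
    refine h1.trans ?_
    have h2 : (1 / T) * (|v| * ((4 + 2 * |v|) ^ 4 * T) + T' * (C * Real.log T' ^ 4 * A + C)) =
        |v| * (4 + 2 * |v|) ^ 4 + (T' / T) * (C * Real.log T' ^ 4 * A + C) := by
      field_simp
    rw [h2]
    have h3 : T' / T ≤ w := by
      rw [div_le_iff₀ hTpos]
      nlinarith
    have h4 : C * Real.log T' ^ 4 * A + C ≤ C * (w * Real.log T) ^ 4 * A + C := by
      have h5 : Real.log T' ^ 4 ≤ (w * Real.log T) ^ 4 := pow_le_pow_left₀ (by linarith) hlogT'' 4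
      have h6 := mul_le_mul_of_nonneg_right (mul_le_mul_of_nonneg_left h5 hC.le) hA0
      linarith
    have h7 : 0 ≤ C * (w * Real.log T) ^ 4 * A + C := by positivity
    have h8 : (T' / T) * (C * Real.log T' ^ 4 * A + C) ≤ w * (C * (w * Real.log T) ^ 4 * A + C) :=
      mul_le_mul h3 h4 (by positivity) (by positivity)
    linarith
  refine r2.trans ?_
  have s1 : |v| * (4 + 2 * |v|) ^ 4 ≤ 256 * w ^ 6 := by
    have h1 : (4 + 2 * |v|) ^ 4 ≤ (4 * w) ^ 4 := pow_le_pow_left₀ (by positivity) (by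
      rw [hwdef]; linarith) 4
    have h2 : |v| ≤ w := by rw [hwdef]; linarith
    calc |v| * (4 + 2 * |v|) ^ 4 ≤ w * (4 * w) ^ 4 := mul_le_mul h2 h1 (by positivity) (by linarith)
      _ = 256 * w ^ 5 := by ring
      _ ≤ 256 * w ^ 6 := by
          have := pow_le_pow_right₀ hw (show 5 ≤ 6 by norm_num)
          linarith
  have s2 : w * (C * (w * Real.log T) ^ 4 * A + C) ≤ C * w ^ 6 * (Real.log T ^ 4 * A + 1) := by
    have h1 : w ^ 5 ≤ w ^ 6 := pow_le_pow_right₀ hw (by norm_num)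
    have h2 : w ^ 1 ≤ w ^ 6 := pow_le_pow_right₀ hw (by norm_num)
    have h3 : w ^ 5 * (Real.log T ^ 4 * A) ≤ w ^ 6 * (Real.log T ^ 4 * A) :=
      mul_le_mul_of_nonneg_right h1 hlT
    calc w * (C * (w * Real.log T) ^ 4 * A + C) = C * (w ^ 5 * (Real.log T ^ 4 * A) + w ^ 1) := by ring
      _ ≤ C * (w ^ 6 * (Real.log T ^ 4 * A) + w ^ 6) :=
          mul_le_mul_of_nonneg_left (by linarith) hC.le
      _ = _ := by ring
  have s3 : 256 * w ^ 6 ≤ 256 * w ^ 6 * (Real.log T ^ 4 * A + 1) := by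
    have : 0 ≤ 256 * w ^ 6 * (Real.log T ^ 4 * A) := by positivity
    linarith
  linarith

end Pool.Agent.LibSM93
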