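import Mathlib
import Pool.Agent.LibSM93.Defs

/-! Row I1: an integral kernel whose Fourier transform is the exponential cut off at zero. -/

set_option autoImplicit false

namespace Pool.Agent.LibSM93

open MeasureTheory Filter Topology Pool.Agent.LibMM99 Pool.Agent.LibTG78
open scoped ComplexConjugate
open scoped FourierTransform SchwartzMap ContDiff

/-- the target function -/
noncomputable def I1_g (y : ℝ) : ℂ := ((Real.exp (-y) * Real.smoothTransition y : ℝ) : ℂ)

/-- the compactly supported part of its derivative -/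
noncomputable def I1_psi (y : ℝ) : ℂ := ((Real.exp (-y) * deriv Real.smoothTransition y : ℝ) : ℂ)

theorem I1_g_cont : Continuous I1_g := by
  unfold I1_g
  exact Complex.continuous_ofReal.comp ((Real.continuous_exp.comp continuous_neg).mul Real.smoothTransition.continuous)

theorem I1_g_int : Integrable I1_g := by
  have h1 : Integrable (Set.indicator (Set.Ioi (0 : ℝ)) fun y => Real.exp (-y)) :=
    (integrable_indicator_iff measurableSet_Ioi).2 (integrableOn_exp_neg_Ioi 0)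
  refine h1.mono' I1_g_cont.aestronglyMeasurable (Eventually.of_forall fun y => ?_)
  unfold I1_g
  rw [Complex.norm_real, Real.norm_of_nonneg (mul_nonneg (Real.exp_pos _).le (Real.smoothTransition.nonneg y))]
  by_cases hy : 0 < y
  · rw [Set.indicator_of_mem (show y ∈ Set.Ioi (0 : ℝ) from hy)]
    calc Real.exp (-y) * Real.smoothTransition y ≤ Real.exp (-y) * 1 :=
          mul_le_mul_of_nonneg_left (Real.smoothTransition.le_one y) (Real.exp_pos _).le
      _ = Real.exp (-y) := mul_one _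
  · rw [Set.indicator_of_notMem (show y ∉ Set.Ioi (0 : ℝ) from hy),
      Real.smoothTransition.zero_of_nonpos (not_lt.1 hy), mul_zero]

theorem I1_rho_diff : Differentiable ℝ Real.smoothTransition :=
  (Real.smoothTransition.contDiff (n := 1)).differentiable (by norm_num)

theorem I1_g_deriv (y : ℝ) : HasDerivAt I1_g (I1_psi y - I1_g y) y := by
  have h1 : HasDerivAt (fun y : ℝ => Real.exp (-y) * Real.smoothTransition y)
      (Real.exp (-y) * (-1) * Real.smoothTransition y + Real.exp (-y) * deriv Real.smoothTransition y) y :=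
    ((hasDerivAt_neg y).exp).mul (I1_rho_diff y).hasDerivAt
  have h2 := h1.ofReal_comp
  have h3 : ((Real.exp (-y) * (-1) * Real.smoothTransition y + Real.exp (-y) * deriv Real.smoothTransition y : ℝ) : ℂ) =
      I1_psi y - I1_g y := by
    unfold I1_psi I1_g
    push_cast
    ring
  rw [← h3]
  exact h2

theorem I1_rho_deriv_zero {y : ℝ} (hy : y ∉ Set.Icc (0 : ℝ) 1) : deriv Real.smoothTransition y = 0 := by
  rw [Set.mem_Icc, not_and_or, not_le, not_le] at hy
  rcases hy with hy | hy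
  · have : Real.smoothTransition =ᶠ[𝓝 y] fun _ => 0 := by
      filter_upwards [Iio_mem_nhds hy] with z hz
      exact Real.smoothTransition.zero_of_nonpos (le_of_lt hz)
    rw [this.deriv_eq]
    simp
  · have : Real.smoothTransition =ᶠ[𝓝 y] fun _ => 1 := by
      filter_upwards [Ioi_mem_nhds hy] with z hz
      exact Real.smoothTransition.one_of_one_le (le_of_lt hz)
    rw [this.deriv_eq]
    simp

theorem I1_psi_supp : HasCompactSupport I1_psi := by
  refine HasCompactSupport.intro (isCompact_Icc (a := (0 : ℝ)) (b := 1)) fun y hy => ?_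
  unfold I1_psi
  rw [I1_rho_deriv_zero hy]
  simp

theorem I1_psi_smooth : ContDiff ℝ ∞ I1_psi := by
  have h1 : ContDiff ℝ ∞ (deriv Real.smoothTransition) := by
    have h := Real.smoothTransition.contDiff (n := ⊤)
    exact (contDiff_infty_iff_deriv.1 h).2
  have h2 : ContDiff ℝ ∞ fun y : ℝ => Real.exp (-y) * deriv Real.smoothTransition y :=
    (contDiff_neg.exp).mul h1
  exact Complex.ofRealCLM.contDiff.comp h2

theorem I1_fourier (x : ℝ) : 𝓕 I1_psi x = (1 + 2 * Real.pi * Complex.I * x) * 𝓕 I1_g x := by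
  have hpsi : Integrable I1_psi := I1_psi_smooth.continuous.integrable_of_hasCompactSupport I1_psi_supp
  have hd : deriv I1_g = fun y => I1_psi y - I1_g y := funext fun y => (I1_g_deriv y).deriv
  have hdi : Integrable (deriv I1_g) := by
    rw [hd]
    exact hpsi.sub I1_g_int
  have h1 := congrFun (Real.fourier_deriv I1_g_int (fun y => (I1_g_deriv y).differentiableAt) hdi) x
  have h2 : I1_psi = deriv I1_g + I1_g := by
    rw [hd]
    funext y
    simp
  have h3 : 𝓕 (deriv I1_g + I1_g) x = 𝓕 (deriv I1_g) x + 𝓕 I1_g x := by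
    rw [Real.fourier_eq, Real.fourier_eq, Real.fourier_eq]
    have e1 : Integrable fun v : ℝ => Real.fourierChar (-(inner ℝ v x)) • deriv I1_g v :=
      (Real.fourierIntegral_convergent_iff x).2 hdi
    have e2 : Integrable fun v : ℝ => Real.fourierChar (-(inner ℝ v x)) • I1_g v :=
      (Real.fourierIntegral_convergent_iff x).2 I1_g_int
    rw [← integral_add e1 e2]
    congr 1
    funext v
    rw [Pi.add_apply, smul_add]
  rw [h2, h3, h1, smul_eq_mul]
  ring

/-- the Fourier transform of the compactly supported part -/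
noncomputable def I1_Psi : 𝓢(ℝ, ℂ) := 𝓕 (I1_psi_supp.toSchwartzMap I1_psi_smooth)

theorem I1_Psi_eq (x : ℝ) : I1_Psi x = 𝓕 I1_psi x := rfl

theorem I1_re (x : ℝ) : (1 + 2 * Real.pi * Complex.I * x : ℂ).re = 1 := by
  simp

theorem I1_ne (x : ℝ) : (1 + 2 * Real.pi * Complex.I * x : ℂ) ≠ 0 := by
  intro h
  have := congrArg Complex.re h
  rw [I1_re] at this
  simp at this

theorem I1_G_eq (x : ℝ) : 𝓕 I1_g x = I1_Psi x * (1 + 2 * Real.pi * Complex.I * x)⁻¹ := by
  rw [I1_Psi_eq, I1_fourier, mul_comm, inv_mul_cancel_left₀ (I1_ne x)]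

theorem I1_G_cont : Continuous (𝓕 I1_g) := by
  have h1 : (𝓕 I1_g) = fun x : ℝ => I1_Psi x * (1 + 2 * Real.pi * Complex.I * x : ℂ)⁻¹ := funext I1_G_eq
  rw [h1]
  refine I1_Psi.continuous.mul (Continuous.inv₀ (by fun_prop) I1_ne)

theorem I1_G_le (x : ℝ) : ‖𝓕 I1_g x‖ ≤ ‖I1_Psi x‖ := by
  rw [I1_G_eq, norm_mul, norm_inv]
  have h1 : 1 ≤ ‖(1 + 2 * Real.pi * Complex.I * x : ℂ)‖ := by
    have := Complex.abs_re_le_norm (1 + 2 * Real.pi * Complex.I * x : ℂ)
    rw [I1_re, abs_one] at this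
    exact this
  calc ‖I1_Psi x‖ * ‖(1 + 2 * Real.pi * Complex.I * x : ℂ)‖⁻¹ ≤ ‖I1_Psi x‖ * 1 :=
        mul_le_mul_of_nonneg_left (inv_le_one_of_one_le₀ h1) (norm_nonneg _)
    _ = ‖I1_Psi x‖ := mul_one _

theorem I1_G_int : Integrable (𝓕 I1_g) :=
  I1_Psi.integrable.norm.mono' I1_G_cont.aestronglyMeasurable (Eventually.of_forall I1_G_le)

theorem I1_inv (y : ℝ) : ∫ x : ℝ, 𝓕 I1_g x * Complex.exp (((2 * Real.pi * (x * y) : ℝ) : ℂ) * Complex.I) = I1_g y := by
  have h1 := congrFun (I1_g_cont.fourierInv_fourier_eq I1_g_int I1_G_int) y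
  rw [Real.fourierInv_eq'] at h1
  rw [← h1]
  congr 1
  funext x
  rw [smul_eq_mul, mul_comm]
  congr 2
  simp only [RCLike.inner_apply, conj_trivial]
  push_cast
  ring

theorem exists_kernel : ∃ φ : ℝ → ℂ, IsKernel φ := by
  have hpi := Real.pi_pos
  refine ⟨fun u => (((2 * Real.pi)⁻¹ : ℝ) : ℂ) * 𝓕 I1_g (-(2 * Real.pi)⁻¹ * u), ?_, ?_, ?_⟩
  · exact continuous_const.mul (I1_G_cont.comp (continuous_const.mul continuous_id))
  · intro N
    refine ⟨7 ^ N * (2 ^ N * ((Finset.Iic ((N, 0) : ℕ × ℕ)).sup fun m => SchwartzMap.seminorm ℝ m.1 m.2) I1_Psi),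
      fun u => ?_⟩
    have h1 := SchwartzMap.one_add_le_sup_seminorm_apply (𝕜 := ℝ) (m := (N, 0)) (k := N) (n := 0) le_rfl le_rfl I1_Psi
      (-(2 * Real.pi)⁻¹ * u)
    rw [norm_iteratedFDeriv_zero] at h1
    have h2 : 1 + |u| ≤ 7 * (1 + ‖-(2 * Real.pi)⁻¹ * u‖) := by
      have h30 : |2 * Real.pi| = 2 * Real.pi := abs_of_pos (by positivity)
      rw [norm_mul, norm_neg, norm_inv, Real.norm_eq_abs, Real.norm_eq_abs, h30]
      have h3 : (1 : ℝ) ≤ 7 * (2 * Real.pi)⁻¹ := by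
        rw [← div_eq_mul_inv, le_div_iff₀ (by positivity)]
        linarith [Real.pi_lt_d2]
      have h4 := mul_le_mul_of_nonneg_right h3 (abs_nonneg u)
      linarith
    have h5 : ‖(((2 * Real.pi)⁻¹ : ℝ) : ℂ) * 𝓕 I1_g (-(2 * Real.pi)⁻¹ * u)‖ ≤ ‖I1_Psi (-(2 * Real.pi)⁻¹ * u)‖ := by
      rw [norm_mul, Complex.norm_real, Real.norm_of_nonneg (by positivity)]
      have h6 : (2 * Real.pi)⁻¹ ≤ 1 := inv_le_one_of_one_le₀ (by linarith [Real.pi_gt_three])
      calc (2 * Real.pi)⁻¹ * ‖𝓕 I1_g (-(2 * Real.pi)⁻¹ * u)‖ ≤ 1 * ‖I1_Psi (-(2 * Real.pi)⁻¹ * u)‖ :=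
            mul_le_mul h6 (I1_G_le _) (norm_nonneg _) zero_le_one
        _ = _ := one_mul _
    calc (1 + |u|) ^ N * ‖(((2 * Real.pi)⁻¹ : ℝ) : ℂ) * 𝓕 I1_g (-(2 * Real.pi)⁻¹ * u)‖
        ≤ (7 * (1 + ‖-(2 * Real.pi)⁻¹ * u‖)) ^ N * ‖I1_Psi (-(2 * Real.pi)⁻¹ * u)‖ :=
          mul_le_mul (pow_le_pow_left₀ (by positivity) h2 N) h5 (norm_nonneg _) (by positivity)
      _ = 7 ^ N * ((1 + ‖-(2 * Real.pi)⁻¹ * u‖) ^ N * ‖I1_Psi (-(2 * Real.pi)⁻¹ * u)‖) := by
          rw [mul_pow]; ring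
      _ ≤ _ := mul_le_mul_of_nonneg_left h1 (by positivity)
  · intro y
    have h1 : ∀ u : ℝ, (((2 * Real.pi)⁻¹ : ℝ) : ℂ) * 𝓕 I1_g (-(2 * Real.pi)⁻¹ * u) *
        Complex.exp (-((y * u : ℝ) : ℂ) * Complex.I) = (((2 * Real.pi)⁻¹ : ℝ) : ℂ) *
        (fun x : ℝ => 𝓕 I1_g x * Complex.exp (((2 * Real.pi * (x * y) : ℝ) : ℂ) * Complex.I)) (-(2 * Real.pi)⁻¹ * u) := by
      intro u
      have h2 : (((2 * Real.pi * (-(2 * Real.pi)⁻¹ * u * y) : ℝ) : ℂ)) = -((y * u : ℝ) : ℂ) := by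
        rw [← Complex.ofReal_neg]
        congr 1
        field_simp
      simp only [h2]
      ring
    rw [integral_congr_ae (Eventually.of_forall h1), integral_const_mul,
      Measure.integral_comp_mul_left (fun x : ℝ => 𝓕 I1_g x * Complex.exp (((2 * Real.pi * (x * y) : ℝ) : ℂ) * Complex.I)),
      I1_inv]
    have h3 : |(-(2 * Real.pi)⁻¹)⁻¹| = 2 * Real.pi := by
      rw [inv_neg, inv_inv, abs_neg, abs_of_pos (by positivity)]
    rw [h3, Complex.real_smul, ← mul_assoc, ← Complex.ofReal_mul, inv_mul_cancel₀ (by positivity)]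
    unfold I1_g
    simp

theorem IsKernel.int {φ : ℝ → ℂ} (hφ : IsKernel φ) : Integrable φ ∧ Integrable (fun u : ℝ => (u : ℂ) * φ u) := by
  obtain ⟨C, hC⟩ := hφ.decay 3
  have hC0 : 0 ≤ C := le_trans (by positivity) (hC 0)
  have hr : Integrable fun u : ℝ => C * (1 + ‖u‖) ^ (-(2 : ℝ)) :=
    (integrable_one_add_norm (by rw [Module.finrank_self]; norm_num)).const_mul C
  have key : ∀ u : ℝ, (1 + |u|) * ‖φ u‖ ≤ C * (1 + ‖u‖) ^ (-(2 : ℝ)) := by
    intro u
    have h0 : 0 < 1 + |u| := by positivity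
    have h1 := hC u
    rw [Real.norm_eq_abs, Real.rpow_neg h0.le, show (2 : ℝ) = ((2 : ℕ) : ℝ) by norm_num, Real.rpow_natCast,
      ← div_eq_mul_inv, le_div_iff₀ (by positivity)]
    calc (1 + |u|) * ‖φ u‖ * (1 + |u|) ^ 2 = (1 + |u|) ^ 3 * ‖φ u‖ := by ring
      _ ≤ C := h1
  constructor
  · refine hr.mono' hφ.cont.aestronglyMeasurable (Eventually.of_forall fun u => ?_)
    refine le_trans ?_ (key u)
    have := mul_nonneg (abs_nonneg u) (norm_nonneg (φ u))
    nlinarith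
  · refine hr.mono' (Complex.continuous_ofReal.mul hφ.cont).aestronglyMeasurable (Eventually.of_forall fun u => ?_)
    refine le_trans ?_ (key u)
    rw [norm_mul, Complex.norm_real, Real.norm_eq_abs]
    have := norm_nonneg (φ u)
    nlinarith

end Pool.Agent.LibSM93
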