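import Mathlib
import Pool.Agent.LibSM93.Defs

set_option autoImplicit false

namespace Pool.Agent.LibSM93

open MeasureTheory Filter Topology Pool.Agent.LibMM99 Pool.Agent.LibTG78
open scoped ComplexConjugate

open Pool.Agent.LibMM99.T27 in
theorem avg_limit {φ : ℝ → ℂ} (hφ : Integrable φ) (hφ1 : Integrable fun u : ℝ => (u : ℂ) * φ u) (h t : ℝ) :
    Tendsto (fun N : ℕ =>
      (∑ n ∈ Finset.Icc 1 N, (∫ u : ℝ, φ u * Complex.exp (-((h * Real.log n * u : ℝ) : ℂ) * Complex.I)) *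
          (n : ℂ) ^ (-(1 / 2 + t * Complex.I) : ℂ)) -
      ∫ v in Set.Iic (Real.log N), Complex.exp ((1 / 2 - t * Complex.I) * v) *
        ∫ u : ℝ, φ u * Complex.exp (-((h * v * u : ℝ) : ℂ) * Complex.I)) atTop
      (𝓝 (∫ u : ℝ, riemannZeta (1 / 2 + ((t + h * u : ℝ) : ℂ) * Complex.I) * φ u)) := by
  change Tendsto _ _ (𝓝 (∫ u : ℝ, riemannZeta (sp t h u) * φ u))
  -- the basic estimate
  have key : ∀ N : ℕ, 1 ≤ N → ∀ u : ℝ,
      ‖riemannZeta (sp t h u) - (∑ n ∈ Finset.Icc 1 N, (n : ℂ) ^ (-(sp t h u)) -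
        (N : ℂ) ^ (1 - sp t h u) / (1 - sp t h u))‖ ≤ (N : ℝ) ^ (-(1 / 2) : ℝ) * ((1 + 2 * |t|) + 2 * |h| * |u|) := by
    intro N hN u
    have h1 := LibZM.zeta_approx (s := sp t h u) (by rw [sp_re]; norm_num) (sp_ne_one t h u) hN
    refine h1.trans ?_
    rw [sp_re]
    have h2 := norm_sp_le t h u
    have h3 : (0 : ℝ) ≤ (N : ℝ) ^ (-(1 / 2) : ℝ) := Real.rpow_nonneg (Nat.cast_nonneg _) _
    rw [mul_comm]
    refine mul_le_mul_of_nonneg_left ?_ h3
    rw [div_le_iff₀ (by norm_num)]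
    linarith
  -- growth of zeta
  have hz : Integrable (fun u : ℝ => riemannZeta (sp t h u) * φ u) := by
    refine integrable_mul_of_growth hφ hφ1 (cont_zeta t h) (a := (1 + 2 * |t|) + 3) (b := 2 * |h|) fun u => ?_
    have h1 := key 1 le_rfl u
    have h2 := norm_pole_le (N := 1) le_rfl t h u
    have h3 := norm_npow_le (n := 1) one_ne_zero t h u
    simp only [Nat.cast_one, Real.one_rpow, one_mul, Finset.Icc_self, Finset.sum_singleton] at h1 h2 h3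
    have h4 : ‖riemannZeta (sp t h u)‖ ≤ ‖riemannZeta (sp t h u) - ((1 : ℂ) ^ (-(sp t h u)) -
        (1 : ℂ) ^ (1 - sp t h u) / (1 - sp t h u))‖ + (‖(1 : ℂ) ^ (-(sp t h u))‖ +
        ‖(1 : ℂ) ^ (1 - sp t h u) / (1 - sp t h u)‖) := by
      have e : riemannZeta (sp t h u) = (riemannZeta (sp t h u) - ((1 : ℂ) ^ (-(sp t h u)) -
        (1 : ℂ) ^ (1 - sp t h u) / (1 - sp t h u))) + ((1 : ℂ) ^ (-(sp t h u)) -
        (1 : ℂ) ^ (1 - sp t h u) / (1 - sp t h u)) := by ring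
      calc ‖riemannZeta (sp t h u)‖ = ‖(riemannZeta (sp t h u) - ((1 : ℂ) ^ (-(sp t h u)) -
        (1 : ℂ) ^ (1 - sp t h u) / (1 - sp t h u))) + ((1 : ℂ) ^ (-(sp t h u)) -
        (1 : ℂ) ^ (1 - sp t h u) / (1 - sp t h u))‖ := by rw [← e]
        _ ≤ _ := (norm_add_le _ _).trans (add_le_add le_rfl (norm_sub_le _ _))
    linarith
  -- integrability of the parts
  have hs : ∀ N : ℕ, Integrable (fun u : ℝ => (∑ n ∈ Finset.Icc 1 N, (n : ℂ) ^ (-(sp t h u))) * φ u) := by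
    intro N
    refine integrable_mul_of_growth hφ hφ1 ?_ (a := N) (b := 0) fun u => ?_
    · refine continuous_finsetSum _ fun n hn => cont_npow ?_ t h
      have := (Finset.mem_Icc.mp hn).1
      omega
    · refine (norm_sum_le _ _).trans ?_
      refine (Finset.sum_le_sum (g := fun _ => (1 : ℝ)) fun n hn => norm_npow_le ?_ t h u).trans ?_
      · have := (Finset.mem_Icc.mp hn).1
        omega
      · simp
  have hp : ∀ N : ℕ, 1 ≤ N → Integrable (fun u : ℝ => (N : ℂ) ^ (1 - sp t h u) / (1 - sp t h u) * φ u) := by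
    intro N hN
    refine integrable_mul_of_growth hφ hφ1 (cont_pole hN t h) (a := 2 * N) (b := 0) fun u => ?_
    have := norm_pole_le hN t h u
    linarith
  -- the difference is small
  have hdiff : ∀ N : ℕ, 1 ≤ N →
      ‖((∑ n ∈ Finset.Icc 1 N, (∫ u : ℝ, φ u * Complex.exp (-((h * Real.log n * u : ℝ) : ℂ) * Complex.I)) *
          (n : ℂ) ^ (-(1 / 2 + t * Complex.I) : ℂ)) -
      ∫ v in Set.Iic (Real.log N), Complex.exp ((1 / 2 - t * Complex.I) * v) *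
        ∫ u : ℝ, φ u * Complex.exp (-((h * v * u : ℝ) : ℂ) * Complex.I)) -
        (∫ u : ℝ, riemannZeta (sp t h u) * φ u)‖ ≤
        (N : ℝ) ^ (-(1 / 2) : ℝ) * ∫ u : ℝ, ((1 + 2 * |t|) + 2 * |h| * |u|) * ‖φ u‖ := by
    intro N hN
    rw [norm_sub_rev]
    have e2 : (fun u : ℝ => (∑ n ∈ Finset.Icc 1 N, (n : ℂ) ^ (-(sp t h u)) -
        (N : ℂ) ^ (1 - sp t h u) / (1 - sp t h u)) * φ u) =
        fun u : ℝ => (∑ n ∈ Finset.Icc 1 N, (n : ℂ) ^ (-(sp t h u))) * φ u -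
          (N : ℂ) ^ (1 - sp t h u) / (1 - sp t h u) * φ u := by
      funext u
      ring
    have e1 : (∑ n ∈ Finset.Icc 1 N, (∫ u : ℝ, φ u * Complex.exp (-((h * Real.log n * u : ℝ) : ℂ) * Complex.I)) *
          (n : ℂ) ^ (-(1 / 2 + t * Complex.I) : ℂ)) -
      ∫ v in Set.Iic (Real.log N), Complex.exp ((1 / 2 - t * Complex.I) * v) *
        ∫ u : ℝ, φ u * Complex.exp (-((h * v * u : ℝ) : ℂ) * Complex.I) =
        ∫ u : ℝ, (∑ n ∈ Finset.Icc 1 N, (n : ℂ) ^ (-(sp t h u)) -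
        (N : ℂ) ^ (1 - sp t h u) / (1 - sp t h u)) * φ u := by
      rw [e2, integral_sub (hs N) (hp N hN), sum_part hφ hφ1, pole_swap hφ hN]
    rw [e1, ← integral_sub hz]
    · have e3 : (N : ℝ) ^ (-(1 / 2) : ℝ) * ∫ u : ℝ, ((1 + 2 * |t|) + 2 * |h| * |u|) * ‖φ u‖ =
          ∫ u : ℝ, (N : ℝ) ^ (-(1 / 2) : ℝ) * (((1 + 2 * |t|) + 2 * |h| * |u|) * ‖φ u‖) := by
        rw [integral_const_mul]
      rw [e3]
      refine norm_integral_le_of_norm_le ((integrable_bound hφ hφ1 _ _).const_mul _) (Eventually.of_forall fun u => ?_)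
      rw [← sub_mul, norm_mul, ← mul_assoc]
      exact mul_le_mul_of_nonneg_right (key N hN u) (norm_nonneg _)
    · rw [e2]
      exact (hs N).sub (hp N hN)
  -- let N tend to infinity
  have hlim : Tendsto (fun N : ℕ => (N : ℝ) ^ (-(1 / 2) : ℝ) * ∫ u : ℝ, ((1 + 2 * |t|) + 2 * |h| * |u|) * ‖φ u‖)
      atTop (𝓝 0) := by
    have h1 : Tendsto (fun N : ℕ => (N : ℝ) ^ (-(1 / 2) : ℝ)) atTop (𝓝 0) :=
      (tendsto_rpow_neg_atTop (by norm_num : (0 : ℝ) < 1 / 2)).comp tendsto_natCast_atTop_atTop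
    have := h1.mul_const (∫ u : ℝ, ((1 + 2 * |t|) + 2 * |h| * |u|) * ‖φ u‖)
    simpa using this
  rw [tendsto_iff_norm_sub_tendsto_zero]
  refine squeeze_zero' (Eventually.of_forall fun N => norm_nonneg _) ?_ hlim
  filter_upwards [eventually_ge_atTop 1] with N h1
  exact hdiff N h1

end Pool.Agent.LibSM93
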