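import Mathlib
import Pool.Agent.LibSM93.Defs

/-! Row U2.
DY h Y = SS (ww Y) ((Y+1)/h) = sum over 1 <= n <= exp((Y+1)/h) of ww Y (log n/((Y+1)/h)) n^(-1/2) ch x n, and
ww Y (log n / ((Y+1)/h)) = WW Y (h log n) (Y + 1 > 0, h > 0). WW Y y = 0 for y >= Y+1 (rho = 1), so the sum may be extended to any longer
range (`Finset.sum_subset`): this gives DY_xt (with `SS_xt`, LibMM99/T26.lean) and, with the range n <= exp((m+2)/h), DY_step:
SS is linear in the weight; vm m (log n / ((m+2)/h)) = w0(..) + e^(0.9 m)(WW (m+1) (h log n) - WW m (h log n)); the casts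
((m:ℝ)+1)+1 = m+2. DY_cont: `continuous_DS`, and DependsOn: every prime factor p of n <= e^L satisfies 1 < p <= e^L
(`dependsOn_DS_smo` with smo 1 e^L e^L = Icc 1 ⌊e^L⌋, or directly from the definition of ch).
-/

set_option autoImplicit false

namespace Pool.Agent.LibSM93

open MeasureTheory Filter Topology Pool.Agent.LibMM99 Pool.Agent.LibTG78
open scoped ComplexConjugate

private theorem U2_ww {Y h : ℝ} (hY : 0 ≤ Y) (hh : 0 < h) (t : ℝ) :
    ww Y (t / ((Y + 1) / h)) = ((WW Y (h * t) : ℝ) : ℂ) := by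
  unfold ww
  have h1 : (Y + 1) * (t / ((Y + 1) / h)) = h * t := by
    have : Y + 1 ≠ 0 := by linarith
    field_simp
  rw [h1]

private theorem U2_zero {Y y : ℝ} (hy : Y + 1 ≤ y) : WW Y y = 0 := by
  unfold WW
  rw [Real.smoothTransition.one_of_one_le (by linarith), sub_self, mul_zero]

private theorem U2_ext {h Y : ℝ} (hh : 0 < h) (hY : 0 ≤ Y) {N : ℕ} (hN : ⌊Real.exp ((Y + 1) / h)⌋₊ ≤ N) (x : Om) :
    DY h Y x = ∑ n ∈ Finset.Icc 1 N, ((WW Y (h * Real.log n) : ℝ) : ℂ) * (((Real.sqrt n)⁻¹ : ℝ) : ℂ) * ch x n := by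
  unfold DY SS DS
  have h1 : ∀ n ∈ Finset.Icc 1 ⌊Real.exp ((Y + 1) / h)⌋₊,
      ww Y (Real.log n / ((Y + 1) / h)) * (((Real.sqrt n)⁻¹ : ℝ) : ℂ) * ch x n =
      ((WW Y (h * Real.log n) : ℝ) : ℂ) * (((Real.sqrt n)⁻¹ : ℝ) : ℂ) * ch x n := by
    intro n _
    rw [U2_ww hY hh]
  rw [Finset.sum_congr rfl h1]
  refine Finset.sum_subset (Finset.Icc_subset_Icc le_rfl hN) fun n hn hn' => ?_
  rw [Finset.mem_Icc] at hn hn'
  have h2 : ⌊Real.exp ((Y + 1) / h)⌋₊ < n := by
    by_contra hc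
    exact hn' ⟨hn.1, not_lt.1 hc⟩
  have h3 : Real.exp ((Y + 1) / h) < n := (Nat.floor_lt (Real.exp_pos _).le).1 h2
  have hn0 : (0 : ℝ) < n := by exact_mod_cast hn.1
  have h4 : (Y + 1) / h ≤ Real.log n := by
    rw [Real.le_log_iff_exp_le hn0]
    exact h3.le
  have h5 : Y + 1 ≤ h * Real.log n := by
    rw [div_le_iff₀ hh] at h4
    linarith
  rw [U2_zero h5, Complex.ofReal_zero, zero_mul, zero_mul]

theorem DY_step (m : ℕ) {h : ℝ} (hh : 0 < h) (x : Om) :
    ((Real.exp (9 / 10 * m) : ℝ) : ℂ) * (DY h (m + 1) x - DY h m x) =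
      SS (vm m) (((m : ℝ) + 2) / h) x - SS w0 (((m : ℝ) + 2) / h) x := by
  have hm : (0 : ℝ) ≤ m := Nat.cast_nonneg m
  have e2 : ((m : ℝ) + 1 + 1) / h = ((m : ℝ) + 2) / h := by ring
  rw [U2_ext hh (by linarith : (0 : ℝ) ≤ (m : ℝ) + 1) (N := ⌊Real.exp (((m : ℝ) + 2) / h)⌋₊) (by rw [e2]) x,
    U2_ext hh hm (N := ⌊Real.exp (((m : ℝ) + 2) / h)⌋₊) (by
      apply Nat.floor_le_floor
      apply Real.exp_le_exp.2
      gcongr
      norm_num) x]
  unfold SS DS
  rw [← Finset.sum_sub_distrib, ← Finset.sum_sub_distrib, Finset.mul_sum]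
  apply Finset.sum_congr rfl
  intro n _
  unfold vm
  have h1 : ((m : ℝ) + 2) * (Real.log n / (((m : ℝ) + 2) / h)) = h * Real.log n := by
    have : (m : ℝ) + 2 ≠ 0 := by linarith
    field_simp
  simp only [h1]
  push_cast
  ring

theorem DY_cont (h Y : ℝ) : Continuous (DY h Y) ∧ DependsOn (DY h Y) (coo 1 (Real.exp ((Y + 1) / h))) := by
  constructor
  · show Continuous (fun x => DY h Y x)
    unfold DY SS
    exact continuous_DS _ _
  · intro x y hxy
    unfold DY SS DS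
    refine Finset.sum_congr rfl fun n hn => ?_
    rw [Finset.mem_Icc] at hn
    have h1 : (n : ℝ) ≤ Real.exp ((Y + 1) / h) :=
      le_trans (by exact_mod_cast hn.2) (Nat.floor_le (Real.exp_pos _).le)
    have := dependsOn_ch n (x := x) (y := y) (fun p hp => hxy p (by
      have hp' : p ∈ n.primeFactors := by exact_mod_cast hp
      have hp1 := Nat.prime_of_mem_primeFactors hp'
      have hp2 : p ≤ n := Nat.le_of_mem_primeFactors hp'
      constructor
      · exact_mod_cast hp1.one_lt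
      · exact le_trans (by exact_mod_cast hp2) h1))
    simp only at this
    rw [this]

theorem DY_xt {h Y : ℝ} (hh : 0 < h) (hY : 0 ≤ Y) {N : ℕ} (hN : Real.exp ((Y + 1) / h) ≤ N) (t : ℝ) :
    DY h Y (xt t) = ∑ n ∈ Finset.Icc 1 N, ((WW Y (h * Real.log n) : ℝ) : ℂ) *
      (n : ℂ) ^ (-(1 / 2 + t * Complex.I) : ℂ) := by
  have hN1 : (1 : ℝ) < N := lt_of_lt_of_le (Real.one_lt_exp_iff.2 (by positivity)) hN
  have hN0 : (0 : ℝ) < N := by linarith
  have hL : 0 < Real.log N := Real.log_pos hN1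
  have hfl : ⌊Real.exp ((Y + 1) / h)⌋₊ ≤ N := by
    have := Nat.floor_le_floor hN
    rwa [Nat.floor_natCast] at this
  rw [U2_ext hh hY hfl]
  have h1 := SS_xt (fun u => ((WW Y (h * (Real.log N * u)) : ℝ) : ℂ)) (Real.log N) t
  unfold SS DS at h1
  rw [Real.exp_log hN0, Nat.floor_natCast] at h1
  have h2 : ∀ n : ℕ, Real.log N * (Real.log n / Real.log N) = Real.log n := by
    intro n
    field_simp
  simp only [h2] at h1
  exact h1

end Pool.Agent.LibSM93
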