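import Mathlib
import Pool.Agent.LibSM93.Defs
import Pool.Agent.LibSM93.I1
import Pool.Agent.LibSM93.I2
import Pool.Agent.LibSM93.U2

/-! Row I3.
Apply avg_limit to the function psi(u) = e^-Y e^(iYu) phi(u) (integrable, also u psi(u)); its transform at y is
e^-Y * (phi^)(y - Y) = e^-Y e^-(y-Y) rho(y-Y) = e^-y rho(y-Y) (IsKernel.ft). So eta = lim_N [ S_N - I_N ],
S_N = sum_{n<=N} e^(-h log n) rho(h log n - Y) n^(-(1/2+it)), I_N = int_{Iic (log N)} e^((1/2-it)v) e^(-hv) rho(hv - Y) dv (for v < 0 the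
factor rho(hv-Y) is 0 since Y >= 0, h > 0). For N >= exp((Y+1)/h): S_N = sum_{n<=N} n^(-s') - DY h Y (xt t), s' = 1/2+h+it (DY_xt, WW), and
I_N = int_0^{log N} e^((1-s')v) dv - int_0^{(Y+1)/h} e^((1-s')v) (1 - rho(hv-Y)) dv. int_0^{log N} e^((1-s')v) dv = (N^(1-s') - 1)/(1-s')
(1-s' = 1/2-h-it, nonzero as h <= 1/4). `LibZM.zeta_approx` at s' (re > 0, s' ≠ 1): sum_{n<=N} n^(-s') - N^(1-s')/(1-s') -> zeta(s').
So eta = zeta(s') - DY + 1/(1-s') + int_0^{(Y+1)/h} ..., which is the claim (PO = zeta(s') - DY - eta; uniqueness of limits).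
-/

set_option autoImplicit false

namespace Pool.Agent.LibSM93

open MeasureTheory Filter Topology Pool.Agent.LibMM99 Pool.Agent.LibTG78
open scoped ComplexConjugate

namespace I3

theorem psi_ft {φ : ℝ → ℂ} (hφ : IsKernel φ) (Y y : ℝ) :
    ∫ u : ℝ, (((Real.exp (-Y) : ℝ) : ℂ) * Complex.exp (((Y * u : ℝ) : ℂ) * Complex.I) * φ u) *
      Complex.exp (-((y * u : ℝ) : ℂ) * Complex.I) =
    ((Real.exp (-y) * Real.smoothTransition (y - Y) : ℝ) : ℂ) := by
  have e : ∀ u : ℝ, (((Real.exp (-Y) : ℝ) : ℂ) * Complex.exp (((Y * u : ℝ) : ℂ) * Complex.I) * φ u) *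
      Complex.exp (-((y * u : ℝ) : ℂ) * Complex.I) =
      ((Real.exp (-Y) : ℝ) : ℂ) * (φ u * Complex.exp (-(((y - Y) * u : ℝ) : ℂ) * Complex.I)) := by
    intro u
    have : Complex.exp (-(((y - Y) * u : ℝ) : ℂ) * Complex.I) =
        Complex.exp (((Y * u : ℝ) : ℂ) * Complex.I) * Complex.exp (-((y * u : ℝ) : ℂ) * Complex.I) := by
      rw [← Complex.exp_add]; congr 1; push_cast; ring
    rw [this]; ring
  simp_rw [e]
  rw [integral_const_mul, hφ.ft, ← Complex.ofReal_mul, ← mul_assoc, ← Real.exp_add]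
  congr 3; ring

theorem psi_int {φ : ℝ → ℂ} (hφ : IsKernel φ) (Y : ℝ) :
    Integrable (fun u : ℝ => ((Real.exp (-Y) : ℝ) : ℂ) * Complex.exp (((Y * u : ℝ) : ℂ) * Complex.I) * φ u) := by
  have hc := hφ.cont
  refine (hφ.int.1.norm.const_mul (Real.exp (-Y))).mono' (Continuous.aestronglyMeasurable (by fun_prop)) ?_
  filter_upwards with u
  rw [norm_mul, norm_mul, Complex.norm_exp_ofReal_mul_I, Complex.norm_real,
    Real.norm_of_nonneg (Real.exp_pos _).le, mul_one]

theorem psi_int1 {φ : ℝ → ℂ} (hφ : IsKernel φ) (Y : ℝ) :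
    Integrable (fun u : ℝ => (u : ℂ) *
      (((Real.exp (-Y) : ℝ) : ℂ) * Complex.exp (((Y * u : ℝ) : ℂ) * Complex.I) * φ u)) := by
  have hc := hφ.cont
  refine (hφ.int.2.norm.const_mul (Real.exp (-Y))).mono' (Continuous.aestronglyMeasurable (by fun_prop)) ?_
  filter_upwards with u
  rw [norm_mul, norm_mul, norm_mul, norm_mul, Complex.norm_exp_ofReal_mul_I, Complex.norm_real (Real.exp (-Y)),
    Real.norm_of_nonneg (Real.exp_pos _).le, mul_one]
  apply le_of_eq; ring

/-- the exponent `1 - s'` -/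
noncomputable def av (h t : ℝ) : ℂ := ((1 / 2 - h : ℝ) : ℂ) - (t : ℂ) * Complex.I

theorem av_re (h t : ℝ) : (av h t).re = 1 / 2 - h := by simp [av]

theorem av_ne {h : ℝ} (hh4 : h ≤ 1 / 4) (t : ℝ) : av h t ≠ 0 := by
  intro e
  have := av_re h t
  rw [e] at this
  simp at this
  linarith

/-- the sum -/
theorem sum_eq {h Y : ℝ} (hh : 0 < h) (hY : 0 ≤ Y) {N : ℕ} (hN : Real.exp ((Y + 1) / h) ≤ N) (t : ℝ) :
    (∑ n ∈ Finset.Icc 1 N, ((Real.exp (-(h * Real.log n)) * Real.smoothTransition (h * Real.log n - Y) : ℝ) : ℂ) *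
          (n : ℂ) ^ (-(1 / 2 + t * Complex.I) : ℂ)) =
    (∑ n ∈ Finset.Icc 1 N, (n : ℂ) ^ (-(((1 / 2 + h : ℝ) : ℂ) + (t : ℂ) * Complex.I))) - DY h Y (xt t) := by
  rw [DY_xt hh hY hN, ← Finset.sum_sub_distrib]
  refine Finset.sum_congr rfl fun n hn => ?_
  have hn1 : 1 ≤ n := (Finset.mem_Icc.1 hn).1
  have hn0 : (n : ℂ) ≠ 0 := by exact_mod_cast (by omega : n ≠ 0)
  have hnr : (0 : ℝ) < n := by exact_mod_cast hn1
  have e1 : (n : ℂ) ^ (-(((1 / 2 + h : ℝ) : ℂ) + (t : ℂ) * Complex.I)) =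
      ((Real.exp (-(h * Real.log n)) : ℝ) : ℂ) * (n : ℂ) ^ (-(1 / 2 + t * Complex.I) : ℂ) := by
    have e2 : ((Real.exp (-(h * Real.log n)) : ℝ) : ℂ) = (n : ℂ) ^ (-(h : ℂ)) := by
      rw [Complex.cpow_def_of_ne_zero hn0, Complex.ofReal_exp]
      congr 1
      rw [← Complex.ofReal_natCast, ← Complex.ofReal_log hnr.le]
      push_cast
      ring
    rw [e2, ← Complex.cpow_add _ _ hn0]
    congr 1
    push_cast
    ring
  rw [e1, WW]
  push_cast
  ring

/-- the pole integral -/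
theorem int_eq {h Y : ℝ} (hh : 0 < h) (hh4 : h ≤ 1 / 4) (hY : 0 ≤ Y) {N : ℕ} (hN : Real.exp ((Y + 1) / h) ≤ N) (t : ℝ) :
    (∫ v in Set.Iic (Real.log N), Complex.exp ((1 / 2 - t * Complex.I) * v) *
        ((Real.exp (-(h * v)) * Real.smoothTransition (h * v - Y) : ℝ) : ℂ)) =
    (N : ℂ) ^ (av h t) / (av h t) - 1 / av h t -
      ∫ v in (0 : ℝ)..((Y + 1) / h), Complex.exp (av h t * v) *
        ((1 - Real.smoothTransition (h * v - Y) : ℝ) : ℂ) := by
  have hYh : 0 < (Y + 1) / h := by positivity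
  have hN0 : (0 : ℝ) < N := lt_of_lt_of_le (Real.exp_pos _) hN
  have hlN : (Y + 1) / h ≤ Real.log N := by
    rw [Real.le_log_iff_exp_le hN0]; exact hN
  have hl0 : 0 ≤ Real.log N := hYh.le.trans hlN
  have hst : Continuous (fun v : ℝ => Real.smoothTransition (h * v - Y)) :=
    Real.smoothTransition.continuous.comp (by fun_prop)
  -- integrand
  have e0 : ∀ v : ℝ, Complex.exp ((1 / 2 - t * Complex.I) * v) *
        ((Real.exp (-(h * v)) * Real.smoothTransition (h * v - Y) : ℝ) : ℂ) =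
      Complex.exp (av h t * v) * ((Real.smoothTransition (h * v - Y) : ℝ) : ℂ) := by
    intro v
    have : Complex.exp (av h t * v) = Complex.exp ((1 / 2 - t * Complex.I) * v) * ((Real.exp (-(h * v)) : ℝ) : ℂ) := by
      rw [Complex.ofReal_exp, ← Complex.exp_add]
      congr 1
      simp only [av]
      push_cast
      ring
    rw [this]; push_cast; ring
  simp_rw [e0]
  -- restrict to [0, log N]
  have e1 : (∫ v in Set.Iic (Real.log N), Complex.exp (av h t * v) * ((Real.smoothTransition (h * v - Y) : ℝ) : ℂ)) =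
      ∫ v in (0:ℝ)..(Real.log N), Complex.exp (av h t * v) * ((Real.smoothTransition (h * v - Y) : ℝ) : ℂ) := by
    rw [intervalIntegral.integral_of_le hl0]
    refine setIntegral_eq_of_subset_of_forall_sdiff_eq_zero measurableSet_Iic (fun x hx => hx.2) ?_
    intro v hv
    have hv0 : v ≤ 0 := by
      by_contra hc
      exact hv.2 ⟨not_le.1 hc, hv.1⟩
    rw [Real.smoothTransition.zero_of_nonpos (by nlinarith)]
    simp
  rw [e1]
  have c1 : Continuous (fun v : ℝ => Complex.exp (av h t * v)) := by fun_prop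
  have c2 : Continuous (fun v : ℝ => Complex.exp (av h t * v) * ((1 - Real.smoothTransition (h * v - Y) : ℝ) : ℂ)) := by
    refine c1.mul (Complex.continuous_ofReal.comp (continuous_const.sub hst))
  have e2 : (∫ v in (0:ℝ)..(Real.log N), Complex.exp (av h t * v) * ((Real.smoothTransition (h * v - Y) : ℝ) : ℂ)) =
      (∫ v in (0:ℝ)..(Real.log N), Complex.exp (av h t * v)) -
      ∫ v in (0:ℝ)..(Real.log N), Complex.exp (av h t * v) * ((1 - Real.smoothTransition (h * v - Y) : ℝ) : ℂ) := by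
    rw [← intervalIntegral.integral_sub (c1.intervalIntegrable _ _) (c2.intervalIntegrable _ _)]
    refine intervalIntegral.integral_congr fun v _ => ?_
    push_cast
    ring
  have e3 : (∫ v in (0:ℝ)..(Real.log N), Complex.exp (av h t * v) * ((1 - Real.smoothTransition (h * v - Y) : ℝ) : ℂ)) =
      ∫ v in (0:ℝ)..((Y + 1) / h), Complex.exp (av h t * v) * ((1 - Real.smoothTransition (h * v - Y) : ℝ) : ℂ) := by
    rw [← intervalIntegral.integral_add_adjacent_intervals (c2.intervalIntegrable 0 ((Y + 1) / h))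
      (c2.intervalIntegrable ((Y + 1) / h) (Real.log N))]
    have : (∫ v in ((Y + 1) / h)..(Real.log N), Complex.exp (av h t * v) * ((1 - Real.smoothTransition (h * v - Y) : ℝ) : ℂ)) = 0 := by
      rw [intervalIntegral.integral_congr (g := fun _ => (0:ℂ))]
      · simp
      · intro v hv
        rw [Set.uIcc_of_le hlN] at hv
        have : 1 ≤ h * v - Y := by
          have := hv.1
          rw [div_le_iff₀ hh] at this
          linarith [mul_comm v h]
        simp only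
        rw [Real.smoothTransition.one_of_one_le this]
        simp
    rw [this, add_zero]
  have e4 : (∫ v in (0:ℝ)..(Real.log N), Complex.exp (av h t * v)) = (N : ℂ) ^ (av h t) / (av h t) - 1 / av h t := by
    rw [integral_exp_mul_complex (av_ne hh4 t)]
    have hNc : (N : ℂ) ≠ 0 := by exact_mod_cast hN0.ne'
    rw [Complex.cpow_def_of_ne_zero hNc, ← Complex.ofReal_natCast, ← Complex.ofReal_log hN0.le]
    rw [mul_comm (((Real.log N : ℝ)) : ℂ) (av h t)]
    simp
    ring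
  rw [e2, e3, e4]

end I3

theorem PO_formula {φ : ℝ → ℂ} (hφ : IsKernel φ) {h Y : ℝ} (hh : 0 < h) (hh4 : h ≤ 1 / 4) (hY : 0 ≤ Y) (t : ℝ) :
    PO φ h Y t = -(1 / (((1 / 2 - h : ℝ) : ℂ) - (t : ℂ) * Complex.I)) -
      ∫ v in (0 : ℝ)..((Y + 1) / h), Complex.exp ((((1 / 2 - h : ℝ) : ℂ) - (t : ℂ) * Complex.I) * v) *
        ((1 - Real.smoothTransition (h * v - Y) : ℝ) : ℂ) := by
  have hlim := avg_limit (I3.psi_int hφ Y) (I3.psi_int1 hφ Y) h t
  have hlim2 : Tendsto (fun N : ℕ =>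
      (∑ n ∈ Finset.Icc 1 N, ((Real.exp (-(h * Real.log n)) * Real.smoothTransition (h * Real.log n - Y) : ℝ) : ℂ) *
          (n : ℂ) ^ (-(1 / 2 + t * Complex.I) : ℂ)) -
      ∫ v in Set.Iic (Real.log N), Complex.exp ((1 / 2 - t * Complex.I) * v) *
        ((Real.exp (-(h * v)) * Real.smoothTransition (h * v - Y) : ℝ) : ℂ)) atTop (𝓝 (eta φ h Y t)) := by
    refine hlim.congr fun N => ?_
    congr 1
    · refine Finset.sum_congr rfl fun n _ => ?_
      rw [I3.psi_ft hφ Y (h * Real.log n)]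
    · refine setIntegral_congr_fun measurableSet_Iic fun v _ => ?_
      rw [I3.psi_ft hφ Y (h * v)]
  set s' : ℂ := ((1 / 2 + h : ℝ) : ℂ) + (t : ℂ) * Complex.I with hs'
  have hsre : s'.re = 1 / 2 + h := by simp [hs']
  have h1s : 1 - s' = I3.av h t := by
    simp only [hs', I3.av]; push_cast; ring
  have hs1 : s' ≠ 1 := by
    intro e
    apply I3.av_ne hh4 t
    rw [← h1s, e, sub_self]
  have hz : Tendsto (fun N : ℕ => (∑ n ∈ Finset.Icc 1 N, (n : ℂ) ^ (-s')) - (N : ℂ) ^ (1 - s') / (1 - s')) atTop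
      (𝓝 (riemannZeta s')) := by
    rw [tendsto_iff_norm_sub_tendsto_zero]
    have hb : Tendsto (fun N : ℕ => ‖s'‖ / s'.re * (N:ℝ) ^ (-s'.re)) atTop (𝓝 0) := by
      have := (tendsto_rpow_neg_atTop (y := s'.re) (by rw [hsre]; positivity)).comp tendsto_natCast_atTop_atTop
      simpa using this.const_mul (‖s'‖ / s'.re)
    refine squeeze_zero' (Eventually.of_forall fun N => norm_nonneg _) ?_ hb
    filter_upwards [eventually_ge_atTop 1] with N hN
    rw [norm_sub_rev]
    exact LibZM.zeta_approx (by rw [hsre]; positivity) hs1 hN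
  have hlim3 : Tendsto (fun N : ℕ =>
      (∑ n ∈ Finset.Icc 1 N, ((Real.exp (-(h * Real.log n)) * Real.smoothTransition (h * Real.log n - Y) : ℝ) : ℂ) *
          (n : ℂ) ^ (-(1 / 2 + t * Complex.I) : ℂ)) -
      ∫ v in Set.Iic (Real.log N), Complex.exp ((1 / 2 - t * Complex.I) * v) *
        ((Real.exp (-(h * v)) * Real.smoothTransition (h * v - Y) : ℝ) : ℂ)) atTop
      (𝓝 (riemannZeta s' - DY h Y (xt t) + 1 / I3.av h t + ∫ v in (0 : ℝ)..((Y + 1) / h), Complex.exp (I3.av h t * v) *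
        ((1 - Real.smoothTransition (h * v - Y) : ℝ) : ℂ))) := by
    have hz2 := ((hz.sub_const (DY h Y (xt t))).add_const (1 / I3.av h t)).add_const
      (∫ v in (0 : ℝ)..((Y + 1) / h), Complex.exp (I3.av h t * v) *
        ((1 - Real.smoothTransition (h * v - Y) : ℝ) : ℂ))
    refine hz2.congr' ?_
    filter_upwards [tendsto_natCast_atTop_atTop.eventually_ge_atTop (Real.exp ((Y + 1) / h))] with N hN
    rw [I3.sum_eq hh hY hN, I3.int_eq hh hh4 hY hN, h1s]
    ring
  have he : eta φ h Y t = riemannZeta s' - DY h Y (xt t) + 1 / I3.av h t +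
      ∫ v in (0 : ℝ)..((Y + 1) / h), Complex.exp (I3.av h t * v) *
        ((1 - Real.smoothTransition (h * v - Y) : ℝ) : ℂ) := tendsto_nhds_unique hlim2 hlim3
  simp only [PO]
  rw [← hs', he]
  simp only [I3.av]
  ring

end Pool.Agent.LibSM93
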