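import Mathlib
import Pool.Agent.LibSM93.Defs
import Pool.Agent.LibSM93.I3
import Pool.Agent.LibSM93.U2

/-! Row I4.
a = 1/2-h-it, re a in [1/4, 1/2]. Integration by parts in PO_formula: int_0^M e^(av) (1 - rho(hv-Y)) dv, M = (Y+1)/h:
= [e^(av)/a (1-rho)]_0^M + (1/a) int_0^M e^(av) h rho'(hv-Y) dv = -1/a + (1/a) int ... (rho(-Y) = 0, rho(1) = 1). So
PO = -(1/a) int_0^M e^(av) h rho'(hv-Y) dv and |PO| <= (1/|a|) e^(M/2) int_0^M h rho'(hv-Y) dv = e^(M/2)/|a| (rho' >= 0: smoothTransition is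
monotone; `intervalIntegral.integral_deriv_eq_sub`). M/2 = (Y+1)/(2h). PO_cont: PO_formula is continuous in t
(`intervalIntegral.continuous_parametric_intervalIntegral_of_continuous'`, a ≠ 0), eta = zeta - DY - PO, zeta(1/2+h+it) is
continuous (≠ 1 since h <= 1/4), DY∘xt continuous (DY_cont, continuous_xt).
-/

set_option autoImplicit false

namespace Pool.Agent.LibSM93

open MeasureTheory Filter Topology Pool.Agent.LibMM99 Pool.Agent.LibTG78
open scoped ComplexConjugate

private theorem i4_contDiff : ContDiff ℝ 1 Real.smoothTransition := Real.smoothTransition.contDiff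

private theorem i4_hasDeriv (x : ℝ) : HasDerivAt Real.smoothTransition (deriv Real.smoothTransition x) x :=
  ((i4_contDiff.differentiable (by norm_num)) x).hasDerivAt

private theorem i4_derivCont : Continuous (deriv Real.smoothTransition) :=
  i4_contDiff.continuous_deriv (by norm_num)

private theorem i4_derivNonneg (x : ℝ) : 0 ≤ deriv Real.smoothTransition x :=
  Real.smoothTransition.monotone.deriv_nonneg

private theorem i4_re {h : ℝ} (t : ℝ) : (((1 / 2 - h : ℝ) : ℂ) - (t : ℂ) * Complex.I).re = 1 / 2 - h := by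
  simp

private theorem i4_ne {h : ℝ} (hh4 : h ≤ 1 / 4) (t : ℝ) : ((1 / 2 - h : ℝ) : ℂ) - (t : ℂ) * Complex.I ≠ 0 := by
  intro h0
  have h1 := i4_re (h := h) t
  rw [h0] at h1
  simp only [Complex.zero_re] at h1
  linarith

private theorem i4_inner (h Y v : ℝ) : HasDerivAt (fun v : ℝ => h * v - Y) h v := by
  have h1 := ((hasDerivAt_id v).const_mul h).sub_const Y
  simpa using h1

private theorem i4_comp (h Y v : ℝ) :
    HasDerivAt (fun v : ℝ => Real.smoothTransition (h * v - Y)) (deriv Real.smoothTransition (h * v - Y) * h) v :=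
  HasDerivAt.comp (h₂ := Real.smoothTransition) (h := fun v : ℝ => h * v - Y) v (i4_hasDeriv (h * v - Y))
    (i4_inner h Y v)

private theorem i4_parts {φ : ℝ → ℂ} (hφ : IsKernel φ) {h Y : ℝ} (hh : 0 < h) (hh4 : h ≤ 1 / 4) (hY : 0 ≤ Y)
    (t : ℝ) : PO φ h Y t = ∫ v in (0 : ℝ)..((Y + 1) / h),
      ((-(deriv Real.smoothTransition (h * v - Y) * h) : ℝ) : ℂ) *
        (Complex.exp ((((1 / 2 - h : ℝ) : ℂ) - (t : ℂ) * Complex.I) * v) /
          (((1 / 2 - h : ℝ) : ℂ) - (t : ℂ) * Complex.I)) := by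
  rw [PO_formula hφ hh hh4 hY t]
  obtain ⟨a, ha⟩ : ∃ a : ℂ, a = ((1 / 2 - h : ℝ) : ℂ) - (t : ℂ) * Complex.I := ⟨_, rfl⟩
  have ha0 : a ≠ 0 := by rw [ha]; exact i4_ne hh4 t
  rw [← ha]
  have hE : ∀ v : ℝ, HasDerivAt (fun v : ℝ => Complex.exp (a * v) / a) (Complex.exp (a * v)) v := by
    intro v
    have h1 : HasDerivAt (fun v : ℝ => a * (v : ℂ)) (a * 1) v := (Complex.ofRealCLM.hasDerivAt (x := v)).const_mul a
    have h2 := (h1.cexp).div_const a
    have h3 : Complex.exp (a * v) * (a * 1) / a = Complex.exp (a * v) := by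
      field_simp
    rw [h3] at h2
    exact h2
  have hg : ∀ v : ℝ, HasDerivAt (fun v : ℝ => ((1 - Real.smoothTransition (h * v - Y) : ℝ) : ℂ))
      ((-(deriv Real.smoothTransition (h * v - Y) * h) : ℝ) : ℂ) v := by
    intro v
    have h1 := ((i4_comp h Y v).const_sub 1)
    exact h1.ofReal_comp
  have hg' : Continuous fun v : ℝ => ((-(deriv Real.smoothTransition (h * v - Y) * h) : ℝ) : ℂ) := by
    refine Complex.continuous_ofReal.comp ?_
    refine ((i4_derivCont.comp ?_).mul continuous_const).neg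
    fun_prop
  have hE' : Continuous fun v : ℝ => Complex.exp (a * v) := by fun_prop
  have key := intervalIntegral.integral_mul_deriv_eq_deriv_mul (a := 0) (b := (Y + 1) / h)
    (u := fun v : ℝ => ((1 - Real.smoothTransition (h * v - Y) : ℝ) : ℂ))
    (v := fun v : ℝ => Complex.exp (a * v) / a)
    (u' := fun v : ℝ => ((-(deriv Real.smoothTransition (h * v - Y) * h) : ℝ) : ℂ))
    (v' := fun v : ℝ => Complex.exp (a * v))
    (fun v _ => hg v) (fun v _ => hE v) (hg'.intervalIntegrable _ _) (hE'.intervalIntegrable _ _)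
  have e1 : h * ((Y + 1) / h) - Y = 1 := by field_simp; ring
  have e2 : Real.smoothTransition (h * 0 - Y) = 0 := Real.smoothTransition.zero_of_nonpos (by linarith)
  have e3 : Real.smoothTransition (h * ((Y + 1) / h) - Y) = 1 := by
    rw [e1]; exact Real.smoothTransition.one
  have key2 : (∫ v in (0 : ℝ)..((Y + 1) / h), Complex.exp (a * v) *
        ((1 - Real.smoothTransition (h * v - Y) : ℝ) : ℂ)) =
      -(1 / a) - ∫ v in (0 : ℝ)..((Y + 1) / h),
        ((-(deriv Real.smoothTransition (h * v - Y) * h) : ℝ) : ℂ) * (Complex.exp (a * v) / a) := by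
    have h1 : (∫ v in (0 : ℝ)..((Y + 1) / h), Complex.exp (a * v) *
        ((1 - Real.smoothTransition (h * v - Y) : ℝ) : ℂ)) =
        ∫ v in (0 : ℝ)..((Y + 1) / h), ((1 - Real.smoothTransition (h * v - Y) : ℝ) : ℂ) * Complex.exp (a * v) := by
      refine intervalIntegral.integral_congr ?_
      intro v _
      exact mul_comm _ _
    rw [h1, key, e2, e3]
    simp
  rw [key2]
  ring

theorem PO_bound {φ : ℝ → ℂ} (hφ : IsKernel φ) {h Y : ℝ} (hh : 0 < h) (hh4 : h ≤ 1 / 4) (hY : 0 ≤ Y) (t : ℝ) :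
    ‖PO φ h Y t‖ ≤ Real.exp ((Y + 1) / (2 * h)) / ‖((1 / 2 - h : ℝ) : ℂ) - (t : ℂ) * Complex.I‖ := by
  rw [i4_parts hφ hh hh4 hY t]
  have hre := i4_re (h := h) t
  have hM : 0 ≤ (Y + 1) / h := by positivity
  have ha0 := i4_ne hh4 t
  obtain ⟨a, ha⟩ : ∃ a : ℂ, a = ((1 / 2 - h : ℝ) : ℂ) - (t : ℂ) * Complex.I := ⟨_, rfl⟩
  rw [← ha] at hre ha0 ⊢
  have hcont : Continuous fun v : ℝ => deriv Real.smoothTransition (h * v - Y) * h := by
    refine (i4_derivCont.comp ?_).mul continuous_const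
    fun_prop
  have hint : (∫ v in (0 : ℝ)..((Y + 1) / h), deriv Real.smoothTransition (h * v - Y) * h) = 1 := by
    rw [intervalIntegral.integral_eq_sub_of_hasDerivAt (fun v _ => i4_comp h Y v) (hcont.intervalIntegrable _ _)]
    have e1 : h * ((Y + 1) / h) - Y = 1 := by field_simp; ring
    rw [e1, Real.smoothTransition.one, Real.smoothTransition.zero_of_nonpos (by linarith)]
    norm_num
  have hb := intervalIntegral.norm_integral_le_of_norm_le (μ := volume) hM
    (f := fun v : ℝ => ((-(deriv Real.smoothTransition (h * v - Y) * h) : ℝ) : ℂ) * (Complex.exp (a * v) / a))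
    (g := fun v : ℝ => deriv Real.smoothTransition (h * v - Y) * h *
      (Real.exp ((Y + 1) / (2 * h)) / ‖a‖)) ?_ ?_
  · refine hb.trans (le_of_eq ?_)
    rw [intervalIntegral.integral_mul_const, hint, one_mul]
  · refine Eventually.of_forall fun v hv => ?_
    rw [norm_mul, norm_div, Complex.norm_real, norm_neg, Real.norm_eq_abs,
      abs_of_nonneg (mul_nonneg (i4_derivNonneg _) hh.le)]
    refine mul_le_mul_of_nonneg_left ?_ (mul_nonneg (i4_derivNonneg _) hh.le)
    refine div_le_div_of_nonneg_right ?_ (norm_nonneg _)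
    rw [Complex.norm_exp]
    refine Real.exp_le_exp.mpr ?_
    have h1 : (a * (v : ℂ)).re = a.re * v := by simp
    rw [h1, hre]
    have hv0 : 0 < v := hv.1
    have hv1 : v ≤ (Y + 1) / h := hv.2
    have h2 : (Y + 1) / (2 * h) = (Y + 1) / h / 2 := by
      field_simp
    rw [h2]
    nlinarith
  · exact (hcont.mul continuous_const).intervalIntegrable _ _

theorem PO_cont {φ : ℝ → ℂ} (hφ : IsKernel φ) {h Y : ℝ} (hh : 0 < h) (hh4 : h ≤ 1 / 4) (hY : 0 ≤ Y) :
    Continuous (PO φ h Y) ∧ Continuous (eta φ h Y) := by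
  have hPO : Continuous (PO φ h Y) := by
    have h0 : PO φ h Y = fun t : ℝ => -(1 / (((1 / 2 - h : ℝ) : ℂ) - (t : ℂ) * Complex.I)) -
      ∫ v in (0 : ℝ)..((Y + 1) / h), Complex.exp ((((1 / 2 - h : ℝ) : ℂ) - (t : ℂ) * Complex.I) * v) *
        ((1 - Real.smoothTransition (h * v - Y) : ℝ) : ℂ) := by
      funext t
      exact PO_formula hφ hh hh4 hY t
    rw [h0]
    refine Continuous.sub ?_ ?_
    · refine (Continuous.div continuous_const ?_ (fun t => i4_ne hh4 t)).neg
      fun_prop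
    · refine intervalIntegral.continuous_parametric_intervalIntegral_of_continuous' ?_ 0 ((Y + 1) / h)
      have h1 : Continuous fun q : ℝ × ℝ => ((1 - Real.smoothTransition (h * q.2 - Y) : ℝ) : ℂ) := by
        refine Complex.continuous_ofReal.comp ?_
        refine continuous_const.sub (Real.smoothTransition.continuous.comp ?_)
        fun_prop
      have h2 : Continuous fun q : ℝ × ℝ =>
          Complex.exp ((((1 / 2 - h : ℝ) : ℂ) - (q.1 : ℂ) * Complex.I) * q.2) := by
        fun_prop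
      exact h2.mul h1
  refine ⟨hPO, ?_⟩
  have h1 : eta φ h Y = fun t : ℝ =>
      riemannZeta (((1 / 2 + h : ℝ) : ℂ) + (t : ℂ) * Complex.I) - DY h Y (xt t) - PO φ h Y t := by
    funext t
    unfold PO
    ring
  rw [h1]
  refine Continuous.sub (Continuous.sub ?_ ?_) hPO
  · refine continuous_iff_continuousAt.mpr fun t => ?_
    have hne : ((1 / 2 + h : ℝ) : ℂ) + (t : ℂ) * Complex.I ≠ 1 := by
      intro h0
      have h2 := congrArg Complex.re h0
      simp at h2
      linarith
    have h3 : ContinuousAt riemannZeta (((1 / 2 + h : ℝ) : ℂ) + (t : ℂ) * Complex.I) :=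
      (differentiableAt_riemannZeta hne).continuousAt
    have h4 : ContinuousAt (fun t : ℝ => ((1 / 2 + h : ℝ) : ℂ) + (t : ℂ) * Complex.I) t := by
      fun_prop
    exact ContinuousAt.comp (f := fun t : ℝ => ((1 / 2 + h : ℝ) : ℂ) + (t : ℂ) * Complex.I) (g := riemannZeta) h3 h4
  · exact (DY_cont h Y).1.comp continuous_xt

end Pool.Agent.LibSM93
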