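import Mathlib
import Pool.Agent.LibSM93.Defs
import Pool.Agent.LibST15.Tail

/-! Block T, from `LibST15`. -/

set_option autoImplicit false

namespace Pool.Agent.LibSM93

open MeasureTheory Filter Topology Pool.Agent.LibMM99 Pool.Agent.LibTG78

/-- block T (helper15, helper47 and the ST47 board) -/
theorem tail_bound {β : ℝ} (hβ : 0 < β) (hβ2 : β ≤ 2) {φ : ℝ → ℂ} (hc : Continuous φ)
    (hφ : ∀ N : ℕ, ∃ C : ℝ, ∀ u : ℝ, (1 + |u|) ^ N * ‖φ u‖ ≤ C) :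
    ∃ C A : ℝ, 0 < C ∧ 1 ≤ A ∧ ∀ T h : ℝ, A ≤ T → 0 < h → h ≤ 1 →
    (1 / T) * (∫ t in (0 : ℝ)..T, ‖riemannZeta (1 / 2 + t * Complex.I)‖ ^ 2 *
      (∫ u : ℝ, ‖riemannZeta (1 / 2 + ((t + h * u : ℝ) : ℂ) * Complex.I)‖ * ‖φ u‖) ^ β) ≤
      C * Real.log T ^ (gam β + 1) :=
  LibST15.tail_bound hβ hβ2 hc hφ

end Pool.Agent.LibSM93
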