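import Mathlib
import Pool.Agent.LibSM93.Defs
import Pool.Agent.LibSM93.I1
import Pool.Agent.LibSM93.I4
import Pool.Agent.LibSM93.TB

/-! Row I6.
eta_le: norm_integral_le_integral_norm, |e^(iYu)| = 1, e^-Y comes out (no integrability needed: if the right integrand is not
integrable the left one is not either and both are 0; it is integrable anyway: |zeta(1/2+iv)| <= C(1+|v|), T27.integrable_mul_of_growth).
inner_cont: `continuous_of_dominated` locally in t: |zeta(1/2+i(t+hu))| |phi u| <= C (1+|t|+|h||u|) |phi u| (growth bound as in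
T27 / zeta_avg_eq: LibZM.zeta_approx at N = 1). eta_mean: ‖eta‖^beta <= e^(-beta Y) inner^beta (rpow monotone, mul_rpow), multiply by |zeta|^2,
integrate (continuity: PO_cont gives eta continuous for h <= 1/4, inner_cont), tail_bound.
-/

set_option autoImplicit false

namespace Pool.Agent.LibSM93

open MeasureTheory Filter Topology Pool.Agent.LibMM99 Pool.Agent.LibTG78
open scoped ComplexConjugate

theorem eta_le {φ : ℝ → ℂ} (hφ : IsKernel φ) (h Y t : ℝ) :
    ‖eta φ h Y t‖ ≤ Real.exp (-Y) *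
      ∫ u : ℝ, ‖riemannZeta (1 / 2 + ((t + h * u : ℝ) : ℂ) * Complex.I)‖ * ‖φ u‖ := by
  unfold eta
  refine (norm_integral_le_integral_norm _).trans (le_of_eq ?_)
  rw [← integral_const_mul]
  refine integral_congr_ae (Eventually.of_forall fun u => ?_)
  beta_reduce
  rw [norm_mul, norm_mul, norm_mul, Complex.norm_exp_ofReal_mul_I, Complex.norm_real,
    Real.norm_eq_abs, abs_of_pos (Real.exp_pos _)]
  ring

lemma I6_bound (h u t : ℝ) :
    ‖riemannZeta (1 / 2 + ((t + h * u : ℝ) : ℂ) * Complex.I)‖ ≤ 4 + 2 * |t| + 2 * |h| * |u| := by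
  have h1 := LibZM.norm_zeta_crit_le (t + h * u)
  have h2 := abs_add_le t (h * u)
  rw [abs_mul] at h2
  have h3 : riemannZeta (1 / 2 + ((t + h * u : ℝ) : ℂ) * Complex.I) =
      riemannZeta (LibZM.crit (t + h * u)) := rfl
  rw [h3]
  linarith

lemma I6_cont (h u : ℝ) :
    Continuous fun t : ℝ => riemannZeta (1 / 2 + ((t + h * u : ℝ) : ℂ) * Complex.I) :=
  LibZM.continuous_zeta_crit.comp (f := fun t : ℝ => t + h * u) (by fun_prop)

lemma I6_cont' (h t : ℝ) :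
    Continuous fun u : ℝ => riemannZeta (1 / 2 + ((t + h * u : ℝ) : ℂ) * Complex.I) :=
  LibZM.continuous_zeta_crit.comp (f := fun u : ℝ => t + h * u) (by fun_prop)

theorem inner_cont {φ : ℝ → ℂ} (hφ : IsKernel φ) (h : ℝ) : Continuous fun t : ℝ =>
      ∫ u : ℝ, ‖riemannZeta (1 / 2 + ((t + h * u : ℝ) : ℂ) * Complex.I)‖ * ‖φ u‖ := by
  rw [continuous_iff_continuousAt]
  intro t0
  refine continuousAt_of_dominated
    (bound := fun u : ℝ => ((4 + 2 * (|t0| + 1)) + 2 * |h| * |u|) * ‖φ u‖) ?_ ?_ ?_ ?_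
  · exact Eventually.of_forall fun t =>
      ((I6_cont' h t).norm.mul hφ.cont.norm).aestronglyMeasurable
  · have h1 : ∀ᶠ t in 𝓝 t0, |t - t0| < 1 := by
      have := Metric.ball_mem_nhds t0 (one_pos : (0 : ℝ) < 1)
      filter_upwards [this] with t ht
      rwa [Metric.mem_ball, Real.dist_eq] at ht
    filter_upwards [h1] with t ht
    refine Eventually.of_forall fun u => ?_
    rw [norm_mul, norm_norm, norm_norm]
    refine mul_le_mul_of_nonneg_right ?_ (norm_nonneg _)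
    have h2 := I6_bound h u t
    have h3 : |t| ≤ |t0| + 1 := by
      have := abs_add_le (t - t0) t0
      rw [sub_add_cancel] at this
      linarith
    linarith
  · exact T27.integrable_bound (hφ.int.1) (hφ.int.2) _ _
  · refine Eventually.of_forall fun u => ?_
    exact (((I6_cont h u).norm).mul continuous_const).continuousAt

theorem eta_mean {β : ℝ} (hβ : 0 < β) (hβ2 : β ≤ 2) {φ : ℝ → ℂ} (hφ : IsKernel φ) :
    ∃ C A : ℝ, 0 < C ∧ 1 ≤ A ∧ ∀ T h Y : ℝ, A ≤ T → 0 < h → h ≤ 1 / 4 → 0 ≤ Y →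
    (1 / T) * (∫ t in (0 : ℝ)..T, ‖riemannZeta (1 / 2 + t * Complex.I)‖ ^ 2 * ‖eta φ h Y t‖ ^ β) ≤
      C * Real.exp (-(β * Y)) * Real.log T ^ (gam β + 1) := by
  obtain ⟨C, A, hC, hA, H⟩ := tail_bound hβ hβ2 hφ.cont hφ.decay
  refine ⟨C, A, hC, hA, ?_⟩
  intro T h Y hT hh hh4 hY
  have hTp : 0 < T := by linarith
  have hmain := H T h hT hh (by linarith)
  obtain ⟨J, hJ⟩ : ∃ J : ℝ → ℝ, J = fun t : ℝ =>
      ∫ u : ℝ, ‖riemannZeta (1 / 2 + ((t + h * u : ℝ) : ℂ) * Complex.I)‖ * ‖φ u‖ := ⟨_, rfl⟩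
  have hJc : Continuous J := by rw [hJ]; exact inner_cont hφ h
  have hJ0 : ∀ t, 0 ≤ J t := by
    intro t
    rw [hJ]
    exact integral_nonneg fun u => by positivity
  have hEc : Continuous (eta φ h Y) := (PO_cont hφ hh hh4 hY).2
  have hle : ∀ t, ‖eta φ h Y t‖ ^ β ≤ Real.exp (-(β * Y)) * J t ^ β := by
    intro t
    have h1 : ‖eta φ h Y t‖ ≤ Real.exp (-Y) * J t := by
      rw [hJ]
      exact eta_le hφ h Y t
    calc ‖eta φ h Y t‖ ^ β ≤ (Real.exp (-Y) * J t) ^ β :=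
          Real.rpow_le_rpow (norm_nonneg _) h1 hβ.le
      _ = Real.exp (-Y) ^ β * J t ^ β := Real.mul_rpow (Real.exp_pos _).le (hJ0 t)
      _ = Real.exp (-(β * Y)) * J t ^ β := by
          rw [← Real.exp_mul]
          congr 2
          ring
  obtain ⟨Z, hZ⟩ : ∃ Z : ℝ → ℝ, Z = fun t : ℝ => ‖riemannZeta (1 / 2 + t * Complex.I)‖ ^ 2 := ⟨_, rfl⟩
  have hZc : Continuous Z := by
    rw [hZ]
    exact LibZM.continuous_zeta_crit.norm.pow 2
  have hZ0 : ∀ t, 0 ≤ Z t := by intro t; rw [hZ]; positivity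
  have hJb : Continuous fun t => J t ^ β := hJc.rpow_const fun t => Or.inr hβ.le
  have hEb : Continuous fun t => ‖eta φ h Y t‖ ^ β := hEc.norm.rpow_const fun t => Or.inr hβ.le
  have hg1 : (∫ t in (0 : ℝ)..T, ‖riemannZeta (1 / 2 + t * Complex.I)‖ ^ 2 * ‖eta φ h Y t‖ ^ β) ≤
      Real.exp (-(β * Y)) * ∫ t in (0 : ℝ)..T, Z t * J t ^ β := by
    have h1 : (∫ t in (0 : ℝ)..T, ‖riemannZeta (1 / 2 + t * Complex.I)‖ ^ 2 * ‖eta φ h Y t‖ ^ β) =
        ∫ t in (0 : ℝ)..T, Z t * ‖eta φ h Y t‖ ^ β := by rw [hZ]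
    rw [h1, ← intervalIntegral.integral_const_mul]
    refine intervalIntegral.integral_mono_on hTp.le ((hZc.mul hEb).intervalIntegrable _ _)
      (((hZc.mul hJb).const_mul _).intervalIntegrable _ _) fun t _ => ?_
    calc Z t * ‖eta φ h Y t‖ ^ β ≤ Z t * (Real.exp (-(β * Y)) * J t ^ β) :=
          mul_le_mul_of_nonneg_left (hle t) (hZ0 t)
      _ = _ := by ring
  have hg2 : (1 / T) * (∫ t in (0 : ℝ)..T, Z t * J t ^ β) ≤ C * Real.log T ^ (gam β + 1) := by
    rw [hZ, hJ]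
    exact hmain
  calc (1 / T) * (∫ t in (0 : ℝ)..T, ‖riemannZeta (1 / 2 + t * Complex.I)‖ ^ 2 * ‖eta φ h Y t‖ ^ β) ≤
        (1 / T) * (Real.exp (-(β * Y)) * ∫ t in (0 : ℝ)..T, Z t * J t ^ β) :=
        mul_le_mul_of_nonneg_left hg1 (by positivity)
    _ = Real.exp (-(β * Y)) * ((1 / T) * ∫ t in (0 : ℝ)..T, Z t * J t ^ β) := by ring
    _ ≤ Real.exp (-(β * Y)) * (C * Real.log T ^ (gam β + 1)) :=
        mul_le_mul_of_nonneg_left hg2 (Real.exp_pos _).le
    _ = _ := by ring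

end Pool.Agent.LibSM93
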