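import Mathlib
import Pool.Agent.LibSM93.Defs

/-! Row U1.
lip_step: Real.smoothTransition is C^infinity and locally constant outside [0,1], so its derivative is continuous with compact
support, hence bounded (or: Lipschitz on [0,1] by compactness, glue), K >= 1. IsWeight (LibMM99/Scales.lean): one_le, zero, supp
(for u >= 1), lip (for u, v >= 0). w0: tent. ww Y, Y >= 0: WW Y 0 = 1 (rho(-Y) = 0), WW Y ((Y+1)u) = 0 for u >= 1 (argument >= Y+1);
Lipschitz on [0,oo) with constant (Y+1)(1+K). vm m: value 1 at 0 (both WW are 1 at 0), 0 for u >= 1 ((m+2)u >= m+2 kills WW (m+1) and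
WW m). Lipschitz uniformly in m: D(y) = WW (m+1) y - WW m y = e^-y (rho(y-m) - rho(y-m-1)) vanishes for y <= m and y >= m+2 and for
y >= m satisfies |D(y) - D(y')| <= 3(1+K) e^(-m) |y-y'| (y, y' >= m; for y < m <= y' compare with y = m where D = 0). With y = (m+2)u the
constant is 3(1+K)(m+2) e^(-m/10) <= 3(1+K) * 20, plus 1 for the tent. WW and D are monotone factors times exp: write |e^-y a - e^-y' a'|
<= e^-y |a-a'| + |a'| |e^-y - e^-y'|.
-/

set_option autoImplicit false

namespace Pool.Agent.LibSM93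

open MeasureTheory Filter Topology Pool.Agent.LibMM99 Pool.Agent.LibTG78
open scoped ComplexConjugate

theorem lip_step : ∃ K : ℝ, 1 ≤ K ∧ ∀ x y : ℝ, |Real.smoothTransition x - Real.smoothTransition y| ≤ K * |x - y| := by
  have hcd : ContDiff ℝ 1 Real.smoothTransition := Real.smoothTransition.contDiff
  have hdc : Continuous (deriv Real.smoothTransition) := hcd.continuous_deriv le_rfl
  obtain ⟨K0, hK0⟩ := (isCompact_Icc (a := (0 : ℝ)) (b := 1)).exists_bound_of_continuousOn hdc.continuousOn
  refine ⟨max K0 1, le_max_right _ _, ?_⟩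
  have key : ∀ x ∈ Set.Icc (0 : ℝ) 1, ∀ y ∈ Set.Icc (0 : ℝ) 1,
      ‖Real.smoothTransition y - Real.smoothTransition x‖ ≤ max K0 1 * ‖y - x‖ := by
    intro x hx y hy
    refine Convex.norm_image_sub_le_of_norm_deriv_le (fun z _ => (hcd.differentiable one_ne_zero).differentiableAt)
      (fun z hz => (hK0 z hz).trans (le_max_left _ _)) (convex_Icc 0 1) hx hy
  intro x y
  have hx : Real.smoothTransition (Set.projIcc (0 : ℝ) 1 zero_le_one x : ℝ) = Real.smoothTransition x :=
    Real.smoothTransition.projIcc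
  have hy : Real.smoothTransition (Set.projIcc (0 : ℝ) 1 zero_le_one y : ℝ) = Real.smoothTransition y :=
    Real.smoothTransition.projIcc
  rw [← hx, ← hy]
  have h1 := key _ (Set.projIcc (0 : ℝ) 1 zero_le_one y).2 _ (Set.projIcc (0 : ℝ) 1 zero_le_one x).2
  rw [Real.norm_eq_abs, Real.norm_eq_abs] at h1
  refine h1.trans (mul_le_mul_of_nonneg_left ?_ (le_trans zero_le_one (le_max_right _ _)))
  have h2 := (LipschitzWith.projIcc (zero_le_one (α := ℝ))).dist_le_mul x y
  rw [Subtype.dist_eq, Real.dist_eq, Real.dist_eq] at h2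
  simpa using h2

private theorem U1_exp {a b c : ℝ} (ha : c ≤ a) (hb : c ≤ b) : |Real.exp (-a) - Real.exp (-b)| ≤ Real.exp (-c) * |a - b| := by
  wlog hab : a ≤ b generalizing a b
  · rw [abs_sub_comm, abs_sub_comm a b]
    exact this hb ha (le_of_not_ge hab)
  have h1 : Real.exp (-b) = Real.exp (-a) * Real.exp (-(b - a)) := by
    rw [← Real.exp_add]
    congr 1
    ring
  have h2 : 1 - Real.exp (-(b - a)) ≤ b - a := by
    have := Real.add_one_le_exp (-(b - a))
    linarith
  have h3 : 0 ≤ 1 - Real.exp (-(b - a)) := by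
    have : Real.exp (-(b - a)) ≤ 1 := Real.exp_le_one_iff.2 (by linarith)
    linarith
  have h4 : Real.exp (-a) ≤ Real.exp (-c) := Real.exp_le_exp.2 (by linarith)
  have h5 : Real.exp (-a) - Real.exp (-b) = Real.exp (-a) * (1 - Real.exp (-(b - a))) := by
    rw [h1]
    ring
  rw [h5, abs_of_nonneg (mul_nonneg (Real.exp_pos _).le h3), abs_sub_comm, abs_of_nonneg (sub_nonneg.2 hab)]
  exact mul_le_mul h4 h2 h3 (Real.exp_pos _).le

private theorem U1_mul {a b c k : ℝ} {g : ℝ → ℝ} (ha : c ≤ a) (hb : c ≤ b) (hg : |g b| ≤ 1)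
    (hl : |g a - g b| ≤ k * |a - b|) (hk : 0 ≤ k) :
    |Real.exp (-a) * g a - Real.exp (-b) * g b| ≤ (1 + k) * Real.exp (-c) * |a - b| := by
  have h1 : Real.exp (-a) * g a - Real.exp (-b) * g b =
      Real.exp (-a) * (g a - g b) + (Real.exp (-a) - Real.exp (-b)) * g b := by ring
  rw [h1]
  refine (abs_add_le _ _).trans ?_
  rw [abs_mul, abs_mul, abs_of_pos (Real.exp_pos _)]
  have h2 : Real.exp (-a) * |g a - g b| ≤ Real.exp (-c) * (k * |a - b|) :=
    mul_le_mul (Real.exp_le_exp.2 (by linarith)) hl (abs_nonneg _) (Real.exp_pos _).le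
  have h3 : |Real.exp (-a) - Real.exp (-b)| * |g b| ≤ Real.exp (-c) * |a - b| * 1 :=
    mul_le_mul (U1_exp ha hb) hg (abs_nonneg _) (by positivity)
  calc _ ≤ Real.exp (-c) * (k * |a - b|) + Real.exp (-c) * |a - b| * 1 := add_le_add h2 h3
    _ = _ := by ring

theorem isWeight_w0 : IsWeight w0 1 := by
  refine ⟨le_rfl, ?_, ?_, ?_⟩
  · simp [w0]
  · intro u hu
    unfold w0
    rw [max_eq_right (by linarith)]
    simp
  · intro u v _ _
    unfold w0
    rw [← Complex.ofReal_sub, Complex.norm_real, Real.norm_eq_abs, one_mul]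
    refine (abs_max_sub_max_le_abs _ _ _).trans ?_
    rw [abs_sub_comm u v]
    apply le_of_eq
    congr 1
    ring

theorem isWeight_ww {Y : ℝ} (hY : 0 ≤ Y) : ∃ Λ : ℝ, IsWeight (ww Y) Λ := by
  obtain ⟨K, hK1, hK⟩ := lip_step
  have hY1 : 1 ≤ (1 + K) * (Y + 1) := by nlinarith
  refine ⟨(1 + K) * (Y + 1), hY1, ?_, ?_, ?_⟩
  · simp [ww, WW, Real.smoothTransition.zero_of_nonpos (show -Y ≤ 0 by linarith)]
  · intro u hu
    unfold ww WW
    rw [Real.smoothTransition.one_of_one_le (by nlinarith)]
    simp
  · intro u v hu hv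
    unfold ww
    rw [← Complex.ofReal_sub, Complex.norm_real, Real.norm_eq_abs]
    have h1 := U1_mul (a := (Y + 1) * u) (b := (Y + 1) * v) (c := 0) (k := K)
      (g := fun y => 1 - Real.smoothTransition (y - Y)) (by positivity) (by positivity)
      (by
        rw [abs_of_nonneg (sub_nonneg.2 (Real.smoothTransition.le_one _))]
        have := Real.smoothTransition.nonneg ((Y + 1) * v - Y)
        linarith)
      (by
        have := hK ((Y + 1) * v - Y) ((Y + 1) * u - Y)
        have e1 : (1 - Real.smoothTransition ((Y + 1) * u - Y)) - (1 - Real.smoothTransition ((Y + 1) * v - Y)) =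
          Real.smoothTransition ((Y + 1) * v - Y) - Real.smoothTransition ((Y + 1) * u - Y) := by ring
        rw [e1, abs_sub_comm ((Y + 1) * u)]
        refine this.trans (le_of_eq ?_)
        congr 2
        ring) (by linarith)
    have e2 : |(Y + 1) * u - (Y + 1) * v| = (Y + 1) * |u - v| := by
      rw [← mul_sub, abs_mul, abs_of_nonneg (by linarith)]
    rw [e2] at h1
    refine h1.trans (le_of_eq ?_)
    rw [neg_zero, Real.exp_zero]
    ring

theorem isWeight_vm : ∃ Λ : ℝ, 1 ≤ Λ ∧ ∀ m : ℕ, IsWeight (vm m) Λ := by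
  obtain ⟨K, hK1, hK⟩ := lip_step
  refine ⟨1 + 20 * (1 + 2 * K), by nlinarith, fun m => ⟨by nlinarith, ?_, ?_, ?_⟩⟩
  · have hm : (0 : ℝ) ≤ m := Nat.cast_nonneg m
    have h0 : vm m 0 = w0 0 := by
      unfold vm WW
      rw [mul_zero, Real.smoothTransition.zero_of_nonpos (by linarith),
        Real.smoothTransition.zero_of_nonpos (by linarith)]
      simp
    rw [h0]
    exact isWeight_w0.zero
  · intro u hu
    have hm : (0 : ℝ) ≤ m := Nat.cast_nonneg m
    unfold vm WW
    rw [isWeight_w0.supp u hu, Real.smoothTransition.one_of_one_le (by nlinarith),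
        Real.smoothTransition.one_of_one_le (by nlinarith)]
    simp
  · intro u v hu hv
    have hm : (0 : ℝ) ≤ m := Nat.cast_nonneg m
    set G : ℝ → ℝ := fun y => Real.smoothTransition (y - m) - Real.smoothTransition (y - (m + 1)) with hG
    have hD : ∀ y, WW (m + 1) y - WW m y = Real.exp (-y) * G y := by
      intro y
      unfold WW
      rw [hG]
      ring
    have hG1 : ∀ y, |G y| ≤ 1 := by
      intro y
      rw [abs_le]
      have a1 := Real.smoothTransition.nonneg (y - m)
      have a2 := Real.smoothTransition.le_one (y - m)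
      have a3 := Real.smoothTransition.nonneg (y - (m + 1))
      have a4 := Real.smoothTransition.le_one (y - (m + 1))
      constructor <;> simp only [hG] <;> linarith
    have hG2 : ∀ y y', |G y - G y'| ≤ 2 * K * |y - y'| := by
      intro y y'
      have a1 := hK (y - m) (y' - m)
      have a2 := hK (y - (m + 1)) (y' - (m + 1))
      have e1 : y - m - (y' - m) = y - y' := by ring
      have e2 : y - (m + 1) - (y' - (m + 1)) = y - y' := by ring
      rw [e1] at a1
      rw [e2] at a2
      have e3 : G y - G y' = (Real.smoothTransition (y - m) - Real.smoothTransition (y' - m)) -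
        (Real.smoothTransition (y - (m + 1)) - Real.smoothTransition (y' - (m + 1))) := by
        simp only [hG]
        ring
      rw [e3]
      refine (abs_sub _ _).trans ?_
      linarith
    have hG0 : ∀ y : ℝ, y ≤ m → G y = 0 := by
      intro y hy
      simp only [hG]
      rw [Real.smoothTransition.zero_of_nonpos (by linarith), Real.smoothTransition.zero_of_nonpos (by linarith), sub_zero]
    have hmax : ∀ y, Real.exp (-y) * G y = Real.exp (-(max y m)) * G (max y m) := by
      intro y
      rcases le_total y m with h | h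
      · rw [max_eq_right h, hG0 y h, hG0 m le_rfl, mul_zero, mul_zero]
      · rw [max_eq_left h]
    have hDl : ∀ y y', |Real.exp (-y) * G y - Real.exp (-y') * G y'| ≤ (1 + 2 * K) * Real.exp (-m) * |y - y'| := by
      intro y y'
      rw [hmax y, hmax y']
      refine (U1_mul (le_max_right y m) (le_max_right y' m) (hG1 _) (hG2 _ _) (by linarith)).trans ?_
      refine mul_le_mul_of_nonneg_left (abs_max_sub_max_le_abs _ _ _) ?_
      have : 0 ≤ 1 + 2 * K := by linarith
      positivity
    have hw := isWeight_w0.lip u v hu hv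
    have hexp : ((m : ℝ) + 2) * Real.exp (-(m : ℝ)) * Real.exp (9 / 10 * m) ≤ 20 := by
      have e1 : Real.exp (-(m : ℝ)) * Real.exp (9 / 10 * m) = Real.exp (-(m / 10)) := by
        rw [← Real.exp_add]
        congr 1
        ring
      have e2 : (m : ℝ) + 2 ≤ 20 * Real.exp (m / 10) := by
        have := Real.add_one_le_exp ((m : ℝ) / 10)
        linarith
      have e3 : Real.exp (m / 10) * Real.exp (-(m / 10)) = 1 := by
        rw [← Real.exp_add, add_neg_cancel, Real.exp_zero]
      calc ((m : ℝ) + 2) * Real.exp (-(m : ℝ)) * Real.exp (9 / 10 * m) = ((m : ℝ) + 2) * Real.exp (-(m / 10)) := by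
            rw [mul_assoc, e1]
        _ ≤ 20 * Real.exp (m / 10) * Real.exp (-(m / 10)) := by
            exact mul_le_mul_of_nonneg_right e2 (Real.exp_pos _).le
        _ = 20 := by rw [mul_assoc, e3, mul_one]
    have e4 : vm m u - vm m v = (w0 u - w0 v) +
        ((Real.exp (9 / 10 * m) * (Real.exp (-((m + 2) * u)) * G ((m + 2) * u) -
          Real.exp (-((m + 2) * v)) * G ((m + 2) * v)) : ℝ) : ℂ) := by
      unfold vm
      rw [hD, hD]
      push_cast
      ring
    rw [e4]
    refine (norm_add_le _ _).trans ?_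
    rw [Complex.norm_real, Real.norm_eq_abs, abs_mul, abs_of_pos (Real.exp_pos _)]
    have h5 := hDl ((m + 2) * u) ((m + 2) * v)
    have e6 : |((m : ℝ) + 2) * u - (m + 2) * v| = (m + 2) * |u - v| := by
      rw [← mul_sub, abs_mul, abs_of_nonneg (by linarith)]
    rw [e6] at h5
    have h7 : Real.exp (9 / 10 * m) * |Real.exp (-((m + 2) * u)) * G ((m + 2) * u) -
          Real.exp (-((m + 2) * v)) * G ((m + 2) * v)| ≤ 20 * (1 + 2 * K) * |u - v| := by
      calc _ ≤ Real.exp (9 / 10 * m) * ((1 + 2 * K) * Real.exp (-m) * ((m + 2) * |u - v|)) :=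
            mul_le_mul_of_nonneg_left h5 (Real.exp_pos _).le
        _ = (((m : ℝ) + 2) * Real.exp (-(m : ℝ)) * Real.exp (9 / 10 * m)) * ((1 + 2 * K) * |u - v|) := by ring
        _ ≤ 20 * ((1 + 2 * K) * |u - v|) := by
            refine mul_le_mul_of_nonneg_right hexp ?_
            have : 0 ≤ 1 + 2 * K := by linarith
            positivity
        _ = _ := by ring
    rw [one_mul] at hw
    calc _ ≤ |u - v| + 20 * (1 + 2 * K) * |u - v| := add_le_add hw h7
      _ = _ := by ring

end Pool.Agent.LibSM93
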