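import Mathlib
import Pool.Agent.LibSM93.Defs
import Pool.Agent.LibSM93.E1
import Pool.Agent.LibSM93.E2
import Pool.Agent.LibSM93.U1
import Pool.Agent.LibSM93.U2
import Pool.Agent.LibSM93.I4
import Pool.Agent.LibSM93.I6

/-! Row E3.
L = (A+1)/h >= 1 (h <= 1/4). DY h A = SS (ww A) L (definition), IsWeight (ww A) Λ (isWeight_ww). major4 with γ = β - 2 gives M, and
γ^2/4 + 2γ = gam β - 3, so int M dnu4_s <= Am := C1 ((A+1)/h)^(gam β - 3) = C1 (A+1)^(gam β - 3) h^(-(gam β - 3)); Am >= C1 (exponent > 0).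
Put z v = ‖zeta(1/2 + iv)‖, w u = ‖φ u‖, W0 = int w. Pointwise: ‖eta t‖ <= e^-Y int z(t+hu) w u (eta_le), and by Cauchy-Schwarz
(int z w)^2 <= W0 int z^2 w (e.g. from 2ab <= a^2 + b^2, or `tail`-lemmas of LibST15.TailAbs; or Jensen `ConvexOn.map_integral_le`),
z(t)^2 z(t+hu)^2 <= (z(t)^4 + z(t+hu)^4)/2, ‖DY h A (xt t)‖^(β-2) <= M(xt t). So the left side is
<= e^(-2Y) W0 (1/T) int_0^T int_u (z(t)^4 + z(t+hu)^4)/2 M(xt t) w u du dt; swap the order (everything >= 0 and continuous;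
integrable: z(t+hu) <= 4 + 2|t| + 2|h||u| (I6_bound), decay of w; `intervalIntegral` / `integral_integral_swap`, see LibST15/TailAbs.lean
for the same swap), apply fourth_rot with v = 0 and v = hu, |hu| <= |u|: <= C (1+|u|)^6 ((log T)^4 Am + 1), and
int (1+|u|)^6 w u du < oo (decay with N = 8). 1 <= (log T)^4 h^(-(gam β - 3)) absorbs the +1.
Conditions of fourth_rot: L <= log T, Θ L <= δ log T: θ = min 1 (δ/Θ).
-/

set_option autoImplicit false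

namespace Pool.Agent.LibSM93

open MeasureTheory Filter Topology Pool.Agent.LibMM99 Pool.Agent.LibTG78
open scoped ComplexConjugate

private lemma E3_pow_int {φ : ℝ → ℂ} (hφ : IsKernel φ) (n : ℕ) :
    Integrable (fun u : ℝ => (1 + |u|) ^ n * ‖φ u‖) := by
  obtain ⟨C, hC⟩ := hφ.decay (n + 2)
  have h1 : Integrable (fun u : ℝ => (1 + ‖u‖) ^ (-(2 : ℝ))) :=
    integrable_one_add_norm (by simp)
  have hc : Continuous (fun u : ℝ => (1 + |u|) ^ n * ‖φ u‖) :=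
    ((continuous_const.add continuous_abs).pow n).mul hφ.cont.norm
  refine (h1.const_mul C).mono' hc.aestronglyMeasurable (Eventually.of_forall fun u => ?_)
  have hu : (0 : ℝ) < 1 + |u| := by positivity
  rw [Real.norm_of_nonneg (by positivity)]
  have h2 := hC u
  have h3 : (1 + ‖u‖) ^ (-(2 : ℝ)) = ((1 + |u|) ^ 2)⁻¹ := by
    rw [Real.norm_eq_abs, Real.rpow_neg hu.le]
    norm_num
  rw [h3, ← div_eq_mul_inv, le_div_iff₀ (by positivity)]
  calc (1 + |u|) ^ n * ‖φ u‖ * (1 + |u|) ^ 2 = (1 + |u|) ^ (n + 2) * ‖φ u‖ := by ring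
    _ ≤ C := h2

private lemma E3_cs {f w : ℝ → ℝ} (h0 : Integrable w) (h1 : Integrable fun u => f u * w u)
    (h2 : Integrable fun u => f u ^ 2 * w u) (hw : ∀ u, 0 ≤ w u) {W : ℝ} (hW : 0 < W) (hW0 : ∫ u, w u ≤ W) :
    (∫ u, f u * w u) ^ 2 ≤ W * ∫ u, f u ^ 2 * w u := by
  obtain ⟨J, hJ⟩ : ∃ J, J = ∫ u, f u * w u := ⟨_, rfl⟩
  have h3 : 0 ≤ ∫ u, (f u - J / W) ^ 2 * w u := integral_nonneg fun u => mul_nonneg (sq_nonneg _) (hw u)
  have h4 : (∫ u, (f u - J / W) ^ 2 * w u) =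
      (∫ u, f u ^ 2 * w u) - 2 * (J / W) * (∫ u, f u * w u) + (J / W) ^ 2 * ∫ u, w u := by
    rw [← integral_const_mul, ← integral_const_mul, ← integral_sub h2 (h1.const_mul _)]
    have h9 := integral_add (h2.sub (h1.const_mul (2 * (J / W)))) (h0.const_mul ((J / W) ^ 2))
    simp only [Pi.sub_apply] at h9
    rw [← h9]
    refine integral_congr_ae (Eventually.of_forall fun u => ?_)
    beta_reduce
    ring
  rw [h4, ← hJ] at h3
  rw [← hJ]
  have h5 : (J / W) ^ 2 * ∫ u, w u ≤ (J / W) ^ 2 * W := mul_le_mul_of_nonneg_left hW0 (sq_nonneg _)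
  have h6 : (J / W) ^ 2 * W = J ^ 2 / W := by field_simp
  have h7 : 2 * (J / W) * J = 2 * (J ^ 2 / W) := by ring
  rw [h7] at h3
  rw [h6] at h5
  have h8 : J ^ 2 / W ≤ ∫ u, f u ^ 2 * w u := by linarith
  rw [div_le_iff₀ hW] at h8
  linarith

/-- the growth of zeta at the shifted point -/
private lemma E3_growth {h T t u : ℝ} (hh : |h| ≤ 1) (ht0 : 0 ≤ t) (htT : t ≤ T) :
    ‖riemannZeta (1 / 2 + ((t + h * u : ℝ) : ℂ) * Complex.I)‖ ≤ (4 + 2 * T) * (1 + |u|) := by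
  have h1 := I6_bound h u t
  rw [abs_of_nonneg ht0] at h1
  have h2 : |h| * |u| ≤ 1 * |u| := mul_le_mul_of_nonneg_right hh (abs_nonneg _)
  have h3 : 0 ≤ T * |u| := mul_nonneg (ht0.trans htT) (abs_nonneg _)
  nlinarith [abs_nonneg u]

private lemma E3_growth4 {h T t u : ℝ} (hh : |h| ≤ 1) (ht0 : 0 ≤ t) (htT : t ≤ T) (k : ℕ) :
    ‖riemannZeta (1 / 2 + ((t + h * u : ℝ) : ℂ) * Complex.I)‖ ^ k ≤ (4 + 2 * T) ^ k * (1 + |u|) ^ k := by
  rw [← mul_pow]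
  exact pow_le_pow_left₀ (norm_nonneg _) (E3_growth hh ht0 htT) k

/-- the exchange of the two integrations for a product of a continuous function and a power of zeta -/
private lemma E3_swap {φ : ℝ → ℂ} (hφ : IsKernel φ) {h T : ℝ} (hh : |h| ≤ 1) (hT : 0 ≤ T) {m : ℝ → ℝ}
    (hm : Continuous m) :
    (∫ t in (0 : ℝ)..T, m t * ∫ u : ℝ, ‖riemannZeta (1 / 2 + ((t + h * u : ℝ) : ℂ) * Complex.I)‖ ^ 4 * ‖φ u‖) =
      ∫ u : ℝ, ‖φ u‖ * ∫ t in (0 : ℝ)..T, ‖riemannZeta (1 / 2 + ((t + h * u : ℝ) : ℂ) * Complex.I)‖ ^ 4 * m t := by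
  obtain ⟨B, hB⟩ : ∃ B : ℝ, ∀ t ∈ Set.Icc 0 T, ‖m t‖ ≤ B :=
    isCompact_Icc.exists_bound_of_continuousOn hm.continuousOn
  have hB0 : 0 ≤ B := (norm_nonneg _).trans (hB 0 ⟨le_rfl, hT⟩)
  have hcz : Continuous fun q : ℝ × ℝ => riemannZeta (1 / 2 + ((q.1 + h * q.2 : ℝ) : ℂ) * Complex.I) :=
    LibZM.continuous_zeta_crit.comp (f := fun q : ℝ × ℝ => q.1 + h * q.2) (by fun_prop)
  have hcc : Continuous fun q : ℝ × ℝ =>
      m q.1 * (‖riemannZeta (1 / 2 + ((q.1 + h * q.2 : ℝ) : ℂ) * Complex.I)‖ ^ 4 * ‖φ q.2‖) :=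
    (hm.comp continuous_fst).mul ((hcz.norm.pow 4).mul (hφ.cont.comp continuous_snd).norm)
  have hI : Integrable (fun q : ℝ × ℝ =>
      m q.1 * (‖riemannZeta (1 / 2 + ((q.1 + h * q.2 : ℝ) : ℂ) * Complex.I)‖ ^ 4 * ‖φ q.2‖))
      ((volume.restrict (Set.Ioc 0 T)).prod volume) := by
    have h1 : Integrable (fun q : ℝ × ℝ => (B * (4 + 2 * T) ^ 4) * ((1 + |q.2|) ^ 4 * ‖φ q.2‖))
        ((volume.restrict (Set.Ioc 0 T)).prod volume) :=
      (integrable_const (B * (4 + 2 * T) ^ 4)).mul_prod (E3_pow_int hφ 4)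
    refine h1.mono' hcc.aestronglyMeasurable ?_
    have h2 : ∀ᵐ q : ℝ × ℝ ∂((volume.restrict (Set.Ioc 0 T)).prod volume), q.1 ∈ Set.Ioc 0 T := by
      have h3 : ∀ᵐ t : ℝ ∂(volume.restrict (Set.Ioc 0 T)), t ∈ Set.Ioc 0 T :=
        ae_restrict_mem measurableSet_Ioc
      exact Measure.quasiMeasurePreserving_fst.ae h3
    filter_upwards [h2] with q hq
    have h4 := hB q.1 ⟨hq.1.le, hq.2⟩
    have h5 := E3_growth4 (u := q.2) hh hq.1.le hq.2 4
    rw [norm_mul, norm_mul, norm_norm, norm_pow, norm_norm]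
    calc ‖m q.1‖ * (‖riemannZeta (1 / 2 + ((q.1 + h * q.2 : ℝ) : ℂ) * Complex.I)‖ ^ 4 * ‖φ q.2‖)
        ≤ B * (((4 + 2 * T) ^ 4 * (1 + |q.2|) ^ 4) * ‖φ q.2‖) := by
          refine mul_le_mul h4 (mul_le_mul_of_nonneg_right h5 (norm_nonneg _)) (by positivity) hB0
      _ = _ := by ring
  have h6 := integral_integral_swap (f := fun (t u : ℝ) =>
      m t * (‖riemannZeta (1 / 2 + ((t + h * u : ℝ) : ℂ) * Complex.I)‖ ^ 4 * ‖φ u‖)) hI
  rw [intervalIntegral.integral_of_le hT]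
  calc (∫ t in Set.Ioc 0 T, m t * ∫ u : ℝ, ‖riemannZeta (1 / 2 + ((t + h * u : ℝ) : ℂ) * Complex.I)‖ ^ 4 * ‖φ u‖)
      = ∫ t in Set.Ioc 0 T, ∫ u : ℝ,
        m t * (‖riemannZeta (1 / 2 + ((t + h * u : ℝ) : ℂ) * Complex.I)‖ ^ 4 * ‖φ u‖) := by
        refine integral_congr_ae (Eventually.of_forall fun t => ?_)
        beta_reduce
        rw [integral_const_mul]
    _ = _ := h6
    _ = _ := by
        refine integral_congr_ae (Eventually.of_forall fun u => ?_)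
        beta_reduce
        rw [intervalIntegral.integral_of_le hT, ← integral_const_mul]
        refine integral_congr_ae (Eventually.of_forall fun t => ?_)
        beta_reduce
        ring

theorem tail4 {β : ℝ} (hβ : 2 < β) {φ : ℝ → ℂ} (hφ : IsKernel φ) (A : ℕ) :
    ∃ θ C T0 : ℝ, 0 < θ ∧ 0 < C ∧ 3 ≤ T0 ∧ ∀ h Y T : ℝ, 0 < h → h ≤ 1 / 4 → 0 ≤ Y → T0 ≤ T →
    ((A : ℝ) + 1) / h ≤ θ * Real.log T →
    (1 / T) * (∫ t in (0 : ℝ)..T, ‖riemannZeta (1 / 2 + t * Complex.I)‖ ^ 2 *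
      (‖DY h A (xt t)‖ ^ (β - 2) * ‖eta φ h Y t‖ ^ 2)) ≤
      C * Real.exp (-2 * Y) * Real.log T ^ 4 * h ^ (-(gam β - 3)) := by
  obtain ⟨Cf, δ, Tf, hCf, hδ, hTf, HF⟩ := fourth_rot
  obtain ⟨Λ, hΛ⟩ := isWeight_ww (Y := (A : ℝ)) (Nat.cast_nonneg A)
  obtain ⟨C1, Θ, hC1, hΘ, HM⟩ := major4 (γ := β - 2) (by linarith) Λ
  obtain ⟨e, he⟩ : ∃ e : ℝ, e = gam β - 3 := ⟨_, rfl⟩
  have heq : (β - 2) ^ 2 / 4 + 2 * (β - 2) = e := by
    rw [he]; unfold gam; ring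
  have he0 : 0 < e := by
    rw [← heq]
    have : 0 < β - 2 := by linarith
    positivity
  have hA1 : (0 : ℝ) < (A : ℝ) + 1 := by positivity
  obtain ⟨W, hW⟩ : ∃ W : ℝ, W = (∫ u : ℝ, ‖φ u‖) + 1 := ⟨_, rfl⟩
  have hWp : 0 < W := by
    rw [hW]
    have : 0 ≤ ∫ u : ℝ, ‖φ u‖ := integral_nonneg fun u => norm_nonneg _
    linarith
  obtain ⟨W6, hW6⟩ : ∃ W6 : ℝ, W6 = ∫ u : ℝ, (1 + |u|) ^ 6 * ‖φ u‖ := ⟨_, rfl⟩
  have hW60 : 0 ≤ W6 := by
    rw [hW6]; exact integral_nonneg fun u => by positivity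
  have hC10 : 0 < C1 * ((A : ℝ) + 1) ^ e + 1 := by positivity
  refine ⟨min 1 (δ / Θ), W * ((W + W6) * (Cf * (C1 * ((A : ℝ) + 1) ^ e + 1))), Tf,
    lt_min one_pos (div_pos hδ hΘ), by positivity, hTf, ?_⟩
  intro h Y T hh hh4 hY hT hL
  have hT3 : 3 ≤ T := hTf.trans hT
  have hT0 : 0 < T := by linarith
  have hlog : 1 ≤ Real.log T := by
    rw [Real.le_log_iff_exp_le hT0]
    have := Real.exp_one_lt_three
    linarith
  obtain ⟨L, hLd⟩ : ∃ L : ℝ, L = ((A : ℝ) + 1) / h := ⟨_, rfl⟩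
  rw [← hLd] at hL
  have hL1 : 1 ≤ L := by
    rw [hLd, le_div_iff₀ hh]
    have : (0 : ℝ) ≤ A := Nat.cast_nonneg A
    linarith
  have hLlog : L ≤ Real.log T := by
    refine hL.trans ?_
    calc min 1 (δ / Θ) * Real.log T ≤ 1 * Real.log T :=
          mul_le_mul_of_nonneg_right (min_le_left _ _) (by linarith)
      _ = Real.log T := one_mul _
  have hΘL : Θ * L ≤ δ * Real.log T := by
    have h1 : L ≤ δ / Θ * Real.log T :=
      hL.trans (mul_le_mul_of_nonneg_right (min_le_right _ _) (by linarith))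
    calc Θ * L ≤ Θ * (δ / Θ * Real.log T) := mul_le_mul_of_nonneg_left h1 hΘ.le
      _ = δ * Real.log T := by field_simp
  obtain ⟨M, hM1, hM2, hM3, hM4⟩ := HM (ww A) hΛ L hL1
  rw [heq] at hM4
  have hM0 : ∀ x, 0 ≤ M x := fun x => (Real.rpow_nonneg (norm_nonneg _) _).trans (hM1 x)
  have hMc : Continuous M := hM2.continuous
  have habs : |h| ≤ 1 := by rw [abs_of_pos hh]; linarith
  -- the mean over t for fixed u
  obtain ⟨K, hK⟩ : ∃ K : ℝ, K = Real.log T ^ 4 * (C1 * L ^ e) + 1 := ⟨_, rfl⟩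
  have hK0 : 0 ≤ K := by rw [hK]; positivity
  have HV : ∀ v : ℝ, (1 / T) * (∫ t in (0 : ℝ)..T,
      ‖riemannZeta (1 / 2 + ((t + v : ℝ) : ℂ) * Complex.I)‖ ^ 4 * M (xt t)) ≤ Cf * (1 + |v|) ^ 6 * K := by
    intro v
    rw [hK]
    exact HF (Θ * L) L (C1 * L ^ e) T M hL1 hLlog hT hΘL hM2 hM3 hM0 hM4 v
  obtain ⟨m, hm⟩ : ∃ m : ℝ → ℝ, m = fun t => M (xt t) := ⟨_, rfl⟩
  have hmc : Continuous m := by rw [hm]; exact hMc.comp continuous_xt
  have hm0 : ∀ t, 0 ≤ m t := fun t => by rw [hm]; exact hM0 _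
  obtain ⟨Z, hZ⟩ : ∃ Z : ℝ → ℝ, Z = fun t : ℝ => ‖riemannZeta (1 / 2 + (t : ℂ) * Complex.I)‖ := ⟨_, rfl⟩
  have hZc : Continuous Z := by
    rw [hZ]; exact LibZM.continuous_zeta_crit.norm
  have hZ0 : ∀ t, 0 ≤ Z t := by intro t; rw [hZ]; exact norm_nonneg _
  have HV' : ∀ v : ℝ, (∫ t in (0 : ℝ)..T, Z (t + v) ^ 4 * m t) ≤ T * (Cf * (1 + |v|) ^ 6 * K) := by
    intro v
    have h1 := HV v
    have h2 : (∫ t in (0 : ℝ)..T, Z (t + v) ^ 4 * m t) = ∫ t in (0 : ℝ)..T,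
      ‖riemannZeta (1 / 2 + ((t + v : ℝ) : ℂ) * Complex.I)‖ ^ 4 * M (xt t) := by rw [hZ, hm]
    rw [h2]
    rw [one_div, inv_mul_le_iff₀ hT0] at h1
    exact h1
  obtain ⟨w, hw⟩ : ∃ w : ℝ → ℝ, w = fun u : ℝ => ‖φ u‖ := ⟨_, rfl⟩
  have hw0 : ∀ u, 0 ≤ w u := by intro u; rw [hw]; exact norm_nonneg _
  have hwc : Continuous w := by rw [hw]; exact hφ.cont.norm
  have hwi : ∀ n : ℕ, Integrable fun u : ℝ => (1 + |u|) ^ n * w u := by
    intro n; rw [hw]; exact E3_pow_int hφ n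
  have hwi0 : Integrable w := by
    have := hwi 0
    simpa using this
  -- integrability of the powers of zeta against w
  have hZi : ∀ (k : ℕ) (t : ℝ), 0 ≤ t → Integrable fun u : ℝ => Z (t + h * u) ^ k * w u := by
    intro k t ht
    refine ((hwi k).const_mul ((4 + 2 * t) ^ k)).mono'
      (((hZc.comp (by fun_prop : Continuous fun u : ℝ => t + h * u)).pow k).mul hwc).aestronglyMeasurable
      (Eventually.of_forall fun u => ?_)
    rw [Real.norm_of_nonneg (mul_nonneg (pow_nonneg (hZ0 _) k) (hw0 u))]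
    have h1 := E3_growth4 (u := u) habs ht le_rfl k
    have h2 : Z (t + h * u) ^ k ≤ (4 + 2 * t) ^ k * (1 + |u|) ^ k := by rw [hZ]; exact h1
    calc Z (t + h * u) ^ k * w u ≤ ((4 + 2 * t) ^ k * (1 + |u|) ^ k) * w u :=
          mul_le_mul_of_nonneg_right h2 (hw0 u)
      _ = _ := by ring
  -- pointwise bound
  obtain ⟨Q, hQ⟩ : ∃ Q : ℝ → ℝ, Q = fun t => ∫ u : ℝ, Z (t + h * u) ^ 4 * w u := ⟨_, rfl⟩
  have hpt : ∀ t : ℝ, 0 ≤ t → Z t ^ 2 * (‖DY h A (xt t)‖ ^ (β - 2) * ‖eta φ h Y t‖ ^ 2) ≤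
      Real.exp (-2 * Y) * W * ((1 / 2) * (W * (Z t ^ 4 * m t)) + (1 / 2) * (m t * Q t)) := by
    intro t ht
    have h1 : ‖eta φ h Y t‖ ≤ Real.exp (-Y) * ∫ u : ℝ, Z (t + h * u) * w u := by
      rw [hZ, hw]; exact eta_le hφ h Y t
    have h2 : (∫ u : ℝ, Z (t + h * u) * w u) ^ 2 ≤ W * ∫ u : ℝ, Z (t + h * u) ^ 2 * w u := by
      refine E3_cs hwi0 (by simpa using hZi 1 t ht) (hZi 2 t ht) hw0 hWp ?_
      rw [hW, hw]; linarith
    have h3 : ‖eta φ h Y t‖ ^ 2 ≤ Real.exp (-2 * Y) * (W * ∫ u : ℝ, Z (t + h * u) ^ 2 * w u) := by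
      calc ‖eta φ h Y t‖ ^ 2 ≤ (Real.exp (-Y) * ∫ u : ℝ, Z (t + h * u) * w u) ^ 2 :=
            pow_le_pow_left₀ (norm_nonneg _) h1 2
        _ = Real.exp (-2 * Y) * (∫ u : ℝ, Z (t + h * u) * w u) ^ 2 := by
            rw [mul_pow, ← Real.exp_nat_mul]
            congr 2
            push_cast
            ring
        _ ≤ _ := mul_le_mul_of_nonneg_left h2 (Real.exp_pos _).le
    have h4 : ‖DY h A (xt t)‖ ^ (β - 2) ≤ m t := by
      have := hM1 (xt t)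
      rw [hm]
      unfold DY
      rw [← hLd]
      exact this
    have h5 : Z t ^ 2 * ∫ u : ℝ, Z (t + h * u) ^ 2 * w u ≤ (1 / 2) * (W * Z t ^ 4) + (1 / 2) * Q t := by
      have h6 : Z t ^ 2 * (∫ u : ℝ, Z (t + h * u) ^ 2 * w u) = ∫ u : ℝ, Z t ^ 2 * (Z (t + h * u) ^ 2 * w u) :=
        (integral_const_mul _ _).symm
      have h7 : (∫ u : ℝ, ((1 / 2) * Z t ^ 4) * w u + (1 / 2) * (Z (t + h * u) ^ 4 * w u)) =
          ((1 / 2) * Z t ^ 4) * (∫ u : ℝ, w u) + (1 / 2) * ∫ u : ℝ, Z (t + h * u) ^ 4 * w u := by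
        rw [integral_add (hwi0.const_mul _) ((hZi 4 t ht).const_mul _), integral_const_mul, integral_const_mul]
      have h8 : (∫ u : ℝ, Z t ^ 2 * (Z (t + h * u) ^ 2 * w u)) ≤
          ∫ u : ℝ, ((1 / 2) * Z t ^ 4) * w u + (1 / 2) * (Z (t + h * u) ^ 4 * w u) := by
        refine integral_mono ((hZi 2 t ht).const_mul _) ((hwi0.const_mul _).add ((hZi 4 t ht).const_mul _)) ?_
        intro u
        have h9 : Z t ^ 2 * Z (t + h * u) ^ 2 ≤ (1 / 2) * Z t ^ 4 + (1 / 2) * Z (t + h * u) ^ 4 := by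
          nlinarith [sq_nonneg (Z t ^ 2 - Z (t + h * u) ^ 2)]
        calc Z t ^ 2 * (Z (t + h * u) ^ 2 * w u) = (Z t ^ 2 * Z (t + h * u) ^ 2) * w u := by ring
          _ ≤ ((1 / 2) * Z t ^ 4 + (1 / 2) * Z (t + h * u) ^ 4) * w u := mul_le_mul_of_nonneg_right h9 (hw0 u)
          _ = _ := by ring
      rw [h6]
      refine h8.trans ?_
      rw [h7, hQ]
      have h10 : (∫ u : ℝ, w u) ≤ W := by rw [hW, hw]; linarith
      have h11 : ((1 / 2) * Z t ^ 4) * (∫ u : ℝ, w u) ≤ ((1 / 2) * Z t ^ 4) * W :=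
        mul_le_mul_of_nonneg_left h10 (by have := hZ0 t; positivity)
      have h12 : ((1 / 2) * Z t ^ 4) * W = (1 / 2) * (W * Z t ^ 4) := by ring
      linarith
    have hI0 : 0 ≤ ∫ u : ℝ, Z (t + h * u) ^ 2 * w u :=
      integral_nonneg fun u => mul_nonneg (sq_nonneg _) (hw0 u)
    calc Z t ^ 2 * (‖DY h A (xt t)‖ ^ (β - 2) * ‖eta φ h Y t‖ ^ 2)
        ≤ Z t ^ 2 * (m t * (Real.exp (-2 * Y) * (W * ∫ u : ℝ, Z (t + h * u) ^ 2 * w u))) := by
          refine mul_le_mul_of_nonneg_left ?_ (sq_nonneg _)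
          exact mul_le_mul h4 h3 (sq_nonneg _) (hm0 t)
      _ = Real.exp (-2 * Y) * W * (m t * (Z t ^ 2 * ∫ u : ℝ, Z (t + h * u) ^ 2 * w u)) := by ring
      _ ≤ Real.exp (-2 * Y) * W * (m t * ((1 / 2) * (W * Z t ^ 4) + (1 / 2) * Q t)) := by
          refine mul_le_mul_of_nonneg_left (mul_le_mul_of_nonneg_left h5 (hm0 t)) ?_
          have := (Real.exp_pos (-2 * Y)).le
          positivity
      _ = _ := by ring
  -- continuity of both sides
  have hEc : Continuous (eta φ h Y) := (PO_cont hφ hh hh4 hY).2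
  have hDc : Continuous (DY h (A : ℝ)) := (DY_cont h A).1
  have hlc : Continuous fun t => Z t ^ 2 * (‖DY h A (xt t)‖ ^ (β - 2) * ‖eta φ h Y t‖ ^ 2) :=
    (hZc.pow 2).mul (((hDc.comp continuous_xt).norm.rpow_const fun t => Or.inr (by linarith)).mul (hEc.norm.pow 2))
  have hQc : ContinuousOn Q (Set.Icc 0 T) := by
    rw [hQ]
    refine continuousOn_of_dominated (bound := fun u : ℝ => (4 + 2 * T) ^ 4 * ((1 + |u|) ^ 4 * w u)) ?_ ?_
      ((hwi 4).const_mul _) ?_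
    · intro t ht
      exact (hZi 4 t ht.1).1
    · intro t ht
      refine Eventually.of_forall fun u => ?_
      rw [Real.norm_of_nonneg (mul_nonneg (pow_nonneg (hZ0 _) 4) (hw0 u))]
      have h1 := E3_growth4 (u := u) habs ht.1 ht.2 4
      have h2 : Z (t + h * u) ^ 4 ≤ (4 + 2 * T) ^ 4 * (1 + |u|) ^ 4 := by rw [hZ]; exact h1
      calc Z (t + h * u) ^ 4 * w u ≤ ((4 + 2 * T) ^ 4 * (1 + |u|) ^ 4) * w u :=
            mul_le_mul_of_nonneg_right h2 (hw0 u)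
        _ = _ := by ring
    · refine Eventually.of_forall fun u => ?_
      exact (((hZc.comp (by fun_prop : Continuous fun t : ℝ => t + h * u)).pow 4).mul
        continuous_const).continuousOn
  have hQi : IntervalIntegrable (fun t => m t * Q t) volume 0 T := by
    refine ContinuousOn.intervalIntegrable ?_
    rw [Set.uIcc_of_le hT0.le]
    exact hmc.continuousOn.mul hQc
  have hZmi : IntervalIntegrable (fun t => Z t ^ 4 * m t) volume 0 T :=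
    ((hZc.pow 4).mul hmc).intervalIntegrable _ _
  -- the integral over t
  have hI1 : (∫ t in (0 : ℝ)..T, Z t ^ 2 * (‖DY h A (xt t)‖ ^ (β - 2) * ‖eta φ h Y t‖ ^ 2)) ≤
      Real.exp (-2 * Y) * W * ((1 / 2) * (W * ∫ t in (0 : ℝ)..T, Z t ^ 4 * m t) +
        (1 / 2) * ∫ t in (0 : ℝ)..T, m t * Q t) := by
    have h1 : (∫ t in (0 : ℝ)..T, Z t ^ 2 * (‖DY h A (xt t)‖ ^ (β - 2) * ‖eta φ h Y t‖ ^ 2)) ≤
        ∫ t in (0 : ℝ)..T, Real.exp (-2 * Y) * W * ((1 / 2) * (W * (Z t ^ 4 * m t)) + (1 / 2) * (m t * Q t)) := by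
      refine intervalIntegral.integral_mono_on hT0.le (hlc.intervalIntegrable _ _) ?_
        fun t ht => hpt t ht.1
      exact (((hZmi.const_mul _).const_mul _).add (hQi.const_mul _)).const_mul _
    refine h1.trans (le_of_eq ?_)
    rw [intervalIntegral.integral_const_mul,
      intervalIntegral.integral_add ((hZmi.const_mul _).const_mul _) (hQi.const_mul _),
      intervalIntegral.integral_const_mul, intervalIntegral.integral_const_mul,
      intervalIntegral.integral_const_mul]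
  -- the swapped integral
  have hI2 : (∫ t in (0 : ℝ)..T, m t * Q t) ≤ T * (Cf * K * W6) := by
    have h1 : (∫ t in (0 : ℝ)..T, m t * Q t) = ∫ u : ℝ, w u * ∫ t in (0 : ℝ)..T, Z (t + h * u) ^ 4 * m t := by
      have h2 := E3_swap hφ (h := h) habs hT0.le hmc
      rw [hQ, hZ, hw]
      exact h2
    rw [h1]
    have h3 : (∫ u : ℝ, T * (Cf * K) * ((1 + |u|) ^ 6 * w u)) = T * (Cf * K * W6) := by
      rw [integral_const_mul, hW6, hw]
      ring
    rw [← h3]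
    refine integral_mono_of_nonneg (Eventually.of_forall fun u => ?_) ((hwi 6).const_mul _)
      (Eventually.of_forall fun u => ?_)
    · refine mul_nonneg (hw0 u) (intervalIntegral.integral_nonneg hT0.le fun t _ => ?_)
      exact mul_nonneg (pow_nonneg (hZ0 _) 4) (hm0 t)
    · beta_reduce
      have h4 := HV' (h * u)
      have h5 : |h * u| ≤ |u| := by
        rw [abs_mul]
        calc |h| * |u| ≤ 1 * |u| := mul_le_mul_of_nonneg_right habs (abs_nonneg _)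
          _ = |u| := one_mul _
      have h6 : (1 + |h * u|) ^ 6 ≤ (1 + |u|) ^ 6 :=
        pow_le_pow_left₀ (by positivity) (by linarith) 6
      have h7 : T * (Cf * (1 + |h * u|) ^ 6 * K) ≤ T * (Cf * (1 + |u|) ^ 6 * K) := by
        refine mul_le_mul_of_nonneg_left ?_ hT0.le
        refine mul_le_mul_of_nonneg_right ?_ hK0
        exact mul_le_mul_of_nonneg_left h6 hCf.le
      calc w u * ∫ t in (0 : ℝ)..T, Z (t + h * u) ^ 4 * m t ≤ w u * (T * (Cf * (1 + |u|) ^ 6 * K)) :=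
            mul_le_mul_of_nonneg_left (h4.trans h7) (hw0 u)
        _ = _ := by ring
  have hI3 : (∫ t in (0 : ℝ)..T, Z t ^ 4 * m t) ≤ T * (Cf * K) := by
    have h1 := HV' 0
    simp only [add_zero, abs_zero, one_pow, mul_one] at h1
    exact h1
  have hKle : K ≤ (C1 * ((A : ℝ) + 1) ^ e + 1) * (Real.log T ^ 4 * h ^ (-e)) := by
    have h1 : L ^ e = ((A : ℝ) + 1) ^ e * h ^ (-e) := by
      rw [hLd, Real.div_rpow hA1.le hh.le, Real.rpow_neg hh.le, div_eq_mul_inv]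
    have h2 : 1 ≤ h ^ (-e) := by
      rw [Real.rpow_neg hh.le]
      exact (one_le_inv₀ (Real.rpow_pos_of_pos hh e)).2 (Real.rpow_le_one hh.le (by linarith) he0.le)
    have h3 : 1 ≤ Real.log T ^ 4 := one_le_pow₀ hlog
    have h4 : 1 ≤ Real.log T ^ 4 * h ^ (-e) := by nlinarith
    rw [hK, h1]
    calc Real.log T ^ 4 * (C1 * (((A : ℝ) + 1) ^ e * h ^ (-e))) + 1
        ≤ Real.log T ^ 4 * (C1 * (((A : ℝ) + 1) ^ e * h ^ (-e))) + Real.log T ^ 4 * h ^ (-e) := by linarith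
      _ = _ := by ring
  have hfin : (1 / T) * (∫ t in (0 : ℝ)..T, Z t ^ 2 * (‖DY h A (xt t)‖ ^ (β - 2) * ‖eta φ h Y t‖ ^ 2)) ≤
      Real.exp (-2 * Y) * W * ((1 / 2) * (W * (Cf * K)) + (1 / 2) * (Cf * K * W6)) := by
    rw [one_div, inv_mul_le_iff₀ hT0]
    refine hI1.trans ?_
    have h1 : W * (∫ t in (0 : ℝ)..T, Z t ^ 4 * m t) ≤ W * (T * (Cf * K)) :=
      mul_le_mul_of_nonneg_left hI3 hWp.le
    calc Real.exp (-2 * Y) * W * ((1 / 2) * (W * ∫ t in (0 : ℝ)..T, Z t ^ 4 * m t) +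
          (1 / 2) * ∫ t in (0 : ℝ)..T, m t * Q t)
        ≤ Real.exp (-2 * Y) * W * ((1 / 2) * (W * (T * (Cf * K))) + (1 / 2) * (T * (Cf * K * W6))) := by
          refine mul_le_mul_of_nonneg_left (by linarith) ?_
          have := (Real.exp_pos (-2 * Y)).le
          positivity
      _ = _ := by ring
  have hZe : (∫ t in (0 : ℝ)..T, ‖riemannZeta (1 / 2 + t * Complex.I)‖ ^ 2 *
      (‖DY h A (xt t)‖ ^ (β - 2) * ‖eta φ h Y t‖ ^ 2)) =
      ∫ t in (0 : ℝ)..T, Z t ^ 2 * (‖DY h A (xt t)‖ ^ (β - 2) * ‖eta φ h Y t‖ ^ 2) := by rw [hZ]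
  rw [hZe, ← he]
  refine hfin.trans ?_
  have hE := (Real.exp_pos (-2 * Y)).le
  have hWW : 0 ≤ W + W6 := by linarith
  calc Real.exp (-2 * Y) * W * ((1 / 2) * (W * (Cf * K)) + (1 / 2) * (Cf * K * W6))
      = (1 / 2) * (Real.exp (-2 * Y) * W * ((W + W6) * Cf)) * K := by ring
    _ ≤ (1 / 2) * (Real.exp (-2 * Y) * W * ((W + W6) * Cf)) *
        ((C1 * ((A : ℝ) + 1) ^ e + 1) * (Real.log T ^ 4 * h ^ (-e))) := by
        refine mul_le_mul_of_nonneg_left hKle ?_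
        positivity
    _ ≤ 1 * (Real.exp (-2 * Y) * W * ((W + W6) * Cf)) *
        ((C1 * ((A : ℝ) + 1) ^ e + 1) * (Real.log T ^ 4 * h ^ (-e))) := by
        have h1 : 0 ≤ h ^ (-e) := Real.rpow_nonneg hh.le _
        have h2 : 0 ≤ Real.log T ^ 4 := by positivity
        gcongr
        norm_num
    _ = _ := by ring

end Pool.Agent.LibSM93
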