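import Mathlib
import Pool.Agent.LibSM93.Defs

/-! Row K1.
Absolute convergence of the Euler product at 1/2 + h, h >= 0 real. Copy the proof of
`LibTG78.ZZ_hasSum` (LibTG78/B11.lean): only `(-(1/2) - s).re < 0` is used there, here it is clear from h >= 0
(B11_f, B11_norm need only `-(1/2) - s ≠ 0`). `(m:ℂ) ^ (-(1/2:ℂ) - (h:ℂ)) = ((m:ℝ)^(-(1/2)-h) : ℝ)` by `Complex.ofReal_cpow`.
Continuity and DependsOn: as `continuous_ZZ`, `dependsOn_ZZ` (B01.lean); a factor `1 - zp h p * ch x p` is nonzero because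
`‖zp h p‖ = p ^ (-(1/2) - h) < 1` (`norm_zp`).
-/

set_option autoImplicit false

namespace Pool.Agent.LibSM93

open MeasureTheory Filter Topology Pool.Agent.LibMM99 Pool.Agent.LibTG78
open scoped ComplexConjugate

theorem K1_re (h : ℝ) : (-(1 / 2 : ℂ) - (h : ℂ)).re = -(1 / 2) - h := by simp

theorem K1_ne {h : ℝ} (hh : 0 ≤ h) : (-(1 / 2 : ℂ) - (h : ℂ)) ≠ 0 := by
  intro h0
  have h1 := K1_re h
  rw [h0, Complex.zero_re] at h1
  linarith

theorem ZZh_hasSum {h : ℝ} (hh : 0 ≤ h) (u v : ℝ) :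
    (Summable fun m : Nat.factoredNumbers (prm u v) => ((m : ℕ) : ℝ) ^ (-(1 / 2) - h)) ∧
    ∀ x : Om, HasSum (fun m : Nat.factoredNumbers (prm u v) => ((((m : ℕ) : ℝ) ^ (-(1 / 2) - h) : ℝ) : ℂ) * ch x m)
      (ZZ (h : ℂ) u v x) := by
  have hne := K1_ne hh
  have key : ∀ x : Om, ∀ {p : ℕ}, p.Prime → ‖B11_f (h : ℂ) hne x p‖ < 1 := by
    intro x p hp
    show ‖(p : ℂ) ^ (-(1 / 2 : ℂ) - (h : ℂ)) * ch x p‖ < 1
    rw [B11_norm (h : ℂ) x hp.ne_zero]
    apply Real.rpow_lt_one_of_one_lt_of_neg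
    · exact_mod_cast hp.one_lt
    · rw [Complex.ofReal_re]
      linarith
  have main := fun x : Om => EulerProduct.summable_and_hasSum_factoredNumbers_prod_filter_prime_geometric
    (f := B11_f (h : ℂ) hne x) (key x) (prm u v)
  constructor
  · refine (main 0).1.congr fun m => ?_
    have hm : (m : ℕ) ≠ 0 := by
      have := m.2
      rw [Nat.mem_factoredNumbers] at this
      exact this.1
    have h3 := B11_norm (h : ℂ) 0 hm
    rw [Complex.ofReal_re] at h3
    exact h3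
  · intro x
    have h2 := (main x).2
    rw [B11_prm] at h2
    have e : (fun m : Nat.factoredNumbers (prm u v) => ((((m : ℕ) : ℝ) ^ (-(1 / 2) - h) : ℝ) : ℂ) * ch x m) =
        fun m : Nat.factoredNumbers (prm u v) => B11_f (h : ℂ) hne x m := by
      funext m
      show ((((m : ℕ) : ℝ) ^ (-(1 / 2) - h) : ℝ) : ℂ) * ch x m =
        ((m : ℕ) : ℂ) ^ (-(1 / 2 : ℂ) - (h : ℂ)) * ch x m
      rw [Complex.ofReal_cpow (Nat.cast_nonneg _)]
      push_cast
      rfl
    rw [e]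
    exact h2

theorem continuous_ZZh {h : ℝ} (hh : 0 ≤ h) (u v : ℝ) :
    Continuous (ZZ (h : ℂ) u v) ∧ DependsOn (ZZ (h : ℂ) u v) (coo u v) := by
  refine ⟨?_, dependsOn_ZZ _ u v⟩
  unfold ZZ
  refine continuous_finsetProd _ fun p hp => ?_
  have hpp : p.Prime := by
    rw [mem_prm] at hp
    exact hp.1
  refine (continuous_const.sub (continuous_const.mul (continuous_ch p))).inv₀ fun x => ?_
  have h1 : ‖zp (h : ℂ) p * ch x p‖ < 1 := by
    rw [norm_mul, norm_ch, mul_one, norm_zp (h : ℂ) hpp.one_lt.le, Complex.ofReal_re]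
    apply Real.rpow_lt_one_of_one_lt_of_neg
    · exact_mod_cast hpp.one_lt
    · linarith
  intro h0
  have h2 : (1 : ℂ) - zp (h : ℂ) p * ch x p = 0 := h0
  rw [← sub_eq_zero.1 h2, norm_one] at h1
  exact lt_irrefl _ h1

end Pool.Agent.LibSM93
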