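import Mathlib
import Pool.Agent.LibSM93.Defs
import Pool.Agent.LibSM93.K1
import Pool.Agent.LibSM93.U2

/-! Row K2.
Put L = (Y+1)/h, F = factoredNumbers (prm 1 (exp L)). P = ZZ 0 1 e^L = sum_{n in F} n^(-1/2) ch x n and
R = ZZ h - DY h Y = sum_{n in F} r_n n^(-1/2) ch x n with r_n = n^(-h) - WW Y (h log n) (every n <= e^L lies in F; for n > e^L
the weight WW Y (h log n) vanishes, because h log n >= Y + 1). WW Y y = e^-y (1 - rho(y - Y)), so r_n = n^(-h) rho(h log n - Y),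
0 <= r_n <= e^(-Y) (rho = 0 unless h log n >= Y, and then n^(-h) <= e^(-Y)). Hence P R = sum_n c_n ch x n with
c_n = n^(-1/2) sum_{ab = n} r_b, 0 <= c_n <= e^(-Y) C_n, C_n = n^(-1/2) #{ab = n} = coefficients of P * P. Two applications of
`LibTG78.parseval` (B11.lean): int |P|^2 |R|^2 = sum |c_n|^2 <= e^(-2Y) sum |C_n|^2 = e^(-2Y) int |P|^4.
Products of two absolutely convergent series: Mathlib `LSeries.convolution`, `LSeries_convolution'` at s = 0, or as in
`LibTG78.ZZ_mul_DS` (B12.lean), or `tsum_mul_tsum_of_summable_norm` + regrouping along (a,b) -> ab.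
-/

set_option autoImplicit false

namespace Pool.Agent.LibSM93

open MeasureTheory Filter Topology Pool.Agent.LibMM99 Pool.Agent.LibTG78
open scoped ComplexConjugate

theorem K2_term {φ : ℕ → ℂ} (h0 : φ 0 = 0) : LSeries.term φ 0 = φ := by
  funext n
  rcases eq_or_ne n 0 with rfl | hn
  · rw [LSeries.term_zero, h0]
  · rw [LSeries.term_of_ne_zero hn, Complex.cpow_zero, div_one]

/-- The product of two absolutely convergent expansions. -/
theorem K2_mul {φ γ : ℕ → ℂ} (hφ0 : φ 0 = 0) (hγ0 : γ 0 = 0) (hφ : Summable φ) (hγ : Summable γ) :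
    Summable (fun n : ℕ => ∑ q ∈ n.divisorsAntidiagonal, φ q.1 * γ q.2) ∧
    (∑' n, φ n) * (∑' n, γ n) = ∑' n : ℕ, ∑ q ∈ n.divisorsAntidiagonal, φ q.1 * γ q.2 := by
  have h1 : LSeriesSummable φ 0 := by
    unfold LSeriesSummable
    rw [K2_term hφ0]
    exact hφ
  have h2 : LSeriesSummable γ 0 := by
    unfold LSeriesSummable
    rw [K2_term hγ0]
    exact hγ
  have h3 : (LSeries.convolution φ γ) = fun n : ℕ => ∑ q ∈ n.divisorsAntidiagonal, φ q.1 * γ q.2 :=
    LSeries.convolution_def φ γ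
  have h4 : (LSeries.convolution φ γ) 0 = 0 := by
    rw [h3]
    simp
  constructor
  · have h5 := h1.convolution h2
    unfold LSeriesSummable at h5
    rw [K2_term h4, h3] at h5
    exact h5
  · have h5 := LSeries_convolution' h1 h2
    unfold LSeries at h5
    rw [K2_term h4, K2_term hφ0, K2_term hγ0, h3] at h5
    exact h5.symm

/-- The square mean of a product of two expansions with nonnegative coefficients. -/
theorem K2_sq {f g : ℕ → ℝ} (hf0 : f 0 = 0) (hg0 : g 0 = 0) (hfn : ∀ n, 0 ≤ f n) (hgn : ∀ n, 0 ≤ g n)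
    (hf : Summable f) (hg : Summable g) :
    (Summable fun n : ℕ => ∑ q ∈ n.divisorsAntidiagonal, f q.1 * g q.2) ∧
    ∫ x, ‖(∑' n, (f n : ℂ) * ch x n)‖ ^ 2 * ‖(∑' n, (g n : ℂ) * ch x n)‖ ^ 2 ∂mu =
      ∑' n : ℕ, (∑ q ∈ n.divisorsAntidiagonal, f q.1 * g q.2) ^ 2 := by
  have hcn : ∀ n : ℕ, 0 ≤ ∑ q ∈ n.divisorsAntidiagonal, f q.1 * g q.2 := fun n =>
    Finset.sum_nonneg fun q _ => mul_nonneg (hfn _) (hgn _)
  have hs : Summable fun n : ℕ => ∑ q ∈ n.divisorsAntidiagonal, f q.1 * g q.2 := by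
    have h1 := (K2_mul (φ := fun n => (f n : ℂ)) (γ := fun n => (g n : ℂ)) (by simp [hf0])
      (by simp [hg0]) (Complex.summable_ofReal.2 hf) (Complex.summable_ofReal.2 hg)).1
    rw [← Complex.summable_ofReal]
    refine h1.congr fun n => ?_
    push_cast
    rfl
  refine ⟨hs, ?_⟩
  have hc : Summable fun n : ℕ => ‖((∑ q ∈ n.divisorsAntidiagonal, f q.1 * g q.2 : ℝ) : ℂ)‖ := by
    refine hs.congr fun n => ?_
    rw [Complex.norm_real, Real.norm_of_nonneg (hcn n)]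
  have hp := parseval (c := fun n : ℕ => ((∑ q ∈ n.divisorsAntidiagonal, f q.1 * g q.2 : ℝ) : ℂ))
    (by simp) hc
  have hprod : ∀ x : Om, (∑' n, (f n : ℂ) * ch x n) * (∑' n, (g n : ℂ) * ch x n) =
      ∑' n : ℕ, ((∑ q ∈ n.divisorsAntidiagonal, f q.1 * g q.2 : ℝ) : ℂ) * ch x n := by
    intro x
    have hsf : Summable fun n => (f n : ℂ) * ch x n := by
      refine Summable.of_norm ?_
      refine hf.congr fun n => ?_
      rw [norm_mul, norm_ch, mul_one, Complex.norm_real, Real.norm_of_nonneg (hfn n)]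
    have hsg : Summable fun n => (g n : ℂ) * ch x n := by
      refine Summable.of_norm ?_
      refine hg.congr fun n => ?_
      rw [norm_mul, norm_ch, mul_one, Complex.norm_real, Real.norm_of_nonneg (hgn n)]
    rw [(K2_mul (φ := fun n => (f n : ℂ) * ch x n) (γ := fun n => (g n : ℂ) * ch x n)
      (by simp [hf0]) (by simp [hg0]) hsf hsg).2]
    refine tsum_congr fun n => ?_
    push_cast
    rw [Finset.sum_mul]
    refine Finset.sum_congr rfl fun q hq => ?_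
    obtain ⟨h1, h2⟩ := Nat.mem_divisorsAntidiagonal.1 hq
    have hq1 : q.1 ≠ 0 := fun h => h2 (by rw [← h1, h, zero_mul])
    have hq2 : q.2 ≠ 0 := fun h => h2 (by rw [← h1, h, mul_zero])
    rw [← h1, ch_mul x hq1 hq2]
    ring
  have e1 : ∀ x : Om, ‖(∑' n, (f n : ℂ) * ch x n)‖ ^ 2 * ‖(∑' n, (g n : ℂ) * ch x n)‖ ^ 2 =
      ‖∑' n : ℕ, ((∑ q ∈ n.divisorsAntidiagonal, f q.1 * g q.2 : ℝ) : ℂ) * ch x n‖ ^ 2 := by
    intro x
    rw [← mul_pow, ← norm_mul, hprod x]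
  simp_rw [e1]
  rw [hp]
  refine tsum_congr fun n => ?_
  rw [Complex.norm_real, Real.norm_of_nonneg (hcn n)]

/-- coefficients of the Euler product at `1 / 2` -/
noncomputable def K2p (E : ℝ) : ℕ → ℝ :=
  (Nat.factoredNumbers (prm 1 E)).indicator fun m : ℕ => (m : ℝ) ^ (-(1 / 2 : ℝ))

/-- coefficients of the remainder -/
noncomputable def K2r (h Y E : ℝ) (n : ℕ) : ℝ :=
  K2p E n * ((n : ℝ) ^ (-h) - WW Y (h * Real.log n))

theorem K2_bd {h Y : ℝ} {n : ℕ} (hn : n ≠ 0) :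
    0 ≤ (n : ℝ) ^ (-h) - WW Y (h * Real.log n) ∧
    (n : ℝ) ^ (-h) - WW Y (h * Real.log n) ≤ Real.exp (-Y) := by
  have hn0 : (0 : ℝ) < n := by exact_mod_cast Nat.pos_of_ne_zero hn
  have e1 : (n : ℝ) ^ (-h) = Real.exp (-(h * Real.log n)) := by
    rw [Real.rpow_def_of_pos hn0]
    congr 1
    ring
  have e2 : (n : ℝ) ^ (-h) - WW Y (h * Real.log n) =
      Real.exp (-(h * Real.log n)) * Real.smoothTransition (h * Real.log n - Y) := by
    rw [e1]
    unfold WW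
    ring
  rw [e2]
  have h1 := Real.smoothTransition.nonneg (h * Real.log n - Y)
  have h2 := Real.smoothTransition.le_one (h * Real.log n - Y)
  refine ⟨mul_nonneg (Real.exp_pos _).le h1, ?_⟩
  rcases le_total (h * Real.log n) Y with h3 | h3
  · rw [Real.smoothTransition.zero_of_nonpos (by linarith), mul_zero]
    exact (Real.exp_pos _).le
  · calc Real.exp (-(h * Real.log n)) * Real.smoothTransition (h * Real.log n - Y)
        ≤ Real.exp (-(h * Real.log n)) * 1 := mul_le_mul_of_nonneg_left h2 (Real.exp_pos _).le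
      _ ≤ Real.exp (-Y) := by
          rw [mul_one]
          exact Real.exp_le_exp.2 (by linarith)

theorem K2p_nonneg (E : ℝ) (n : ℕ) : 0 ≤ K2p E n := by
  unfold K2p
  exact Set.indicator_nonneg (fun m _ => Real.rpow_nonneg (Nat.cast_nonneg m) _) n

theorem K2_zero (E : ℝ) : (0 : ℕ) ∉ Nat.factoredNumbers (prm 1 E) := fun h =>
  Nat.ne_zero_of_mem_factoredNumbers h rfl

theorem K2p_zero (E : ℝ) : K2p E 0 = 0 := by
  unfold K2p
  rw [Set.indicator_of_notMem (K2_zero E)]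

theorem K2p_summable (E : ℝ) : Summable (K2p E) := by
  have h1 := (ZZh_hasSum (h := 0) le_rfl 1 E).1
  unfold K2p
  rw [← summable_subtype_iff_indicator]
  refine h1.congr fun m => ?_
  rw [Function.comp_apply, sub_zero]

theorem K2_hasSum_p (E : ℝ) (x : Om) : ZZ 0 1 E x = ∑' n, (K2p E n : ℂ) * ch x n := by
  have h1 := (ZZh_hasSum (h := 0) le_rfl 1 E).2 x
  rw [Complex.ofReal_zero] at h1
  rw [← h1.tsum_eq]
  have e : (fun n : ℕ => (K2p E n : ℂ) * ch x n) = (Nat.factoredNumbers (prm 1 E)).indicator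
      fun n : ℕ => ((((n : ℕ) : ℝ) ^ (-(1 / 2 : ℝ)) : ℝ) : ℂ) * ch x n := by
    funext n
    unfold K2p
    by_cases hn : n ∈ Nat.factoredNumbers (prm 1 E)
    · rw [Set.indicator_of_mem hn, Set.indicator_of_mem hn]
    · rw [Set.indicator_of_notMem hn, Set.indicator_of_notMem hn]
      simp
  rw [e, ← tsum_subtype]
  refine tsum_congr fun m => ?_
  rw [sub_zero]

theorem K2_mem {E : ℝ} {n : ℕ} (hn : n ∈ Finset.Icc 1 ⌊E⌋₊) : n ∈ Nat.factoredNumbers (prm 1 E) := by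
  rw [Finset.mem_Icc] at hn
  rw [Nat.mem_factoredNumbers_iff_forall_le]
  refine ⟨by omega, fun p hp hpp hpn => ?_⟩
  rw [mem_prm]
  refine ⟨hpp, by exact_mod_cast hpp.one_lt, ?_⟩
  have h1 : p ≤ ⌊E⌋₊ := hp.trans hn.2
  exact (Nat.le_floor_iff' hpp.ne_zero).1 h1

theorem K2_hasSum_r {h Y : ℝ} (hh : 0 < h) (hY : 0 ≤ Y) (x : Om) :
    ZZ (h : ℂ) 1 (Real.exp ((Y + 1) / h)) x - DY h Y x =
      ∑' n, (K2r h Y (Real.exp ((Y + 1) / h)) n : ℂ) * ch x n := by
  set E := Real.exp ((Y + 1) / h) with hE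
  have hYh : (Y + 1) / h ≠ 0 := by positivity
  have h1 := (ZZh_hasSum (h := h) hh.le 1 E).2 x
  have h1' : HasSum ((Nat.factoredNumbers (prm 1 E)).indicator
      fun n : ℕ => ((((n : ℕ) : ℝ) ^ (-(1 / 2) - h) : ℝ) : ℂ) * ch x n) (ZZ (h : ℂ) 1 E x) :=
    hasSum_subtype_iff_indicator.1 h1
  have h2 : HasSum (fun n : ℕ => (K2p E n : ℂ) * ((WW Y (h * Real.log n) : ℝ) : ℂ) * ch x n)
      (DY h Y x) := by
    have e : DY h Y x = ∑ n ∈ Finset.Icc 1 ⌊E⌋₊,
        (K2p E n : ℂ) * ((WW Y (h * Real.log n) : ℝ) : ℂ) * ch x n := by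
      unfold DY SS DS ww
      refine Finset.sum_congr rfl fun n hn => ?_
      have hn0 : n ≠ 0 := by
        rw [Finset.mem_Icc] at hn
        omega
      have e1 : (Y + 1) * (Real.log n / ((Y + 1) / h)) = h * Real.log n := by
        field_simp
      have e2 : K2p E n = (Real.sqrt n)⁻¹ := by
        unfold K2p
        rw [Set.indicator_of_mem (K2_mem hn), Real.sqrt_eq_rpow, ← Real.rpow_neg (Nat.cast_nonneg n)]
      simp only [e1, e2]
      ring
    rw [e]
    refine hasSum_sum_of_ne_finset_zero fun n hn => ?_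
    by_cases hnF : n ∈ Nat.factoredNumbers (prm 1 E)
    · have hn0 : n ≠ 0 := Nat.ne_zero_of_mem_factoredNumbers hnF
      have hlt : E < n := by
        by_contra hle
        push Not at hle
        exact hn (Finset.mem_Icc.2 ⟨Nat.pos_of_ne_zero hn0, Nat.le_floor hle⟩)
      have hlog : (Y + 1) / h < Real.log n := by
        rw [Real.lt_log_iff_exp_lt (by exact_mod_cast Nat.pos_of_ne_zero hn0)]
        exact hlt
      have hge : 1 ≤ h * Real.log n - Y := by
        rw [div_lt_iff₀ hh] at hlog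
        linarith
      have hW : WW Y (h * Real.log n) = 0 := by
        unfold WW
        rw [Real.smoothTransition.one_of_one_le hge, sub_self, mul_zero]
      rw [hW]
      simp
    · have : K2p E n = 0 := by
        unfold K2p
        rw [Set.indicator_of_notMem hnF]
      rw [this]
      simp
  have h3 := h1'.sub h2
  rw [← h3.tsum_eq]
  refine tsum_congr fun n => ?_
  unfold K2r
  by_cases hnF : n ∈ Nat.factoredNumbers (prm 1 E)
  · have hn0 : n ≠ 0 := Nat.ne_zero_of_mem_factoredNumbers hnF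
    have hpos : (0 : ℝ) < n := by exact_mod_cast Nat.pos_of_ne_zero hn0
    have e3 : K2p E n = (n : ℝ) ^ (-(1 / 2 : ℝ)) := by
      unfold K2p
      rw [Set.indicator_of_mem hnF]
    rw [Set.indicator_of_mem hnF, e3, sub_eq_add_neg (-(1 / 2 : ℝ)) h, Real.rpow_add hpos]
    push_cast
    ring
  · have : K2p E n = 0 := by
      unfold K2p
      rw [Set.indicator_of_notMem hnF]
    rw [Set.indicator_of_notMem hnF, this]
    simp

theorem K2r_le {h Y E : ℝ} (n : ℕ) :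
    0 ≤ K2r h Y E n ∧ K2r h Y E n ≤ Real.exp (-Y) * K2p E n := by
  unfold K2r
  rcases eq_or_ne n 0 with rfl | hn
  · rw [K2p_zero]
    simp
  · obtain ⟨h1, h2⟩ := K2_bd (h := h) (Y := Y) hn
    refine ⟨mul_nonneg (K2p_nonneg E n) h1, ?_⟩
    rw [mul_comm (Real.exp (-Y))]
    exact mul_le_mul_of_nonneg_left h2 (K2p_nonneg E n)

theorem tail_sq {h Y : ℝ} (hh : 0 < h) (hY : 0 ≤ Y) :
    ∫ x, ‖ZZ 0 1 (Real.exp ((Y + 1) / h)) x‖ ^ 2 *
      ‖ZZ (h : ℂ) 1 (Real.exp ((Y + 1) / h)) x - DY h Y x‖ ^ 2 ∂mu ≤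
      Real.exp (-2 * Y) * ∫ x, ‖ZZ 0 1 (Real.exp ((Y + 1) / h)) x‖ ^ 4 ∂mu := by
  set E := Real.exp ((Y + 1) / h) with hE
  have hps := K2p_summable E
  have hrs : Summable (K2r h Y E) :=
    Summable.of_nonneg_of_le (fun n => (K2r_le n).1) (fun n => (K2r_le n).2)
      (hps.mul_left _)
  have hr0 : K2r h Y E 0 = 0 := by
    unfold K2r
    rw [K2p_zero, zero_mul]
  obtain ⟨hs1, he1⟩ := K2_sq (K2p_zero E) hr0 (K2p_nonneg E) (fun n => (K2r_le n).1) hps hrs
  obtain ⟨hs2, he2⟩ := K2_sq (K2p_zero E) (K2p_zero E) (K2p_nonneg E) (K2p_nonneg E) hps hps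
  have e1 : ∀ x : Om, ‖ZZ 0 1 E x‖ ^ 2 * ‖ZZ (h : ℂ) 1 E x - DY h Y x‖ ^ 2 =
      ‖(∑' n, (K2p E n : ℂ) * ch x n)‖ ^ 2 * ‖(∑' n, (K2r h Y E n : ℂ) * ch x n)‖ ^ 2 := by
    intro x
    rw [K2_hasSum_p E x, K2_hasSum_r hh hY x]
  have e2 : ∀ x : Om, ‖ZZ 0 1 E x‖ ^ 4 =
      ‖(∑' n, (K2p E n : ℂ) * ch x n)‖ ^ 2 * ‖(∑' n, (K2p E n : ℂ) * ch x n)‖ ^ 2 := by
    intro x
    rw [K2_hasSum_p E x]
    ring
  simp_rw [e1, e2]
  rw [he1, he2, ← tsum_mul_left]
  have hc1 : ∀ n : ℕ, 0 ≤ ∑ q ∈ n.divisorsAntidiagonal, K2p E q.1 * K2r h Y E q.2 := fun n =>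
    Finset.sum_nonneg fun q _ => mul_nonneg (K2p_nonneg E _) (K2r_le _).1
  have hc2 : ∀ n : ℕ, 0 ≤ ∑ q ∈ n.divisorsAntidiagonal, K2p E q.1 * K2p E q.2 := fun n =>
    Finset.sum_nonneg fun q _ => mul_nonneg (K2p_nonneg E _) (K2p_nonneg E _)
  have hle : ∀ n : ℕ, (∑ q ∈ n.divisorsAntidiagonal, K2p E q.1 * K2r h Y E q.2) ^ 2 ≤
      Real.exp (-2 * Y) * (∑ q ∈ n.divisorsAntidiagonal, K2p E q.1 * K2p E q.2) ^ 2 := by
    intro n
    have h1 : ∑ q ∈ n.divisorsAntidiagonal, K2p E q.1 * K2r h Y E q.2 ≤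
        Real.exp (-Y) * ∑ q ∈ n.divisorsAntidiagonal, K2p E q.1 * K2p E q.2 := by
      rw [Finset.mul_sum]
      refine Finset.sum_le_sum fun q _ => ?_
      calc K2p E q.1 * K2r h Y E q.2 ≤ K2p E q.1 * (Real.exp (-Y) * K2p E q.2) :=
            mul_le_mul_of_nonneg_left (K2r_le _).2 (K2p_nonneg E _)
        _ = _ := by ring
    calc _ ≤ (Real.exp (-Y) * ∑ q ∈ n.divisorsAntidiagonal, K2p E q.1 * K2p E q.2) ^ 2 :=
          pow_le_pow_left₀ (hc1 n) h1 2
      _ = _ := by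
          rw [mul_pow, ← Real.exp_nat_mul]
          congr 2
          push_cast
          ring
  have hsq : Summable fun n : ℕ => (∑ q ∈ n.divisorsAntidiagonal, K2p E q.1 * K2p E q.2) ^ 2 := by
    refine Summable.of_nonneg_of_le (fun n => sq_nonneg _) (fun n => ?_)
      (hs2.mul_left (∑' n : ℕ, ∑ q ∈ n.divisorsAntidiagonal, K2p E q.1 * K2p E q.2))
    rw [sq]
    exact mul_le_mul_of_nonneg_right (hs2.le_tsum n fun j _ => hc2 j) (hc2 n)
  exact Summable.tsum_le_tsum hle (Summable.of_nonneg_of_le (fun n => sq_nonneg _) hle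
    (hsq.mul_left _)) (hsq.mul_left _)

end Pool.Agent.LibSM93
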