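import Mathlib
import Pool.Agent.LibSM93.Defs
import Pool.Agent.LibSM93.K1
import Pool.Agent.LibSM93.K2
import Pool.Agent.LibSM93.U2

/-! Row K3.
L_Y = (Y+1)/h >= 1, so `Adm 0 L_Y` (`adm_zero`). Pointwise, for every lam > 0 and r >= 0:
r ^ beta <= lam ^ beta + lam ^ (beta - 2) * r ^ 2 (cases r <= lam, r > lam; beta <= 2). Integrate against the probability measure
nu 0 L_Y: `integral_nu` (B05.lean) gives int R^2 dnu = nz 0 1 e^L * int |ZZ 0|^2 R^2 dmu, nz <= 1 (`nz_le_one`), `tail_sq`, and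
int |ZZ 0 1 e^L|^4 dmu <= C L^4 (`moment_ZZ 2` in B04.lean with u = sqrt 2; prm 1 v = prm (sqrt 2) v, see P07_sum-like proof in
LibPH45/PH_07.lean or C3.lean; v = e^L). So int R^2 dnu <= C e^(-2Y) ((Y+1)/h)^4 -> 0 as Y -> oo (h fixed). First choose lam, then Y.
-/

set_option autoImplicit false

namespace Pool.Agent.LibSM93

open MeasureTheory Filter Topology Pool.Agent.LibMM99 Pool.Agent.LibTG78
open scoped ComplexConjugate

theorem K3_one_sqrt : (1 : ℝ) < Real.sqrt 2 := by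
  rw [Real.lt_sqrt (by norm_num)]; norm_num

theorem K3_prm (v : ℝ) : prm (Real.sqrt 2) v = prm 1 v := by
  ext p
  rw [mem_prm, mem_prm]
  constructor
  · rintro ⟨h1, h2, h3⟩
    exact ⟨h1, K3_one_sqrt.trans h2, h3⟩
  · rintro ⟨h1, h2, h3⟩
    refine ⟨h1, ?_, h3⟩
    have h4 : (2 : ℝ) ≤ p := by exact_mod_cast h1.two_le
    have h5 : Real.sqrt 2 < 2 := by
      rw [Real.sqrt_lt' (by norm_num)]; norm_num
    linarith

theorem K3_four : ∃ C : ℝ, 0 ≤ C ∧ ∀ L : ℝ, 1 ≤ L → ∫ x, ‖ZZ 0 1 (Real.exp L) x‖ ^ 4 ∂mu ≤ C * L ^ 4 := by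
  obtain ⟨C, hC, hm⟩ := moment_ZZ 2
  have hl : 0 < Real.log (Real.sqrt 2) := Real.log_pos K3_one_sqrt
  refine ⟨C * (1 / Real.log (Real.sqrt 2)) ^ 4, by positivity, fun L hL => ?_⟩
  have h1 : Real.sqrt 2 ≤ Real.exp L := by
    have h2 : Real.sqrt 2 < 2 := by
      rw [Real.sqrt_lt' (by norm_num)]; norm_num
    have h3 : (2 : ℝ) ≤ Real.exp L := by
      have := Real.add_one_le_exp L
      linarith
    linarith
  have h4 := hm 0 L (Real.sqrt 2) (Real.exp L) (adm_zero hL) le_rfl h1 le_rfl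
  have h5 : ∀ x, ZZ 0 (Real.sqrt 2) (Real.exp L) x = ZZ 0 1 (Real.exp L) x := fun x => by
    unfold ZZ
    rw [K3_prm]
  simp only [h5] at h4
  rw [Real.log_exp] at h4
  norm_num at h4
  refine h4.trans (le_of_eq ?_)
  ring

theorem K3_pt {β lam r : ℝ} (hβ : 0 < β) (hβ2 : β ≤ 2) (hl : 0 < lam) (hr : 0 ≤ r) :
    r ^ β ≤ lam ^ β + lam ^ (β - 2) * r ^ 2 := by
  rcases le_total r lam with h | h
  · have h1 := Real.rpow_le_rpow hr h hβ.le
    have h2 : 0 ≤ lam ^ (β - 2) * r ^ 2 := by positivity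
    linarith
  · have hr0 : 0 < r := lt_of_lt_of_le hl h
    have h1 : r ^ (β - 2) ≤ lam ^ (β - 2) := Real.rpow_le_rpow_of_nonpos hl h (by linarith)
    have h2 : r ^ β = r ^ (β - 2) * r ^ 2 := by
      rw [← Real.rpow_natCast r 2, ← Real.rpow_add hr0]
      norm_num
    have h3 : r ^ (β - 2) * r ^ 2 ≤ lam ^ (β - 2) * r ^ 2 :=
      mul_le_mul_of_nonneg_right h1 (by positivity)
    have h4 : 0 ≤ lam ^ β := by positivity
    linarith

theorem K3_bound {β : ℝ} (hβ : 0 < β) (hβ2 : β ≤ 2) {C : ℝ}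
    (hC : ∀ L : ℝ, 1 ≤ L → ∫ x, ‖ZZ 0 1 (Real.exp L) x‖ ^ 4 ∂mu ≤ C * L ^ 4)
    {h : ℝ} (hh : 0 < h) (hh1 : h ≤ 1) {Y : ℝ} (hY : 0 ≤ Y) :
    ∫ x, ‖ZZ (h : ℂ) 1 (Real.exp ((Y + 1) / h)) x - DY h Y x‖ ^ β ∂(nu 0 ((Y + 1) / h)) ≤
      Real.exp (-(β / 2) * Y) + C * (Real.exp (-Y) * ((Y + 1) / h) ^ 4) := by
  have hL : 1 ≤ (Y + 1) / h := by
    rw [le_div_iff₀ hh]
    linarith
  set L := (Y + 1) / h with hLdef
  have hA := adm_zero hL
  have := isProbabilityMeasure_nu hA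
  have hcR : Continuous fun x => ‖ZZ (h : ℂ) 1 (Real.exp L) x - DY h Y x‖ :=
    ((continuous_ZZh hh.le 1 (Real.exp L)).1.sub (DY_cont h Y).1).norm
  have hcβ : Continuous fun x => ‖ZZ (h : ℂ) 1 (Real.exp L) x - DY h Y x‖ ^ β :=
    hcR.rpow_const fun _ => Or.inr hβ.le
  have hc2 : Continuous fun x => ‖ZZ (h : ℂ) 1 (Real.exp L) x - DY h Y x‖ ^ 2 := hcR.pow 2
  have hc3 : Integrable (fun x => Real.exp (-(Y / 2)) ^ (β - 2) * ‖ZZ (h : ℂ) 1 (Real.exp L) x - DY h Y x‖ ^ 2) (nu 0 L) :=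
    A0_int (continuous_const.mul hc2)
  set lam := Real.exp (-(Y / 2)) with hlam
  have hl0 : 0 < lam := Real.exp_pos _
  have h1 : ∫ x, ‖ZZ (h : ℂ) 1 (Real.exp L) x - DY h Y x‖ ^ β ∂(nu 0 L) ≤
      ∫ x, (lam ^ β + lam ^ (β - 2) * ‖ZZ (h : ℂ) 1 (Real.exp L) x - DY h Y x‖ ^ 2) ∂(nu 0 L) := by
    refine integral_mono (A0_int hcβ) (A0_int ?_) fun x => ?_
    · exact continuous_const.add (continuous_const.mul hc2)
    · exact K3_pt hβ hβ2 hl0 (norm_nonneg _)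
  have h2 : ∫ x, (lam ^ β + lam ^ (β - 2) * ‖ZZ (h : ℂ) 1 (Real.exp L) x - DY h Y x‖ ^ 2) ∂(nu 0 L) =
      lam ^ β + lam ^ (β - 2) * ∫ x, ‖ZZ (h : ℂ) 1 (Real.exp L) x - DY h Y x‖ ^ 2 ∂(nu 0 L) := by
    rw [integral_add (integrable_const _) hc3, integral_const_mul]
    simp
  have h3 : ∫ x, ‖ZZ (h : ℂ) 1 (Real.exp L) x - DY h Y x‖ ^ 2 ∂(nu 0 L) ≤ Real.exp (-2 * Y) * (C * L ^ 4) := by
    rw [integral_nu hA hc2]
    have h4 := tail_sq hh hY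
    rw [← hLdef] at h4
    have h5 : 0 ≤ ∫ x, ‖ZZ 0 1 (Real.exp L) x‖ ^ 2 * ‖ZZ (h : ℂ) 1 (Real.exp L) x - DY h Y x‖ ^ 2 ∂mu :=
      integral_nonneg fun x => by positivity
    have h6 := mul_le_mul_of_nonneg_right (nz_le_one hA (u := 1) le_rfl) h5
    have h7 := mul_le_mul_of_nonneg_left (hC L hL) (Real.exp_pos (-2 * Y)).le
    rw [one_mul] at h6
    exact h6.trans (h4.trans h7)
  have h8 : lam ^ β = Real.exp (-(β / 2) * Y) := by
    rw [hlam, ← Real.exp_mul]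
    congr 1
    ring
  have h9 : lam ^ (β - 2) * Real.exp (-2 * Y) ≤ Real.exp (-Y) := by
    rw [hlam, ← Real.exp_mul, ← Real.exp_add]
    refine Real.exp_le_exp.2 ?_
    nlinarith
  have hCL : 0 ≤ C * L ^ 4 := by
    refine le_trans ?_ (hC L hL)
    exact integral_nonneg fun x => by positivity
  have h10 : lam ^ (β - 2) * ∫ x, ‖ZZ (h : ℂ) 1 (Real.exp L) x - DY h Y x‖ ^ 2 ∂(nu 0 L) ≤
      C * (Real.exp (-Y) * L ^ 4) := by
    calc lam ^ (β - 2) * ∫ x, ‖ZZ (h : ℂ) 1 (Real.exp L) x - DY h Y x‖ ^ 2 ∂(nu 0 L)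
        ≤ lam ^ (β - 2) * (Real.exp (-2 * Y) * (C * L ^ 4)) := mul_le_mul_of_nonneg_left h3 (by positivity)
      _ = (lam ^ (β - 2) * Real.exp (-2 * Y)) * (C * L ^ 4) := by ring
      _ ≤ Real.exp (-Y) * (C * L ^ 4) := mul_le_mul_of_nonneg_right h9 hCL
      _ = C * (Real.exp (-Y) * L ^ 4) := by ring
  rw [h2, h8] at h1
  linarith

theorem tail_model {β : ℝ} (hβ : 0 < β) (hβ2 : β ≤ 2) {h : ℝ} (hh : 0 < h) (hh1 : h ≤ 1) :
    Tendsto (fun Y : ℕ => ∫ x, ‖ZZ (h : ℂ) 1 (Real.exp (((Y : ℝ) + 1) / h)) x - DY h Y x‖ ^ β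
      ∂(nu 0 (((Y : ℝ) + 1) / h))) atTop (𝓝 0) := by
  obtain ⟨C, hC0, hC⟩ := K3_four
  have hN : Tendsto (fun Y : ℕ => (Y : ℝ)) atTop atTop := tendsto_natCast_atTop_atTop
  have h1 : Tendsto (fun Y : ℕ => Real.exp (-(β / 2) * (Y : ℝ))) atTop (𝓝 0) := by
    refine Real.tendsto_exp_atBot.comp ?_
    have h2 : Tendsto (fun Y : ℕ => (β / 2) * (Y : ℝ)) atTop atTop := hN.const_mul_atTop (by positivity)
    have h3 := tendsto_neg_atTop_atBot.comp h2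
    refine h3.congr fun Y => ?_
    simp only [Function.comp]
    ring
  have h2 : Tendsto (fun Y : ℕ => Real.exp (-(Y : ℝ)) * (((Y : ℝ) + 1) / h) ^ 4) atTop (𝓝 0) := by
    have h3 : Tendsto (fun y : ℝ => y ^ 4 * Real.exp (-y)) atTop (𝓝 0) :=
      Real.tendsto_pow_mul_exp_neg_atTop_nhds_zero 4
    have h4 : Tendsto (fun Y : ℕ => (Y : ℝ) + 1) atTop atTop := tendsto_atTop_add_const_right _ _ hN
    have h5 := (h3.comp h4).const_mul (Real.exp 1 * (1 / h) ^ 4)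
    rw [mul_zero] at h5
    refine h5.congr fun Y => ?_
    simp only [Function.comp]
    have h6 : Real.exp (-((Y : ℝ) + 1)) = Real.exp (-(Y : ℝ)) * Real.exp (-1) := by
      rw [← Real.exp_add]
      congr 1
      ring
    have h7 : Real.exp 1 * Real.exp (-1) = 1 := by
      rw [← Real.exp_add]
      simp
    rw [h6]
    calc Real.exp 1 * (1 / h) ^ 4 * (((Y : ℝ) + 1) ^ 4 * (Real.exp (-(Y : ℝ)) * Real.exp (-1)))
        = (Real.exp 1 * Real.exp (-1)) * (Real.exp (-(Y : ℝ)) * (((Y : ℝ) + 1) * (1 / h)) ^ 4) := by ring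
      _ = Real.exp (-(Y : ℝ)) * (((Y : ℝ) + 1) / h) ^ 4 := by rw [h7]; ring
  have h3 : Tendsto (fun Y : ℕ => Real.exp (-(β / 2) * (Y : ℝ)) +
      C * (Real.exp (-(Y : ℝ)) * (((Y : ℝ) + 1) / h) ^ 4)) atTop (𝓝 0) := by
    have := h1.add (h2.const_mul C)
    simpa using this
  refine squeeze_zero (fun Y => integral_nonneg fun x => by positivity) (fun Y => ?_) h3
  exact K3_bound hβ hβ2 hC hh hh1 (Nat.cast_nonneg Y)

end Pool.Agent.LibSM93
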