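import Mathlib
import Pool.Agent.LibSM93.Defs
import Pool.Agent.LibSM93.K1
import Pool.Agent.LibSM93.K2
import Pool.Agent.LibSM93.K3
import Pool.Agent.LibSM93.U2

/-! Row E4.
As tail_sq (K2.lean): P = ZZ 0 1 E = sum K2p n ch x n, R = ZZ h - DY = sum K2r n ch x n, 0 <= K2r <= e^-Y K2p. By induction on q
(using K2_mul/K2_sq and ch_mul): P * R^q = sum c n ch x n, P^(q+1) = sum d n ch x n with c, d summable, c 0 = d 0 = 0, 0 <= c n <= e^(-qY) d n;
then `parseval`. tail_model_all: for real β choose q with β <= 2q; nu 0 L is a probability measure, int R^β dnu <= (int R^(2q) dnu)^(β/(2q))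
(or r^β <= lam^β + lam^(β-2q) r^(2q) as K3_pt), int R^(2q) dnu <= int |P|^2 R^(2q) dmu (integral_nu, nz_le_one) <= e^(-2qY) int |P|^(2q+2) dmu
and int |P|^(2q+2) dmu <= C L^((q+1)^2) (`moment_ZZ (q+1)` in LibTG78/B04.lean, as K3_four). Tends to 0 as Y -> oo, h fixed.
-/

set_option autoImplicit false

namespace Pool.Agent.LibSM93

open MeasureTheory Filter Topology Pool.Agent.LibMM99 Pool.Agent.LibTG78
open scoped ComplexConjugate

/-- `a` are the nonnegative coefficients of `F` -/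
private def E4_Ex (F : Om → ℂ) (a : ℕ → ℝ) : Prop :=
  a 0 = 0 ∧ (∀ n, 0 ≤ a n) ∧ Summable a ∧ ∀ x, F x = ∑' n, (a n : ℂ) * ch x n

private noncomputable def E4_cv (a b : ℕ → ℝ) (n : ℕ) : ℝ :=
  ∑ q ∈ n.divisorsAntidiagonal, a q.1 * b q.2

private theorem E4_mul {F G : Om → ℂ} {a b : ℕ → ℝ} (hF : E4_Ex F a) (hG : E4_Ex G b) :
    E4_Ex (fun x => F x * G x) (E4_cv a b) := by
  obtain ⟨hf0, hfn, hf, hFx⟩ := hF
  obtain ⟨hg0, hgn, hg, hGx⟩ := hG
  have hs : Summable (E4_cv a b) := by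
    have h1 := (K2_mul (φ := fun n => (a n : ℂ)) (γ := fun n => (b n : ℂ)) (by simp [hf0])
      (by simp [hg0]) (Complex.summable_ofReal.2 hf) (Complex.summable_ofReal.2 hg)).1
    rw [← Complex.summable_ofReal]
    refine h1.congr fun n => ?_
    unfold E4_cv
    push_cast
    rfl
  refine ⟨?_, ?_, hs, ?_⟩
  · unfold E4_cv
    simp
  · intro n
    exact Finset.sum_nonneg fun q _ => mul_nonneg (hfn _) (hgn _)
  · intro x
    have hsf : Summable fun n => (a n : ℂ) * ch x n := by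
      refine Summable.of_norm ?_
      refine hf.congr fun n => ?_
      rw [norm_mul, norm_ch, mul_one, Complex.norm_real, Real.norm_of_nonneg (hfn n)]
    have hsg : Summable fun n => (b n : ℂ) * ch x n := by
      refine Summable.of_norm ?_
      refine hg.congr fun n => ?_
      rw [norm_mul, norm_ch, mul_one, Complex.norm_real, Real.norm_of_nonneg (hgn n)]
    change F x * G x = _
    rw [hFx, hGx, (K2_mul (φ := fun n => (a n : ℂ) * ch x n) (γ := fun n => (b n : ℂ) * ch x n)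
      (by simp [hf0]) (by simp [hg0]) hsf hsg).2]
    refine tsum_congr fun n => ?_
    unfold E4_cv
    push_cast
    rw [Finset.sum_mul]
    refine Finset.sum_congr rfl fun q hq => ?_
    obtain ⟨h1, h2⟩ := Nat.mem_divisorsAntidiagonal.1 hq
    have hq1 : q.1 ≠ 0 := fun h => h2 (by rw [← h1, h, zero_mul])
    have hq2 : q.2 ≠ 0 := fun h => h2 (by rw [← h1, h, mul_zero])
    rw [← h1, ch_mul x hq1 hq2]
    ring

private theorem E4_sq {F : Om → ℂ} {a : ℕ → ℝ} (hF : E4_Ex F a) :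
    ∫ x, ‖F x‖ ^ 2 ∂mu = ∑' n, (a n) ^ 2 := by
  obtain ⟨hf0, hfn, hf, hFx⟩ := hF
  have hc : Summable fun n : ℕ => ‖((a n : ℝ) : ℂ)‖ := by
    refine hf.congr fun n => ?_
    rw [Complex.norm_real, Real.norm_of_nonneg (hfn n)]
  have hp := parseval (c := fun n : ℕ => ((a n : ℝ) : ℂ)) (by simp [hf0]) hc
  simp_rw [hFx]
  rw [hp]
  refine tsum_congr fun n => ?_
  rw [Complex.norm_real, Real.norm_of_nonneg (hfn n)]

private theorem E4_ind {P R : Om → ℂ} {p r : ℕ → ℝ} (hP : E4_Ex P p) (hR : E4_Ex R r) {Y : ℝ}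
    (hle : ∀ n, r n ≤ Real.exp (-Y) * p n) (q : ℕ) :
    ∃ c d : ℕ → ℝ, E4_Ex (fun x => P x * R x ^ q) c ∧ E4_Ex (fun x => P x ^ (q + 1)) d ∧
      ∀ n, c n ≤ Real.exp (-(q * Y)) * d n := by
  induction q with
  | zero =>
    refine ⟨p, p, ?_, ?_, ?_⟩
    · simpa using hP
    · simpa using hP
    · intro n
      simp
  | succ q ih =>
    obtain ⟨c, d, hc, hd, hcd⟩ := ih
    refine ⟨E4_cv c r, E4_cv d p, ?_, ?_, ?_⟩
    · have h1 := E4_mul hc hR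
      have h2 : (fun x => P x * R x ^ (q + 1)) = fun x => P x * R x ^ q * R x := by
        funext x
        ring
      rw [h2]
      exact h1
    · have h1 := E4_mul hd hP
      have h2 : (fun x => P x ^ (q + 1 + 1)) = fun x => P x ^ (q + 1) * P x := by
        funext x
        ring
      rw [h2]
      exact h1
    · intro n
      unfold E4_cv
      rw [Finset.mul_sum]
      refine Finset.sum_le_sum fun s _ => ?_
      have h1 : c s.1 * r s.2 ≤ (Real.exp (-(q * Y)) * d s.1) * (Real.exp (-Y) * p s.2) :=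
        mul_le_mul (hcd _) (hle _) (hR.2.1 _) (mul_nonneg (Real.exp_pos _).le (hd.2.1 _))
      have h2 : Real.exp (-(((q + 1 : ℕ) : ℝ) * Y)) = Real.exp (-(q * Y)) * Real.exp (-Y) := by
        rw [← Real.exp_add]
        congr 1
        push_cast
        ring
      rw [h2]
      calc _ ≤ _ := h1
        _ = _ := by ring

private theorem E4_sq_summable {F : Om → ℂ} {a : ℕ → ℝ} (hF : E4_Ex F a) :
    Summable fun n => (a n) ^ 2 := by
  obtain ⟨_, hfn, hf, _⟩ := hF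
  refine Summable.of_nonneg_of_le (fun n => sq_nonneg _) (fun n => ?_) (hf.mul_left (∑' n, a n))
  rw [sq]
  exact mul_le_mul_of_nonneg_right (hf.le_tsum n fun j _ => hfn j) (hfn n)

theorem tail_pow (q : ℕ) {h Y : ℝ} (hh : 0 < h) (hY : 0 ≤ Y) :
    ∫ x, ‖ZZ 0 1 (Real.exp ((Y + 1) / h)) x‖ ^ 2 *
      ‖ZZ (h : ℂ) 1 (Real.exp ((Y + 1) / h)) x - DY h Y x‖ ^ (2 * q) ∂mu ≤
      Real.exp (-(2 * q * Y)) * ∫ x, ‖ZZ 0 1 (Real.exp ((Y + 1) / h)) x‖ ^ (2 * q + 2) ∂mu := by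
  set E := Real.exp ((Y + 1) / h) with hE
  have hps := K2p_summable E
  have hrs : Summable (K2r h Y E) :=
    Summable.of_nonneg_of_le (fun n => (K2r_le n).1) (fun n => (K2r_le n).2)
      (hps.mul_left _)
  have hr0 : K2r h Y E 0 = 0 := by
    unfold K2r
    rw [K2p_zero, zero_mul]
  have hP : E4_Ex (ZZ 0 1 E) (K2p E) := ⟨K2p_zero E, K2p_nonneg E, hps, K2_hasSum_p E⟩
  have hR : E4_Ex (fun x => ZZ (h : ℂ) 1 E x - DY h Y x) (K2r h Y E) :=
    ⟨hr0, fun n => (K2r_le n).1, hrs, K2_hasSum_r hh hY⟩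
  obtain ⟨c, d, hc, hd, hcd⟩ := E4_ind hP hR (Y := Y) (fun n => (K2r_le n).2) q
  have e1 : ∀ x : Om, ‖ZZ 0 1 E x‖ ^ 2 * ‖ZZ (h : ℂ) 1 E x - DY h Y x‖ ^ (2 * q) =
      ‖ZZ 0 1 E x * (ZZ (h : ℂ) 1 E x - DY h Y x) ^ q‖ ^ 2 := by
    intro x
    rw [norm_mul, norm_pow, mul_pow, ← pow_mul, mul_comm q 2]
  have e2 : ∀ x : Om, ‖ZZ 0 1 E x‖ ^ (2 * q + 2) = ‖ZZ 0 1 E x ^ (q + 1)‖ ^ 2 := by
    intro x
    rw [norm_pow, ← pow_mul]
    congr 1
    ring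
  simp_rw [e1, e2]
  rw [E4_sq hc, E4_sq hd, ← tsum_mul_left]
  have hle : ∀ n : ℕ, c n ^ 2 ≤ Real.exp (-(2 * q * Y)) * d n ^ 2 := by
    intro n
    calc c n ^ 2 ≤ (Real.exp (-(q * Y)) * d n) ^ 2 := pow_le_pow_left₀ (hc.2.1 n) (hcd n) 2
      _ = _ := by
          rw [mul_pow, ← Real.exp_nat_mul]
          congr 2
          push_cast
          ring
  exact Summable.tsum_le_tsum hle (E4_sq_summable hc) ((E4_sq_summable hd).mul_left _)

private theorem E4_moment (q : ℕ) : ∃ C : ℝ, 0 ≤ C ∧ ∀ L : ℝ, 1 ≤ L →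
    ∫ x, ‖ZZ 0 1 (Real.exp L) x‖ ^ (2 * q + 2) ∂mu ≤ C * L ^ ((q + 1) ^ 2) := by
  obtain ⟨C, hC, hm⟩ := moment_ZZ (q + 1)
  have hl : 0 < Real.log (Real.sqrt 2) := Real.log_pos K3_one_sqrt
  refine ⟨C * (1 / Real.log (Real.sqrt 2)) ^ ((q + 1) ^ 2), by positivity, fun L hL => ?_⟩
  have h1 : Real.sqrt 2 ≤ Real.exp L := by
    have h2 : Real.sqrt 2 < 2 := by
      rw [Real.sqrt_lt' (by norm_num)]; norm_num
    have h3 : (2 : ℝ) ≤ Real.exp L := by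
      have := Real.add_one_le_exp L
      linarith
    linarith
  have h4 := hm 0 L (Real.sqrt 2) (Real.exp L) (adm_zero hL) le_rfl h1 le_rfl
  have h5 : ∀ x, ZZ 0 (Real.sqrt 2) (Real.exp L) x = ZZ 0 1 (Real.exp L) x := fun x => by
    unfold ZZ
    rw [K3_prm]
  simp only [h5] at h4
  rw [Real.log_exp, show 2 * (q + 1) = 2 * q + 2 by ring] at h4
  refine h4.trans (le_of_eq ?_)
  rw [mul_assoc, ← mul_pow]
  congr 2
  ring

private theorem E4_pt {β lam r : ℝ} {q : ℕ} (hβ : 0 < β) (hβ2 : β ≤ 2 * q) (hl : 0 < lam)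
    (hr : 0 ≤ r) : r ^ β ≤ lam ^ β + lam ^ (β - 2 * q) * r ^ (2 * q) := by
  rcases le_total r lam with h | h
  · have h1 := Real.rpow_le_rpow hr h hβ.le
    have h2 : 0 ≤ lam ^ (β - 2 * q) * r ^ (2 * q) := by positivity
    linarith
  · have hr0 : 0 < r := lt_of_lt_of_le hl h
    have h1 : r ^ (β - 2 * q) ≤ lam ^ (β - 2 * q) :=
      Real.rpow_le_rpow_of_nonpos hl h (by linarith)
    have h2 : r ^ β = r ^ (β - 2 * q) * r ^ (2 * q) := by
      rw [← Real.rpow_natCast r (2 * q), ← Real.rpow_add hr0]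
      congr 1
      push_cast
      ring
    have h3 : r ^ (β - 2 * q) * r ^ (2 * q) ≤ lam ^ (β - 2 * q) * r ^ (2 * q) :=
      mul_le_mul_of_nonneg_right h1 (by positivity)
    have h4 : 0 ≤ lam ^ β := by positivity
    linarith

private theorem E4_bound {β : ℝ} {q : ℕ} (hβ : 0 < β) (hq : 1 ≤ q) (hβ2 : β ≤ 2 * q) {C : ℝ}
    (hC : ∀ L : ℝ, 1 ≤ L → ∫ x, ‖ZZ 0 1 (Real.exp L) x‖ ^ (2 * q + 2) ∂mu ≤ C * L ^ ((q + 1) ^ 2))
    {h : ℝ} (hh : 0 < h) (hh1 : h ≤ 1) {Y : ℝ} (hY : 0 ≤ Y) :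
    ∫ x, ‖ZZ (h : ℂ) 1 (Real.exp ((Y + 1) / h)) x - DY h Y x‖ ^ β ∂(nu 0 ((Y + 1) / h)) ≤
      Real.exp (-(β / 2) * Y) + C * (Real.exp (-Y) * ((Y + 1) / h) ^ ((q + 1) ^ 2)) := by
  have hL : 1 ≤ (Y + 1) / h := by
    rw [le_div_iff₀ hh]
    linarith
  set L := (Y + 1) / h with hLdef
  have hA := adm_zero hL
  have := isProbabilityMeasure_nu hA
  have hcR : Continuous fun x => ‖ZZ (h : ℂ) 1 (Real.exp L) x - DY h Y x‖ :=
    ((continuous_ZZh hh.le 1 (Real.exp L)).1.sub (DY_cont h Y).1).norm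
  have hcβ : Continuous fun x => ‖ZZ (h : ℂ) 1 (Real.exp L) x - DY h Y x‖ ^ β :=
    hcR.rpow_const fun _ => Or.inr hβ.le
  have hc2 : Continuous fun x => ‖ZZ (h : ℂ) 1 (Real.exp L) x - DY h Y x‖ ^ (2 * q) := hcR.pow _
  have hc3 : Integrable (fun x => Real.exp (-(Y / 2)) ^ (β - 2 * q) *
      ‖ZZ (h : ℂ) 1 (Real.exp L) x - DY h Y x‖ ^ (2 * q)) (nu 0 L) :=
    A0_int (continuous_const.mul hc2)
  set lam := Real.exp (-(Y / 2)) with hlam
  have hl0 : 0 < lam := Real.exp_pos _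
  have h1 : ∫ x, ‖ZZ (h : ℂ) 1 (Real.exp L) x - DY h Y x‖ ^ β ∂(nu 0 L) ≤
      ∫ x, (lam ^ β + lam ^ (β - 2 * q) *
        ‖ZZ (h : ℂ) 1 (Real.exp L) x - DY h Y x‖ ^ (2 * q)) ∂(nu 0 L) := by
    refine integral_mono (A0_int hcβ) (A0_int ?_) fun x => ?_
    · exact continuous_const.add (continuous_const.mul hc2)
    · exact E4_pt hβ hβ2 hl0 (norm_nonneg _)
  have h2 : ∫ x, (lam ^ β + lam ^ (β - 2 * q) *
        ‖ZZ (h : ℂ) 1 (Real.exp L) x - DY h Y x‖ ^ (2 * q)) ∂(nu 0 L) =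
      lam ^ β + lam ^ (β - 2 * q) *
        ∫ x, ‖ZZ (h : ℂ) 1 (Real.exp L) x - DY h Y x‖ ^ (2 * q) ∂(nu 0 L) := by
    rw [integral_add (integrable_const _) hc3, integral_const_mul]
    simp
  have h3 : ∫ x, ‖ZZ (h : ℂ) 1 (Real.exp L) x - DY h Y x‖ ^ (2 * q) ∂(nu 0 L) ≤
      Real.exp (-(2 * q * Y)) * (C * L ^ ((q + 1) ^ 2)) := by
    rw [integral_nu hA hc2]
    have h4 := tail_pow q hh hY
    rw [← hLdef] at h4
    have h5 : 0 ≤ ∫ x, ‖ZZ 0 1 (Real.exp L) x‖ ^ 2 *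
        ‖ZZ (h : ℂ) 1 (Real.exp L) x - DY h Y x‖ ^ (2 * q) ∂mu :=
      integral_nonneg fun x => by positivity
    have h6 := mul_le_mul_of_nonneg_right (nz_le_one hA (u := 1) le_rfl) h5
    have h7 := mul_le_mul_of_nonneg_left (hC L hL) (Real.exp_pos (-(2 * q * Y))).le
    rw [one_mul] at h6
    exact h6.trans (h4.trans h7)
  have h8 : lam ^ β = Real.exp (-(β / 2) * Y) := by
    rw [hlam, ← Real.exp_mul]
    congr 1
    ring
  have hq1 : (1 : ℝ) ≤ q := by exact_mod_cast hq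
  have h9 : lam ^ (β - 2 * q) * Real.exp (-(2 * q * Y)) ≤ Real.exp (-Y) := by
    rw [hlam, ← Real.exp_mul, ← Real.exp_add]
    refine Real.exp_le_exp.2 ?_
    nlinarith [mul_nonneg hY hβ.le, mul_nonneg hY (sub_nonneg.2 hq1)]
  have hCL : 0 ≤ C * L ^ ((q + 1) ^ 2) := by
    refine le_trans ?_ (hC L hL)
    exact integral_nonneg fun x => by positivity
  have h10 : lam ^ (β - 2 * q) *
      ∫ x, ‖ZZ (h : ℂ) 1 (Real.exp L) x - DY h Y x‖ ^ (2 * q) ∂(nu 0 L) ≤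
      C * (Real.exp (-Y) * L ^ ((q + 1) ^ 2)) := by
    calc lam ^ (β - 2 * q) *
          ∫ x, ‖ZZ (h : ℂ) 1 (Real.exp L) x - DY h Y x‖ ^ (2 * q) ∂(nu 0 L)
        ≤ lam ^ (β - 2 * q) * (Real.exp (-(2 * q * Y)) * (C * L ^ ((q + 1) ^ 2))) :=
          mul_le_mul_of_nonneg_left h3 (by positivity)
      _ = (lam ^ (β - 2 * q) * Real.exp (-(2 * q * Y))) * (C * L ^ ((q + 1) ^ 2)) := by ring
      _ ≤ Real.exp (-Y) * (C * L ^ ((q + 1) ^ 2)) := mul_le_mul_of_nonneg_right h9 hCL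
      _ = C * (Real.exp (-Y) * L ^ ((q + 1) ^ 2)) := by ring
  rw [h2, h8] at h1
  linarith

theorem tail_model_all {β : ℝ} (hβ : 0 < β) {h : ℝ} (hh : 0 < h) (hh1 : h ≤ 1) :
    Tendsto (fun Y : ℕ => ∫ x, ‖ZZ (h : ℂ) 1 (Real.exp (((Y : ℝ) + 1) / h)) x - DY h Y x‖ ^ β
      ∂(nu 0 (((Y : ℝ) + 1) / h))) atTop (𝓝 0) := by
  obtain ⟨q, hq, hβ2⟩ : ∃ q : ℕ, 1 ≤ q ∧ β ≤ 2 * q := by
    refine ⟨⌈β⌉₊ + 1, by omega, ?_⟩
    have h1 := Nat.le_ceil β
    have h2 : (0 : ℝ) ≤ ⌈β⌉₊ := Nat.cast_nonneg _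
    push_cast
    linarith
  obtain ⟨C, hC0, hC⟩ := E4_moment q
  obtain ⟨N, hNd⟩ : ∃ N : ℕ, N = (q + 1) ^ 2 := ⟨_, rfl⟩
  have hN : Tendsto (fun Y : ℕ => (Y : ℝ)) atTop atTop := tendsto_natCast_atTop_atTop
  have h1 : Tendsto (fun Y : ℕ => Real.exp (-(β / 2) * (Y : ℝ))) atTop (𝓝 0) := by
    refine Real.tendsto_exp_atBot.comp ?_
    have h2 : Tendsto (fun Y : ℕ => (β / 2) * (Y : ℝ)) atTop atTop := hN.const_mul_atTop (by positivity)
    have h3 := tendsto_neg_atTop_atBot.comp h2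
    refine h3.congr fun Y => ?_
    simp only [Function.comp]
    ring
  have h2 : Tendsto (fun Y : ℕ => Real.exp (-(Y : ℝ)) * (((Y : ℝ) + 1) / h) ^ N) atTop (𝓝 0) := by
    have h3 : Tendsto (fun y : ℝ => y ^ N * Real.exp (-y)) atTop (𝓝 0) :=
      Real.tendsto_pow_mul_exp_neg_atTop_nhds_zero N
    have h4 : Tendsto (fun Y : ℕ => (Y : ℝ) + 1) atTop atTop := tendsto_atTop_add_const_right _ _ hN
    have h5 := (h3.comp h4).const_mul (Real.exp 1 * (1 / h) ^ N)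
    rw [mul_zero] at h5
    refine h5.congr fun Y => ?_
    simp only [Function.comp]
    have h6 : Real.exp (-((Y : ℝ) + 1)) = Real.exp (-(Y : ℝ)) * Real.exp (-1) := by
      rw [← Real.exp_add]
      congr 1
      ring
    have h7 : Real.exp 1 * Real.exp (-1) = 1 := by
      rw [← Real.exp_add]
      simp
    have h8 : (((Y : ℝ) + 1) / h) ^ N = ((Y : ℝ) + 1) ^ N * (1 / h) ^ N := by
      rw [← mul_pow]
      congr 1
      ring
    rw [h6, h8]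
    calc Real.exp 1 * (1 / h) ^ N * (((Y : ℝ) + 1) ^ N * (Real.exp (-(Y : ℝ)) * Real.exp (-1)))
        = (Real.exp 1 * Real.exp (-1)) *
          (Real.exp (-(Y : ℝ)) * (((Y : ℝ) + 1) ^ N * (1 / h) ^ N)) := by ring
      _ = Real.exp (-(Y : ℝ)) * (((Y : ℝ) + 1) ^ N * (1 / h) ^ N) := by rw [h7, one_mul]
  have h3 : Tendsto (fun Y : ℕ => Real.exp (-(β / 2) * (Y : ℝ)) +
      C * (Real.exp (-(Y : ℝ)) * (((Y : ℝ) + 1) / h) ^ N)) atTop (𝓝 0) := by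
    have := h1.add (h2.const_mul C)
    simpa using this
  refine squeeze_zero (fun Y => integral_nonneg fun x => by positivity) (fun Y => ?_) h3
  rw [hNd]
  exact E4_bound hβ hq hβ2 hC hh hh1 (Nat.cast_nonneg Y)

end Pool.Agent.LibSM93
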