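import Mathlib
import Pool.Agent.LibSM93.Defs

/-! Row K5.
One prime p, h in [0,1]; z = zp 0 p = p^(-1/2), z' = zp h p = p^(-1/2-h), both real in [0, 2^(-1/2)], X = ch x p, |X| = 1.
With w = z X, w' = z' X: |1-w|^-2 |1-w'|^-beta = exp(H), H = -2 log|1-w| - beta log|1-w'| = 2 Re(w + w^2/2) + beta Re(w' + w'^2/2) + O(p^(-3/2))
(-log|1-w| = Re(-log(1-w)), |w| <= 0.71: Mathlib `Complex.norm_log_one_add_sub_self_le`-type Taylor bounds or the series; see
P12_*, Gd_log in LibPH45). exp(H) = 1 + H + H^2/2 + O(|H|^3), |H| <= C p^(-1/2) bounded. Means over mu: int Re(c X) = int Re(c X^2) = 0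
(`c1a_ch` in C1a.lean, `integral_ch`), int (Re(b X))^2 = b^2/2 with b = 2z + beta z' real, all other products are O(p^(-3/2)).
So int = 1 + b^2/4 + O(p^(-3/2)), b^2/4 = (z + beta z'/2)^2 = 1/p + beta p^(-1-h) + beta^2/4 p^(-1-2h). Multiply by (1 - 1/p).
The constant may depend on beta. (Alternative without logarithms: |1-w|^-2 exactly, (|1-w'|^-1)^beta = (|1-w'|^2)^(-beta/2) and Taylor
to second order of t -> (1+t)^(-beta/2) at t = -2Re w' + |w'|^2.)
-/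

set_option autoImplicit false

namespace Pool.Agent.LibSM93

open MeasureTheory Filter Topology Pool.Agent.LibMM99 Pool.Agent.LibTG78
open scoped ComplexConjugate

theorem K5_seg {f f' : ℝ → ℝ} {t B : ℝ} (ht : -(23 / 25) ≤ t)
    (hf : ∀ s : ℝ, -(23 / 25) ≤ s → HasDerivAt f (f' s) s)
    (hb : ∀ s : ℝ, -(23 / 25) ≤ s → |s| ≤ |t| → |f' s| ≤ B) (h0 : f 0 = 0) : |f t| ≤ B * |t| := by
  have hs : ∀ s ∈ Set.uIcc 0 t, -(23 / 25) ≤ s ∧ |s| ≤ |t| := by
    intro s hs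
    rcases le_total 0 t with h | h
    · rw [Set.uIcc_of_le h] at hs
      exact ⟨by linarith [hs.1], by rw [abs_of_nonneg hs.1, abs_of_nonneg h]; exact hs.2⟩
    · rw [Set.uIcc_of_ge h] at hs
      exact ⟨by linarith [hs.1], by rw [abs_of_nonpos hs.2, abs_of_nonpos h]; linarith [hs.1]⟩
  have := (convex_uIcc (0 : ℝ) t).norm_image_sub_le_of_norm_hasDerivWithin_le (f := f) (f' := f') (C := B)
    (x := 0) (y := t) (fun s h => (hf s (hs s h).1).hasDerivWithinAt)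
    (fun s h => hb s (hs s h).1 (hs s h).2) Set.left_mem_uIcc Set.right_mem_uIcc
  rw [h0, sub_zero, sub_zero, Real.norm_eq_abs, Real.norm_eq_abs] at this
  exact this

theorem K5_der (e s : ℝ) (hs : -(23 / 25) ≤ s) :
    HasDerivAt (fun t : ℝ => (1 + t) ^ (-e)) (-e * (1 + s) ^ (-(e + 1))) s := by
  have h1 : HasDerivAt (fun t : ℝ => 1 + t) 1 s := (hasDerivAt_id s).const_add 1
  have h0 : (1 + s) ≠ 0 := by
    intro h
    linarith
  have h2 := h1.rpow_const (p := -e) (Or.inl h0)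
  rw [one_mul] at h2
  have h3 : -e - 1 = -(e + 1) := by ring
  rw [h3] at h2
  exact h2

theorem K5_bd (e s : ℝ) (he : 0 ≤ e) (hs : -(23 / 25) ≤ s) : (1 + s) ^ (-e) ≤ (2 / 25 : ℝ) ^ (-e) :=
  Real.rpow_le_rpow_of_nonpos (by norm_num) (by linarith) (by linarith)

theorem K5_L0 (e : ℝ) (he : 0 ≤ e) : ∃ C : ℝ, 0 ≤ C ∧ ∀ t : ℝ, -(23 / 25) ≤ t →
    |(1 + t) ^ (-e) - 1| ≤ C * |t| := by
  refine ⟨e * (2 / 25 : ℝ) ^ (-(e + 1)), by positivity, fun t ht => ?_⟩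
  refine K5_seg (f := fun t => (1 + t) ^ (-e) - 1) (f' := fun s => -e * (1 + s) ^ (-(e + 1))) ht
    (fun s hs => (K5_der e s hs).sub_const 1) ?_ (by simp)
  intro s hs _
  rw [abs_mul, abs_neg, abs_of_nonneg he, abs_of_nonneg (Real.rpow_nonneg (by linarith) _)]
  exact mul_le_mul_of_nonneg_left (K5_bd (e + 1) s (by linarith) hs) he

theorem K5_L1 (e : ℝ) (he : 0 ≤ e) : ∃ C : ℝ, 0 ≤ C ∧ ∀ t : ℝ, -(23 / 25) ≤ t →
    |(1 + t) ^ (-e) - (1 - e * t)| ≤ C * |t| ^ 2 := by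
  obtain ⟨C, hC, h⟩ := K5_L0 (e + 1) (by linarith)
  refine ⟨e * C, by positivity, fun t ht => ?_⟩
  have := K5_seg (f := fun t => (1 + t) ^ (-e) - (1 - e * t))
    (f' := fun s => -e * (1 + s) ^ (-(e + 1)) - (0 - e * 1)) (t := t) (B := e * C * |t|) ht
    (fun s hs => (K5_der e s hs).sub ((hasDerivAt_const s (1 : ℝ)).sub ((hasDerivAt_id s).const_mul e))) ?_
    (by simp)
  · rw [pow_two, ← mul_assoc]
    exact this
  · intro s hs hst
    have h2 : -e * (1 + s) ^ (-(e + 1)) - (0 - e * 1) = -(e * ((1 + s) ^ (-(e + 1)) - 1)) := by ring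
    rw [h2, abs_neg, abs_mul, abs_of_nonneg he, mul_assoc]
    exact mul_le_mul_of_nonneg_left ((h s hs).trans (mul_le_mul_of_nonneg_left hst hC)) he

theorem K5_L2 (e : ℝ) (he : 0 ≤ e) : ∃ C : ℝ, 0 ≤ C ∧ ∀ t : ℝ, -(23 / 25) ≤ t →
    |(1 + t) ^ (-e) - (1 - e * t + e * (e + 1) / 2 * t ^ 2)| ≤ C * |t| ^ 3 := by
  obtain ⟨C, hC, h⟩ := K5_L1 (e + 1) (by linarith)
  refine ⟨e * C, by positivity, fun t ht => ?_⟩
  have := K5_seg (f := fun t => (1 + t) ^ (-e) - (1 - e * t + e * (e + 1) / 2 * t ^ 2))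
    (f' := fun s => -e * (1 + s) ^ (-(e + 1)) - (0 - e * 1 + e * (e + 1) / 2 * (((2 : ℕ) : ℝ) * s ^ (2 - 1))))
    (t := t) (B := e * C * |t| ^ 2) ht
    (fun s hs => (K5_der e s hs).sub (((hasDerivAt_const s (1 : ℝ)).sub ((hasDerivAt_id s).const_mul e)).add
      ((hasDerivAt_pow 2 s).const_mul _))) ?_
    (by simp)
  · rw [pow_succ |t| 2, ← mul_assoc]
    exact this
  · intro s hs hst
    have h2 : -e * (1 + s) ^ (-(e + 1)) - (0 - e * 1 + e * (e + 1) / 2 * (((2 : ℕ) : ℝ) * s ^ (2 - 1))) =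
        -(e * ((1 + s) ^ (-(e + 1)) - (1 - (e + 1) * s))) := by
      push_cast
      ring
    rw [h2, abs_neg, abs_mul, abs_of_nonneg he, mul_assoc]
    exact mul_le_mul_of_nonneg_left ((h s hs).trans (mul_le_mul_of_nonneg_left
      (pow_le_pow_left₀ (abs_nonneg s) hst 2) hC)) he

/-- expansion of the product of the two factors, pointwise -/
theorem K5_pt (g : ℝ) (hg : 0 ≤ g) : ∃ K : ℝ, 0 ≤ K ∧ ∀ a b c : ℝ, 0 ≤ b → b ≤ a → a ≤ 71 / 100 → |c| ≤ 1 →
    |(1 + (-2 * a * c + a ^ 2)) ^ (-(1 : ℝ)) * (1 + (-2 * b * c + b ^ 2)) ^ (-g) -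
      (1 + 2 * (a + g * b) * c - a ^ 2 - g * b ^ 2 +
        c ^ 2 * (4 * a ^ 2 + 2 * (g * (g + 1)) * b ^ 2 + 4 * g * a * b))| ≤ K * a ^ 3 := by
  obtain ⟨C1, hC1, h1⟩ := K5_L2 1 (by norm_num)
  obtain ⟨C2, hC2, h2⟩ := K5_L2 g hg
  set M : ℝ := (2 / 25 : ℝ) ^ (-g) with hM
  have hM0 : 0 ≤ M := Real.rpow_nonneg (by norm_num) _
  refine ⟨27 * C1 * M + 351 * C2 + (27 * (g * (g + 1) / 2) + 27 * g + 81 * (g * (g + 1) / 2)) +
    (5 + 5 * (g * (g + 1) / 2) + 5 * g), by positivity, ?_⟩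
  intro a b c hb hba ha hc
  have ha0 : 0 ≤ a := hb.trans hba
  obtain ⟨hc1, hc2⟩ := abs_le.1 hc
  set t : ℝ := -2 * a * c + a ^ 2 with ht
  set u : ℝ := -2 * b * c + b ^ 2 with hu
  have t1 : -(23 / 25) ≤ t := by
    rw [ht]
    nlinarith
  have u1 : -(23 / 25) ≤ u := by
    rw [hu]
    nlinarith
  have t2 : |t| ≤ 3 * a := by
    rw [abs_le, ht]
    constructor <;> nlinarith
  have u2 : |u| ≤ 3 * a := by
    rw [abs_le, hu]
    constructor <;> nlinarith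
  have a1 : a ^ 4 ≤ a ^ 3 := pow_le_pow_of_le_one ha0 (by linarith) (by norm_num)
  have a3 : 0 ≤ a ^ 3 := by positivity
  have e1 := h1 t t1
  have e2 := h2 u u1
  have t3 : |t| ^ 3 ≤ 27 * a ^ 3 := by
    have := pow_le_pow_left₀ (abs_nonneg t) t2 3
    calc |t| ^ 3 ≤ (3 * a) ^ 3 := this
      _ = _ := by ring
  have u3 : |u| ^ 3 ≤ 27 * a ^ 3 := by
    have := pow_le_pow_left₀ (abs_nonneg u) u2 3
    calc |u| ^ 3 ≤ (3 * a) ^ 3 := this
      _ = _ := by ring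
  have t4 : |t| ≤ 3 := t2.trans (by linarith)
  have t5 : |t| ^ 2 ≤ 9 := by nlinarith [abs_nonneg t]
  set A : ℝ := (1 + t) ^ (-(1 : ℝ)) with hA
  set E : ℝ := (1 + u) ^ (-g) with hE
  have hE0 : |E| ≤ M := by
    rw [abs_of_nonneg (Real.rpow_nonneg (by linarith) _)]
    exact K5_bd g u hg u1
  set PA : ℝ := 1 - 1 * t + 1 * (1 + 1) / 2 * t ^ 2 with hPA
  set PE : ℝ := 1 - g * u + g * (g + 1) / 2 * u ^ 2 with hPE
  have p1 : |PA| ≤ 13 := by
    have : PA = 1 - t + t ^ 2 := by rw [hPA]; ring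
    rw [this]
    have h3 : |1 - t + t ^ 2| ≤ |1 - t| + |t ^ 2| := abs_add_le _ _
    have h4 : |1 - t| ≤ |(1 : ℝ)| + |t| := abs_sub _ _
    rw [abs_one] at h4
    rw [abs_pow] at h3
    linarith
  have s1 : |(A - PA) * E| ≤ 27 * C1 * M * a ^ 3 := by
    rw [abs_mul]
    calc |A - PA| * |E| ≤ (C1 * (27 * a ^ 3)) * M :=
          mul_le_mul (e1.trans (mul_le_mul_of_nonneg_left t3 hC1)) hE0 (abs_nonneg _) (by positivity)
      _ = _ := by ring
  have s2 : |PA * (E - PE)| ≤ 351 * C2 * a ^ 3 := by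
    rw [abs_mul]
    calc |PA| * |E - PE| ≤ 13 * (C2 * (27 * a ^ 3)) :=
          mul_le_mul p1 (e2.trans (mul_le_mul_of_nonneg_left u3 hC2)) (abs_nonneg _) (by norm_num)
      _ = _ := by ring
  have g2 : 0 ≤ g * (g + 1) / 2 := by positivity
  -- cubic and quartic terms
  have ttu : |t| * |u| * |u| ≤ 27 * a ^ 3 := by
    calc |t| * |u| * |u| ≤ (3 * a) * (3 * a) * (3 * a) := by gcongr
      _ = _ := by ring
  have s3 : |-(g * (g + 1) / 2) * (t * u ^ 2)| ≤ 27 * (g * (g + 1) / 2) * a ^ 3 := by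
    rw [abs_mul, abs_neg, abs_of_nonneg g2, abs_mul, abs_pow]
    have : |t| * |u| ^ 2 ≤ 27 * a ^ 3 := by
      calc |t| * |u| ^ 2 = |t| * |u| * |u| := by ring
        _ ≤ _ := ttu
    calc g * (g + 1) / 2 * (|t| * |u| ^ 2) ≤ g * (g + 1) / 2 * (27 * a ^ 3) := mul_le_mul_of_nonneg_left this g2
      _ = _ := by ring
  have s4 : |-g * (t ^ 2 * u)| ≤ 27 * g * a ^ 3 := by
    rw [abs_mul, abs_neg, abs_of_nonneg hg, abs_mul, abs_pow]
    have : |t| ^ 2 * |u| ≤ 27 * a ^ 3 := by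
      calc |t| ^ 2 * |u| ≤ (3 * a) ^ 2 * (3 * a) := by gcongr
        _ = _ := by ring
    calc g * (|t| ^ 2 * |u|) ≤ g * (27 * a ^ 3) := mul_le_mul_of_nonneg_left this hg
      _ = _ := by ring
  have s5 : |(g * (g + 1) / 2) * (t ^ 2 * u ^ 2)| ≤ 81 * (g * (g + 1) / 2) * a ^ 3 := by
    rw [abs_mul, abs_of_nonneg g2, abs_mul, abs_pow, abs_pow]
    have : |t| ^ 2 * |u| ^ 2 ≤ 81 * a ^ 3 := by
      calc |t| ^ 2 * |u| ^ 2 ≤ (3 * a) ^ 2 * (3 * a) ^ 2 := by gcongr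
        _ = 81 * a ^ 4 := by ring
        _ ≤ 81 * a ^ 3 := by linarith
    calc g * (g + 1) / 2 * (|t| ^ 2 * |u| ^ 2) ≤ g * (g + 1) / 2 * (81 * a ^ 3) :=
          mul_le_mul_of_nonneg_left this g2
      _ = _ := by ring
  -- quadratic differences
  have s6 : |t ^ 2 - 4 * a ^ 2 * c ^ 2| ≤ 5 * a ^ 3 := by
    have : t ^ 2 - 4 * a ^ 2 * c ^ 2 = a ^ 3 * (-4 * c + a) := by rw [ht]; ring
    rw [this, abs_mul, abs_of_nonneg a3, mul_comm]
    refine mul_le_mul_of_nonneg_right ?_ a3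
    rw [abs_le]
    constructor <;> linarith
  have hb3 : b ^ 3 ≤ a ^ 3 := pow_le_pow_left₀ hb hba 3
  have s7 : |(g * (g + 1) / 2) * (u ^ 2 - 4 * b ^ 2 * c ^ 2)| ≤ 5 * (g * (g + 1) / 2) * a ^ 3 := by
    have : u ^ 2 - 4 * b ^ 2 * c ^ 2 = b ^ 3 * (-4 * c + b) := by rw [hu]; ring
    rw [abs_mul, abs_of_nonneg g2, this, abs_mul, abs_of_nonneg (by positivity : 0 ≤ b ^ 3)]
    have h5 : |-4 * c + b| ≤ 5 := by
      rw [abs_le]
      constructor <;> linarith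
    calc g * (g + 1) / 2 * (b ^ 3 * |-4 * c + b|) ≤ g * (g + 1) / 2 * (a ^ 3 * 5) := by gcongr
      _ = _ := by ring
  have s8 : |g * (t * u - 4 * a * b * c ^ 2)| ≤ 5 * g * a ^ 3 := by
    have : t * u - 4 * a * b * c ^ 2 = a * b * (-2 * c * b - 2 * a * c + a * b) := by rw [ht, hu]; ring
    rw [abs_mul, abs_of_nonneg hg, this, abs_mul, abs_of_nonneg (by positivity : 0 ≤ a * b)]
    have h5 : |-2 * c * b - 2 * a * c + a * b| ≤ 5 * a := by
      rw [abs_le]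
      constructor <;> nlinarith
    have h6 : a * b * |-2 * c * b - 2 * a * c + a * b| ≤ a * a * (5 * a) := by gcongr
    calc g * (a * b * |-2 * c * b - 2 * a * c + a * b|) ≤ g * (a * a * (5 * a)) :=
          mul_le_mul_of_nonneg_left h6 hg
      _ = _ := by ring
  have key : A * E - (1 + 2 * (a + g * b) * c - a ^ 2 - g * b ^ 2 +
        c ^ 2 * (4 * a ^ 2 + 2 * (g * (g + 1)) * b ^ 2 + 4 * g * a * b)) =
      (A - PA) * E + PA * (E - PE) + (-(g * (g + 1) / 2) * (t * u ^ 2) + -g * (t ^ 2 * u) +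
        (g * (g + 1) / 2) * (t ^ 2 * u ^ 2)) + ((t ^ 2 - 4 * a ^ 2 * c ^ 2) +
        (g * (g + 1) / 2) * (u ^ 2 - 4 * b ^ 2 * c ^ 2) + g * (t * u - 4 * a * b * c ^ 2)) := by
    rw [hPA, hPE, ht, hu]
    ring
  rw [key]
  refine (abs_add_le _ _).trans ((add_le_add ((abs_add_le _ _).trans (add_le_add ((abs_add_le _ _).trans
    (add_le_add s1 s2)) ((abs_add_le _ _).trans (add_le_add ((abs_add_le _ _).trans (add_le_add s3 s4)) s5))))
    ((abs_add_le _ _).trans (add_le_add ((abs_add_le _ _).trans (add_le_add s6 s7)) s8))).trans ?_)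
  apply le_of_eq
  ring

theorem K5_norm (a : ℝ) (X : ℂ) (hX : ‖X‖ = 1) : ‖1 - (a : ℂ) * X‖ ^ 2 = 1 + (-2 * a * X.re + a ^ 2) := by
  have h1 : X.re ^ 2 + X.im ^ 2 = 1 := by
    have := Complex.sq_norm X
    rw [hX, Complex.normSq_apply] at this
    nlinarith
  rw [Complex.sq_norm, Complex.normSq_apply]
  simp only [Complex.sub_re, Complex.one_re, Complex.mul_re, Complex.ofReal_re, Complex.ofReal_im, zero_mul,
    sub_zero, Complex.sub_im, Complex.one_im, Complex.mul_im, add_zero, zero_sub]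
  nlinarith

theorem K5_int {p : ℕ} (hp : p.Prime) (A B C : ℝ) :
    ∫ x, (A + B * (ch x p).re + (ch x p).re ^ 2 * C) ∂mu = A + C / 2 := by
  have i1 : ∫ x, (ch x p).re ∂mu = 0 := by
    have h := c1a_ch hp 1
    simp only [pow_one, one_ne_zero, if_false] at h
    have h2 := integral_re (μ := mu) (f := fun x => ch x p) (integrable_of_continuous (continuous_ch p))
    rw [h] at h2
    simpa using h2
  have i2 : ∫ x, (ch x p).re ^ 2 ∂mu = 1 / 2 := by
    have h := c1a_ch hp 2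
    simp only [two_ne_zero, if_false] at h
    have h2 := integral_re (μ := mu) (f := fun x => ch x p ^ 2)
      (integrable_of_continuous ((continuous_ch p).pow 2))
    rw [h] at h2
    have h3 : ∀ x : Om, (ch x p).re ^ 2 = 1 / 2 + 1 / 2 * RCLike.re (ch x p ^ 2) := by
      intro x
      have h1 : (ch x p).re ^ 2 + (ch x p).im ^ 2 = 1 := by
        have := Complex.sq_norm (ch x p)
        rw [norm_ch, Complex.normSq_apply] at this
        nlinarith
      have h4 : RCLike.re (ch x p ^ 2) = (ch x p).re ^ 2 - (ch x p).im ^ 2 := by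
        change (ch x p ^ 2).re = _
        rw [pow_two, Complex.mul_re]
        ring
      rw [h4]
      linarith
    simp only [h3]
    have j1 : Integrable (fun x : Om => 1 / 2 * RCLike.re (ch x p ^ 2)) mu := by
      refine integrable_of_continuous ?_
      have hc : Continuous fun x : Om => ch x p ^ 2 := (continuous_ch p).pow 2
      exact continuous_const.mul (RCLike.continuous_re.comp hc)
    have j2 : Integrable (fun _ : Om => (1 / 2 : ℝ)) mu := integrable_const _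
    rw [integral_add j2 j1, integral_const_mul, h2]
    simp
  have c1 : Continuous fun x : Om => (ch x p).re := Complex.continuous_re.comp (continuous_ch p)
  have k1 : Integrable (fun x : Om => A + B * (ch x p).re) mu :=
    integrable_of_continuous (by fun_prop)
  have k2 : Integrable (fun x : Om => (ch x p).re ^ 2 * C) mu :=
    integrable_of_continuous (by fun_prop)
  have k3 : Integrable (fun x : Om => B * (ch x p).re) mu :=
    integrable_of_continuous (by fun_prop)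
  have k4 : Integrable (fun _ : Om => A) mu := integrable_const _
  rw [integral_add k1 k2, integral_add k4 k3, integral_const_mul, integral_mul_const, i1, i2]
  simp
  ring

theorem fp_approx {β : ℝ} (hβ : 0 < β) : ∃ C : ℝ, 1 ≤ C ∧ ∀ (p : ℕ) (h : ℝ), p.Prime → 0 ≤ h → h ≤ 1 →
    |fp β h p - (1 + (β * (p : ℝ) ^ (-h) + β ^ 2 / 4 * (p : ℝ) ^ (-(2 * h))) / p)| ≤
      C * (p : ℝ) ^ (-(3 / 2 : ℝ)) := by
  obtain ⟨K, hK, hpt⟩ := K5_pt (β / 2) (by linarith)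
  refine ⟨K + (1 + β + β ^ 2 / 4), by nlinarith, ?_⟩
  intro p h hp hh _
  have hp2 : (2 : ℝ) ≤ p := by exact_mod_cast hp.two_le
  have hp0 : (0 : ℝ) < p := by linarith
  set a : ℝ := (p : ℝ) ^ (-(1 / 2) : ℝ) with ha
  set b : ℝ := (p : ℝ) ^ (-(1 / 2) - h : ℝ) with hb
  have za : zp 0 p = (a : ℂ) := by
    rw [zp, ha, Complex.ofReal_cpow hp0.le]
    push_cast
    rw [sub_zero]
  have zb : zp (h : ℂ) p = (b : ℂ) := by
    rw [zp, hb, Complex.ofReal_cpow hp0.le]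
    push_cast
    rfl
  have ha0 : 0 ≤ a := Real.rpow_nonneg hp0.le _
  have hb0 : 0 ≤ b := Real.rpow_nonneg hp0.le _
  have hba : b ≤ a := Real.rpow_le_rpow_of_exponent_le (by linarith) (by linarith)
  have ha2 : a ^ 2 = (p : ℝ)⁻¹ := by
    rw [ha, ← Real.rpow_natCast, ← Real.rpow_mul hp0.le, ← Real.rpow_neg_one]
    norm_num
  have ha3 : a ^ 3 = (p : ℝ) ^ (-(3 / 2) : ℝ) := by
    rw [ha, ← Real.rpow_natCast, ← Real.rpow_mul hp0.le]
    norm_num
  have hab : a * b = (p : ℝ) ^ (-h) * (p : ℝ)⁻¹ := by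
    rw [ha, hb, ← Real.rpow_neg_one, ← Real.rpow_add hp0, ← Real.rpow_add hp0]
    congr 1
    ring
  have hb2 : b ^ 2 = (p : ℝ) ^ (-(2 * h)) * (p : ℝ)⁻¹ := by
    rw [hb, ← Real.rpow_neg_one, ← Real.rpow_add hp0, ← Real.rpow_natCast, ← Real.rpow_mul hp0.le]
    congr 1
    push_cast
    ring
  have ha71 : a ≤ 71 / 100 := by
    have h1 : a ^ 2 ≤ 1 / 2 := by
      rw [ha2, inv_eq_one_div]
      exact one_div_le_one_div_of_le (by norm_num) hp2
    nlinarith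
  -- the integrand
  have hf : ∀ x : Om, (‖1 - zp 0 p * ch x p‖⁻¹) ^ 2 * (‖1 - zp (h : ℂ) p * ch x p‖⁻¹) ^ β =
      (1 + (-2 * a * (ch x p).re + a ^ 2)) ^ (-(1 : ℝ)) *
        (1 + (-2 * b * (ch x p).re + b ^ 2)) ^ (-(β / 2)) := by
    intro x
    rw [za, zb, ← K5_norm a _ (norm_ch x p), ← K5_norm b _ (norm_ch x p)]
    congr 1
    · rw [Real.rpow_neg_one, inv_pow]
    · rw [Real.inv_rpow (norm_nonneg _), ← Real.rpow_neg (norm_nonneg _), ← Real.rpow_natCast,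
        ← Real.rpow_mul (norm_nonneg _)]
      congr 1
      push_cast
      ring
  set Q : Om → ℝ := fun x => (1 + 2 * (a + (β / 2) * b) * (ch x p).re - a ^ 2 - (β / 2) * b ^ 2 +
        (ch x p).re ^ 2 * (4 * a ^ 2 + 2 * ((β / 2) * ((β / 2) + 1)) * b ^ 2 + 4 * (β / 2) * a * b)) with hQ
  have hQi : ∫ x, Q x ∂mu = (1 - a ^ 2 - (β / 2) * b ^ 2) +
      (4 * a ^ 2 + 2 * ((β / 2) * ((β / 2) + 1)) * b ^ 2 + 4 * (β / 2) * a * b) / 2 := by
    rw [← K5_int hp _ (2 * (a + (β / 2) * b)) _]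
    congr 1
    funext x
    rw [hQ]
    ring
  have c1 : Continuous fun x : Om => (ch x p).re := Complex.continuous_re.comp (continuous_ch p)
  have hre : ∀ x : Om, |(ch x p).re| ≤ 1 := fun x => (Complex.abs_re_le_norm _).trans (norm_ch x p).le
  have hpos : ∀ (d : ℝ), 0 ≤ d → d ≤ 71 / 100 → ∀ x : Om, 1 + (-2 * d * (ch x p).re + d ^ 2) ≠ 0 := by
    intro d hd hd1 x
    obtain ⟨h1, h2⟩ := abs_le.1 (hre x)
    have : 0 < 1 + (-2 * d * (ch x p).re + d ^ 2) := by nlinarith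
    exact this.ne'
  have hF : Continuous fun x : Om => (1 + (-2 * a * (ch x p).re + a ^ 2)) ^ (-(1 : ℝ)) *
        (1 + (-2 * b * (ch x p).re + b ^ 2)) ^ (-(β / 2)) := by
    refine Continuous.mul ?_ ?_
    · refine Continuous.rpow_const (by fun_prop) (fun x => Or.inl (hpos a ha0 ha71 x))
    · refine Continuous.rpow_const (by fun_prop) (fun x => Or.inl (hpos b hb0 (hba.trans ha71) x))
  have hQc : Continuous Q := by
    rw [hQ]
    fun_prop
  set I : ℝ := ∫ x, (1 + (-2 * a * (ch x p).re + a ^ 2)) ^ (-(1 : ℝ)) *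
        (1 + (-2 * b * (ch x p).re + b ^ 2)) ^ (-(β / 2)) ∂mu with hI
  have hIQ : |I - ∫ x, Q x ∂mu| ≤ K * a ^ 3 := by
    rw [hI, ← integral_sub (integrable_of_continuous hF) (integrable_of_continuous hQc), ← Real.norm_eq_abs]
    have := norm_integral_le_of_norm_le_const (μ := mu) (C := K * a ^ 3)
      (f := fun x => (1 + (-2 * a * (ch x p).re + a ^ 2)) ^ (-(1 : ℝ)) *
        (1 + (-2 * b * (ch x p).re + b ^ 2)) ^ (-(β / 2)) - Q x)
      (Eventually.of_forall fun x => hpt a b (ch x p).re hb0 hba ha71 (hre x))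
    simpa using this
  have hfp : fp β h p = (1 - a ^ 2) * I := by
    rw [fp, ha2, hI]
    congr 1
    exact integral_congr_ae (Eventually.of_forall hf)
  have hT : (β * (p : ℝ) ^ (-h) + β ^ 2 / 4 * (p : ℝ) ^ (-(2 * h))) / p = β * (a * b) + β ^ 2 / 4 * b ^ 2 := by
    rw [hab, hb2]
    ring
  rw [hfp, hT, ← ha3]
  have hb2a : b ^ 2 ≤ a ^ 2 := pow_le_pow_left₀ hb0 hba 2
  have hTb : 0 ≤ β * (a * b) + β ^ 2 / 4 * b ^ 2 := by positivity
  have hTc : β * (a * b) + β ^ 2 / 4 * b ^ 2 ≤ (β + β ^ 2 / 4) * a ^ 2 := by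
    have h1 : a * b ≤ a ^ 2 := by
      rw [pow_two]
      exact mul_le_mul_of_nonneg_left hba ha0
    have h2 := mul_le_mul_of_nonneg_left h1 hβ.le
    have h3 := mul_le_mul_of_nonneg_left hb2a (by positivity : 0 ≤ β ^ 2 / 4)
    linarith
  set T : ℝ := β * (a * b) + β ^ 2 / 4 * b ^ 2 with hTd
  have hQ2 : ∫ x, Q x ∂mu = 1 + a ^ 2 + T := by
    rw [hQi, hTd]
    ring
  have hdec : (1 - a ^ 2) * I - (1 + T) = (1 - a ^ 2) * (I - ∫ x, Q x ∂mu) - a ^ 2 * (a ^ 2 + T) := by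
    rw [hQ2]
    ring
  rw [hdec]
  have ha1 : a ≤ 1 := by linarith
  have n1 : |(1 - a ^ 2) * (I - ∫ x, Q x ∂mu)| ≤ K * a ^ 3 := by
    rw [abs_mul]
    have : |1 - a ^ 2| ≤ 1 := by
      rw [abs_le]
      constructor <;> nlinarith
    calc |1 - a ^ 2| * |I - ∫ x, Q x ∂mu| ≤ 1 * (K * a ^ 3) :=
          mul_le_mul this hIQ (abs_nonneg _) (by norm_num)
      _ = _ := one_mul _
  have n2 : |a ^ 2 * (a ^ 2 + T)| ≤ (1 + β + β ^ 2 / 4) * a ^ 3 := by
    rw [abs_of_nonneg (by positivity)]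
    have h4 : a ^ 4 ≤ a ^ 3 := pow_le_pow_of_le_one ha0 ha1 (by norm_num)
    calc a ^ 2 * (a ^ 2 + T) ≤ a ^ 2 * (a ^ 2 + (β + β ^ 2 / 4) * a ^ 2) := by gcongr
      _ = (1 + β + β ^ 2 / 4) * a ^ 4 := by ring
      _ ≤ _ := mul_le_mul_of_nonneg_left h4 (by positivity)
  refine (abs_sub _ _).trans ((add_le_add n1 n2).trans ?_)
  apply le_of_eq
  ring

end Pool.Agent.LibSM93
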