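import Mathlib
import Pool.Agent.LibSM93.Defs
import Pool.Agent.LibMM99.R3
import Pool.Agent.LibTG78.B01
import Pool.Agent.LibTG78.B02
import Pool.Agent.LibTG78.C3

/-! Row K6.  (`K6_partial`, `K6_int_norm_rpow` are copied from LibPH45/PH_13.lean.) -/

set_option autoImplicit false

namespace Pool.Agent.LibSM93

open MeasureTheory Filter Topology Pool.Agent.LibMM99 Pool.Agent.LibTG78
open scoped ComplexConjugate

/-- `zp 0 p * ch x p` -/
noncomputable def K6w (p : ℕ) (x : Om) : ℂ := zp 0 p * ch x p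

theorem K6_norm_lt {p : ℕ} (hp : p.Prime) : ‖zp 0 p‖ < 1 := by
  have hz2 : ‖zp 0 p‖ ^ 2 = (p : ℝ)⁻¹ := norm_zp_zero hp
  have hp2 : (2 : ℝ) ≤ p := by exact_mod_cast hp.two_le
  have hpinv : (p : ℝ)⁻¹ < 1 := inv_lt_one_of_one_lt₀ (by linarith)
  have h0 := norm_nonneg (zp 0 p)
  nlinarith

theorem K6_ne' {z : ℂ} (hz : ‖z‖ < 1) (x : Om) (p : ℕ) : 1 - z * ch x p ≠ 0 := by
  intro h
  have h1 : z * ch x p = 1 := by linear_combination -h
  have h2 : ‖z * ch x p‖ < 1 := by rw [norm_mul, norm_ch, mul_one]; exact hz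
  rw [h1, norm_one] at h2
  exact lt_irrefl _ h2

theorem K6_ne {p : ℕ} (hp : p.Prime) (x : Om) : 1 - K6w p x ≠ 0 := K6_ne' (K6_norm_lt hp) x p

theorem K6_norm {p : ℕ} (hp : p.Prime) (x : Om) :
    ‖(1 - K6w p x)⁻¹‖ = Real.exp (-(Complex.log (1 - K6w p x)).re) := by
  rw [norm_inv, Complex.log_re, Real.exp_neg, Real.exp_log (norm_pos_iff.2 (K6_ne hp x))]

theorem K6_partial (κ : ℝ) (N : ℕ) (z : ℂ) {p : ℕ} (hp : p.Prime) :
    ∫ x, ‖∑ a ∈ Finset.range N, ((LibZM.dcoef κ a : ℝ) : ℂ) * (z * ch x p) ^ a‖ ^ 2 ∂mu =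
      ∑ a ∈ Finset.range N, LibZM.dcoef κ a ^ 2 * (‖z‖ ^ 2) ^ a := by
  have h := integral_norm_sq' (Finset.range N) (fun a => p ^ a)
    (fun a => ((LibZM.dcoef κ a : ℝ) : ℂ) * z ^ a * ((Real.sqrt ((p ^ a : ℕ) : ℝ) : ℝ) : ℂ))
    (fun a _ => Nat.one_le_iff_ne_zero.2 (pow_ne_zero a hp.ne_zero))
    (fun a _ b _ hab => Nat.pow_right_injective hp.two_le hab)
  have hpos : ∀ a : ℕ, (0 : ℝ) < ((p ^ a : ℕ) : ℝ) := fun a => by
    exact_mod_cast pow_pos hp.pos a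
  have hs : ∀ a : ℕ, Real.sqrt ((p ^ a : ℕ) : ℝ) ≠ 0 := fun a => (Real.sqrt_pos.2 (hpos a)).ne'
  have e1 : ∀ x : Om, ∑ a ∈ Finset.range N, ((LibZM.dcoef κ a : ℝ) : ℂ) * (z * ch x p) ^ a =
      ∑ i ∈ Finset.range N, (((LibZM.dcoef κ i : ℝ) : ℂ) * z ^ i *
        ((Real.sqrt ((p ^ i : ℕ) : ℝ) : ℝ) : ℂ)) * (((Real.sqrt ((p ^ i : ℕ) : ℝ))⁻¹ : ℝ) : ℂ) *
        ch x (p ^ i) := by
    intro x
    apply Finset.sum_congr rfl
    intro i _
    have h1 : ((Real.sqrt ((p ^ i : ℕ) : ℝ) : ℝ) : ℂ) * (((Real.sqrt ((p ^ i : ℕ) : ℝ))⁻¹ : ℝ) : ℂ) = 1 := by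
      rw [← Complex.ofReal_mul, mul_inv_cancel₀ (hs i), Complex.ofReal_one]
    rw [B02_ch_pow x hp.ne_zero, mul_pow]
    linear_combination (-(((LibZM.dcoef κ i : ℝ) : ℂ) * z ^ i * ch x p ^ i)) * h1
  simp_rw [e1]
  rw [h]
  apply Finset.sum_congr rfl
  intro i _
  rw [norm_mul, norm_mul, Complex.norm_real, Complex.norm_real, mul_pow, mul_pow, Real.norm_eq_abs,
    Real.norm_eq_abs, sq_abs, sq_abs, Real.sq_sqrt (hpos i).le, norm_pow, mul_div_assoc,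
    div_self (hpos i).ne', mul_one, ← pow_mul, ← pow_mul, mul_comm i 2]

theorem K6_int_norm_rpow {k : ℝ} (hk : 0 < k) {p : ℕ} (hp : p.Prime) :
    ∫ x, ‖(1 - K6w p x)⁻¹‖ ^ k ∂mu = LibZM.Gsum (k / 2) ((p : ℝ)⁻¹) := by
  set κ : ℝ := k / 2 with hκd
  have hκ : (0 : ℝ) ≤ κ := by positivity
  have hz2 : ‖zp 0 p‖ ^ 2 = (p : ℝ)⁻¹ := norm_zp_zero hp
  have hp2 : (2 : ℝ) ≤ p := by exact_mod_cast hp.two_le
  have hpinv : (p : ℝ)⁻¹ < 1 := inv_lt_one_of_one_lt₀ (by linarith)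
  have hz : ‖zp 0 p‖ < 1 := by
    have h0 := norm_nonneg (zp 0 p)
    nlinarith
  have hw : ∀ x : Om, ‖zp 0 p * ch x p‖ = ‖zp 0 p‖ := fun x => by rw [norm_mul, norm_ch, mul_one]
  have hsum : Summable fun a : ℕ => LibZM.dcoef κ a * ‖zp 0 p‖ ^ a :=
    summable_of_sum_range_le (fun a => mul_nonneg (LibZM.dcoef_nonneg hκ a) (by positivity))
      (fun N => LibZM.partial_binomial_le' hκ N (norm_nonneg _) hz)
  have hlim : Tendsto (fun N : ℕ => ∫ x, ‖∑ a ∈ Finset.range N,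
      ((LibZM.dcoef κ a : ℝ) : ℂ) * (zp 0 p * ch x p) ^ a‖ ^ 2 ∂mu) atTop
      (𝓝 (∫ x, ‖Complex.exp (-(κ : ℂ) * Complex.log (1 - K6w p x))‖ ^ 2 ∂mu)) := by
    apply tendsto_integral_of_dominated_convergence
      (fun _ => (∑' a : ℕ, LibZM.dcoef κ a * ‖zp 0 p‖ ^ a) ^ 2)
    · intro N
      apply Continuous.aestronglyMeasurable
      exact (continuous_finsetSum _ fun a _ => continuous_const.mul
        ((continuous_const.mul (continuous_ch p)).pow a)).norm.pow 2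
    · exact integrable_const _
    · intro N
      apply Filter.Eventually.of_forall
      intro x
      rw [Real.norm_of_nonneg (by positivity)]
      apply pow_le_pow_left₀ (norm_nonneg _)
      calc ‖∑ a ∈ Finset.range N, ((LibZM.dcoef κ a : ℝ) : ℂ) * (zp 0 p * ch x p) ^ a‖
          ≤ ∑ a ∈ Finset.range N, ‖((LibZM.dcoef κ a : ℝ) : ℂ) * (zp 0 p * ch x p) ^ a‖ :=
            norm_sum_le _ _
        _ = ∑ a ∈ Finset.range N, LibZM.dcoef κ a * ‖zp 0 p‖ ^ a := by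
            apply Finset.sum_congr rfl
            intro a _
            rw [norm_mul, Complex.norm_real, Real.norm_of_nonneg (LibZM.dcoef_nonneg hκ a), norm_pow,
              hw]
        _ ≤ _ := hsum.sum_le_tsum _ (fun a _ => mul_nonneg (LibZM.dcoef_nonneg hκ a) (by positivity))
    · apply Filter.Eventually.of_forall
      intro x
      have h1 := (R3_binom κ (w := K6w p x)
        (by unfold K6w; rw [hw x]; exact hz)).tendsto_sum_nat
      exact (h1.norm).pow 2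
  have hlim2 : Tendsto (fun N : ℕ => ∫ x, ‖∑ a ∈ Finset.range N,
      ((LibZM.dcoef κ a : ℝ) : ℂ) * (zp 0 p * ch x p) ^ a‖ ^ 2 ∂mu) atTop
      (𝓝 (LibZM.Gsum κ ((p : ℝ)⁻¹))) := by
    simp_rw [K6_partial κ _ (zp 0 p) hp, hz2]
    exact (LibZM.summable_G hκ (z := (p : ℝ)⁻¹) (by positivity) hpinv).hasSum.tendsto_sum_nat
  have h := tendsto_nhds_unique hlim hlim2
  rw [← h]
  congr 1
  funext x
  have e1 : ‖Complex.exp (-(κ : ℂ) * Complex.log (1 - K6w p x))‖ =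
      Real.exp (-κ * (Complex.log (1 - K6w p x)).re) := by
    rw [Complex.norm_exp]
    congr 1
    have : (-(κ : ℂ) * Complex.log (1 - K6w p x)) = (((-κ : ℝ)) : ℂ) * Complex.log (1 - K6w p x) := by
      push_cast; ring
    rw [this, Complex.re_ofReal_mul]
  rw [e1, K6_norm hp x, ← Real.exp_mul, ← Real.exp_nat_mul]
  congr 1
  rw [hκd]
  push_cast
  ring

theorem K6_zero {β : ℝ} (hβ : 0 < β) {p : ℕ} (hp : p.Prime) :
    fp β 0 p = (1 - (p : ℝ)⁻¹) * LibZM.Gsum ((β + 2) / 2) ((p : ℝ)⁻¹) := by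
  unfold fp
  rw [← K6_int_norm_rpow (k := β + 2) (by linarith) hp]
  congr 1
  apply integral_congr_ae
  apply Filter.Eventually.of_forall
  intro x
  have h0 : (((0 : ℝ) : ℂ)) = 0 := Complex.ofReal_zero
  have h1 : 0 < ‖1 - zp 0 p * ch x p‖⁻¹ := inv_pos.2 (norm_pos_iff.2 (K6_ne hp x))
  show (‖1 - zp 0 p * ch x p‖⁻¹) ^ 2 * (‖1 - zp ((0 : ℝ) : ℂ) p * ch x p‖⁻¹) ^ β =
    ‖(1 - K6w p x)⁻¹‖ ^ (β + 2)
  rw [h0, norm_inv, Real.rpow_add (inv_pos.2 (norm_pos_iff.2 (K6_ne hp x)))]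
  unfold K6w
  rw [mul_comm]
  congr 1
  exact (Real.rpow_two _).symm

theorem K6_cont_zp {p : ℕ} (hp : p.Prime) : Continuous fun h : ℝ => zp (h : ℂ) p := by
  unfold zp
  have hpc : (p : ℂ) ≠ 0 := by exact_mod_cast hp.ne_zero
  exact Continuous.const_cpow (by fun_prop) (Or.inl hpc)

theorem K6_norm_zp_le {p : ℕ} (hp : p.Prime) {h : ℝ} (h0 : 0 ≤ h) : ‖zp (h : ℂ) p‖ ≤ ‖zp 0 p‖ := by
  rw [norm_zp _ hp.one_lt.le, norm_zp _ hp.one_lt.le]
  apply Real.rpow_le_rpow_of_exponent_le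
  · exact_mod_cast hp.one_lt.le
  · simp only [Complex.ofReal_re, Complex.zero_re]; linarith

theorem K6_tendsto {β : ℝ} (hβ : 0 < β) {p : ℕ} (hp : p.Prime) :
    Tendsto (fun h : ℝ => fp β h p) (𝓝[>] 0) (𝓝 (fp β 0 p)) := by
  unfold fp
  apply Tendsto.const_mul
  have hr := K6_norm_lt hp
  set r := ‖zp 0 p‖ with hrd
  have hr0 : 0 ≤ r := norm_nonneg _
  have hlow : ∀ (z : ℂ) (x : Om), ‖z‖ ≤ r → 1 - r ≤ ‖1 - z * ch x p‖ := by
    intro z x hz
    have h1 := norm_sub_norm_le (1 : ℂ) (z * ch x p)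
    rw [norm_one, norm_mul, norm_ch, mul_one] at h1
    linarith
  apply tendsto_integral_filter_of_dominated_convergence
    (fun _ => ((1 - r)⁻¹) ^ 2 * ((1 - r)⁻¹) ^ β)
  · filter_upwards [self_mem_nhdsWithin] with h hh
    have hh0 : (0 : ℝ) ≤ h := le_of_lt hh
    have hzh : ‖zp (h : ℂ) p‖ < 1 := lt_of_le_of_lt (K6_norm_zp_le hp hh0) hr
    apply Continuous.aestronglyMeasurable
    have c1 : Continuous fun x : Om => ‖1 - zp 0 p * ch x p‖⁻¹ := by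
      apply Continuous.inv₀
      · exact (continuous_const.sub (continuous_const.mul (continuous_ch p))).norm
      · intro x; exact norm_ne_zero_iff.2 (K6_ne' hr x p)
    have c2 : Continuous fun x : Om => ‖1 - zp (h : ℂ) p * ch x p‖⁻¹ := by
      apply Continuous.inv₀
      · exact (continuous_const.sub (continuous_const.mul (continuous_ch p))).norm
      · intro x; exact norm_ne_zero_iff.2 (K6_ne' hzh x p)
    exact (c1.pow 2).mul (c2.rpow_const (fun x => Or.inr hβ.le))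
  · filter_upwards [self_mem_nhdsWithin] with h hh
    have hh0 : (0 : ℝ) ≤ h := le_of_lt hh
    have hzh : ‖zp (h : ℂ) p‖ ≤ r := K6_norm_zp_le hp hh0
    apply Filter.Eventually.of_forall
    intro x
    have a1 : ‖1 - zp 0 p * ch x p‖⁻¹ ≤ (1 - r)⁻¹ :=
      inv_anti₀ (by linarith) (hlow _ x le_rfl)
    have a2 : ‖1 - zp (h : ℂ) p * ch x p‖⁻¹ ≤ (1 - r)⁻¹ :=
      inv_anti₀ (by linarith) (hlow _ x hzh)
    rw [Real.norm_of_nonneg (by positivity)]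
    exact mul_le_mul (pow_le_pow_left₀ (by positivity) a1 2)
      (Real.rpow_le_rpow (by positivity) a2 hβ.le) (by positivity) (by positivity)
  · exact integrable_const _
  · apply Filter.Eventually.of_forall
    intro x
    have h0 : zp (((0 : ℝ)) : ℂ) p = zp 0 p := by rw [Complex.ofReal_zero]
    apply Tendsto.const_mul
    have c1 : ContinuousAt (fun h : ℝ => (‖1 - zp (h : ℂ) p * ch x p‖⁻¹) ^ β) 0 := by
      apply ContinuousAt.rpow_const
      · apply ContinuousAt.inv₀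
        · exact (continuous_const.sub ((K6_cont_zp hp).mul continuous_const)).norm.continuousAt
        · show ‖1 - zp (((0 : ℝ)) : ℂ) p * ch x p‖ ≠ 0
          rw [h0]
          exact norm_ne_zero_iff.2 (K6_ne' hr x p)
      · right; exact hβ.le
    exact c1.tendsto.mono_left nhdsWithin_le_nhds

theorem fp_zero {β : ℝ} (hβ : 0 < β) {p : ℕ} (hp : p.Prime) :
    fp β 0 p = (1 - (p : ℝ)⁻¹) * LibZM.Gsum ((β + 2) / 2) ((p : ℝ)⁻¹) ∧
    Tendsto (fun h : ℝ => fp β h p) (𝓝[>] 0) (𝓝 (fp β 0 p)) :=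
  ⟨K6_zero hβ hp, K6_tendsto hβ hp⟩

end Pool.Agent.LibSM93
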