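import Mathlib
import Pool.Agent.LibSM93.Defs
import Pool.Agent.LibSM93.K5
import Pool.Agent.LibSM93.K6

/-! Row K7. -/

set_option autoImplicit false

namespace Pool.Agent.LibSM93

open MeasureTheory Filter Topology Pool.Agent.LibMM99 Pool.Agent.LibTG78
open scoped ComplexConjugate

/-- second order Taylor bound for `(1-x)^a` on `[0,1/2]` -/
theorem K7_taylor {a : ℝ} (ha : 0 ≤ a) {x : ℝ} (hx0 : 0 ≤ x) (hx1 : x ≤ 1 / 2) :
    |(1 - x) ^ a - (1 - a * x)| ≤ (2 * a + 4 * a ^ 2) * x ^ 2 := by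
  have h1 : 0 < 1 - x := by linarith
  have l1 : Real.log (1 - x) ≤ -x := by
    have := Real.log_le_sub_one_of_pos h1
    linarith
  have l2 : -x - 2 * x ^ 2 ≤ Real.log (1 - x) := by
    have h6 := Real.one_sub_inv_le_log_of_pos h1
    refine le_trans ?_ h6
    have : 1 - (1 - x)⁻¹ = - x / (1 - x) := by field_simp; ring
    rw [this, le_div_iff₀ h1]
    nlinarith [mul_nonneg (sq_nonneg x) (by linarith : (0:ℝ) ≤ 1 - 2 * x)]
  have e1 : (1 - x) ^ a = Real.exp (a * Real.log (1 - x)) := by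
    rw [Real.rpow_def_of_pos h1, mul_comm]
  set u : ℝ := a * Real.log (1 - x) with hu
  have u1 : u ≤ -(a * x) := by
    have := mul_le_mul_of_nonneg_left l1 ha
    linarith
  have u2 : -(a * x) - 2 * a * x ^ 2 ≤ u := by
    have := mul_le_mul_of_nonneg_left l2 ha
    linarith
  have hax : 0 ≤ a * x := mul_nonneg ha hx0
  have u3 : -(2 * a * x) ≤ u := by
    have : a * (x ^ 2) ≤ a * (x * (1 / 2)) := by
      apply mul_le_mul_of_nonneg_left _ ha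
      rw [sq]
      exact mul_le_mul_of_nonneg_left hx1 hx0
    linarith
  have hlow : 1 + u ≤ Real.exp u := by
    have := Real.add_one_le_exp u
    linarith
  have hup : Real.exp u ≤ 1 + u + u ^ 2 := by
    have h2 := Real.add_one_le_exp (-u)
    have h3 : 0 < Real.exp u := Real.exp_pos u
    have h4 : Real.exp u * Real.exp (-u) = 1 := by rw [← Real.exp_add]; simp
    have h5 : Real.exp u * (-u + 1) ≤ 1 :=
      le_trans (mul_le_mul_of_nonneg_left h2 h3.le) h4.le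
    have hu0 : u ≤ 0 := by linarith
    have h6 : (1 : ℝ) ≤ (1 + u + u ^ 2) * (-u + 1) := by
      have : (1 + u + u ^ 2) * (-u + 1) = 1 - u ^ 3 := by ring
      rw [this]
      have : u ^ 3 ≤ 0 := by
        have h7 : u ^ 3 = u * u ^ 2 := by ring
        rw [h7]
        exact mul_nonpos_of_nonpos_of_nonneg hu0 (sq_nonneg u)
      linarith
    have h8 : 0 < -u + 1 := by linarith
    exact le_of_mul_le_mul_right (le_trans h5 h6) h8
  rw [e1, abs_le]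
  have hx2 : 0 ≤ x ^ 2 := sq_nonneg x
  constructor
  · nlinarith [mul_nonneg (sq_nonneg a) hx2]
  · have h9 : u ^ 2 ≤ (2 * a * x) ^ 2 := by
      apply sq_le_sq'
      · linarith
      · linarith
    have : (2 * a * x) ^ 2 = 4 * a ^ 2 * x ^ 2 := by ring
    nlinarith [mul_nonneg ha hx2]

/-- products of the three expansions -/
theorem K7_mult {β γ C0 C1 C2 P q x y F A B : ℝ} (hβ : 0 ≤ β) (hγ : 0 ≤ γ) (hP : q ^ 2 ≤ P)
    (hC1 : 0 ≤ C1) (hC2 : 0 ≤ C2)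
    (hq0 : 0 ≤ q) (hq1 : q ≤ 1) (hx0 : 0 ≤ x) (hxq : x ≤ q) (hy0 : 0 ≤ y) (hyq : y ≤ q)
    (hF : |F - (1 + (β * x + γ * y))| ≤ C0 * P)
    (hA0 : 0 ≤ A) (hA1 : A ≤ 1) (hB0 : 0 ≤ B) (hB1 : B ≤ 1)
    (hA : |A - (1 - β * x)| ≤ C1 * x ^ 2) (hB : |B - (1 - γ * y)| ≤ C2 * y ^ 2) :
    |F * A * B - 1| ≤ (C0 + (1 + β + γ) ^ 2 + (1 + β + γ) ^ 3 + (1 + β + γ) ^ 2 * C1 +
      (1 + β + γ) * C2) * P := by
  set M : ℝ := 1 + β + γ with hM
  have hM1 : 1 ≤ M := by linarith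
  have hM0 : 0 ≤ M := by linarith
  set a : ℝ := β * x with ha
  set b : ℝ := γ * y with hb
  have hP0 : 0 ≤ P := le_trans (sq_nonneg q) hP
  have ha0 : 0 ≤ a := mul_nonneg hβ hx0
  have hb0 : 0 ≤ b := mul_nonneg hγ hy0
  have haq : a ≤ β * q := mul_le_mul_of_nonneg_left hxq hβ
  have hbq : b ≤ γ * q := mul_le_mul_of_nonneg_left hyq hγ
  have habq : a + b ≤ M * q := by
    have : (β + γ) * q ≤ M * q := mul_le_mul_of_nonneg_right (by linarith) hq0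
    linarith
  have hMq : M * q ≤ M := by
    calc M * q ≤ M * 1 := mul_le_mul_of_nonneg_left hq1 hM0
      _ = M := mul_one M
  have hab2 : (a + b) ^ 2 ≤ M ^ 2 * P := by
    calc (a + b) ^ 2 ≤ (M * q) ^ 2 := pow_le_pow_left₀ (by positivity) habq 2
      _ = M ^ 2 * q ^ 2 := by ring
      _ ≤ M ^ 2 * P := mul_le_mul_of_nonneg_left hP (by positivity)
  have hab : a * b ≤ M ^ 2 * P := by
    have : a * b ≤ (a + b) ^ 2 := by nlinarith [mul_nonneg ha0 hb0, sq_nonneg a, sq_nonneg b]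
    exact le_trans this hab2
  have h1ab : 1 + a + b ≤ M := by
    have h1 : β * q ≤ β * 1 := mul_le_mul_of_nonneg_left hq1 hβ
    have h2 : γ * q ≤ γ * 1 := mul_le_mul_of_nonneg_left hq1 hγ
    rw [mul_one] at h1 h2
    rw [hM]; linarith
  have h1ab0 : 0 ≤ 1 + a + b := by positivity
  have hbM : |1 - b| ≤ M := by
    rw [abs_le]; constructor <;> linarith
  have hx2 : x ^ 2 ≤ P := le_trans (pow_le_pow_left₀ hx0 hxq 2) hP
  have hy2 : y ^ 2 ≤ P := le_trans (pow_le_pow_left₀ hy0 hyq 2) hP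
  have hA' : |A - (1 - a)| ≤ C1 * P := le_trans hA (mul_le_mul_of_nonneg_left hx2 hC1)
  have hB' : |B - (1 - b)| ≤ C2 * P := le_trans hB (mul_le_mul_of_nonneg_left hy2 hC2)
  have hAa : |A| ≤ 1 := by rw [abs_of_nonneg hA0]; exact hA1
  have hBa : |B| ≤ 1 := by rw [abs_of_nonneg hB0]; exact hB1
  have key : F * A * B - 1 = (F - (1 + (a + b))) * A * B + (1 + a + b) * (A - (1 - a)) * (1 - b) +
      (1 + a + b) * A * (B - (1 - b)) + (-(a + b) ^ 2 + a * b * (1 + a + b)) := by ring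
  have t1 : |(F - (1 + (a + b))) * A * B| ≤ C0 * P := by
    rw [abs_mul, abs_mul]
    calc |F - (1 + (a + b))| * |A| * |B| ≤ (C0 * P) * 1 * 1 := by
          apply mul_le_mul (mul_le_mul hF hAa (abs_nonneg _) (le_trans (abs_nonneg _) hF)) hBa
            (abs_nonneg _)
          exact mul_nonneg (le_trans (abs_nonneg _) hF) zero_le_one
      _ = C0 * P := by ring
  have t2 : |(1 + a + b) * (A - (1 - a)) * (1 - b)| ≤ M ^ 2 * C1 * P := by
    rw [abs_mul, abs_mul, abs_of_nonneg h1ab0]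
    calc (1 + a + b) * |A - (1 - a)| * |1 - b| ≤ M * (C1 * P) * M := by
          apply mul_le_mul (mul_le_mul h1ab hA' (abs_nonneg _) hM0) hbM (abs_nonneg _)
          exact mul_nonneg hM0 (mul_nonneg hC1 hP0)
      _ = M ^ 2 * C1 * P := by ring
  have t3 : |(1 + a + b) * A * (B - (1 - b))| ≤ M * C2 * P := by
    rw [abs_mul, abs_mul, abs_of_nonneg h1ab0]
    calc (1 + a + b) * |A| * |B - (1 - b)| ≤ M * 1 * (C2 * P) := by
          apply mul_le_mul (mul_le_mul h1ab hAa (abs_nonneg _) hM0) hB' (abs_nonneg _)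
          exact mul_nonneg hM0 zero_le_one
      _ = M * C2 * P := by ring
  have t4 : |-(a + b) ^ 2 + a * b * (1 + a + b)| ≤ M ^ 2 * P + M ^ 3 * P := by
    have s1 : |-(a + b) ^ 2| ≤ M ^ 2 * P := by
      rw [abs_neg, abs_of_nonneg (sq_nonneg _)]; exact hab2
    have s2 : |a * b * (1 + a + b)| ≤ M ^ 3 * P := by
      rw [abs_of_nonneg (mul_nonneg (mul_nonneg ha0 hb0) h1ab0)]
      calc a * b * (1 + a + b) ≤ (M ^ 2 * P) * M :=
            mul_le_mul hab h1ab h1ab0 (by positivity)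
        _ = M ^ 3 * P := by ring
    exact le_trans (abs_add_le _ _) (add_le_add s1 s2)
  rw [key]
  have u1 := abs_add_le ((F - (1 + (a + b))) * A * B + (1 + a + b) * (A - (1 - a)) * (1 - b) +
      (1 + a + b) * A * (B - (1 - b))) (-(a + b) ^ 2 + a * b * (1 + a + b))
  have u2 := abs_add_le ((F - (1 + (a + b))) * A * B + (1 + a + b) * (A - (1 - a)) * (1 - b))
      ((1 + a + b) * A * (B - (1 - b)))
  have u3 := abs_add_le ((F - (1 + (a + b))) * A * B) ((1 + a + b) * (A - (1 - a)) * (1 - b))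
  linarith

theorem K7_one {β : ℝ} (hβ : 0 < β) :
    ∃ C : ℝ, 1 ≤ C ∧ ∀ (p : ℕ) (h : ℝ), p.Prime → 0 ≤ h → h ≤ 1 →
      |gp β h p - 1| ≤ C * (p : ℝ) ^ (-(3 / 2 : ℝ)) := by
  obtain ⟨C0, hC0, hfp⟩ := fp_approx hβ
  set γ : ℝ := β ^ 2 / 4 with hγd
  have hγ : 0 ≤ γ := by positivity
  refine ⟨C0 + (1 + β + γ) ^ 2 + (1 + β + γ) ^ 3 + (1 + β + γ) ^ 2 * (2 * β + 4 * β ^ 2) +
      (1 + β + γ) * (2 * γ + 4 * γ ^ 2), ?_, ?_⟩
  · have : 0 ≤ (1 + β + γ) ^ 2 + (1 + β + γ) ^ 3 + (1 + β + γ) ^ 2 * (2 * β + 4 * β ^ 2) +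
      (1 + β + γ) * (2 * γ + 4 * γ ^ 2) := by positivity
    linarith
  intro p h hp h0 h1
  have hp2 : (2 : ℝ) ≤ p := by exact_mod_cast hp.two_le
  have hp0 : (0 : ℝ) < p := by linarith
  have hp1 : (1 : ℝ) ≤ p := by linarith
  set q : ℝ := (p : ℝ) ^ (-1 : ℝ) with hq
  have hqinv : q = (p : ℝ)⁻¹ := Real.rpow_neg_one _
  have hq0 : 0 ≤ q := by positivity
  have hqh : q ≤ 1 / 2 := by
    rw [hqinv, inv_le_comm₀ hp0 (by norm_num)]
    linarith
  have hx0 : 0 ≤ (p : ℝ) ^ (-(1 + h)) := by positivity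
  have hy0 : 0 ≤ (p : ℝ) ^ (-(1 + 2 * h)) := by positivity
  have hxq : (p : ℝ) ^ (-(1 + h)) ≤ q := Real.rpow_le_rpow_of_exponent_le hp1 (by linarith)
  have hyq : (p : ℝ) ^ (-(1 + 2 * h)) ≤ q := Real.rpow_le_rpow_of_exponent_le hp1 (by linarith)
  have hq2 : q ^ 2 ≤ (p : ℝ) ^ (-(3 / 2 : ℝ)) := by
    rw [hq, ← Real.rpow_natCast, ← Real.rpow_mul hp0.le]
    apply Real.rpow_le_rpow_of_exponent_le hp1
    norm_num
  have hx1 : (p : ℝ) ^ (-(1 + h)) ≤ 1 / 2 := le_trans hxq hqh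
  have hy1 : (p : ℝ) ^ (-(1 + 2 * h)) ≤ 1 / 2 := le_trans hyq hqh
  have ex : (p : ℝ) ^ (-(1 + h)) = (p : ℝ) ^ (-h) / p := by
    rw [show -(1 + h) = -h - 1 by ring, Real.rpow_sub hp0, Real.rpow_one]
  have ey : (p : ℝ) ^ (-(1 + 2 * h)) = (p : ℝ) ^ (-(2 * h)) / p := by
    rw [show -(1 + 2 * h) = -(2 * h) - 1 by ring, Real.rpow_sub hp0, Real.rpow_one]
  have hF : |fp β h p - (1 + (β * (p : ℝ) ^ (-(1 + h)) + γ * (p : ℝ) ^ (-(1 + 2 * h))))| ≤
      C0 * (p : ℝ) ^ (-(3 / 2 : ℝ)) := by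
    have := hfp p h hp h0 h1
    rw [ex, ey]
    have e : (β * (p : ℝ) ^ (-h) + γ * (p : ℝ) ^ (-(2 * h))) / p =
      β * ((p : ℝ) ^ (-h) / p) + γ * ((p : ℝ) ^ (-(2 * h)) / p) := by ring
    rw [← e]
    exact this
  unfold gp
  exact K7_mult hβ.le hγ hq2 (by positivity) (by positivity) hq0 (by linarith) hx0 hxq hy0 hyq hF
    (Real.rpow_nonneg (by linarith) _) (Real.rpow_le_one (by linarith) (by linarith) hβ.le)
    (Real.rpow_nonneg (by linarith) _) (Real.rpow_le_one (by linarith) (by linarith) hγ)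
    (K7_taylor hβ.le hx0 hx1) (K7_taylor hγ hy0 hy1)

theorem K7_two {β : ℝ} (hβ : 0 < β) {p : ℕ} (hp : p.Prime) :
    gp β 0 p = LibZM.Efac ((β + 2) / 2) ((p : ℝ)⁻¹) := by
  have hp2 : (2 : ℝ) ≤ p := by exact_mod_cast hp.two_le
  have hp0 : (0 : ℝ) < p := by linarith
  have hpinv : (p : ℝ)⁻¹ < 1 := inv_lt_one_of_one_lt₀ (by linarith)
  unfold gp LibZM.Efac
  rw [(fp_zero hβ hp).1]
  have e1 : (p : ℝ) ^ (-(1 + (0 : ℝ))) = (p : ℝ)⁻¹ := by
    rw [add_zero, Real.rpow_neg_one]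
  have e2 : (p : ℝ) ^ (-(1 + 2 * (0 : ℝ))) = (p : ℝ)⁻¹ := by
    rw [mul_zero, add_zero, Real.rpow_neg_one]
  rw [e1, e2]
  have h1 : 0 < 1 - (p : ℝ)⁻¹ := by linarith
  have e3 : ((β + 2) / 2) ^ 2 = 1 + β + β ^ 2 / 4 := by ring
  rw [e3, Real.rpow_add h1, Real.rpow_add h1, Real.rpow_one]
  ring

theorem K7_three {β : ℝ} (hβ : 0 < β) {p : ℕ} (hp : p.Prime) :
    Tendsto (fun h : ℝ => gp β h p) (𝓝[>] 0) (𝓝 (gp β 0 p)) := by
  have hp2 : (2 : ℝ) ≤ p := by exact_mod_cast hp.two_le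
  have hp0 : (0 : ℝ) < p := by linarith
  unfold gp
  apply Tendsto.mul
  · apply Tendsto.mul (fp_zero hβ hp).2
    have c : ContinuousAt (fun h : ℝ => (1 - (p : ℝ) ^ (-(1 + h))) ^ β) 0 := by
      apply ContinuousAt.rpow_const
      · apply ContinuousAt.sub continuousAt_const
        apply ContinuousAt.rpow continuousAt_const (by fun_prop) (Or.inl hp0.ne')
      · right; exact hβ.le
    exact c.tendsto.mono_left nhdsWithin_le_nhds
  · have c : ContinuousAt (fun h : ℝ => (1 - (p : ℝ) ^ (-(1 + 2 * h))) ^ (β ^ 2 / 4)) 0 := by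
      apply ContinuousAt.rpow_const
      · apply ContinuousAt.sub continuousAt_const
        apply ContinuousAt.rpow continuousAt_const (by fun_prop) (Or.inl hp0.ne')
      · right; positivity
    exact c.tendsto.mono_left nhdsWithin_le_nhds

theorem gp_props {β : ℝ} (hβ : 0 < β) :
    (∃ C : ℝ, 1 ≤ C ∧ ∀ (p : ℕ) (h : ℝ), p.Prime → 0 ≤ h → h ≤ 1 → |gp β h p - 1| ≤ C * (p : ℝ) ^ (-(3 / 2 : ℝ))) ∧
    (∀ p : ℕ, p.Prime → gp β 0 p = LibZM.Efac ((β + 2) / 2) ((p : ℝ)⁻¹)) ∧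
    (∀ p : ℕ, p.Prime → Tendsto (fun h : ℝ => gp β h p) (𝓝[>] 0) (𝓝 (gp β 0 p))) :=
  ⟨K7_one hβ, fun _ hp => K7_two hβ hp, fun _ hp => K7_three hβ hp⟩

end Pool.Agent.LibSM93
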