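import Mathlib
import Pool.Agent.LibSM93.Defs
import Pool.Agent.LibSM93.K7

/-! Row K8. -/

set_option autoImplicit false

namespace Pool.Agent.LibSM93

open MeasureTheory Filter Topology Pool.Agent.LibMM99 Pool.Agent.LibTG78
open scoped ComplexConjugate

theorem k8_subtype_tendsto :
    Tendsto (fun L : ℝ => (prm 1 (Real.exp L)).subtype Nat.Prime) atTop
      (atTop : Filter (Finset Nat.Primes)) := by
  refine tendsto_atTop_finset_of_monotone ?_ ?_
  · intro a b hab
    intro p hp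
    rw [Finset.mem_subtype, mem_prm] at hp ⊢
    exact ⟨hp.1, hp.2.1, hp.2.2.trans (Real.exp_le_exp.2 hab)⟩
  · intro p
    refine ⟨Real.log (p : ℕ), ?_⟩
    have hp := p.2
    have hp0 : (0 : ℝ) < ((p : ℕ) : ℝ) := by exact_mod_cast hp.pos
    refine Finset.mem_subtype.2 (mem_prm.2 ⟨hp, ?_, ?_⟩)
    · exact_mod_cast hp.one_lt
    · rw [Real.exp_log hp0]

theorem k8_prod_eq (f : ℕ → ℝ) (L : ℝ) :
    ∏ p ∈ (prm 1 (Real.exp L)).subtype Nat.Prime, f p = ∏ p ∈ prm 1 (Real.exp L), f p :=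
  Finset.prod_subtype_of_mem (s := prm 1 (Real.exp L)) f (fun _ hp => (mem_prm.1 hp).1)

theorem prod_limit {β : ℝ} (hβ : 0 < β) :
    (∀ h : ℝ, 0 ≤ h → h ≤ 1 → Tendsto (fun L : ℝ => ∏ p ∈ prm 1 (Real.exp L), gp β h p) atTop
      (𝓝 (∏' p : Nat.Primes, gp β h p))) ∧
    Tendsto (fun h : ℝ => ∏' p : Nat.Primes, gp β h p) (𝓝[>] 0) (𝓝 (LibZM.Aconst ((β + 2) / 2))) := by
  obtain ⟨⟨C, hC1, hC⟩, h0, hlim⟩ := gp_props hβ
  have hsum : Summable (fun p : Nat.Primes => C * ((p : ℕ) : ℝ) ^ (-(3 / 2 : ℝ))) :=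
    (Nat.Primes.summable_rpow.mpr (by norm_num : -(3 / 2 : ℝ) < -1)).mul_left C
  constructor
  · intro h hh0 hh1
    have hs : Summable (fun p : Nat.Primes => gp β h p - 1) :=
      Summable.of_norm_bounded hsum (fun p => by
        rw [Real.norm_eq_abs]; exact hC p h p.2 hh0 hh1)
    have hm : Multipliable (fun p : Nat.Primes => gp β h p) := by
      have := multipliable_one_add_of_summable hs.norm
      simpa using this
    have h1 := hm.hasProd
    have h2 := h1.comp k8_subtype_tendsto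
    refine h2.congr fun L => ?_
    exact k8_prod_eq (fun p => gp β h p) L
  · have hg : ∀ p : Nat.Primes, gp β 0 p = LibZM.Efac ((β + 2) / 2) (((p : ℕ) : ℝ)⁻¹) := fun p => h0 p p.2
    have e1 : LibZM.Aconst ((β + 2) / 2) = ∏' p : Nat.Primes, (1 + (gp β 0 p - 1)) := by
      unfold LibZM.Aconst
      refine tprod_congr fun p => ?_
      rw [hg p]; ring
    have e2 : (fun h : ℝ => ∏' p : Nat.Primes, gp β h p) =
        fun h : ℝ => ∏' p : Nat.Primes, (1 + (gp β h p - 1)) := by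
      funext h
      refine tprod_congr fun p => ?_
      ring
    rw [e1, e2]
    refine tendsto_tprod_one_add_of_dominated_convergence hsum ?_ ?_
    · intro p
      exact (hlim p p.2).sub_const 1
    · have h1 : ∀ᶠ h : ℝ in 𝓝[>] (0 : ℝ), h ≤ 1 := by
        have : Set.Iio (1 : ℝ) ∈ 𝓝 (0 : ℝ) := Iio_mem_nhds one_pos
        filter_upwards [mem_nhdsWithin_of_mem_nhds this] with h hh
        exact le_of_lt hh
      filter_upwards [h1, self_mem_nhdsWithin] with h hh hpos p
      rw [Real.norm_eq_abs]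
      exact hC p h p.2 (le_of_lt hpos) hh

end Pool.Agent.LibSM93
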