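import Mathlib
import Pool.Agent.LibSM93.Defs

/-! Row K9. -/

set_option autoImplicit false

namespace Pool.Agent.LibSM93

open MeasureTheory Filter Topology Pool.Agent.LibMM99 Pool.Agent.LibTG78
open scoped ComplexConjugate

theorem k9_prod (h : ℝ) (hh : 0 < h) :
    ∃ z : ℝ, riemannZeta ((1 + h : ℝ) : ℂ) = (z : ℂ) ∧ 1 ≤ z ∧
      Tendsto (fun L : ℝ => ∏ p ∈ prm 1 (Real.exp L), (1 - (p : ℝ) ^ (-(1 + h)))⁻¹) atTop (𝓝 z) := by
  have hre : 1 < (((1 + h : ℝ) : ℂ)).re := by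
    rw [Complex.ofReal_re]; linarith
  have hfac : ∀ p : ℕ, p.Prime → 0 < 1 - (p : ℝ) ^ (-(1 + h)) ∧ 1 - (p : ℝ) ^ (-(1 + h)) ≤ 1 := by
    intro p hp
    have hp1 : (1 : ℝ) < p := by exact_mod_cast hp.one_lt
    have hp0 : (0 : ℝ) < p := by linarith
    constructor
    · have := Real.rpow_lt_one_of_one_lt_of_neg hp1 (by linarith : -(1 + h) < 0)
      linarith
    · have := Real.rpow_pos_of_pos hp0 (-(1 + h))
      linarith
  -- partial products over `prm`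
  have h1 := riemannZeta_eulerProduct hre
  have hP : ∀ L : ℝ, ∏ p ∈ Nat.primesBelow (⌊Real.exp L⌋₊ + 1), (1 - (p : ℂ) ^ (-((1 + h : ℝ) : ℂ)))⁻¹ =
      ((∏ p ∈ prm 1 (Real.exp L), (1 - (p : ℝ) ^ (-(1 + h)))⁻¹ : ℝ) : ℂ) := by
    intro L
    rw [c3_prm, Nat.primesBelow]
    push_cast
    refine Finset.prod_congr rfl fun p hp => ?_
    have hp0 : (0 : ℝ) ≤ p := Nat.cast_nonneg p
    rw [Complex.ofReal_cpow hp0]
    push_cast
    rfl
  have h2 : Tendsto (fun L : ℝ => ⌊Real.exp L⌋₊ + 1) atTop atTop :=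
    (tendsto_add_atTop_nat 1).comp (tendsto_nat_floor_atTop.comp Real.tendsto_exp_atTop)
  have h3 := h1.comp h2
  have h4 : Tendsto (fun L : ℝ => ((∏ p ∈ prm 1 (Real.exp L), (1 - (p : ℝ) ^ (-(1 + h)))⁻¹ : ℝ) : ℂ)) atTop
      (𝓝 (riemannZeta ((1 + h : ℝ) : ℂ))) := by
    refine h3.congr fun L => ?_
    exact hP L
  have h5 : Tendsto (fun L : ℝ => ∏ p ∈ prm 1 (Real.exp L), (1 - (p : ℝ) ^ (-(1 + h)))⁻¹) atTop
      (𝓝 (riemannZeta ((1 + h : ℝ) : ℂ)).re) := by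
    have := (Complex.continuous_re.tendsto _).comp h4
    refine this.congr fun L => ?_
    simp only [Function.comp]
    exact Complex.ofReal_re _
  have h6 : Tendsto (fun L : ℝ => (0 : ℝ)) (atTop : Filter ℝ)
      (𝓝 (riemannZeta ((1 + h : ℝ) : ℂ)).im) := by
    have := (Complex.continuous_im.tendsto _).comp h4
    refine this.congr fun L => ?_
    simp only [Function.comp]
    exact Complex.ofReal_im _
  have h7 : (riemannZeta ((1 + h : ℝ) : ℂ)).im = 0 := tendsto_nhds_unique h6 tendsto_const_nhds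
  refine ⟨(riemannZeta ((1 + h : ℝ) : ℂ)).re, ?_, ?_, h5⟩
  · apply Complex.ext
    · rw [Complex.ofReal_re]
    · rw [h7, Complex.ofReal_im]
  · refine ge_of_tendsto h5 (Eventually.of_forall fun L => ?_)
    have : ∏ _p ∈ prm 1 (Real.exp L), (1 : ℝ) ≤ ∏ p ∈ prm 1 (Real.exp L), (1 - (p : ℝ) ^ (-(1 + h)))⁻¹ := by
      refine Finset.prod_le_prod (fun _ _ => zero_le_one) fun p hp => ?_
      have h8 := hfac p (mem_prm.1 hp).1
      exact (one_le_inv₀ h8.1).2 h8.2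
    simpa using this

theorem zeta_pow (a : ℝ) {h : ℝ} (hh : 0 < h) : 0 < (riemannZeta ((1 + h : ℝ) : ℂ)).re ∧
    Tendsto (fun L : ℝ => ∏ p ∈ prm 1 (Real.exp L), (1 - (p : ℝ) ^ (-(1 + h))) ^ a) atTop
      (𝓝 ((riemannZeta ((1 + h : ℝ) : ℂ)).re ^ (-a))) := by
  obtain ⟨z, hz, hz1, hlim⟩ := k9_prod h hh
  rw [hz, Complex.ofReal_re]
  refine ⟨by linarith, ?_⟩
  have h1 : Tendsto (fun L : ℝ => (∏ p ∈ prm 1 (Real.exp L), (1 - (p : ℝ) ^ (-(1 + h)))⁻¹) ^ (-a)) atTop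
      (𝓝 (z ^ (-a))) :=
    hlim.rpow_const (Or.inl (by linarith))
  refine h1.congr fun L => ?_
  rw [← Real.finsetProd_rpow]
  · refine Finset.prod_congr rfl fun p hp => ?_
    have hp' := (mem_prm.1 hp).1
    have hp1 : (1 : ℝ) < p := by exact_mod_cast hp'.one_lt
    have := Real.rpow_lt_one_of_one_lt_of_neg hp1 (by linarith : -(1 + h) < 0)
    rw [Real.inv_rpow (by linarith), Real.rpow_neg (by linarith), inv_inv]
  · intro p hp
    have hp' := (mem_prm.1 hp).1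
    have hp1 : (1 : ℝ) < p := by exact_mod_cast hp'.one_lt
    have := Real.rpow_lt_one_of_one_lt_of_neg hp1 (by linarith : -(1 + h) < 0)
    exact inv_nonneg.2 (by linarith)

theorem zeta_res (a : ℝ) {c : ℝ} (hc : 0 < c) :
    Tendsto (fun h : ℝ => h ^ a * (riemannZeta ((1 + c * h : ℝ) : ℂ)).re ^ a) (𝓝[>] 0) (𝓝 (c ^ (-a))) := by
  have h1 : Tendsto (fun h : ℝ => ((1 + c * h : ℝ) : ℂ)) (𝓝[>] (0 : ℝ)) (𝓝[≠] (1 : ℂ)) := by
    refine tendsto_nhdsWithin_iff.2 ⟨?_, ?_⟩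
    · have : Continuous (fun h : ℝ => ((1 + c * h : ℝ) : ℂ)) := by fun_prop
      have h2 := this.tendsto 0
      simp only [mul_zero, add_zero, Complex.ofReal_one] at h2
      exact h2.mono_left nhdsWithin_le_nhds
    · filter_upwards [self_mem_nhdsWithin] with h hh
      have hh' : (0 : ℝ) < h := hh
      rw [Set.mem_compl_iff, Set.mem_singleton_iff]
      intro h3
      have h4 : (1 + c * h : ℝ) = 1 := by exact_mod_cast h3
      have : 0 < c * h := mul_pos hc hh'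
      linarith
  have h2 := riemannZeta_residue_one.comp h1
  have h3 := (Complex.continuous_re.tendsto _).comp h2
  rw [Complex.one_re] at h3
  have h4 : Tendsto (fun h : ℝ => h * (riemannZeta ((1 + c * h : ℝ) : ℂ)).re) (𝓝[>] 0) (𝓝 c⁻¹) := by
    have h5 := h3.const_mul c⁻¹
    rw [mul_one] at h5
    refine h5.congr fun h => ?_
    simp only [Function.comp]
    have e : ((1 + c * h : ℝ) : ℂ) - 1 = ((c * h : ℝ) : ℂ) := by push_cast; ring
    rw [e, Complex.re_ofReal_mul]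
    field_simp
  have h5 : Tendsto (fun h : ℝ => (h * (riemannZeta ((1 + c * h : ℝ) : ℂ)).re) ^ a) (𝓝[>] 0) (𝓝 (c⁻¹ ^ a)) :=
    h4.rpow_const (Or.inl (inv_ne_zero hc.ne'))
  rw [Real.rpow_neg hc.le, ← Real.inv_rpow hc.le]
  refine h5.congr' ?_
  filter_upwards [self_mem_nhdsWithin] with h hh
  have hh' : (0 : ℝ) < h := hh
  have h6 := (zeta_pow a (mul_pos hc hh')).1
  rw [Real.mul_rpow hh'.le h6.le]

end Pool.Agent.LibSM93
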