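import Mathlib
import Pool.Agent.LibSM93.Defs
import Pool.Agent.LibSM93.K8
import Pool.Agent.LibSM93.K9

/-! Row K10.
fp h p = gp h p * (1-p^(-(1+h)))^(-beta) * (1-p^(-(1+2h)))^(-(beta^2/4)) (factors in (0,1), rpow_neg). Products over
prm 1 (exp L): prod_limit (1) and zeta_pow with a = -beta at h, and a = -(beta^2/4) at 2h. kappa h = (tprod gp) * zeta(1+h)^beta *
zeta(1+2h)^(beta^2/4). h^gam = h^beta * h^(beta^2/4) (gam beta = beta^2/4 + beta); zeta_res with (a,c) = (beta,1) and (beta^2/4,2):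
limit 1^(-beta) * 2^(-(beta^2/4)) * Aconst. (Replace kappa by an arbitrary value outside (0,1]; Tendsto over 𝓝[>] 0 only sees small h.)
-/

set_option autoImplicit false

namespace Pool.Agent.LibSM93

open MeasureTheory Filter Topology Pool.Agent.LibMM99 Pool.Agent.LibTG78
open scoped ComplexConjugate

theorem kap_limit {β : ℝ} (hβ : 0 < β) : ∃ κ : ℝ → ℝ,
    (∀ h : ℝ, 0 < h → h ≤ 1 → Tendsto (fun L : ℝ => ∏ p ∈ prm 1 (Real.exp L), fp β h p) atTop (𝓝 (κ h))) ∧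
    Tendsto (fun h : ℝ => h ^ gam β * κ h) (𝓝[>] 0) (𝓝 (2 ^ (-(β ^ 2 / 4)) * LibZM.Aconst ((β + 2) / 2))) := by
  have hpr : ∀ {p : ℕ} {L : ℝ}, p ∈ prm 1 (Real.exp L) → p.Prime := by
    intro p L hp
    unfold prm at hp
    exact (Finset.mem_filter.1 hp).2.1
  have hfac : ∀ (h : ℝ), 0 < h → ∀ p : ℕ, p.Prime →
      fp β h p = gp β h p * (1 - (p : ℝ) ^ (-(1 + h))) ^ (-β) *
        (1 - (p : ℝ) ^ (-(1 + 2 * h))) ^ (-(β ^ 2 / 4)) := by
    intro h hh p hp
    have hp1 : (1 : ℝ) < p := by exact_mod_cast hp.one_lt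
    have hA : 0 < 1 - (p : ℝ) ^ (-(1 + h)) := by
      have := Real.rpow_lt_one_of_one_lt_of_neg hp1 (show -(1 + h) < 0 by linarith)
      linarith
    have hB : 0 < 1 - (p : ℝ) ^ (-(1 + 2 * h)) := by
      have := Real.rpow_lt_one_of_one_lt_of_neg hp1 (show -(1 + 2 * h) < 0 by linarith)
      linarith
    unfold gp
    rw [Real.rpow_neg hA.le, Real.rpow_neg hB.le]
    have h1 := (Real.rpow_pos_of_pos hA β).ne'
    have h2 := (Real.rpow_pos_of_pos hB (β ^ 2 / 4)).ne'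
    generalize (1 - (p : ℝ) ^ (-(1 + h))) ^ β = A at h1 ⊢
    generalize (1 - (p : ℝ) ^ (-(1 + 2 * h))) ^ (β ^ 2 / 4) = B at h2 ⊢
    field_simp
  refine ⟨fun h => (∏' p : Nat.Primes, gp β h p) * (riemannZeta ((1 + h : ℝ) : ℂ)).re ^ β *
    (riemannZeta ((1 + 2 * h : ℝ) : ℂ)).re ^ (β ^ 2 / 4), ?_, ?_⟩
  · intro h hh hh1
    have e1 := (prod_limit hβ).1 h hh.le hh1
    have e2 := (zeta_pow (-β) hh).2
    have e3 := (zeta_pow (-(β ^ 2 / 4)) (show 0 < 2 * h by linarith)).2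
    rw [neg_neg] at e2 e3
    refine ((e1.mul e2).mul e3).congr ?_
    intro L
    rw [← Finset.prod_mul_distrib, ← Finset.prod_mul_distrib]
    refine Finset.prod_congr rfl ?_
    intro p hp
    rw [hfac h hh p (hpr hp)]
  · have e1 := (prod_limit hβ).2
    have e2 := zeta_res β (show (0 : ℝ) < 1 by norm_num)
    have e3 := zeta_res (β ^ 2 / 4) (show (0 : ℝ) < 2 by norm_num)
    have e4 := (e3.mul e2).mul e1
    have hlim : (2 : ℝ) ^ (-(β ^ 2 / 4)) * 1 ^ (-β) * LibZM.Aconst ((β + 2) / 2) =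
        2 ^ (-(β ^ 2 / 4)) * LibZM.Aconst ((β + 2) / 2) := by
      rw [Real.one_rpow, mul_one]
    rw [hlim] at e4
    refine e4.congr' ?_
    filter_upwards [self_mem_nhdsWithin] with h hh
    have hh' : 0 < h := hh
    have : h ^ gam β = h ^ (β ^ 2 / 4) * h ^ β := by
      unfold gam
      rw [Real.rpow_add hh']
    rw [this, one_mul]
    ring

end Pool.Agent.LibSM93
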