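import Mathlib
import Pool.Agent.LibSM93.Defs
import Pool.Agent.LibSM93.K1

/-! Row K4.
`integral_nu (adm_zero hL)` (B05.lean): int f dnu = nz 0 1 e^L * int |ZZ 0 1 e^L|^2 f dmu (look up the exact form). Both Euler
products are products over p in prm 1 e^L, nz = prod (1 - |zp 0 p|^2) = prod (1 - 1/p) (`norm_zp_zero`, C3.lean). Then
`B03_prod` (B03.lean): the integral of a product of continuous functions of single primes is the product of the integrals.
Norm of a product, real power of a product: `norm_prod`, `Real.finset_prod_rpow`, `Finset.prod_mul_distrib`. Continuity of each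
factor: |1 - z ch x p| is bounded below by 1 - |z| > 0.
-/

set_option autoImplicit false

namespace Pool.Agent.LibSM93

open MeasureTheory Filter Topology Pool.Agent.LibMM99 Pool.Agent.LibTG78
open scoped ComplexConjugate

theorem K4_norm_lt {h : ℝ} (hh : 0 ≤ h) {p : ℕ} (hp : p.Prime) : ‖zp (h : ℂ) p‖ < 1 := by
  rw [norm_zp _ hp.one_lt.le, Complex.ofReal_re]
  exact Real.rpow_lt_one_of_one_lt_of_neg (by exact_mod_cast hp.one_lt) (by linarith)

theorem K4_cont {z : ℂ} (hz : ‖z‖ < 1) (p : ℕ) : Continuous fun x : Om => ‖1 - z * ch x p‖⁻¹ := by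
  have h1 := (B03_cont hz p).norm
  simpa only [norm_inv] using h1

theorem K4_dep (β : ℝ) (z w : ℂ) {p : ℕ} (hp : p.Prime) :
    DependsOn (fun x : Om => (‖1 - z * ch x p‖⁻¹) ^ 2 * (‖1 - w * ch x p‖⁻¹) ^ β) ({p} : Set ℕ) := by
  intro x y h
  have h1 := dependsOn_ch p (x := x) (y := y) (fun i hi => h i (by
    rw [hp.primeFactors] at hi
    simpa using hi))
  have h2 : ch x p = ch y p := h1
  simp only [h2]

theorem mean_ZZh {β : ℝ} (hβ : 0 < β) {h L : ℝ} (hh : 0 ≤ h) (hL : 1 ≤ L) :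
    ∫ x, ‖ZZ (h : ℂ) 1 (Real.exp L) x‖ ^ β ∂(nu 0 L) = ∏ p ∈ prm 1 (Real.exp L), fp β h p := by
  have hc : Continuous fun x => ‖ZZ (h : ℂ) 1 (Real.exp L) x‖ ^ β :=
    (continuous_ZZh hh 1 (Real.exp L)).1.norm.rpow_const fun _ => Or.inr hβ.le
  rw [integral_nu (adm_zero hL) hc]
  have h1 : ∀ x : Om, ‖ZZ 0 1 (Real.exp L) x‖ ^ 2 * ‖ZZ (h : ℂ) 1 (Real.exp L) x‖ ^ β =
      ∏ p ∈ prm 1 (Real.exp L), ((‖1 - zp 0 p * ch x p‖⁻¹) ^ 2 * (‖1 - zp (h : ℂ) p * ch x p‖⁻¹) ^ β) := by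
    intro x
    unfold ZZ
    rw [norm_prod, norm_prod, ← Finset.prod_pow,
      ← Real.finsetProd_rpow (prm 1 (Real.exp L)) (fun p => ‖(1 - zp (h : ℂ) p * ch x p)⁻¹‖)
        (fun p _ => norm_nonneg _) β, ← Finset.prod_mul_distrib]
    refine Finset.prod_congr rfl fun p _ => ?_
    rw [norm_inv, norm_inv]
  simp only [h1]
  have hz0 : ∀ p : ℕ, p.Prime → ‖zp 0 p‖ < 1 := fun p hp => by
    have := K4_norm_lt (h := 0) le_rfl hp
    simpa using this
  rw [B03_prod (fun p x => (‖1 - zp 0 p * ch x p‖⁻¹) ^ 2 * (‖1 - zp (h : ℂ) p * ch x p‖⁻¹) ^ β)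
    (prm 1 (Real.exp L))
    (fun p hp => ((K4_cont (hz0 p (mem_prm.1 hp).1) p).pow 2).mul
      ((K4_cont (K4_norm_lt hh (mem_prm.1 hp).1) p).rpow_const fun _ => Or.inr hβ.le))
    (fun p hp => K4_dep β _ _ (mem_prm.1 hp).1)]
  unfold nz
  rw [← Finset.prod_mul_distrib]
  refine Finset.prod_congr rfl fun p hp => ?_
  rw [norm_zp_zero (mem_prm.1 hp).1]
  rfl

end Pool.Agent.LibSM93
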