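import Mathlib
import Pool.Agent.LibSM93.Defs

/-! Row U5: two real lemmas for the telescoping sums. -/

set_option autoImplicit false

namespace Pool.Agent.LibSM93

open MeasureTheory Filter Topology Pool.Agent.LibMM99 Pool.Agent.LibTG78
open scoped ComplexConjugate

theorem U5_geom (n : ℕ) : ∑ k ∈ Finset.range n, ((2 : ℝ) ^ ((k : ℝ) + 1))⁻¹ ≤ 1 := by
  have h : ∀ n : ℕ, ∑ k ∈ Finset.range n, ((2 : ℝ) ^ ((k : ℝ) + 1))⁻¹ = 1 - ((2 : ℝ) ^ n)⁻¹ := by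
    intro n
    induction n with
    | zero => simp
    | succ n ih =>
      rw [Finset.sum_range_succ, ih]
      have h1 : (2 : ℝ) ^ ((n : ℝ) + 1) = 2 ^ n * 2 := by
        rw [Real.rpow_add (by norm_num), Real.rpow_natCast, Real.rpow_one]
      rw [h1, pow_succ]
      have h2 : (2 : ℝ) ^ n ≠ 0 := by positivity
      field_simp
      ring
  rw [h]
  have : (0 : ℝ) ≤ ((2 : ℝ) ^ n)⁻¹ := by positivity
  linarith

theorem U5_pow {β : ℝ} (hβ : 0 < β) (n : ℕ) (y : ℕ → ℂ) :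
    ‖∑ k ∈ Finset.range n, y k‖ ^ β ≤ ∑ k ∈ Finset.range n, (2 : ℝ) ^ (β * ((k : ℝ) + 1)) * ‖y k‖ ^ β := by
  rcases Nat.eq_zero_or_pos n with rfl | hn
  · simp [Real.zero_rpow hβ.ne']
  obtain ⟨k0, hk0, hmax⟩ := Finset.exists_max_image (Finset.range n) (fun k => (2 : ℝ) ^ ((k : ℝ) + 1) * ‖y k‖)
    ⟨0, Finset.mem_range.2 hn⟩
  have hp : ∀ k : ℕ, (0 : ℝ) < (2 : ℝ) ^ ((k : ℝ) + 1) := fun k => by positivity
  have h1 : ‖∑ k ∈ Finset.range n, y k‖ ≤ (2 : ℝ) ^ ((k0 : ℝ) + 1) * ‖y k0‖ := by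
    calc ‖∑ k ∈ Finset.range n, y k‖ ≤ ∑ k ∈ Finset.range n, ‖y k‖ := norm_sum_le _ _
      _ ≤ ∑ k ∈ Finset.range n, ((2 : ℝ) ^ ((k : ℝ) + 1))⁻¹ * ((2 : ℝ) ^ ((k0 : ℝ) + 1) * ‖y k0‖) := by
          refine Finset.sum_le_sum fun k hk => ?_
          rw [inv_mul_eq_div, le_div_iff₀ (hp k), mul_comm]
          exact hmax k hk
      _ = (∑ k ∈ Finset.range n, ((2 : ℝ) ^ ((k : ℝ) + 1))⁻¹) * ((2 : ℝ) ^ ((k0 : ℝ) + 1) * ‖y k0‖) := by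
          rw [Finset.sum_mul]
      _ ≤ 1 * ((2 : ℝ) ^ ((k0 : ℝ) + 1) * ‖y k0‖) :=
          mul_le_mul_of_nonneg_right (U5_geom n) (mul_nonneg (hp k0).le (norm_nonneg _))
      _ = _ := one_mul _
  calc ‖∑ k ∈ Finset.range n, y k‖ ^ β ≤ ((2 : ℝ) ^ ((k0 : ℝ) + 1) * ‖y k0‖) ^ β :=
        Real.rpow_le_rpow (norm_nonneg _) h1 hβ.le
    _ = (2 : ℝ) ^ (β * ((k0 : ℝ) + 1)) * ‖y k0‖ ^ β := by
        rw [Real.mul_rpow (hp k0).le (norm_nonneg _), ← Real.rpow_mul (by norm_num), mul_comm ((k0 : ℝ) + 1)]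
    _ ≤ _ := Finset.single_le_sum (f := fun k : ℕ => (2 : ℝ) ^ (β * ((k : ℝ) + 1)) * ‖y k‖ ^ β)
        (fun k _ => by positivity) hk0

theorem sum_pow {β : ℝ} (hβ : 0 < β) (A Y : ℕ) (x : ℕ → ℂ) :
    ‖∑ m ∈ Finset.Ico A Y, x m‖ ^ β ≤ ∑ m ∈ Finset.Ico A Y, (2 : ℝ) ^ (β * ((m : ℝ) - A + 1)) * ‖x m‖ ^ β := by
  rw [Finset.sum_Ico_eq_sum_range, Finset.sum_Ico_eq_sum_range]
  refine (U5_pow hβ (Y - A) fun k => x (A + k)).trans (le_of_eq ?_)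
  refine Finset.sum_congr rfl fun k _ => ?_
  have h1 : ((A + k : ℕ) : ℝ) - A + 1 = (k : ℝ) + 1 := by
    push_cast
    ring
  rw [h1]

theorem U5_summable {β : ℝ} (hβ : 0 < β) (g : ℝ) :
    Summable fun m : ℕ => (2 : ℝ) ^ (β * ((m : ℝ) + 1)) * (Real.exp (-(9 / 10 * β * m)) * ((m : ℝ) + 2) ^ g) := by
  set r : ℝ := Real.exp (β * (Real.log 2 - 9 / 10)) with hr
  have hr1 : r < 1 := by
    rw [hr, Real.exp_lt_one_iff]
    have := Real.log_two_lt_d9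
    exact mul_neg_of_pos_of_neg hβ (by linarith)
  have hr0 : 0 < r := Real.exp_pos _
  have h1 : Summable fun m : ℕ => (m : ℝ) ^ (⌈|g|⌉₊) * r ^ m :=
    summable_pow_mul_geometric_of_norm_lt_one _ (by rw [Real.norm_of_nonneg hr0.le]; exact hr1)
  have h2 : Summable fun m : ℕ => ((m + 2 : ℕ) : ℝ) ^ (⌈|g|⌉₊) * r ^ (m + 2) := (summable_nat_add_iff 2).2 h1
  have h3 := h2.mul_left ((2 : ℝ) ^ β * (r ^ 2)⁻¹)
  refine Summable.of_nonneg_of_le (fun m => by positivity) (fun m => ?_) h3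
  have e1 : (2 : ℝ) ^ (β * ((m : ℝ) + 1)) * Real.exp (-(9 / 10 * β * m)) = (2 : ℝ) ^ β * r ^ m := by
    rw [Real.rpow_def_of_pos (by norm_num), Real.rpow_def_of_pos (by norm_num), hr, ← Real.exp_nat_mul,
      ← Real.exp_add, ← Real.exp_add]
    congr 1
    ring
  have e2 : ((m : ℝ) + 2) ^ g ≤ ((m + 2 : ℕ) : ℝ) ^ (⌈|g|⌉₊) := by
    push_cast
    rw [← Real.rpow_natCast]
    refine Real.rpow_le_rpow_of_exponent_le ?_ ((le_abs_self g).trans (Nat.le_ceil _))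
    have : (0 : ℝ) ≤ m := Nat.cast_nonneg m
    linarith
  calc (2 : ℝ) ^ (β * ((m : ℝ) + 1)) * (Real.exp (-(9 / 10 * β * m)) * ((m : ℝ) + 2) ^ g)
      = (2 : ℝ) ^ β * r ^ m * ((m : ℝ) + 2) ^ g := by rw [← e1]; ring
    _ ≤ (2 : ℝ) ^ β * r ^ m * ((m + 2 : ℕ) : ℝ) ^ (⌈|g|⌉₊) := mul_le_mul_of_nonneg_left e2 (by positivity)
    _ = (2 : ℝ) ^ β * (r ^ 2)⁻¹ * (((m + 2 : ℕ) : ℝ) ^ (⌈|g|⌉₊) * r ^ (m + 2)) := by
        rw [pow_add]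
        field_simp

theorem sum_small {β : ℝ} (hβ : 0 < β) (g : ℝ) : ∀ ε : ℝ, 0 < ε → ∃ A0 : ℕ, ∀ A Y : ℕ, A0 ≤ A →
    ∑ m ∈ Finset.Ico A Y, (2 : ℝ) ^ (β * ((m : ℝ) - A + 1)) *
      (Real.exp (-(9 / 10 * β * m)) * ((m : ℝ) + 2) ^ g) ≤ ε := by
  intro ε hε
  have hs := U5_summable hβ g
  set f : ℕ → ℝ := fun m : ℕ => (2 : ℝ) ^ (β * ((m : ℝ) + 1)) * (Real.exp (-(9 / 10 * β * m)) * ((m : ℝ) + 2) ^ g) with hf
  have hf0 : ∀ m, 0 ≤ f m := fun m => by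
    simp only [hf]
    positivity
  have ht := tendsto_sum_nat_add f
  obtain ⟨A0, hA0⟩ := eventually_atTop.1 (ht.eventually (eventually_le_nhds hε))
  refine ⟨A0, fun A Y hA => ?_⟩
  have h1 : ∑ m ∈ Finset.Ico A Y, (2 : ℝ) ^ (β * ((m : ℝ) - A + 1)) *
      (Real.exp (-(9 / 10 * β * m)) * ((m : ℝ) + 2) ^ g) ≤ ∑ m ∈ Finset.Ico A Y, f m := by
    refine Finset.sum_le_sum fun m _ => ?_
    simp only [hf]
    refine mul_le_mul_of_nonneg_right ?_ (by positivity)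
    refine Real.rpow_le_rpow_of_exponent_le (by norm_num) (mul_le_mul_of_nonneg_left ?_ hβ.le)
    have : (0 : ℝ) ≤ A := Nat.cast_nonneg A
    linarith
  refine h1.trans ?_
  rw [Finset.sum_Ico_eq_sum_range]
  have h2 : Summable fun k : ℕ => f (A + k) := by
    have := (summable_nat_add_iff A).2 hs
    refine this.congr fun k => ?_
    rw [add_comm]
  refine (h2.sum_le_tsum _ fun k _ => hf0 _).trans ?_
  have h3 := hA0 A hA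
  have h4 : (∑' k : ℕ, f (A + k)) = ∑' k : ℕ, f (k + A) := by
    congr 1
    funext k
    rw [add_comm]
  rw [h4]
  exact h3

end Pool.Agent.LibSM93
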