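import Mathlib
import Pool.Agent.LibSM93.Defs
import Pool.Agent.LibSM93.U1
import Pool.Agent.LibSM93.U2
import Pool.Agent.LibSM93.U5

/-! Row U3: independence of the level, and the model telescoping -/

set_option autoImplicit false

namespace Pool.Agent.LibSM93

open MeasureTheory Filter Topology Pool.Agent.LibMM99 Pool.Agent.LibTG78
open scoped ComplexConjugate

lemma U3_adm0 {L : ℝ} (hL : 1 ≤ L) : Adm 0 L := ⟨hL, by rw [norm_zero]; positivity⟩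

theorem nu_loc {L L' : ℝ} (hL : 1 ≤ L) (hLL : L ≤ L') {f : Om → ℝ} (hf : Continuous f)
    (hd : DependsOn f (coo 1 (Real.exp L))) : ∫ x, f x ∂(nu 0 L') = ∫ x, f x ∂(nu 0 L) := by
  have h1 : (1 : ℝ) ≤ Real.exp L := Real.one_le_exp (by linarith)
  rw [integral_nu_loc (U3_adm0 (hL.trans hLL)) le_rfl h1 (Real.exp_le_exp.2 hLL) hf hd,
    integral_nu_loc (U3_adm0 hL) le_rfl h1 le_rfl hf hd]

lemma U3_smo (L : ℝ) : smo 1 (Real.exp L) (Real.exp L) = Finset.Icc 1 ⌊Real.exp L⌋₊ := by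
  unfold smo
  refine Finset.filter_true_of_mem fun n hn p hp => ?_
  rw [Finset.mem_Icc] at hn
  have hpp := Nat.prime_of_mem_primeFactors hp
  have hpn : p ≤ n := Nat.le_of_mem_primeFactors hp
  refine ⟨by exact_mod_cast hpp.one_lt, ?_⟩
  exact (Nat.le_floor_iff (Real.exp_pos L).le).1 (hpn.trans hn.2)

lemma U3_SS_dep (w : ℝ → ℂ) (L : ℝ) : DependsOn (SS w L) (coo 1 (Real.exp L)) := by
  have h := dependsOn_DS_smo 1 (Real.exp L) (Real.exp L) (fun n => w (Real.log n / L))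
  rw [U3_smo] at h
  exact h

lemma U3_tele (f : ℕ → ℂ) {A Y : ℕ} (h : A ≤ Y) : f Y - f A = ∑ m ∈ Finset.Ico A Y, (f (m + 1) - f m) := by
  induction Y, h using Nat.le_induction with
  | base => simp
  | succ n hn ih =>
    rw [Finset.sum_Ico_succ_top hn, ← ih]
    ring

theorem middle_nu {β : ℝ} (hβ : 0 < β) : ∀ ε : ℝ, 0 < ε → ∃ A0 : ℕ, ∀ A Y : ℕ, A0 ≤ A → A ≤ Y →
    ∀ h : ℝ, 0 < h → h ≤ 1 →
    ∫ x, ‖DY h Y x - DY h A x‖ ^ β ∂(nu 0 (((Y : ℝ) + 1) / h)) ≤ ε * h ^ (-gam β) := by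
  intro ε hε
  obtain ⟨Λ, hΛ, hvm⟩ := isWeight_vm
  obtain ⟨C, hC, hap⟩ := apriori_nu hβ Λ
  have hCp : 0 < C := by linarith
  have h2b : (0 : ℝ) < 2 ^ β := Real.rpow_pos_of_pos (by norm_num) _
  obtain ⟨A0, hA0⟩ := sum_small hβ (gam β) (ε / (2 ^ β * (2 * C))) (by positivity)
  refine ⟨A0, fun A Y hA hAY h hh hh1 => ?_⟩
  obtain ⟨L, hLdef⟩ : ∃ L, L = ((Y : ℝ) + 1) / h := ⟨_, rfl⟩
  rw [← hLdef]
  have hL1 : 1 ≤ L := by
    rw [hLdef, le_div_iff₀ hh]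
    have : (0 : ℝ) ≤ Y := Nat.cast_nonneg _
    linarith
  have := (isProd_nu (U3_adm0 hL1)).prob
  have hw0 : IsWeight w0 Λ := ⟨hΛ, isWeight_w0.zero, isWeight_w0.supp, fun u v hu hv =>
    (isWeight_w0.lip u v hu hv).trans (mul_le_mul_of_nonneg_right hΛ (abs_nonneg _))⟩
  have hcont : ∀ Z : ℝ, Continuous (DY h Z) := fun Z => (DY_cont h Z).1
  have hcw : ∀ (w : ℝ → ℂ) (M : ℝ), Continuous fun x => ‖SS w M x‖ ^ β := fun w M =>
    ((continuous_norm.comp (continuous_DS _ _)).rpow_const fun _ => Or.inr hβ.le)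
  -- one step
  have hstep : ∀ m ∈ Finset.Ico A Y, ∫ x, ‖DY h (((m + 1 : ℕ) : ℝ)) x - DY h m x‖ ^ β ∂(nu 0 L) ≤
      (Real.exp (-(9 / 10 * β * m)) * ((m : ℝ) + 2) ^ gam β) * (2 ^ β * (2 * C) * h ^ (-gam β)) := by
    intro m hm
    rw [Finset.mem_Ico] at hm
    obtain ⟨M, hM⟩ : ∃ M, M = ((m : ℝ) + 2) / h := ⟨_, rfl⟩
    have hm0 : (0 : ℝ) ≤ m := Nat.cast_nonneg _
    have hM1 : 1 ≤ M := by
      rw [hM, le_div_iff₀ hh]
      linarith
    have hML : M ≤ L := by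
      rw [hM, hLdef]
      have : ((m : ℝ) + 1) ≤ Y := by exact_mod_cast hm.2
      exact div_le_div_of_nonneg_right (by linarith) hh.le
    have hmean : ∀ w : ℝ → ℂ, IsWeight w Λ → ∫ x, ‖SS w M x‖ ^ β ∂(nu 0 L) ≤ C * M ^ gam β := by
      intro w hw
      rw [nu_loc hM1 hML (hcw w M) (fun x y hxy => by
        have := U3_SS_dep w M hxy
        simp only [this])]
      exact hap w hw 0 M (U3_adm0 hM1)
    have hpt : ∀ x, ‖DY h (((m + 1 : ℕ) : ℝ)) x - DY h m x‖ ^ β ≤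
        Real.exp (-(9 / 10 * β * m)) * (2 ^ β * (‖SS (vm m) M x‖ ^ β + ‖SS w0 M x‖ ^ β)) := by
      intro x
      have e1 := DY_step m hh x
      rw [← hM] at e1
      have e2 : ‖DY h (((m + 1 : ℕ) : ℝ)) x - DY h m x‖ =
          Real.exp (-(9 / 10 * m)) * ‖SS (vm m) M x + -(SS w0 M x)‖ := by
        rw [← sub_eq_add_neg, ← e1, norm_mul, Complex.norm_real, Real.norm_eq_abs, abs_of_pos (Real.exp_pos _),
          ← mul_assoc, ← Real.exp_add]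
        push_cast
        simp
      have e3 : Real.exp (-(9 / 10 * m)) ^ β = Real.exp (-(9 / 10 * β * m)) := by
        rw [← Real.exp_mul]
        congr 1
        ring
      rw [e2, Real.mul_rpow (Real.exp_pos _).le (norm_nonneg _), e3]
      have e4 := norm_add_rpow_le hβ (SS (vm m) M x) (-(SS w0 M x))
      rw [norm_neg] at e4
      gcongr
    have i1 : Integrable (fun x => ‖DY h (((m + 1 : ℕ) : ℝ)) x - DY h m x‖ ^ β) (nu 0 L) :=
      c0_integrable _ ((((hcont _).sub (hcont _)).norm).rpow_const fun _ => Or.inr hβ.le)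
    have i2 : Integrable (fun x => ‖SS (vm m) M x‖ ^ β) (nu 0 L) := c0_integrable _ (hcw _ _)
    have i3 : Integrable (fun x => ‖SS w0 M x‖ ^ β) (nu 0 L) := c0_integrable _ (hcw _ _)
    have e5 : M ^ gam β = ((m : ℝ) + 2) ^ gam β * h ^ (-gam β) := by
      rw [hM, Real.div_rpow (by linarith) hh.le, Real.rpow_neg hh.le, div_eq_mul_inv]
    calc ∫ x, ‖DY h (((m + 1 : ℕ) : ℝ)) x - DY h m x‖ ^ β ∂(nu 0 L) ≤
          ∫ x, Real.exp (-(9 / 10 * β * m)) * (2 ^ β * (‖SS (vm m) M x‖ ^ β + ‖SS w0 M x‖ ^ β)) ∂(nu 0 L) :=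
          integral_mono i1 (((i2.add i3).const_mul _).const_mul _) hpt
      _ = Real.exp (-(9 / 10 * β * m)) * (2 ^ β * ((∫ x, ‖SS (vm m) M x‖ ^ β ∂(nu 0 L)) +
          ∫ x, ‖SS w0 M x‖ ^ β ∂(nu 0 L))) := by
          rw [integral_const_mul, integral_const_mul, integral_add i2 i3]
      _ ≤ Real.exp (-(9 / 10 * β * m)) * (2 ^ β * (C * M ^ gam β + C * M ^ gam β)) := by
          have f1 := hmean _ (hvm m)
          have f2 := hmean _ hw0
          gcongr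
      _ = _ := by rw [e5]; ring
  have htel : ∀ x, DY h Y x - DY h A x = ∑ m ∈ Finset.Ico A Y, (DY h (((m + 1 : ℕ) : ℝ)) x - DY h m x) := fun x =>
    U3_tele (fun n => DY h (n : ℝ) x) hAY
  have hpt : ∀ x, ‖DY h Y x - DY h A x‖ ^ β ≤ ∑ m ∈ Finset.Ico A Y, (2 : ℝ) ^ (β * ((m : ℝ) - A + 1)) *
      ‖DY h (((m + 1 : ℕ) : ℝ)) x - DY h m x‖ ^ β := by
    intro x
    rw [htel x]
    exact sum_pow hβ A Y _
  have iD : ∀ Z Z' : ℝ, Integrable (fun x => ‖DY h Z x - DY h Z' x‖ ^ β) (nu 0 L) := fun Z Z' =>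
    c0_integrable _ ((((hcont _).sub (hcont _)).norm).rpow_const fun _ => Or.inr hβ.le)
  have hK : 0 < 2 ^ β * (2 * C) * h ^ (-gam β) := by positivity
  calc ∫ x, ‖DY h Y x - DY h A x‖ ^ β ∂(nu 0 L) ≤
      ∫ x, ∑ m ∈ Finset.Ico A Y, (2 : ℝ) ^ (β * ((m : ℝ) - A + 1)) *
        ‖DY h (((m + 1 : ℕ) : ℝ)) x - DY h m x‖ ^ β ∂(nu 0 L) :=
        integral_mono (iD _ _) (integrable_finsetSum _ fun m _ => (iD _ _).const_mul _) hpt
    _ = ∑ m ∈ Finset.Ico A Y, (2 : ℝ) ^ (β * ((m : ℝ) - A + 1)) *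
        ∫ x, ‖DY h (((m + 1 : ℕ) : ℝ)) x - DY h m x‖ ^ β ∂(nu 0 L) := by
        rw [integral_finsetSum _ fun m _ => (iD _ _).const_mul _]
        exact Finset.sum_congr rfl fun m _ => integral_const_mul _ _
    _ ≤ ∑ m ∈ Finset.Ico A Y, (2 : ℝ) ^ (β * ((m : ℝ) - A + 1)) *
        ((Real.exp (-(9 / 10 * β * m)) * ((m : ℝ) + 2) ^ gam β) * (2 ^ β * (2 * C) * h ^ (-gam β))) :=
        Finset.sum_le_sum fun m hm => mul_le_mul_of_nonneg_left (hstep m hm) (by positivity)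
    _ = (∑ m ∈ Finset.Ico A Y, (2 : ℝ) ^ (β * ((m : ℝ) - A + 1)) *
        (Real.exp (-(9 / 10 * β * m)) * ((m : ℝ) + 2) ^ gam β)) * (2 ^ β * (2 * C) * h ^ (-gam β)) := by
        rw [Finset.sum_mul]
        exact Finset.sum_congr rfl fun m _ => by ring
    _ ≤ (ε / (2 ^ β * (2 * C))) * (2 ^ β * (2 * C) * h ^ (-gam β)) :=
        mul_le_mul_of_nonneg_right (hA0 A Y hA) hK.le
    _ = ε * h ^ (-gam β) := by field_simp

end Pool.Agent.LibSM93
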