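import Mathlib
import Pool.Agent.LibSM93.Defs
import Pool.Agent.LibSM93.E4
import Pool.Agent.LibSM93.K4
import Pool.Agent.LibSM93.K10
import Pool.Agent.LibSM93.U2
import Pool.Agent.LibSM93.U3

/-! Row F1.
k0 = 2^(-(beta^2/4)) Aconst((beta+2)/2). For Y >= A let nu_Y = nu 0 ((Y+1)/h) (probability, `isProbabilityMeasure_nu`/`isProd_nu`).
int ‖DY h A‖^beta dnu_Y = int ‖DY h A‖^beta dnu_A (nu_loc, DY_cont). pow_diff (LibMM99/T29.lean) with a = Z = ZZ h 1 e^((Y+1)/h) x,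
a + b = DY h A x: |int ‖DY h A‖^beta - int ‖Z‖^beta| <= eta int ‖Z‖^beta + C_eta int ‖DY h A - Z‖^beta, and ‖DY h A - Z‖^beta <=
2^beta (‖DY h Y - DY h A‖^beta + ‖Z - DY h Y‖^beta). Let Y -> oo with h fixed: int ‖Z‖^beta dnu_Y = prod fp -> kappa h (mean_ZZh, kap_limit),
tail_model -> 0, middle_nu <= eps1 h^(-gam). So |int ‖DY h A‖^beta dnu_A - kappa h| <= eta kappa h + C_eta 2^beta eps1 h^(-gam). Multiply by
h^gam; h^gam kappa h -> k0 as h -> 0+. Choose eta, then eps1 (this gives A0), then h0.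
-/

set_option autoImplicit false

namespace Pool.Agent.LibSM93

open MeasureTheory Filter Topology Pool.Agent.LibMM99 Pool.Agent.LibTG78
open scoped ComplexConjugate

private theorem F1_one_le {h : ℝ} (hh : 0 < h) (hh1 : h ≤ 1) (Y : ℕ) : 1 ≤ ((Y : ℝ) + 1) / h := by
  rw [one_le_div hh]
  have : (0 : ℝ) ≤ Y := Nat.cast_nonneg Y
  linarith

private theorem F1_step {β : ℝ} (hβ : 0 < β) {η C ε1 : ℝ} (hC : 0 ≤ C)
    (hpd : ∀ a b : ℂ, |‖a + b‖ ^ β - ‖a‖ ^ β| ≤ η * ‖a‖ ^ β + C * ‖b‖ ^ β)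
    {A Y : ℕ} (hAY : A ≤ Y) {h : ℝ} (hh : 0 < h) (hh1 : h ≤ 1)
    (hmid : ∫ x, ‖DY h Y x - DY h A x‖ ^ β ∂(nu 0 (((Y : ℝ) + 1) / h)) ≤ ε1 * h ^ (-gam β)) :
    |(∫ x, ‖DY h A x‖ ^ β ∂(nu 0 (((A : ℝ) + 1) / h))) -
        ∏ p ∈ prm 1 (Real.exp (((Y : ℝ) + 1) / h)), fp β h p| ≤
      η * (∏ p ∈ prm 1 (Real.exp (((Y : ℝ) + 1) / h)), fp β h p) +
        C * (2 ^ β * (ε1 * h ^ (-gam β) +
          ∫ x, ‖ZZ (h : ℂ) 1 (Real.exp (((Y : ℝ) + 1) / h)) x - DY h Y x‖ ^ β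
            ∂(nu 0 (((Y : ℝ) + 1) / h)))) := by
  have hLA := F1_one_le hh hh1 A
  have hLY := F1_one_le hh hh1 Y
  have hLL : ((A : ℝ) + 1) / h ≤ ((Y : ℝ) + 1) / h := by
    have : (A : ℝ) ≤ Y := by exact_mod_cast hAY
    gcongr
  have cA := (DY_cont h A).1
  have cY := (DY_cont h Y).1
  have dA := (DY_cont h A).2
  have cZ := (continuous_ZZh hh.le 1 (Real.exp (((Y : ℝ) + 1) / h))).1
  rw [← mean_ZZh hβ hh.le hLY]
  have hfc : Continuous fun x => ‖DY h A x‖ ^ β := cA.norm.rpow_const fun _ => Or.inr hβ.le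
  have hfd : DependsOn (fun x => ‖DY h A x‖ ^ β) (coo 1 (Real.exp (((A : ℝ) + 1) / h))) := by
    intro x y hxy
    change ‖DY h A x‖ ^ β = ‖DY h A y‖ ^ β
    rw [dA hxy]
  rw [← nu_loc hLA hLL hfc hfd]
  set ν := nu 0 (((Y : ℝ) + 1) / h) with hν
  have : IsProbabilityMeasure ν := isProbabilityMeasure_nu (adm_zero hLY)
  set Z := ZZ (h : ℂ) 1 (Real.exp (((Y : ℝ) + 1) / h)) with hZ
  have i1 : Integrable (fun x => ‖DY h A x‖ ^ β) ν := c0_integrable ν hfc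
  have hgc : Continuous fun x => ‖Z x‖ ^ β := cZ.norm.rpow_const fun _ => Or.inr hβ.le
  have i2 : Integrable (fun x => ‖Z x‖ ^ β) ν := c0_integrable ν hgc
  have i3 : Integrable (fun x => ‖DY h Y x - DY h A x‖ ^ β) ν :=
    c0_integrable ν ((cY.sub cA).norm.rpow_const fun _ => Or.inr hβ.le)
  have i4 : Integrable (fun x => ‖Z x - DY h Y x‖ ^ β) ν :=
    c0_integrable ν ((cZ.sub cY).norm.rpow_const fun _ => Or.inr hβ.le)
  have hpt : ∀ x, |‖DY h A x‖ ^ β - ‖Z x‖ ^ β| ≤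
      η * ‖Z x‖ ^ β + C * (2 ^ β * (‖DY h Y x - DY h A x‖ ^ β + ‖Z x - DY h Y x‖ ^ β)) := by
    intro x
    have h1 := hpd (Z x) (DY h A x - Z x)
    rw [add_sub_cancel] at h1
    have h2 := norm_add_rpow_le hβ (DY h A x - DY h Y x) (DY h Y x - Z x)
    rw [sub_add_sub_cancel, norm_sub_rev (DY h A x) (DY h Y x), norm_sub_rev (DY h Y x) (Z x)] at h2
    have h3 := mul_le_mul_of_nonneg_left h2 hC
    linarith
  rw [← integral_sub i1 i2]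
  refine (abs_integral_le_integral_abs).trans ?_
  have i5 : Integrable (fun x => C * (2 ^ β * (‖DY h Y x - DY h A x‖ ^ β + ‖Z x - DY h Y x‖ ^ β))) ν :=
    ((i3.add i4).const_mul _).const_mul C
  have h5 : ∫ x, |‖DY h A x‖ ^ β - ‖Z x‖ ^ β| ∂ν ≤
      ∫ x, (η * ‖Z x‖ ^ β + C * (2 ^ β * (‖DY h Y x - DY h A x‖ ^ β + ‖Z x - DY h Y x‖ ^ β))) ∂ν :=
    integral_mono (i1.sub i2).abs ((i2.const_mul η).add i5) hpt
  refine h5.trans ?_
  rw [integral_add (i2.const_mul η) i5, integral_const_mul,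
    integral_const_mul, integral_const_mul, integral_add i3 i4]
  have h2β : (0 : ℝ) ≤ 2 ^ β := Real.rpow_nonneg (by norm_num) β
  gcongr

private theorem F1_key {β : ℝ} (hβ : 0 < β) {κ : ℝ → ℝ}
    (hκ : ∀ h : ℝ, 0 < h → h ≤ 1 →
      Tendsto (fun L : ℝ => ∏ p ∈ prm 1 (Real.exp L), fp β h p) atTop (𝓝 (κ h)))
    {η C ε1 : ℝ} (hC : 0 ≤ C)
    (hpd : ∀ a b : ℂ, |‖a + b‖ ^ β - ‖a‖ ^ β| ≤ η * ‖a‖ ^ β + C * ‖b‖ ^ β)
    {A0 : ℕ} (hmid : ∀ A Y : ℕ, A0 ≤ A → A ≤ Y → ∀ h : ℝ, 0 < h → h ≤ 1 →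
      ∫ x, ‖DY h Y x - DY h A x‖ ^ β ∂(nu 0 (((Y : ℝ) + 1) / h)) ≤ ε1 * h ^ (-gam β))
    {A : ℕ} (hA : A0 ≤ A) {h : ℝ} (hh : 0 < h) (hh1 : h ≤ 1) :
    |(∫ x, ‖DY h A x‖ ^ β ∂(nu 0 (((A : ℝ) + 1) / h))) - κ h| ≤
      η * κ h + C * (2 ^ β * (ε1 * h ^ (-gam β) + 0)) := by
  have hlim : Tendsto (fun Y : ℕ => ((Y : ℝ) + 1) / h) atTop atTop :=
    (tendsto_atTop_add_const_right _ _ tendsto_natCast_atTop_atTop).atTop_div_const hh
  have hP := (hκ h hh hh1).comp hlim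
  have hT := tail_model_all hβ hh hh1
  refine le_of_tendsto_of_tendsto (tendsto_const_nhds.sub hP).abs
    ((hP.const_mul η).add (((tendsto_const_nhds.add hT).const_mul (2 ^ β)).const_mul C))
    (eventually_atTop.2 ⟨A, fun Y hAY => ?_⟩)
  exact F1_step hβ hC hpd hAY hh hh1 (hmid A Y hA hAY h hh hh1)

theorem const_model {β : ℝ} (hβ : 0 < β) : ∀ ε : ℝ, 0 < ε → ∃ A0 : ℕ, ∀ A : ℕ, A0 ≤ A →
    ∃ h0 : ℝ, 0 < h0 ∧ ∀ h : ℝ, 0 < h → h ≤ h0 →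
    |h ^ gam β * (∫ x, ‖DY h A x‖ ^ β ∂(nu 0 (((A : ℝ) + 1) / h))) -
      2 ^ (-(β ^ 2 / 4)) * LibZM.Aconst ((β + 2) / 2)| ≤ ε := by
  intro ε hε
  obtain ⟨κ, hκ, hκl⟩ := kap_limit hβ
  set k0 : ℝ := 2 ^ (-(β ^ 2 / 4)) * LibZM.Aconst ((β + 2) / 2) with hk0
  set η : ℝ := ε / (3 * (|k0| + 1)) with hη
  have hk1 : 0 < |k0| + 1 := by positivity
  have hη0 : 0 < η := by positivity
  obtain ⟨C, hC, hpd⟩ := pow_diff hβ hη0
  have h2β : (0 : ℝ) < 2 ^ β := Real.rpow_pos_of_pos (by norm_num) β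
  set ε1 : ℝ := ε / (3 * (C * 2 ^ β)) with hε1
  have hε10 : 0 < ε1 := by positivity
  obtain ⟨A0, hA0⟩ := middle_nu hβ ε1 hε10
  refine ⟨A0, fun A hA => ?_⟩
  have hm : (0 : ℝ) < min (ε / 3) 1 := lt_min (by positivity) one_pos
  have h1 := Metric.tendsto_nhds.1 hκl (min (ε / 3) 1) hm
  rw [eventually_nhdsWithin_iff, Metric.eventually_nhds_iff] at h1
  obtain ⟨δ, hδ, h2⟩ := h1
  refine ⟨min (δ / 2) 1, lt_min (by positivity) one_pos, fun h hh hh0 => ?_⟩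
  have hh1 : h ≤ 1 := hh0.trans (min_le_right _ _)
  have hhδ : h < δ := by
    have := hh0.trans (min_le_left _ _)
    linarith
  have h3 := h2 (y := h) (by rw [Real.dist_eq, sub_zero, abs_of_pos hh]; exact hhδ) hh
  rw [Real.dist_eq] at h3
  have h4 : |h ^ gam β * κ h - k0| < ε / 3 := h3.trans_le (min_le_left _ _)
  have h5 : |h ^ gam β * κ h - k0| < 1 := h3.trans_le (min_le_right _ _)
  have h6 : h ^ gam β * κ h ≤ |k0| + 1 := by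
    have := (abs_lt.1 h5).2
    have := le_abs_self k0
    linarith
  have h7 := F1_key hβ hκ hC.le hpd hA0 hA hh hh1
  have hg : 0 < h ^ gam β := Real.rpow_pos_of_pos hh _
  have hgg : h ^ gam β * h ^ (-gam β) = 1 := by
    rw [← Real.rpow_add hh, add_neg_cancel, Real.rpow_zero]
  have h8 : |h ^ gam β * (∫ x, ‖DY h A x‖ ^ β ∂(nu 0 (((A : ℝ) + 1) / h))) - h ^ gam β * κ h| ≤
      η * (h ^ gam β * κ h) + C * (2 ^ β * ε1) := by
    rw [← mul_sub, abs_mul, abs_of_pos hg]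
    calc h ^ gam β * |(∫ x, ‖DY h A x‖ ^ β ∂(nu 0 (((A : ℝ) + 1) / h))) - κ h|
        ≤ h ^ gam β * (η * κ h + C * (2 ^ β * (ε1 * h ^ (-gam β) + 0))) :=
          mul_le_mul_of_nonneg_left h7 hg.le
      _ = η * (h ^ gam β * κ h) + C * (2 ^ β * ε1) * (h ^ gam β * h ^ (-gam β)) := by ring
      _ = _ := by rw [hgg, mul_one]
  have h9 : η * (h ^ gam β * κ h) ≤ ε / 3 := by
    calc η * (h ^ gam β * κ h) ≤ η * (|k0| + 1) := mul_le_mul_of_nonneg_left h6 hη0.le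
      _ = ε / 3 := by rw [hη]; field_simp
  have h10 : C * (2 ^ β * ε1) = ε / 3 := by
    rw [hε1]
    field_simp
  have h11 := abs_sub_le (h ^ gam β * (∫ x, ‖DY h A x‖ ^ β ∂(nu 0 (((A : ℝ) + 1) / h))))
    (h ^ gam β * κ h) k0
  linarith

end Pool.Agent.LibSM93
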