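import Mathlib
import Pool.Agent.LibSM93.Defs
import Pool.Agent.LibSM93.I4

/-! Row I5.
|a| >= max (1/4) |t|, so |PO|^beta <= T^(beta theta/2) min(4^beta, |t|^(-beta)) with theta = 1/16 (beta <= 2). Second moment of
zeta: (1/T) int_0^T |zeta|^2 <= C log T for T >= T0 (`D5_poly` in LibTG78/D5a.lean with Phi = 1, or a second moment bound in LibZM; see
`D6_pole` in LibTG78/D6a.lean, which does a very similar thing). Split [0,T] at sqrt T: on [0, sqrt T] the integral is <= 4^beta T^(1/16)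
C sqrt T log T, on [sqrt T, T] it is <= T^(1/16 beta/..) T^(-beta/2) C T log T. After division by T both are T^(-c) log T times constants,
bounded. (`eta`, `PO` are continuous: PO_cont; the bound is PO_bound.)
-/

set_option autoImplicit false

namespace Pool.Agent.LibSM93

open MeasureTheory Filter Topology Pool.Agent.LibMM99 Pool.Agent.LibTG78
open scoped ComplexConjugate

lemma I5_norm_quarter {h : ℝ} (hh4 : h ≤ 1 / 4) (t : ℝ) :
    1 / 4 ≤ ‖((1 / 2 - h : ℝ) : ℂ) - (t : ℂ) * Complex.I‖ := by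
  have h1 := Complex.abs_re_le_norm (((1 / 2 - h : ℝ) : ℂ) - (t : ℂ) * Complex.I)
  have h2 : (((1 / 2 - h : ℝ) : ℂ) - (t : ℂ) * Complex.I).re = 1 / 2 - h := by simp
  rw [h2] at h1
  have h3 := le_abs_self (1 / 2 - h)
  linarith

lemma I5_norm_t (h t : ℝ) : t ≤ ‖((1 / 2 - h : ℝ) : ℂ) - (t : ℂ) * Complex.I‖ := by
  have h1 := Complex.abs_im_le_norm (((1 / 2 - h : ℝ) : ℂ) - (t : ℂ) * Complex.I)
  have h2 : (((1 / 2 - h : ℝ) : ℂ) - (t : ℂ) * Complex.I).im = -t := by simp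
  rw [h2, abs_neg] at h1
  exact (le_abs_self t).trans h1

theorem PO_mean {β : ℝ} (hβ : 0 < β) {φ : ℝ → ℂ} (hφ : IsKernel φ) :
    ∃ θ C T0 : ℝ, 0 < θ ∧ 0 < C ∧ 1 ≤ T0 ∧ ∀ h Y T : ℝ, 0 < h → h ≤ 1 / 4 → 0 ≤ Y → T0 ≤ T →
    (Y + 1) / h ≤ θ * Real.log T →
    (1 / T) * (∫ t in (0 : ℝ)..T, ‖riemannZeta (1 / 2 + t * Complex.I)‖ ^ 2 * ‖PO φ h Y t‖ ^ β) ≤ C := by
  obtain ⟨C2, hC2, h2⟩ := D6_second
  obtain ⟨c0, hc0⟩ : ∃ c0 : ℝ, c0 = min 1 β / 2 := ⟨_, rfl⟩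
  have hc0p : 0 < c0 := by rw [hc0]; exact div_pos (lt_min one_pos hβ) (by norm_num)
  have hc01 : c0 ≤ 1 / 2 := by
    rw [hc0]
    have := min_le_left 1 β
    linarith
  have hc0β : c0 ≤ β / 2 := by
    rw [hc0]
    have := min_le_right 1 β
    linarith
  refine ⟨c0 / β, 2 * ((4 : ℝ) ^ β * C2) * (1 + (c0 / 2)⁻¹), 1, by positivity, by positivity, le_rfl, ?_⟩
  intro h Y T hh hh4 hY hT hs
  have hTp : 0 < T := by linarith
  have hlT : 0 ≤ Real.log T := Real.log_nonneg hT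
  obtain ⟨R, hR⟩ : ∃ R, R = T ^ (1/2 : ℝ) := ⟨_, rfl⟩
  have hR1 : 1 ≤ R := by rw [hR]; exact Real.one_le_rpow hT (by norm_num)
  have hRT : R ≤ T := by
    rw [hR]
    calc T ^ (1/2 : ℝ) ≤ T ^ (1 : ℝ) := Real.rpow_le_rpow_of_exponent_le hT (by norm_num)
      _ = T := Real.rpow_one T
  have hlR : Real.log R ≤ Real.log T := Real.log_le_log (by linarith) hRT
  have hE : Real.exp ((Y + 1) / (2 * h)) ^ β ≤ T ^ (c0 / 2) := by
    rw [← Real.exp_mul, Real.rpow_def_of_pos hTp, Real.exp_le_exp]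
    have e1 : (Y + 1) / (2 * h) * β = ((Y + 1) / h) * (β / 2) := by field_simp
    rw [e1]
    calc ((Y + 1) / h) * (β / 2) ≤ (c0 / β * Real.log T) * (β / 2) :=
          mul_le_mul_of_nonneg_right hs (by positivity)
      _ = Real.log T * (c0 / 2) := by field_simp
  obtain ⟨Z, hZ⟩ : ∃ Z : ℝ → ℝ, Z = fun t : ℝ => ‖riemannZeta (1 / 2 + t * Complex.I)‖ ^ 2 := ⟨_, rfl⟩
  have hZc : Continuous Z := by
    rw [hZ]
    exact LibZM.continuous_zeta_crit.norm.pow 2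
  have hZ0 : ∀ t, 0 ≤ Z t := by intro t; rw [hZ]; positivity
  have hPc : Continuous fun t => ‖PO φ h Y t‖ ^ β :=
    (PO_cont hφ hh hh4 hY).1.norm.rpow_const fun t => Or.inr hβ.le
  have hFc : Continuous fun t => Z t * ‖PO φ h Y t‖ ^ β := hZc.mul hPc
  have hb : ∀ t, ‖PO φ h Y t‖ ≤
      Real.exp ((Y + 1) / (2 * h)) / ‖((1 / 2 - h : ℝ) : ℂ) - (t : ℂ) * Complex.I‖ :=
    fun t => PO_bound hφ hh hh4 hY t
  have hb1 : ∀ t, ‖PO φ h Y t‖ ^ β ≤ (4 : ℝ) ^ β * T ^ (c0 / 2) := by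
    intro t
    have h3 : ‖PO φ h Y t‖ ≤ 4 * Real.exp ((Y + 1) / (2 * h)) := by
      refine (hb t).trans ?_
      have h4 := I5_norm_quarter hh4 t
      rw [div_le_iff₀ (lt_of_lt_of_le (by norm_num) h4)]
      have h5 : 0 ≤ Real.exp ((Y + 1) / (2 * h)) := by positivity
      nlinarith
    calc ‖PO φ h Y t‖ ^ β ≤ (4 * Real.exp ((Y + 1) / (2 * h))) ^ β :=
          Real.rpow_le_rpow (norm_nonneg _) h3 hβ.le
      _ = (4 : ℝ) ^ β * Real.exp ((Y + 1) / (2 * h)) ^ β :=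
          Real.mul_rpow (by positivity) (Real.exp_pos _).le
      _ ≤ _ := mul_le_mul_of_nonneg_left hE (by positivity)
  have hb2 : ∀ t, R ≤ t → ‖PO φ h Y t‖ ^ β ≤ (4 : ℝ) ^ β * T ^ (c0 / 2) * T ^ (-(β / 2)) := by
    intro t ht
    have h3 : ‖PO φ h Y t‖ ≤ 4 * Real.exp ((Y + 1) / (2 * h)) * R⁻¹ := by
      refine (hb t).trans ?_
      have h4 := (ht.trans (I5_norm_t h t))
      have h5 : 0 ≤ Real.exp ((Y + 1) / (2 * h)) := by positivity
      calc Real.exp ((Y + 1) / (2 * h)) / ‖((1 / 2 - h : ℝ) : ℂ) - (t : ℂ) * Complex.I‖ ≤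
            Real.exp ((Y + 1) / (2 * h)) / R :=
            div_le_div_of_nonneg_left h5 (by linarith) h4
        _ = Real.exp ((Y + 1) / (2 * h)) * R⁻¹ := div_eq_mul_inv _ _
        _ ≤ 4 * Real.exp ((Y + 1) / (2 * h)) * R⁻¹ := by
            refine mul_le_mul_of_nonneg_right ?_ (by positivity)
            linarith
    have h6 : R⁻¹ ^ β = T ^ (-(β / 2)) := by
      rw [hR, ← Real.rpow_neg hTp.le, ← Real.rpow_mul hTp.le]
      congr 1
      ring
    calc ‖PO φ h Y t‖ ^ β ≤ (4 * Real.exp ((Y + 1) / (2 * h)) * R⁻¹) ^ β :=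
          Real.rpow_le_rpow (norm_nonneg _) h3 hβ.le
      _ = (4 : ℝ) ^ β * Real.exp ((Y + 1) / (2 * h)) ^ β * R⁻¹ ^ β := by
          rw [Real.mul_rpow (by positivity) (by positivity),
            Real.mul_rpow (by positivity) (Real.exp_pos _).le]
      _ ≤ (4 : ℝ) ^ β * T ^ (c0 / 2) * R⁻¹ ^ β := by
          refine mul_le_mul_of_nonneg_right ?_ (by positivity)
          exact mul_le_mul_of_nonneg_left hE (by positivity)
      _ = _ := by rw [h6]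
  obtain ⟨Q, hQ⟩ : ∃ Q, Q = (4 : ℝ) ^ β * T ^ (c0 / 2) := ⟨_, rfl⟩
  have hQ0 : 0 ≤ Q := by rw [hQ]; positivity
  rw [← hQ] at hb1 hb2
  have hTβ : 0 ≤ T ^ (-(β / 2)) := by positivity
  have i1 : ∫ t in (0 : ℝ)..R, Z t * ‖PO φ h Y t‖ ^ β ≤ Q * (C2 * R * (1 + Real.log T)) := by
    have h3 : ∫ t in (0 : ℝ)..R, Z t * ‖PO φ h Y t‖ ^ β ≤ ∫ t in (0 : ℝ)..R, Q * Z t := by
      refine intervalIntegral.integral_mono_on (by linarith) (hFc.intervalIntegrable _ _)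
        ((hZc.const_mul Q).intervalIntegrable _ _) fun t _ => ?_
      rw [mul_comm]
      exact mul_le_mul_of_nonneg_right (hb1 t) (hZ0 t)
    rw [intervalIntegral.integral_const_mul] at h3
    have h4 := h2 R hR1
    have h5 : ∫ t in (0 : ℝ)..R, Z t ≤ C2 * R * (1 + Real.log T) := by
      rw [hZ]
      refine h4.trans (mul_le_mul_of_nonneg_left (by linarith) (by positivity))
    exact h3.trans (mul_le_mul_of_nonneg_left h5 hQ0)
  have i2 : ∫ t in R..T, Z t * ‖PO φ h Y t‖ ^ β ≤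
      Q * T ^ (-(β / 2)) * (C2 * T * (1 + Real.log T)) := by
    have h3 : ∫ t in R..T, Z t * ‖PO φ h Y t‖ ^ β ≤
        ∫ t in R..T, (Q * T ^ (-(β / 2))) * Z t := by
      refine intervalIntegral.integral_mono_on hRT (hFc.intervalIntegrable _ _)
        ((hZc.const_mul _).intervalIntegrable _ _) fun t ht => ?_
      rw [mul_comm]
      exact mul_le_mul_of_nonneg_right (hb2 t ht.1) (hZ0 t)
    rw [intervalIntegral.integral_const_mul] at h3
    have h4 := h2 T hT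
    have h5 : ∫ t in R..T, Z t ≤ ∫ t in (0 : ℝ)..T, Z t := by
      rw [← intervalIntegral.integral_add_adjacent_intervals (hZc.intervalIntegrable 0 R)
        (hZc.intervalIntegrable R T)]
      have : 0 ≤ ∫ t in (0 : ℝ)..R, Z t :=
        intervalIntegral.integral_nonneg (by linarith) fun t _ => hZ0 t
      linarith
    have h6 : ∫ t in (0 : ℝ)..T, Z t ≤ C2 * T * (1 + Real.log T) := by
      rw [hZ]; exact h4
    exact h3.trans (mul_le_mul_of_nonneg_left (h5.trans h6) (by positivity))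
  have i3 : ∫ t in (0 : ℝ)..T, Z t * ‖PO φ h Y t‖ ^ β =
      (∫ t in (0 : ℝ)..R, Z t * ‖PO φ h Y t‖ ^ β) +
        ∫ t in R..T, Z t * ‖PO φ h Y t‖ ^ β :=
    (intervalIntegral.integral_add_adjacent_intervals (hFc.intervalIntegrable _ _)
      (hFc.intervalIntegrable _ _)).symm
  have hgoal : (∫ t in (0 : ℝ)..T, ‖riemannZeta (1 / 2 + t * Complex.I)‖ ^ 2 *
        ‖PO φ h Y t‖ ^ β) = ∫ t in (0 : ℝ)..T, Z t * ‖PO φ h Y t‖ ^ β := by rw [hZ]
  rw [hgoal, i3]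
  have p1 : T ^ (c0 / 2) * T ^ (-(1/2) : ℝ) ≤ T ^ (-(c0 / 2)) := by
    rw [← Real.rpow_add hTp]
    refine Real.rpow_le_rpow_of_exponent_le hT ?_
    linarith
  have p2 : T ^ (c0 / 2) * T ^ (-(β / 2)) ≤ T ^ (-(c0 / 2)) := by
    rw [← Real.rpow_add hTp]
    refine Real.rpow_le_rpow_of_exponent_le hT ?_
    linarith
  have hRinv : 1 / T * R = T ^ (-(1/2) : ℝ) := by
    rw [hR, one_div, ← Real.rpow_neg_one, ← Real.rpow_add hTp]
    norm_num
  have p3 : (1 + Real.log T) * T ^ (-(c0 / 2)) ≤ 1 + (c0 / 2)⁻¹ := by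
    have h3 : Real.log T ≤ T ^ (c0 / 2) / (c0 / 2) := Real.log_le_rpow_div hTp.le (by positivity)
    have h4 : T ^ (-(c0 / 2)) ≤ 1 := Real.rpow_le_one_of_one_le_of_nonpos hT (by linarith)
    have h5 : T ^ (c0 / 2) * T ^ (-(c0 / 2)) = 1 := by
      rw [← Real.rpow_add hTp, add_neg_cancel, Real.rpow_zero]
    have h6 : 0 ≤ T ^ (-(c0 / 2)) := by positivity
    calc (1 + Real.log T) * T ^ (-(c0 / 2)) = T ^ (-(c0 / 2)) + Real.log T * T ^ (-(c0 / 2)) := by ring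
      _ ≤ 1 + T ^ (c0 / 2) / (c0 / 2) * T ^ (-(c0 / 2)) :=
          add_le_add h4 (mul_le_mul_of_nonneg_right h3 h6)
      _ = 1 + (T ^ (c0 / 2) * T ^ (-(c0 / 2))) * (c0 / 2)⁻¹ := by rw [div_eq_mul_inv]; ring
      _ = 1 + (c0 / 2)⁻¹ := by rw [h5, one_mul]
  calc 1 / T * ((∫ t in (0 : ℝ)..R, Z t * ‖PO φ h Y t‖ ^ β) +
        ∫ t in R..T, Z t * ‖PO φ h Y t‖ ^ β) ≤
        1 / T * (Q * (C2 * R * (1 + Real.log T)) +
          Q * T ^ (-(β / 2)) * (C2 * T * (1 + Real.log T))) :=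
        mul_le_mul_of_nonneg_left (add_le_add i1 i2) (by positivity)
    _ = (4 : ℝ) ^ β * C2 * (1 + Real.log T) * (T ^ (c0 / 2) * (1 / T * R)) +
        (4 : ℝ) ^ β * C2 * (1 + Real.log T) * (T ^ (c0 / 2) * T ^ (-(β / 2))) := by
        rw [hQ]
        field_simp
    _ ≤ (4 : ℝ) ^ β * C2 * (1 + Real.log T) * T ^ (-(c0 / 2)) +
        (4 : ℝ) ^ β * C2 * (1 + Real.log T) * T ^ (-(c0 / 2)) := by
        rw [hRinv]
        exact add_le_add (mul_le_mul_of_nonneg_left p1 (by positivity))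
          (mul_le_mul_of_nonneg_left p2 (by positivity))
    _ = 2 * ((4 : ℝ) ^ β * C2) * ((1 + Real.log T) * T ^ (-(c0 / 2))) := by ring
    _ ≤ _ := mul_le_mul_of_nonneg_left p3 (by positivity)

end Pool.Agent.LibSM93
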