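import Mathlib
import Pool.Agent.LibSM93.Defs

/-! Row U4.
Majorant: copy the proof of `apriori_nu` (LibTG78/A3.lean, line 150): for L >= 1 choose l0, J with l0 2^J = L, K = max K1 10;
A3_machine gives b, e, Xi with ‖SS w L x‖^beta <= 2^beta (BB b J x + UU r l0 K J b e J x + Xi x) =: M x (that proof has this
inequality), M is IsPolyR of length Theta L (Theta depends on beta, Λ only; IsPolyR.add / const_mul lemmas as in A5.lean),
DependsOn coo 1 e^L, and int M dnu_s <= C L^gam for every Adm s L. Then `D5_poly` (D5a.lean) with Phi = M, A = C L^gam,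
a = Theta L <= delta log T if theta <= delta/Theta; T >= T0 because 1 <= L <= theta log T (theta small). So the mean is
<= log T * C L^gam + C' L C L^gam + C' <= C'' L^gam log T (L <= log T if theta <= 1; L^gam >= 1, log T >= 1).
-/

set_option autoImplicit false

namespace Pool.Agent.LibSM93

open MeasureTheory Filter Topology Pool.Agent.LibMM99 Pool.Agent.LibTG78
open scoped ComplexConjugate

/-- the polynomial majorant -/
private theorem u4_major {β : ℝ} (hβ : 0 < β) (Λ : ℝ) : ∃ C1 Θ : ℝ, 0 < C1 ∧ 0 < Θ ∧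
    ∀ w : ℝ → ℂ, IsWeight w Λ → ∀ L : ℝ, 1 ≤ L → ∃ M : Om → ℝ,
      (∀ x, ‖SS w L x‖ ^ β ≤ M x) ∧ IsPolyR (Θ * L) M ∧ DependsOn M (coo 1 (Real.exp L)) ∧
      ∀ s : ℂ, Adm s L → ∫ x, |M x| ∂(nu s L) ≤ C1 * L ^ gam β := by
  obtain ⟨r, hr1, hr2, hr3⟩ := A3_exists_r hβ
  obtain ⟨C0, Ca, K1, hC0, hCa, hK1, H⟩ := A3_machine hβ Λ hr1 hr3
  obtain ⟨K, hK⟩ : ∃ K : ℝ, K = max K1 10 := ⟨_, rfl⟩
  have hKK1 : K1 ≤ K := by rw [hK]; exact le_max_left _ _
  have hK10 : 10 ≤ K := by rw [hK]; exact le_max_right _ _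
  have h2k : (1 : ℝ) ≤ 2 ^ β := Real.one_le_rpow (by norm_num) hβ.le
  have hCa0 : 0 < Ca := by linarith only [hCa]
  have hK0 : 0 < K := by linarith only [hK10]
  refine ⟨2 ^ β * (Ca + Ca + Ca), Ca * K + (2 + β), by positivity, by positivity, ?_⟩
  intro w hw L hL
  have hlog2' : 0 < Real.log 2 := Real.log_pos (by norm_num)
  have hlog2 : Real.log 2 ≤ 1 := by
    have := Real.log_two_lt_d9
    linarith only [this]
  obtain ⟨l0, J, hl1, hl2, hl3⟩ := exists_scales (lam := L) (by linarith only [hlog2, hL])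
  have hl0 : 0 < l0 := by linarith only [hl1, hlog2']
  have hL0 : 0 < L := by linarith only [hL]
  have hcond := kap_cond (K := K) (δ := 1) one_pos le_rfl (by simpa using hK10) (l0 := l0) (L := L)
    (J := J) hL0 (by rw [one_mul]; exact hl3)
  obtain ⟨b, e, Ξ, hbe, F1, F2, F3, G1, G2, G3, G4, -, -, G5, G6⟩ :=
    H w hw l0 K L J hl1 hl2 hKK1 hL hl3.le hcond
  have hSS : ∀ x, SS w L x = Fj l0 K J J x + - RR w l0 K L L J x := by
    intro x
    have h1 := telescoping w l0 K L L J x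
    rw [AA_zero hl0 hl2 hL0.le] at h1
    have h2 := AA_top' hw.zero (l0 := l0) (J := J) hL0 x
    rw [hl3] at h2
    rw [h1, h2]; ring
  have hpt : ∀ x, ‖SS w L x‖ ^ β ≤ 2 ^ β * (BB b J x + UU r l0 K J b e J x + Ξ x) := by
    intro x
    rw [hSS x]
    refine (norm_add_rpow_le hβ _ _).trans ?_
    refine mul_le_mul_of_nonneg_left ?_ (by positivity)
    rw [norm_neg]
    have h1 := (abs_le.1 (F1 x)).2
    have h2 := G1 x
    linarith only [h1, h2]
  have cb : ∀ i < J, Continuous (b i) := fun i _ => (hbe i).b_poly.continuous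
  have ce : ∀ i < J, Continuous (e i) := fun i _ => (hbe i).e_poly.continuous
  have nB : ∀ x, 0 ≤ BB b J x := BB_nonneg fun i _ => (hbe i).b_nonneg
  have nU : ∀ x, 0 ≤ UU r l0 K J b e J x :=
    UU_nonneg (fun i _ => (hbe i).b_nonneg) (fun i _ => (hbe i).e_nonneg)
  have nX : ∀ x, 0 ≤ Ξ x := fun x => (Real.rpow_nonneg (norm_nonneg _) _).trans (G1 x)
  have tJ : tj l0 J = Real.exp L := by unfold tj; rw [hl3]
  have dB : DependsOn (BB b J) (coo 1 (tj l0 J)) := dependsOn_BB hl0.le fun i _ => (hbe i).b_dep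
  have dU : DependsOn (UU r l0 K J b e J) (coo 1 (tj l0 J)) :=
    dependsOn_UU hl0.le (fun i _ => (hbe i).b_dep) (fun i _ => (hbe i).e_dep)
  rw [tJ] at dB dU
  rw [hl3] at G5 G6
  refine ⟨fun x => 2 ^ β * (BB b J x + UU r l0 K J b e J x + Ξ x), hpt, ?_, ?_, ?_⟩
  · have p1 : IsPolyR (Ca * K * L + 1) (fun x => BB b J x + UU r l0 K J b e J x) :=
      IsPolyR.add G5 G6
    have p2 : IsPolyR (Ca * K * L + 1) Ξ := G3.mono (by linarith only)
    have p3 : IsPolyR (Ca * K * L + 1 + 1) (fun x => BB b J x + UU r l0 K J b e J x + Ξ x) :=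
      IsPolyR.add p1 p2
    have p4 : IsPolyR β (fun _ : Om => (2 : ℝ) ^ β) := by
      refine IsPolyR.const _ hβ.le ?_
      rw [abs_of_pos (by positivity), Real.rpow_def_of_pos (by norm_num), Real.exp_le_exp]
      nlinarith only [hlog2, hβ]
    refine (IsPolyR.mul p4 p3).mono ?_
    nlinarith only [hL, hβ]
  · intro x y hxy
    change 2 ^ β * (BB b J x + UU r l0 K J b e J x + Ξ x) =
      2 ^ β * (BB b J y + UU r l0 K J b e J y + Ξ y)
    rw [dB hxy, dU hxy, G4 hxy]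
  · intro s hs
    have := (isProd_nu hs).prob
    have iB : Integrable (fun x => BB b J x) (nu s L) := A0_int (continuous_BB cb)
    have iU : Integrable (fun x => UU r l0 K J b e J x) (nu s L) := A0_int (continuous_UU cb ce)
    have iX : Integrable (fun x => Ξ x) (nu s L) := A0_int G3.continuous
    have iBU : Integrable (fun x => BB b J x + UU r l0 K J b e J x) (nu s L) := iB.add iU
    have habs : ∀ x, |2 ^ β * (BB b J x + UU r l0 K J b e J x + Ξ x)| =
        2 ^ β * (BB b J x + UU r l0 K J b e J x + Ξ x) := fun x =>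
      abs_of_nonneg (mul_nonneg (by positivity) (add_nonneg (add_nonneg (nB x) (nU x)) (nX x)))
    have hLp : 0 < L ^ gam β := by positivity
    calc ∫ x, |2 ^ β * (BB b J x + UU r l0 K J b e J x + Ξ x)| ∂(nu s L)
        = ∫ x, 2 ^ β * (BB b J x + UU r l0 K J b e J x + Ξ x) ∂(nu s L) :=
          integral_congr_ae (Eventually.of_forall habs)
      _ = 2 ^ β * (∫ x, BB b J x ∂(nu s L) + ∫ x, UU r l0 K J b e J x ∂(nu s L) +
          ∫ x, Ξ x ∂(nu s L)) := by
          rw [integral_const_mul, integral_add iBU iX, integral_add iB iU]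
      _ ≤ 2 ^ β * (Ca * L ^ gam β + Ca * L ^ gam β + Ca * L ^ gam β) := by
          refine mul_le_mul_of_nonneg_left ?_ (by positivity)
          have F2' := F2 s hs
          have F3' := F3 s hs
          have G2' := G2 s hs
          rw [hl3] at F2' F3' G2'
          rw [div_self hL0.ne', Real.one_rpow, mul_one] at G2'
          have h3 : Ca * Real.exp (-K / 20) * L ^ gam β ≤ Ca * L ^ gam β := by
            refine mul_le_mul_of_nonneg_right ?_ hLp.le
            have h4 : Real.exp (-K / 20) ≤ 1 := Real.exp_le_one_iff.2 (by linarith only [hK10])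
            nlinarith only [h4, hCa0]
          linarith only [F2', F3', G2', h3]
      _ = 2 ^ β * (Ca + Ca + Ca) * L ^ gam β := by ring

theorem upper_T {β : ℝ} (hβ : 0 < β) (Λ : ℝ) : ∃ C θ : ℝ, 0 < C ∧ 0 < θ ∧
    ∀ w : ℝ → ℂ, IsWeight w Λ → ∀ L T : ℝ, 1 ≤ L → 1 ≤ T → L ≤ θ * Real.log T →
    (1 / T) * (∫ t in (0 : ℝ)..T, ‖riemannZeta (1 / 2 + t * Complex.I)‖ ^ 2 * ‖SS w L (xt t)‖ ^ β) ≤
      C * L ^ gam β * Real.log T := by
  obtain ⟨C1, Θ, hC1, hΘ, hM⟩ := u4_major hβ Λ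
  obtain ⟨CP, δ, T0, hCP, hδ, hT0, hpoly⟩ := D5_poly
  have hg : 0 ≤ gam β := A3_gam_nonneg hβ
  have hlogT0 : 0 ≤ Real.log T0 := Real.log_nonneg hT0
  obtain ⟨θ, hθ0, hθ1, hθ2, hθ3⟩ : ∃ θ : ℝ, 0 < θ ∧ θ ≤ 1 ∧ θ * Θ ≤ δ ∧
      θ * (Real.log T0 + 1) ≤ 1 := by
    obtain ⟨D, hD⟩ : ∃ D : ℝ, D = 1 + Θ / δ + (Real.log T0 + 1) := ⟨_, rfl⟩
    have p1 : 0 ≤ Θ / δ := by positivity
    have hDp : 0 < D := by rw [hD]; linarith only [p1, hlogT0]
    refine ⟨1 / D, by positivity, ?_, ?_, ?_⟩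
    · rw [div_le_one hDp, hD]; linarith only [p1, hlogT0]
    · rw [one_div, inv_mul_le_iff₀ hDp]
      have h1 : Θ / δ ≤ D := by rw [hD]; linarith only [hlogT0]
      rwa [div_le_iff₀ hδ] at h1
    · rw [one_div, inv_mul_le_iff₀ hDp, hD]; linarith only [p1]
  refine ⟨C1 + CP * C1 + CP, θ, by positivity, hθ0, ?_⟩
  intro w hw L T hL1 hT hLT
  obtain ⟨M, hM1, hM2, hM3, hM4⟩ := hM w hw L hL1
  have hTp : 0 < T := by linarith only [hT]
  have hL0 : 0 < L := by linarith only [hL1]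
  have hlT0 : 0 ≤ Real.log T := Real.log_nonneg hT
  have hlT : 1 ≤ θ * Real.log T := hL1.trans hLT
  have hLlT : L ≤ Real.log T := by
    refine hLT.trans ?_
    exact mul_le_of_le_one_left hlT0 hθ1
  have hlT1 : 1 ≤ Real.log T := hL1.trans hLlT
  have hTT0 : T0 ≤ T := by
    have h9 : Real.log T0 + 1 ≤ Real.log T := by
      by_contra hc
      push Not at hc
      have h10 : θ * Real.log T < θ * (Real.log T0 + 1) := mul_lt_mul_of_pos_left hc hθ0
      linarith only [h10, hθ3, hlT]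
    have h11 : Real.log T0 ≤ Real.log T := by linarith only [h9]
    exact (Real.log_le_log_iff (by linarith only [hT0]) hTp).1 h11
  have ha : Θ * L ≤ δ * Real.log T := by
    calc Θ * L ≤ Θ * (θ * Real.log T) := mul_le_mul_of_nonneg_left hLT hΘ.le
      _ = (θ * Θ) * Real.log T := by ring
      _ ≤ δ * Real.log T := mul_le_mul_of_nonneg_right hθ2 hlT0
  obtain ⟨N, hN⟩ : ∃ N, N = L ^ gam β := ⟨_, rfl⟩
  have hN1 : 1 ≤ N := by rw [hN]; exact Real.one_le_rpow hL1 hg
  rw [← hN] at hM4 ⊢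
  have pM := hpoly (Θ * L) L (C1 * N) T M hL1 hTT0 ha hM2 hM3 hM4
  have hTδ : T ^ (-(3 * δ)) ≤ 1 :=
    Real.rpow_le_one_of_one_le_of_nonpos hT (by linarith only [hδ])
  have hcS : Continuous fun x => ‖SS w L x‖ ^ β :=
    ((continuous_norm.comp (continuous_DS _ _)).rpow_const fun _ => Or.inr hβ.le)
  have hzc : Continuous fun t : ℝ => ‖riemannZeta (1 / 2 + t * Complex.I)‖ ^ 2 :=
    D5_zeta_cont.norm.pow 2
  have ct1 : Continuous fun t : ℝ => ‖riemannZeta (1 / 2 + t * Complex.I)‖ ^ 2 *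
    ‖SS w L (xt t)‖ ^ β := hzc.mul (hcS.comp continuous_xt)
  have ct2 : Continuous fun t : ℝ => ‖riemannZeta (1 / 2 + t * Complex.I)‖ ^ 2 * M (xt t) :=
    hzc.mul (hM2.continuous.comp continuous_xt)
  have i1 : (∫ t in (0 : ℝ)..T, ‖riemannZeta (1 / 2 + t * Complex.I)‖ ^ 2 * ‖SS w L (xt t)‖ ^ β) ≤
      ∫ t in (0 : ℝ)..T, ‖riemannZeta (1 / 2 + t * Complex.I)‖ ^ 2 * M (xt t) := by
    apply intervalIntegral.integral_mono_on hTp.le
    · exact ct1.intervalIntegrable _ _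
    · exact ct2.intervalIntegrable _ _
    · intro t _
      exact mul_le_mul_of_nonneg_left (hM1 (xt t)) (by positivity)
  have hT1 : 0 < 1 / T := by positivity
  have i2 := mul_le_mul_of_nonneg_left i1 hT1.le
  refine i2.trans ?_
  have e1 := (abs_le.1 pM).2
  have hadm0 : Adm 0 L := ⟨hL1, by rw [norm_zero]; positivity⟩
  have e2 : ∫ x, M x ∂(nu 0 L) ≤ C1 * N :=
    ((le_abs_self _).trans abs_integral_le_integral_abs).trans (hM4 0 hadm0)
  have e3 : Real.log T * ∫ x, M x ∂(nu 0 L) ≤ Real.log T * (C1 * N) :=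
    mul_le_mul_of_nonneg_left e2 hlT0
  have e4 : CP * L * (C1 * N) ≤ CP * Real.log T * (C1 * N) := by
    refine mul_le_mul_of_nonneg_right ?_ (by positivity)
    exact mul_le_mul_of_nonneg_left hLlT hCP.le
  have e5 : CP * T ^ (-(3 * δ)) ≤ CP := mul_le_of_le_one_right hCP.le hTδ
  have e6 : CP ≤ CP * N * Real.log T := by
    have : 1 ≤ N * Real.log T := one_le_mul_of_one_le_of_one_le hN1 hlT1
    calc CP = CP * 1 := (mul_one _).symm
      _ ≤ CP * (N * Real.log T) := mul_le_mul_of_nonneg_left this hCP.le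
      _ = _ := by ring
  have e7 : (C1 + CP * C1 + CP) * N * Real.log T = Real.log T * (C1 * N) +
    CP * Real.log T * (C1 * N) + CP * N * Real.log T := by ring
  rw [e7]
  linarith only [e1, e3, e4, e5, e6]

end Pool.Agent.LibSM93
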