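import Mathlib
import Pool.Agent.LibSM93.Defs
import Pool.Agent.LibSM93.U1
import Pool.Agent.LibSM93.U2
import Pool.Agent.LibSM93.U4
import Pool.Agent.LibSM93.U5

/-! Row U6.
Same as middle_nu (see U3) with upper_T in place of apriori_nu: theta from upper_T (Λ = common constant of vm m and w0:
IsWeight may be enlarged in Λ); sum_pow at x = xt t, multiply by |zeta|^2, integrate over [0,T] (continuous integrands,
`intervalIntegral.integral_mono_on`), L_m = (m+2)/h with 1 <= L_m <= (Y+1)/h <= theta log T. Each m contributes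
2^(beta(m-A+1)) e^(-0.9 beta m) 2^beta 2 C ((m+2)/h)^gam log T; sum_small with g = gam beta.
-/

set_option autoImplicit false

namespace Pool.Agent.LibSM93

open MeasureTheory Filter Topology Pool.Agent.LibMM99 Pool.Agent.LibTG78
open scoped ComplexConjugate

namespace U6

theorem tel (h : ℝ) (x : Om) {A Y : ℕ} (hAY : A ≤ Y) :
    DY h Y x - DY h A x = ∑ m ∈ Finset.Ico A Y, (DY h ((m : ℝ) + 1) x - DY h m x) := by
  induction Y, hAY using Nat.le_induction with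
  | base => simp
  | succ n hn ih =>
    rw [Finset.sum_Ico_succ_top hn, ← ih]
    push_cast
    ring

theorem step_le {β : ℝ} (hβ : 0 < β) (m : ℕ) {h : ℝ} (hh : 0 < h) (x : Om) :
    ‖DY h ((m : ℝ) + 1) x - DY h m x‖ ^ β ≤ Real.exp (-(9 / 10 * β * m)) * 2 ^ β *
      (‖SS (vm m) (((m : ℝ) + 2) / h) x‖ ^ β + ‖SS w0 (((m : ℝ) + 2) / h) x‖ ^ β) := by
  have hs := DY_step m hh x
  have e1 : DY h ((m : ℝ) + 1) x - DY h m x = ((Real.exp (-(9 / 10 * m)) : ℝ) : ℂ) *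
      (SS (vm m) (((m : ℝ) + 2) / h) x - SS w0 (((m : ℝ) + 2) / h) x) := by
    rw [← hs, ← mul_assoc, ← Complex.ofReal_mul, ← Real.exp_add]
    simp
  rw [e1, norm_mul, Complex.norm_real, Real.norm_of_nonneg (Real.exp_pos _).le,
    Real.mul_rpow (Real.exp_pos _).le (norm_nonneg _), ← Real.exp_mul, mul_assoc (Real.exp _) (2 ^ β) _]
  rw [show -(9 / 10 * (m : ℝ)) * β = -(9 / 10 * β * m) by ring]
  refine mul_le_mul_of_nonneg_left ?_ (Real.exp_pos _).le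
  have := norm_add_rpow_le hβ (SS (vm m) (((m : ℝ) + 2) / h) x) (-SS w0 (((m : ℝ) + 2) / h) x)
  rwa [← sub_eq_add_neg, norm_neg] at this

theorem cont_F {β : ℝ} (hβ : 0 < β) {f : ℝ → ℂ} (hf : Continuous f) :
    Continuous fun t : ℝ => ‖riemannZeta (1 / 2 + t * Complex.I)‖ ^ 2 * ‖f t‖ ^ β :=
  (D5_zeta_cont.norm.pow 2).mul (hf.norm.rpow_const fun _ => Or.inr hβ.le)

theorem cont_SS (w : ℝ → ℂ) (L : ℝ) : Continuous fun t : ℝ => SS w L (xt t) := by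
  unfold SS
  exact (continuous_DS _ _).comp continuous_xt

end U6

theorem middle_T {β : ℝ} (hβ : 0 < β) : ∃ θ : ℝ, 0 < θ ∧ ∀ ε : ℝ, 0 < ε → ∃ A0 : ℕ, ∀ A Y : ℕ, A0 ≤ A → A ≤ Y →
    ∀ h T : ℝ, 0 < h → h ≤ 1 → 1 ≤ T → ((Y : ℝ) + 1) / h ≤ θ * Real.log T →
    (1 / T) * (∫ t in (0 : ℝ)..T, ‖riemannZeta (1 / 2 + t * Complex.I)‖ ^ 2 *
      ‖DY h Y (xt t) - DY h A (xt t)‖ ^ β) ≤ ε * h ^ (-gam β) * Real.log T := by
  obtain ⟨Λ, hΛ1, hvm⟩ := isWeight_vm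
  have hw0 : IsWeight w0 Λ := by
    refine ⟨hΛ1, isWeight_w0.zero, isWeight_w0.supp, fun u v hu hv => (isWeight_w0.lip u v hu hv).trans ?_⟩
    exact mul_le_mul_of_nonneg_right hΛ1 (abs_nonneg _)
  obtain ⟨C, θ, hC, hθ, hup⟩ := upper_T hβ Λ
  refine ⟨θ, hθ, fun ε hε => ?_⟩
  have h2β : (0 : ℝ) < 2 ^ β := Real.rpow_pos_of_pos (by norm_num) _
  have hc : (0 : ℝ) < 2 ^ β * (2 * C) := by positivity
  obtain ⟨A0, hA0⟩ := sum_small hβ (gam β) (ε / (2 ^ β * (2 * C))) (by positivity)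
  refine ⟨A0, fun A Y hA hAY h T hh hh1 hT hY => ?_⟩
  have hT0 : 0 < T := by linarith
  have hlT : 0 ≤ Real.log T := Real.log_nonneg hT
  have hhg : 0 < h ^ (-gam β) := Real.rpow_pos_of_pos hh _
  -- abbreviations
  set I1 : ℕ → ℝ := fun m => ∫ t in (0 : ℝ)..T, ‖riemannZeta (1 / 2 + t * Complex.I)‖ ^ 2 *
      ‖SS (vm m) (((m : ℝ) + 2) / h) (xt t)‖ ^ β with hI1
  set I2 : ℕ → ℝ := fun m => ∫ t in (0 : ℝ)..T, ‖riemannZeta (1 / 2 + t * Complex.I)‖ ^ 2 *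
      ‖SS w0 (((m : ℝ) + 2) / h) (xt t)‖ ^ β with hI2
  set a : ℕ → ℝ := fun m => (2 : ℝ) ^ (β * ((m : ℝ) - A + 1)) * (Real.exp (-(9 / 10 * β * m)) * 2 ^ β) with ha
  have ha0 : ∀ m, 0 ≤ a m := fun m => by
    simp only [ha]; positivity
  have c1 : ∀ m : ℕ, Continuous fun t : ℝ => ‖riemannZeta (1 / 2 + t * Complex.I)‖ ^ 2 *
      ‖SS (vm m) (((m : ℝ) + 2) / h) (xt t)‖ ^ β := fun m => U6.cont_F hβ (U6.cont_SS _ _)
  have c2 : ∀ m : ℕ, Continuous fun t : ℝ => ‖riemannZeta (1 / 2 + t * Complex.I)‖ ^ 2 *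
      ‖SS w0 (((m : ℝ) + 2) / h) (xt t)‖ ^ β := fun m => U6.cont_F hβ (U6.cont_SS _ _)
  have c0 : Continuous fun t : ℝ => ‖riemannZeta (1 / 2 + t * Complex.I)‖ ^ 2 *
      ‖DY h Y (xt t) - DY h A (xt t)‖ ^ β := by
    refine U6.cont_F hβ ?_
    exact ((DY_cont h Y).1.comp continuous_xt).sub ((DY_cont h A).1.comp continuous_xt)
  have hint : (∫ t in (0 : ℝ)..T, ‖riemannZeta (1 / 2 + t * Complex.I)‖ ^ 2 *
      ‖DY h Y (xt t) - DY h A (xt t)‖ ^ β) ≤ ∑ m ∈ Finset.Ico A Y, a m * (I1 m + I2 m) := by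
    have hs : (∑ m ∈ Finset.Ico A Y, a m * (I1 m + I2 m)) = ∫ t in (0 : ℝ)..T, ∑ m ∈ Finset.Ico A Y,
        a m * (‖riemannZeta (1 / 2 + t * Complex.I)‖ ^ 2 * ‖SS (vm m) (((m : ℝ) + 2) / h) (xt t)‖ ^ β +
          ‖riemannZeta (1 / 2 + t * Complex.I)‖ ^ 2 * ‖SS w0 (((m : ℝ) + 2) / h) (xt t)‖ ^ β) := by
      rw [intervalIntegral.integral_finsetSum]
      · refine Finset.sum_congr rfl fun m _ => ?_
        rw [intervalIntegral.integral_const_mul, intervalIntegral.integral_add ((c1 m).intervalIntegrable _ _)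
          ((c2 m).intervalIntegrable _ _)]
      · intro m _
        exact (((c1 m).add (c2 m)).intervalIntegrable _ _).const_mul _
    rw [hs]
    refine intervalIntegral.integral_mono_on hT0.le (c0.intervalIntegrable _ _) ?_ ?_
    · apply Continuous.intervalIntegrable
      exact continuous_finsetSum _ fun m _ => ((c1 m).add (c2 m)).const_mul _
    · intro t _
      rw [U6.tel h (xt t) hAY]
      have h1 := sum_pow hβ A Y (fun m => DY h ((m : ℝ) + 1) (xt t) - DY h m (xt t))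
      calc ‖riemannZeta (1 / 2 + t * Complex.I)‖ ^ 2 *
            ‖∑ m ∈ Finset.Ico A Y, (DY h ((m : ℝ) + 1) (xt t) - DY h m (xt t))‖ ^ β
          ≤ ‖riemannZeta (1 / 2 + t * Complex.I)‖ ^ 2 * ∑ m ∈ Finset.Ico A Y, (2 : ℝ) ^ (β * ((m : ℝ) - A + 1)) *
            ‖DY h ((m : ℝ) + 1) (xt t) - DY h m (xt t)‖ ^ β := by gcongr
        _ = ∑ m ∈ Finset.Ico A Y, ‖riemannZeta (1 / 2 + t * Complex.I)‖ ^ 2 * ((2 : ℝ) ^ (β * ((m : ℝ) - A + 1)) *
            ‖DY h ((m : ℝ) + 1) (xt t) - DY h m (xt t)‖ ^ β) := by rw [Finset.mul_sum]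
        _ ≤ _ := by
          refine Finset.sum_le_sum fun m _ => ?_
          have h2 := U6.step_le hβ m hh (xt t)
          have h3 : (0 : ℝ) ≤ (2 : ℝ) ^ (β * ((m : ℝ) - A + 1)) := by positivity
          calc ‖riemannZeta (1 / 2 + t * Complex.I)‖ ^ 2 * ((2 : ℝ) ^ (β * ((m : ℝ) - A + 1)) *
                ‖DY h ((m : ℝ) + 1) (xt t) - DY h m (xt t)‖ ^ β)
              ≤ ‖riemannZeta (1 / 2 + t * Complex.I)‖ ^ 2 * ((2 : ℝ) ^ (β * ((m : ℝ) - A + 1)) *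
                (Real.exp (-(9 / 10 * β * m)) * 2 ^ β *
      (‖SS (vm m) (((m : ℝ) + 2) / h) (xt t)‖ ^ β + ‖SS w0 (((m : ℝ) + 2) / h) (xt t)‖ ^ β))) := by gcongr
            _ = _ := by simp only [ha]; ring
  have hm : ∀ m ∈ Finset.Ico A Y, (1 / T) * (I1 m + I2 m) ≤ 2 * C * (((m : ℝ) + 2) ^ gam β * h ^ (-gam β)) * Real.log T := by
    intro m hm
    have hmY : (m : ℝ) + 1 ≤ Y := by exact_mod_cast (Finset.mem_Ico.1 hm).2
    have hL1 : 1 ≤ ((m : ℝ) + 2) / h := by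
      rw [le_div_iff₀ hh]; have : (0 : ℝ) ≤ m := m.cast_nonneg; linarith
    have hL2 : ((m : ℝ) + 2) / h ≤ θ * Real.log T := by
      refine le_trans ?_ hY
      apply div_le_div_of_nonneg_right _ hh.le
      linarith
    have b1 := hup (vm m) (hvm m) _ T hL1 hT hL2
    have b2 := hup w0 hw0 _ T hL1 hT hL2
    have e : (((m : ℝ) + 2) / h) ^ gam β = ((m : ℝ) + 2) ^ gam β * h ^ (-gam β) := by
      rw [Real.div_rpow (by positivity) hh.le, Real.rpow_neg hh.le, div_eq_mul_inv]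
    rw [e] at b1 b2
    rw [mul_add]
    simp only [hI1, hI2]
    linarith
  calc (1 / T) * (∫ t in (0 : ℝ)..T, ‖riemannZeta (1 / 2 + t * Complex.I)‖ ^ 2 *
      ‖DY h Y (xt t) - DY h A (xt t)‖ ^ β)
      ≤ (1 / T) * ∑ m ∈ Finset.Ico A Y, a m * (I1 m + I2 m) := by gcongr
    _ = ∑ m ∈ Finset.Ico A Y, a m * ((1 / T) * (I1 m + I2 m)) := by
        rw [Finset.mul_sum]; refine Finset.sum_congr rfl fun m _ => ?_; ring
    _ ≤ ∑ m ∈ Finset.Ico A Y, a m * (2 * C * (((m : ℝ) + 2) ^ gam β * h ^ (-gam β)) * Real.log T) := by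
        refine Finset.sum_le_sum fun m hm' => ?_
        exact mul_le_mul_of_nonneg_left (hm m hm') (ha0 m)
    _ = (2 ^ β * (2 * C)) * (∑ m ∈ Finset.Ico A Y, (2 : ℝ) ^ (β * ((m : ℝ) - A + 1)) *
        (Real.exp (-(9 / 10 * β * m)) * ((m : ℝ) + 2) ^ gam β)) * (h ^ (-gam β) * Real.log T) := by
        rw [Finset.mul_sum, Finset.sum_mul]; refine Finset.sum_congr rfl fun m _ => ?_
        simp only [ha]; ring
    _ ≤ (2 ^ β * (2 * C)) * (ε / (2 ^ β * (2 * C))) * (h ^ (-gam β) * Real.log T) := by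
        have := hA0 A Y hA
        gcongr
    _ = ε * h ^ (-gam β) * Real.log T := by
        rw [mul_div_cancel₀ _ hc.ne']; ring

end Pool.Agent.LibSM93
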