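import Mathlib
import Pool.Agent.LibSM93.Defs
import Pool.Agent.LibSM93.F1
import Pool.Agent.LibSM93.U1
import Pool.Agent.LibSM93.U2
import Pool.Agent.LibSM93.U6
import Pool.Agent.LibSM93.I1
import Pool.Agent.LibSM93.I4
import Pool.Agent.LibSM93.I5
import Pool.Agent.LibSM93.I6

/-! Final assembly. -/

set_option autoImplicit false

namespace Pool.Agent.LibSM93

open MeasureTheory Filter Topology Pool.Agent.LibMM99 Pool.Agent.LibTG78
open scoped ComplexConjugate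

/-- the mean over `[0,T]` against `|ζ|²` -/
noncomputable def MZ (T : ℝ) (f : ℝ → ℝ) : ℝ :=
  (1 / T) * ∫ t in (0 : ℝ)..T, ‖riemannZeta (1 / 2 + t * Complex.I)‖ ^ 2 * f t

theorem MZ_mono {T : ℝ} (hT : 0 < T) {f g : ℝ → ℝ} (hf : Continuous f) (hg : Continuous g) (h : ∀ t, f t ≤ g t) :
    MZ T f ≤ MZ T g := by
  unfold MZ
  have hz : Continuous fun t : ℝ => ‖riemannZeta (1 / 2 + t * Complex.I)‖ ^ 2 := D5_zeta_cont.norm.pow 2
  refine mul_le_mul_of_nonneg_left ?_ (by positivity)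
  refine intervalIntegral.integral_mono_on hT.le ((hz.mul hf).intervalIntegrable _ _) ((hz.mul hg).intervalIntegrable _ _) ?_
  intro t _
  exact mul_le_mul_of_nonneg_left (h t) (by positivity)

theorem MZ_add (T : ℝ) {f g : ℝ → ℝ} (hf : Continuous f) (hg : Continuous g) :
    MZ T (fun t => f t + g t) = MZ T f + MZ T g := by
  unfold MZ
  have hz : Continuous fun t : ℝ => ‖riemannZeta (1 / 2 + t * Complex.I)‖ ^ 2 := D5_zeta_cont.norm.pow 2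
  have i1 : IntervalIntegrable (fun t : ℝ => ‖riemannZeta (1 / 2 + t * Complex.I)‖ ^ 2 * f t) volume 0 T :=
    (hz.mul hf).intervalIntegrable _ _
  have i2 : IntervalIntegrable (fun t : ℝ => ‖riemannZeta (1 / 2 + t * Complex.I)‖ ^ 2 * g t) volume 0 T :=
    (hz.mul hg).intervalIntegrable _ _
  rw [← mul_add, ← intervalIntegral.integral_add i1 i2]
  congr 1
  refine intervalIntegral.integral_congr fun t _ => ?_
  beta_reduce
  ring

theorem MZ_smul (T c : ℝ) (f : ℝ → ℝ) : MZ T (fun t => c * f t) = c * MZ T f := by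
  unfold MZ
  have : ∀ t : ℝ, ‖riemannZeta (1 / 2 + t * Complex.I)‖ ^ 2 * (c * f t) =
      c * (‖riemannZeta (1 / 2 + t * Complex.I)‖ ^ 2 * f t) := fun t => by ring
  simp only [this]
  rw [intervalIntegral.integral_const_mul]
  ring

theorem MZ_sub (T : ℝ) {f g : ℝ → ℝ} (hf : Continuous f) (hg : Continuous g) :
    MZ T (fun t => f t - g t) = MZ T f - MZ T g := by
  have h1 := MZ_add T (f := fun t => f t - g t) (g := g) (hf.sub hg) hg
  have h2 : (fun t => f t - g t + g t) = f := by funext t; ring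
  rw [h2] at h1
  linarith

theorem MZ_abs {T : ℝ} (hT : 0 < T) {f g : ℝ → ℝ} (hf : Continuous f) (hg : Continuous g) (h : ∀ t, |f t| ≤ g t) :
    |MZ T f| ≤ MZ T g := by
  rw [abs_le]
  constructor
  · have h1 := MZ_mono hT (f := fun t => (-1) * g t) (g := f) (continuous_const.mul hg) hf
      (fun t => by have := (abs_le.1 (h t)).1; linarith)
    rw [MZ_smul] at h1
    linarith
  · exact MZ_mono hT hf hg fun t => (abs_le.1 (h t)).2

theorem zeta_shift_cont {h : ℝ} (hh : 0 < h) (hh4 : h ≤ 1 / 4) :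
    Continuous fun t : ℝ => riemannZeta (((1 / 2 + h : ℝ) : ℂ) + (t : ℂ) * Complex.I) := by
  rw [continuous_iff_continuousAt]
  intro t
  have h1 : ((1 / 2 + h : ℝ) : ℂ) + (t : ℂ) * Complex.I ≠ 1 := by
    intro H
    have := congrArg Complex.re H
    simp at this
    linarith
  have h2 : ContinuousAt (fun t : ℝ => ((1 / 2 + h : ℝ) : ℂ) + (t : ℂ) * Complex.I) t := by fun_prop
  exact ContinuousAt.comp (f := fun t : ℝ => ((1 / 2 + h : ℝ) : ℂ) + (t : ℂ) * Complex.I) (g := riemannZeta)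
    (differentiableAt_riemannZeta h1).continuousAt h2

/-- the error terms for given data, in normalised form -/
theorem shifted_core {β : ℝ} (hβ : 0 < β) {φ : ℝ → ℂ} (hφ : IsKernel φ) {h T : ℝ} (hh : 0 < h) (hh4 : h ≤ 1 / 4)
    (hT : 0 < T) {η Cη : ℝ} (hη : 0 ≤ η) (hCη : 0 ≤ Cη)
    (hpd : ∀ a b : ℂ, |‖a + b‖ ^ β - ‖a‖ ^ β| ≤ η * ‖a‖ ^ β + Cη * ‖b‖ ^ β) (A Y : ℝ) (hY : 0 ≤ Y) :
    |MZ T (fun t => ‖riemannZeta (((1 / 2 + h : ℝ) : ℂ) + (t : ℂ) * Complex.I)‖ ^ β) -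
      MZ T (fun t => ‖DY h A (xt t)‖ ^ β)| ≤
      η * MZ T (fun t => ‖DY h A (xt t)‖ ^ β) +
      Cη * (2 ^ β * (MZ T (fun t => ‖DY h Y (xt t) - DY h A (xt t)‖ ^ β) +
        2 ^ β * (MZ T (fun t => ‖eta φ h Y t‖ ^ β) + MZ T (fun t => ‖PO φ h Y t‖ ^ β)))) := by
  have cD : ∀ B : ℝ, Continuous fun t : ℝ => DY h B (xt t) := fun B => (DY_cont h B).1.comp continuous_xt
  obtain ⟨cP, cE⟩ := PO_cont hφ hh hh4 hY
  have cr : ∀ {f : ℝ → ℂ}, Continuous f → Continuous fun t => ‖f t‖ ^ β := fun hf =>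
    hf.norm.rpow_const fun _ => Or.inr hβ.le
  have cz := cr (zeta_shift_cont hh hh4)
  have ca := cr (cD A)
  have cm : Continuous fun t : ℝ => ‖DY h Y (xt t) - DY h A (xt t)‖ ^ β := cr ((cD Y).sub (cD A))
  have ce := cr cE
  have cp := cr cP
  have c1 : Continuous fun t : ℝ => ‖eta φ h Y t‖ ^ β + ‖PO φ h Y t‖ ^ β := ce.add cp
  have c2 : Continuous fun t : ℝ => 2 ^ β * (‖eta φ h Y t‖ ^ β + ‖PO φ h Y t‖ ^ β) := continuous_const.mul c1
  have c3 : Continuous fun t : ℝ => ‖DY h Y (xt t) - DY h A (xt t)‖ ^ β + 2 ^ β * (‖eta φ h Y t‖ ^ β + ‖PO φ h Y t‖ ^ β) :=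
    cm.add c2
  have c4 : Continuous fun t : ℝ => Cη * (2 ^ β * (‖DY h Y (xt t) - DY h A (xt t)‖ ^ β +
    2 ^ β * (‖eta φ h Y t‖ ^ β + ‖PO φ h Y t‖ ^ β))) := continuous_const.mul (continuous_const.mul c3)
  have c5 : Continuous fun t : ℝ => η * ‖DY h A (xt t)‖ ^ β := continuous_const.mul ca
  have e1 : η * MZ T (fun t => ‖DY h A (xt t)‖ ^ β) +
      Cη * (2 ^ β * (MZ T (fun t => ‖DY h Y (xt t) - DY h A (xt t)‖ ^ β) +
        2 ^ β * (MZ T (fun t => ‖eta φ h Y t‖ ^ β) + MZ T (fun t => ‖PO φ h Y t‖ ^ β)))) =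
      MZ T (fun t => η * ‖DY h A (xt t)‖ ^ β + Cη * (2 ^ β * (‖DY h Y (xt t) - DY h A (xt t)‖ ^ β +
        2 ^ β * (‖eta φ h Y t‖ ^ β + ‖PO φ h Y t‖ ^ β)))) := by
    rw [MZ_add T c5 c4, MZ_smul T η, MZ_smul T Cη, MZ_smul T (2 ^ β), MZ_add T cm c2, MZ_smul T (2 ^ β), MZ_add T ce cp]
  rw [← MZ_sub T cz ca, e1]
  refine MZ_abs hT (cz.sub ca) (c5.add c4) fun t => ?_
  have h1 := hpd (DY h A (xt t)) ((DY h Y (xt t) - DY h A (xt t)) + (eta φ h Y t + PO φ h Y t))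
  have h2 : DY h A (xt t) + ((DY h Y (xt t) - DY h A (xt t)) + (eta φ h Y t + PO φ h Y t)) =
      riemannZeta (((1 / 2 + h : ℝ) : ℂ) + (t : ℂ) * Complex.I) := by
    unfold PO
    ring
  rw [h2] at h1
  refine h1.trans ?_
  have h3 := norm_add_rpow_le hβ (DY h Y (xt t) - DY h A (xt t)) (eta φ h Y t + PO φ h Y t)
  have h4 := norm_add_rpow_le hβ (eta φ h Y t) (PO φ h Y t)
  have h5 : (0 : ℝ) ≤ 2 ^ β := by positivity
  have h6 := mul_le_mul_of_nonneg_left h4 h5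
  have h7 : Cη * ‖(DY h Y (xt t) - DY h A (xt t)) + (eta φ h Y t + PO φ h Y t)‖ ^ β ≤
      Cη * (2 ^ β * (‖DY h Y (xt t) - DY h A (xt t)‖ ^ β + 2 ^ β * (‖eta φ h Y t‖ ^ β + ‖PO φ h Y t‖ ^ β))) := by
    refine mul_le_mul_of_nonneg_left (h3.trans ?_) hCη
    exact mul_le_mul_of_nonneg_left (by linarith) h5
  linarith

/-- `a + b log ψ ≤ θ ψ` for large `ψ` -/
theorem log_le_lin (a b : ℝ) {θ : ℝ} (hθ : 0 < θ) : ∃ K : ℝ, 1 ≤ K ∧ ∀ ψ : ℝ, K ≤ ψ → a + b * Real.log ψ ≤ θ * ψ := by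
  have h1 : Tendsto (fun ψ : ℝ => a / ψ + b * (Real.log ψ / ψ)) atTop (𝓝 (0 + b * 0)) := by
    refine (tendsto_const_nhds.div_atTop tendsto_id).add (Tendsto.const_mul b ?_)
    have := Real.isLittleO_log_id_atTop.tendsto_div_nhds_zero
    exact this
  rw [mul_zero, add_zero] at h1
  obtain ⟨K, hK⟩ := eventually_atTop.1 (h1.eventually (gt_mem_nhds hθ))
  refine ⟨max K 1, le_max_right _ _, fun ψ hψ => ?_⟩
  have hψ1 : 1 ≤ ψ := le_trans (le_max_right _ _) hψ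
  have hψ0 : 0 < ψ := by linarith
  have h2 := hK ψ (le_trans (le_max_left _ _) hψ)
  have h3 : a + b * Real.log ψ = (a / ψ + b * (Real.log ψ / ψ)) * ψ := by field_simp
  rw [h3]
  exact mul_le_mul_of_nonneg_right h2.le hψ0.le

theorem shifted {β : ℝ} (hβ : 0 < β) (hβ2 : β ≤ 2) : ∀ ε : ℝ, 0 < ε → ∃ A : ℝ, 0 < A ∧
    ∀ T h : ℝ, 0 < T → 0 < h → h ≤ 1 / A → A ≤ h * Real.log T →
    |h ^ gam β * (Real.log T)⁻¹ * ((1 / T) * ∫ t in (0 : ℝ)..T, ‖riemannZeta (1 / 2 + t * Complex.I)‖ ^ 2 *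
      ‖riemannZeta (((1 / 2 + h : ℝ) : ℂ) + t * Complex.I)‖ ^ β) -
      2 ^ (-(β ^ 2 / 4)) * LibZM.Aconst ((β + 2) / 2)| < ε := by
  intro ε hε
  have hg : 0 < gam β := D5_gam_pos hβ
  obtain ⟨k0, hk0⟩ : ∃ k0 : ℝ, k0 = 2 ^ (-(β ^ 2 / 4)) * LibZM.Aconst ((β + 2) / 2) := ⟨_, rfl⟩
  rw [← hk0]
  obtain ⟨φ, hφ⟩ := exists_kernel
  obtain ⟨η, hηdef⟩ : ∃ η : ℝ, η = ε / (8 * (|k0| + ε + 1)) := ⟨_, rfl⟩
  have hk1 : 0 < |k0| + ε + 1 := by have := abs_nonneg k0; linarith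
  have hη : 0 < η := by rw [hηdef]; positivity
  obtain ⟨Cη, hCη, hpd⟩ := pow_diff hβ hη
  have h2β : (0 : ℝ) < 2 ^ β := by positivity
  -- constants
  obtain ⟨ε1, hε1def⟩ : ∃ ε1 : ℝ, ε1 = ε / (8 * Cη * 2 ^ β) := ⟨_, rfl⟩
  have hε1 : 0 < ε1 := by rw [hε1def]; positivity
  obtain ⟨ε2, hε2def⟩ : ∃ ε2 : ℝ, ε2 = ε / (8 * Cη * 2 ^ β * 2 ^ β) := ⟨_, rfl⟩
  have hε2 : 0 < ε2 := by rw [hε2def]; positivity
  obtain ⟨θ1, hθ1, hmid⟩ := middle_T hβ
  obtain ⟨A0, hA0⟩ := hmid ε1 hε1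
  obtain ⟨A1, hA1⟩ := const_model hβ (ε / 8) (by positivity)
  obtain ⟨A, hAdef⟩ : ∃ A : ℕ, A = max A0 A1 := ⟨_, rfl⟩
  have hAA0 : A0 ≤ A := by rw [hAdef]; exact le_max_left _ _
  obtain ⟨h0, hh0, hcm⟩ := hA1 A (by rw [hAdef]; exact le_max_right _ _)
  have hAnn : (0 : ℝ) ≤ A := Nat.cast_nonneg A
  have hAp : (0 : ℝ) < (A : ℝ) + 1 := by linarith
  have hApg : 0 < ((A : ℝ) + 1) ^ gam β := Real.rpow_pos_of_pos hAp _
  obtain ⟨Λ, hw⟩ := isWeight_ww hAnn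
  obtain ⟨CA, hCA, hmain⟩ := weighted_nu hβ hw
  -- the limit constant
  have hCk : |((A : ℝ) + 1) ^ gam β * CA - k0| ≤ ε / 8 := by
    have h1 : Tendsto (fun h : ℝ => h ^ gam β * (∫ x, ‖DY h A x‖ ^ β ∂(nu 0 (((A : ℝ) + 1) / h)))) (𝓝[>] 0)
        (𝓝 (((A : ℝ) + 1) ^ gam β * CA)) := by
      have h2 : Tendsto (fun h : ℝ => ((A : ℝ) + 1) / h) (𝓝[>] 0) atTop :=
        by simpa [div_eq_mul_inv] using tendsto_inv_nhdsGT_zero.const_mul_atTop hAp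
      have h3 := (hCA.comp h2).const_mul (((A : ℝ) + 1) ^ gam β)
      refine h3.congr' ?_
      filter_upwards [self_mem_nhdsWithin] with h hh
      have hh' : (0 : ℝ) < h := hh
      show ((A : ℝ) + 1) ^ gam β * ((∫ x, ‖SS (ww A) (((A : ℝ) + 1) / h) x‖ ^ β ∂(nu 0 (((A : ℝ) + 1) / h))) /
        (((A : ℝ) + 1) / h) ^ gam β) = _
      rw [Real.div_rpow hAp.le hh'.le]
      have h4 : 0 < h ^ gam β := Real.rpow_pos_of_pos hh' _
      have h5 : ∫ x, ‖SS (ww A) (((A : ℝ) + 1) / h) x‖ ^ β ∂(nu 0 (((A : ℝ) + 1) / h)) =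
        ∫ x, ‖DY h A x‖ ^ β ∂(nu 0 (((A : ℝ) + 1) / h)) := rfl
      rw [h5]
      field_simp
    have h2 : Tendsto (fun h : ℝ => |h ^ gam β * (∫ x, ‖DY h A x‖ ^ β ∂(nu 0 (((A : ℝ) + 1) / h))) - k0|) (𝓝[>] 0)
        (𝓝 |((A : ℝ) + 1) ^ gam β * CA - k0|) := (h1.sub_const k0).abs
    refine le_of_tendsto h2 ?_
    filter_upwards [Ioo_mem_nhdsGT hh0] with h hh
    have := hcm h hh.1 hh.2.le
    rw [← hk0] at this
    exact this
  obtain ⟨ε3, hε3def⟩ : ∃ ε3 : ℝ, ε3 = ε / (8 * ((A : ℝ) + 1) ^ gam β) := ⟨_, rfl⟩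
  have hε3 : 0 < ε3 := by rw [hε3def]; positivity
  obtain ⟨θ2, L0, hθ2, hL0, hmain2⟩ := hmain ε3 hε3
  obtain ⟨CE, AE, hCE, hAE, heta⟩ := eta_mean hβ hβ2 hφ
  obtain ⟨θ3, CP, T3, hθ3, hCP, hT3, hPO⟩ := PO_mean hβ hφ
  obtain ⟨θ, hθdef⟩ : ∃ θ : ℝ, θ = min θ1 (min θ2 θ3) := ⟨_, rfl⟩
  have hθ : 0 < θ := by rw [hθdef]; exact lt_min hθ1 (lt_min hθ2 hθ3)
  have hθ1' : θ ≤ θ1 := by rw [hθdef]; exact min_le_left _ _
  have hθ2' : θ ≤ θ2 := by rw [hθdef]; exact (min_le_right _ _).trans (min_le_left _ _)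
  have hθ3' : θ ≤ θ3 := by rw [hθdef]; exact (min_le_right _ _).trans (min_le_right _ _)
  obtain ⟨q, hqdef⟩ : ∃ q : ℝ, q = (gam β + 1) / β := ⟨_, rfl⟩
  have hq : 0 < q := by rw [hqdef]; positivity
  obtain ⟨K, hK1, hK⟩ := log_le_lin ((A : ℝ) + 2) q hθ
  -- the threshold
  obtain ⟨B, hBdef⟩ : ∃ B : ℝ, B = 4 + K + (L0 + 1) + AE + T3 + CE / ε2 + CP / ε2 + (1 / h0 + 1) := ⟨_, rfl⟩
  have p1 : 0 < CE / ε2 := by positivity
  have p2 : 0 < CP / ε2 := by positivity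
  have p3 : 0 < 1 / h0 := by positivity
  have hB4 : 4 ≤ B := by rw [hBdef]; linarith
  have hBK : K ≤ B := by rw [hBdef]; linarith
  have hBL : L0 ≤ B := by rw [hBdef]; linarith
  have hBAE : AE ≤ B := by rw [hBdef]; linarith
  have hBT3 : T3 ≤ B := by rw [hBdef]; linarith
  have hBCE : CE / ε2 ≤ B := by rw [hBdef]; linarith
  have hBCP : CP / ε2 ≤ B := by rw [hBdef]; linarith
  refine ⟨B, by linarith, ?_⟩
  intro T h hT hh hhB hBψ
  have hB0 : 0 < B := by linarith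
  have hh4 : h ≤ 1 / 4 := hhB.trans (one_div_le_one_div_of_le (by norm_num) hB4)
  have hh1 : h ≤ 1 := by linarith
  have hinv : B ≤ 1 / h := by
    rw [le_div_iff₀ hh]
    rw [le_div_iff₀ hB0] at hhB
    linarith
  obtain ⟨ψ, hψdef⟩ : ∃ ψ : ℝ, ψ = h * Real.log T := ⟨_, rfl⟩
  rw [← hψdef] at hBψ
  have hψ1 : 1 ≤ ψ := by linarith
  have hψ0 : 0 < ψ := by linarith
  have hlogT : Real.log T = ψ / h := by rw [hψdef]; field_simp
  have hψT : ψ ≤ Real.log T := by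
    rw [hlogT, le_div_iff₀ hh]
    nlinarith
  have hBT : B ≤ Real.log T := hBψ.trans hψT
  have hlT0 : 0 < Real.log T := by linarith
  have hTlog : Real.log T ≤ T := by
    have := Real.log_le_sub_one_of_pos hT
    linarith
  have hT1 : 1 ≤ T := by linarith
  -- Y
  obtain ⟨Y, hYdef⟩ : ∃ Y : ℕ, Y = A + ⌈q * Real.log ψ⌉₊ := ⟨_, rfl⟩
  have hAY : A ≤ Y := by rw [hYdef]; omega
  have hlψ : 0 ≤ Real.log ψ := Real.log_nonneg hψ1
  have hYlow : q * Real.log ψ ≤ (Y : ℝ) := by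
    have h1 := Nat.le_ceil (q * Real.log ψ)
    rw [hYdef]
    push_cast
    linarith
  have hYup : (Y : ℝ) + 1 ≤ (A : ℝ) + 2 + q * Real.log ψ := by
    have h1 := Nat.ceil_lt_add_one (mul_nonneg hq.le hlψ)
    rw [hYdef]
    push_cast
    linarith
  have hYθ : ((Y : ℝ) + 1) / h ≤ θ * Real.log T := by
    rw [hlogT, ← mul_div_assoc]
    exact div_le_div_of_nonneg_right (hYup.trans (hK ψ (hBK.trans hBψ))) hh.le
  have hAθ : ((A : ℝ) + 1) / h ≤ θ * Real.log T := by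
    refine le_trans (div_le_div_of_nonneg_right ?_ hh.le) hYθ
    have : (A : ℝ) ≤ Y := by exact_mod_cast hAY
    linarith
  -- normalisation
  obtain ⟨N, hNdef⟩ : ∃ N : ℝ, N = h ^ (-gam β) * Real.log T := ⟨_, rfl⟩
  have hhg : 0 < h ^ (-gam β) := Real.rpow_pos_of_pos hh _
  have hhg1 : 1 ≤ h ^ (-gam β) := Real.one_le_rpow_of_pos_of_le_one_of_nonpos hh hh1 (by linarith)
  have hN : 0 < N := by rw [hNdef]; positivity
  have hNl : Real.log T ≤ N := by rw [hNdef]; nlinarith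
  -- main part
  have m1 : |MZ T (fun t => ‖DY h A (xt t)‖ ^ β) - k0 * N| ≤ ε / 4 * N := by
    have e1 := hmain2 (((A : ℝ) + 1) / h) T (by
      refine hBL.trans (hinv.trans ?_)
      exact div_le_div_of_nonneg_right (by linarith) hh.le) hT1 (hAθ.trans (mul_le_mul_of_nonneg_right hθ2' hlT0.le))
    have e2 : (((A : ℝ) + 1) / h) ^ gam β = ((A : ℝ) + 1) ^ gam β * h ^ (-gam β) := by
      rw [Real.div_rpow hAp.le hh.le, Real.rpow_neg hh.le, div_eq_mul_inv]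
    rw [e2] at e1
    have e3 : MZ T (fun t => ‖DY h A (xt t)‖ ^ β) = (1 / T) * (∫ t in (0 : ℝ)..T,
      ‖riemannZeta (1 / 2 + t * Complex.I)‖ ^ 2 * ‖SS (ww A) (((A : ℝ) + 1) / h) (xt t)‖ ^ β) := rfl
    rw [← e3] at e1
    have e4 : CA * (((A : ℝ) + 1) ^ gam β * h ^ (-gam β)) * Real.log T = (((A : ℝ) + 1) ^ gam β * CA) * N := by
      rw [hNdef]; ring
    have e5 : ε3 * (((A : ℝ) + 1) ^ gam β * h ^ (-gam β)) * Real.log T = ε / 8 * N := by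
      rw [hNdef, hε3def]
      field_simp
    rw [e4, e5] at e1
    have e6 : |(((A : ℝ) + 1) ^ gam β * CA) * N - k0 * N| ≤ ε / 8 * N := by
      rw [← sub_mul, abs_mul, abs_of_pos hN]
      exact mul_le_mul_of_nonneg_right hCk hN.le
    have e7 := abs_sub_le (MZ T (fun t => ‖DY h A (xt t)‖ ^ β)) ((((A : ℝ) + 1) ^ gam β * CA) * N) (k0 * N)
    linarith
  -- middle part
  have m2 : MZ T (fun t => ‖DY h Y (xt t) - DY h A (xt t)‖ ^ β) ≤ ε1 * N := by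
    have e1 := hA0 A Y hAA0 hAY h T hh hh1 hT1 (hYθ.trans (mul_le_mul_of_nonneg_right hθ1' hlT0.le))
    have e2 : ε1 * h ^ (-gam β) * Real.log T = ε1 * N := by rw [hNdef]; ring
    rw [e2] at e1
    exact e1
  -- tail
  have hYnn : (0 : ℝ) ≤ Y := Nat.cast_nonneg Y
  have m3 : MZ T (fun t => ‖eta φ h Y t‖ ^ β) ≤ ε2 * N := by
    have e1 := heta T h Y (hBAE.trans (hBT.trans hTlog)) hh hh4 hYnn
    refine e1.trans ?_
    have e2 : Real.exp (-(β * (Y : ℝ))) ≤ ψ ^ (-(gam β + 1)) := by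
      rw [Real.rpow_def_of_pos hψ0]
      refine Real.exp_le_exp.2 ?_
      have h1 : (gam β + 1) * Real.log ψ ≤ β * Y := by
        have h2 : β * (q * Real.log ψ) ≤ β * Y := mul_le_mul_of_nonneg_left hYlow hβ.le
        have h3 : β * (q * Real.log ψ) = (gam β + 1) * Real.log ψ := by
          rw [hqdef]
          field_simp
        linarith
      linarith
    have e3 : Real.log T ^ (gam β + 1) = ψ ^ gam β * N := by
      rw [Real.rpow_add hlT0, Real.rpow_one]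
      have h1 : Real.log T ^ gam β = ψ ^ gam β * h ^ (-gam β) := by
        rw [hlogT, Real.div_rpow hψ0.le hh.le, Real.rpow_neg hh.le, div_eq_mul_inv]
      rw [h1, hNdef]
      ring
    have e4 : CE * Real.exp (-(β * (Y : ℝ))) * Real.log T ^ (gam β + 1) ≤ CE * ψ ^ (-(gam β + 1)) * (ψ ^ gam β * N) := by
      rw [e3]
      refine mul_le_mul_of_nonneg_right (mul_le_mul_of_nonneg_left e2 hCE.le) ?_
      have : 0 < ψ ^ gam β := Real.rpow_pos_of_pos hψ0 _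
      positivity
    refine e4.trans ?_
    have e5 : ψ ^ (-(gam β + 1)) * ψ ^ gam β = ψ⁻¹ := by
      rw [← Real.rpow_add hψ0]
      have : -(gam β + 1) + gam β = -1 := by ring
      rw [this, Real.rpow_neg_one]
    have e6 : CE * ψ ^ (-(gam β + 1)) * (ψ ^ gam β * N) = CE * ψ⁻¹ * N := by
      calc CE * ψ ^ (-(gam β + 1)) * (ψ ^ gam β * N) = CE * (ψ ^ (-(gam β + 1)) * ψ ^ gam β) * N := by ring
        _ = _ := by rw [e5]
    rw [e6]
    refine mul_le_mul_of_nonneg_right ?_ hN.le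
    have e7 : CE / ε2 ≤ ψ := hBCE.trans hBψ
    rw [div_le_iff₀ hε2] at e7
    rw [← div_eq_mul_inv, div_le_iff₀ hψ0]
    linarith
  -- pole
  have m4 : MZ T (fun t => ‖PO φ h Y t‖ ^ β) ≤ ε2 * N := by
    have e1 := hPO h Y T hh hh4 hYnn (hBT3.trans (hBT.trans hTlog)) (hYθ.trans (mul_le_mul_of_nonneg_right hθ3' hlT0.le))
    refine e1.trans ?_
    have e2 : CP / ε2 ≤ N := hBCP.trans (hBT.trans hNl)
    rw [div_le_iff₀ hε2] at e2
    linarith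
  -- conclusion
  have core := shifted_core hβ hφ hh hh4 hT hη.le hCη.le hpd A Y hYnn
  obtain ⟨Z, hZdef⟩ : ∃ Z : ℝ, Z = MZ T (fun t => ‖riemannZeta (((1 / 2 + h : ℝ) : ℂ) + (t : ℂ) * Complex.I)‖ ^ β) := ⟨_, rfl⟩
  obtain ⟨D, hDdef⟩ : ∃ D : ℝ, D = MZ T (fun t => ‖DY h A (xt t)‖ ^ β) := ⟨_, rfl⟩
  rw [← hZdef, ← hDdef] at core
  rw [← hDdef] at m1
  have hD : D ≤ (|k0| + ε / 4) * N := by
    have h1 := (abs_le.1 m1).2
    have h2 : k0 * N ≤ |k0| * N := mul_le_mul_of_nonneg_right (le_abs_self _) hN.le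
    linarith
  have s1 : η * D ≤ ε / 8 * N := by
    calc η * D ≤ η * ((|k0| + ε / 4) * N) := mul_le_mul_of_nonneg_left hD hη.le
      _ ≤ η * ((|k0| + ε + 1) * N) := by
        refine mul_le_mul_of_nonneg_left (mul_le_mul_of_nonneg_right (by linarith) hN.le) hη.le
      _ = ε / 8 * N := by
        rw [hηdef]
        field_simp
  have s2 : Cη * (2 ^ β * (MZ T (fun t => ‖DY h Y (xt t) - DY h A (xt t)‖ ^ β) +
        2 ^ β * (MZ T (fun t => ‖eta φ h Y t‖ ^ β) + MZ T (fun t => ‖PO φ h Y t‖ ^ β)))) ≤ 3 * (ε / 8) * N := by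
    calc _ ≤ Cη * (2 ^ β * (ε1 * N + 2 ^ β * (ε2 * N + ε2 * N))) := by
          gcongr
      _ = (Cη * 2 ^ β * ε1 + 2 * (Cη * 2 ^ β * 2 ^ β * ε2)) * N := by ring
      _ = 3 * (ε / 8) * N := by
          have h1 : Cη * 2 ^ β * ε1 = ε / 8 := by rw [hε1def]; field_simp
          have h2 : Cη * 2 ^ β * 2 ^ β * ε2 = ε / 8 := by rw [hε2def]; field_simp
          rw [h1, h2]
          ring
  have s3 : |Z - k0 * N| ≤ 3 * (ε / 4) * N := by
    have h1 := abs_sub_le Z D (k0 * N)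
    linarith
  have s4 : h ^ gam β * (Real.log T)⁻¹ = N⁻¹ := by
    rw [hNdef, mul_inv, Real.rpow_neg hh.le, inv_inv]
  have s5 : (1 / T) * (∫ t in (0 : ℝ)..T, ‖riemannZeta (1 / 2 + t * Complex.I)‖ ^ 2 *
      ‖riemannZeta (((1 / 2 + h : ℝ) : ℂ) + t * Complex.I)‖ ^ β) = Z := by rw [hZdef]; rfl
  rw [s4, s5]
  have s6 : N⁻¹ * Z - k0 = (Z - k0 * N) / N := by field_simp
  rw [s6, abs_div, abs_of_pos hN, div_lt_iff₀ hN]
  have s7 : 3 * (ε / 4) * N < ε * N := mul_lt_mul_of_pos_right (by linarith) hN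
  linarith

end Pool.Agent.LibSM93
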