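import Mathlib
import Pool.Agent.LibSM93.F2
import Pool.Agent.LibSM93.E0
import Pool.Agent.LibSM93.E3

/-! The sharp lower bound for all powers. -/

set_option autoImplicit false

namespace Pool.Agent.LibSM93

open MeasureTheory Filter Topology Pool.Agent.LibMM99 Pool.Agent.LibTG78
open scoped ComplexConjugate

/-- the lower bound for given data, in normalised form -/
theorem lower_core {β : ℝ} (hβ : 2 < β) {φ : ℝ → ℂ} (hφ : IsKernel φ) {h T : ℝ} (hh : 0 < h) (hh4 : h ≤ 1 / 4)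
    (hT : 0 < T) {lam : ℝ} (hl : 0 < lam) (A Y : ℝ) (hY : 0 ≤ Y) :
    (1 - 3 * β * lam) * MZ T (fun t => ‖DY h A (xt t)‖ ^ β) -
      β * lam ^ (1 - β) * (MZ T (fun t => ‖DY h Y (xt t) - DY h A (xt t)‖ ^ β) + MZ T (fun t => ‖PO φ h Y t‖ ^ β)) -
      β * lam⁻¹ * MZ T (fun t => ‖DY h A (xt t)‖ ^ (β - 2) * ‖eta φ h Y t‖ ^ 2) ≤
    MZ T (fun t => ‖riemannZeta (((1 / 2 + h : ℝ) : ℂ) + (t : ℂ) * Complex.I)‖ ^ β) := by
  have hβ0 : 0 < β := by linarith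
  have hβ1 : 1 ≤ β := by linarith
  have cD : ∀ B : ℝ, Continuous fun t : ℝ => DY h B (xt t) := fun B => (DY_cont h B).1.comp continuous_xt
  obtain ⟨cP, cE⟩ := PO_cont hφ hh hh4 hY
  have cr : ∀ {f : ℝ → ℂ}, Continuous f → Continuous fun t => ‖f t‖ ^ β := fun hf =>
    hf.norm.rpow_const fun _ => Or.inr hβ0.le
  have cz := cr (zeta_shift_cont hh hh4)
  have ca := cr (cD A)
  have cm : Continuous fun t : ℝ => ‖DY h Y (xt t) - DY h A (xt t)‖ ^ β := cr ((cD Y).sub (cD A))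
  have cp := cr cP
  have ce : Continuous fun t : ℝ => ‖DY h A (xt t)‖ ^ (β - 2) * ‖eta φ h Y t‖ ^ 2 :=
    ((cD A).norm.rpow_const fun _ => Or.inr (by linarith)).mul (cE.norm.pow 2)
  have c1 : Continuous fun t : ℝ => ‖DY h Y (xt t) - DY h A (xt t)‖ ^ β + ‖PO φ h Y t‖ ^ β := cm.add cp
  have c2 : Continuous fun t : ℝ => (1 - 3 * β * lam) * ‖DY h A (xt t)‖ ^ β := continuous_const.mul ca
  have c3 : Continuous fun t : ℝ => β * lam ^ (1 - β) * (‖DY h Y (xt t) - DY h A (xt t)‖ ^ β + ‖PO φ h Y t‖ ^ β) :=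
    continuous_const.mul c1
  have c4 : Continuous fun t : ℝ => β * lam⁻¹ * (‖DY h A (xt t)‖ ^ (β - 2) * ‖eta φ h Y t‖ ^ 2) :=
    continuous_const.mul ce
  have c23 : Continuous fun t : ℝ => (1 - 3 * β * lam) * ‖DY h A (xt t)‖ ^ β -
      β * lam ^ (1 - β) * (‖DY h Y (xt t) - DY h A (xt t)‖ ^ β + ‖PO φ h Y t‖ ^ β) := c2.sub c3
  have e1 : (1 - 3 * β * lam) * MZ T (fun t => ‖DY h A (xt t)‖ ^ β) -
      β * lam ^ (1 - β) * (MZ T (fun t => ‖DY h Y (xt t) - DY h A (xt t)‖ ^ β) + MZ T (fun t => ‖PO φ h Y t‖ ^ β)) -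
      β * lam⁻¹ * MZ T (fun t => ‖DY h A (xt t)‖ ^ (β - 2) * ‖eta φ h Y t‖ ^ 2) =
      MZ T (fun t => (1 - 3 * β * lam) * ‖DY h A (xt t)‖ ^ β -
        β * lam ^ (1 - β) * (‖DY h Y (xt t) - DY h A (xt t)‖ ^ β + ‖PO φ h Y t‖ ^ β) -
        β * lam⁻¹ * (‖DY h A (xt t)‖ ^ (β - 2) * ‖eta φ h Y t‖ ^ 2)) := by
    rw [MZ_sub T c23 c4, MZ_sub T c2 c3, MZ_smul, MZ_smul, MZ_smul, MZ_add T cm cp]
  rw [e1]
  refine MZ_mono hT (c23.sub c4) cz fun t => ?_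
  obtain ⟨a, ha⟩ : ∃ a : ℂ, a = DY h A (xt t) := ⟨_, rfl⟩
  obtain ⟨m, hm⟩ : ∃ m : ℂ, m = DY h Y (xt t) - DY h A (xt t) := ⟨_, rfl⟩
  obtain ⟨e, he⟩ : ∃ e : ℂ, e = eta φ h Y t := ⟨_, rfl⟩
  obtain ⟨p, hp⟩ : ∃ p : ℂ, p = PO φ h Y t := ⟨_, rfl⟩
  have h1 := pow_lower hβ1 a (m + (e + p))
  have h2 : a + (m + (e + p)) = riemannZeta (((1 / 2 + h : ℝ) : ℂ) + (t : ℂ) * Complex.I) := by
    rw [ha, hm, he, hp]
    unfold PO
    ring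
  rw [h2] at h1
  rw [← hm, ← ha, ← he, ← hp]
  have h3 : ‖m + (e + p)‖ ≤ ‖m‖ + (‖e‖ + ‖p‖) := (norm_add_le _ _).trans (by linarith [norm_add_le e p])
  have h4 : 0 ≤ ‖a‖ ^ (β - 1) := Real.rpow_nonneg (norm_nonneg _) _
  have h5 := young_one hβ1 hl (norm_nonneg m) (norm_nonneg a)
  have h6 := young_one hβ1 hl (norm_nonneg p) (norm_nonneg a)
  have h7 := young_two hβ hl (norm_nonneg e) (norm_nonneg a)
  have h8 : ‖a‖ ^ (β - 1) * ‖m + (e + p)‖ ≤ 3 * (lam * ‖a‖ ^ β) + lam ^ (1 - β) * (‖m‖ ^ β + ‖p‖ ^ β) +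
      lam⁻¹ * (‖a‖ ^ (β - 2) * ‖e‖ ^ 2) := by
    calc ‖a‖ ^ (β - 1) * ‖m + (e + p)‖ ≤ ‖a‖ ^ (β - 1) * (‖m‖ + (‖e‖ + ‖p‖)) := mul_le_mul_of_nonneg_left h3 h4
      _ = ‖a‖ ^ (β - 1) * ‖m‖ + ‖a‖ ^ (β - 1) * ‖e‖ + ‖a‖ ^ (β - 1) * ‖p‖ := by ring
      _ ≤ _ := by linarith
  have h9 := mul_le_mul_of_nonneg_left h8 hβ0.le
  calc (1 - 3 * β * lam) * ‖a‖ ^ β - β * lam ^ (1 - β) * (‖m‖ ^ β + ‖p‖ ^ β) -
        β * lam⁻¹ * (‖a‖ ^ (β - 2) * ‖e‖ ^ 2)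
      = ‖a‖ ^ β - β * (3 * (lam * ‖a‖ ^ β) + lam ^ (1 - β) * (‖m‖ ^ β + ‖p‖ ^ β) +
        lam⁻¹ * (‖a‖ ^ (β - 2) * ‖e‖ ^ 2)) := by ring
    _ ≤ ‖a‖ ^ β - β * (‖a‖ ^ (β - 1) * ‖m + (e + p)‖) := by linarith
    _ ≤ _ := h1

/-- the main part -/
theorem main_part {β : ℝ} (hβ : 0 < β) {ε : ℝ} (hε : 0 < ε) : ∃ A0 : ℕ, ∀ A : ℕ, A0 ≤ A →
    ∃ θ B : ℝ, 0 < θ ∧ 1 ≤ B ∧ ∀ T h : ℝ, 1 ≤ T → 0 < h → B ≤ 1 / h → ((A : ℝ) + 1) / h ≤ θ * Real.log T →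
      |MZ T (fun t => ‖DY h A (xt t)‖ ^ β) -
        2 ^ (-(β ^ 2 / 4)) * LibZM.Aconst ((β + 2) / 2) * (h ^ (-gam β) * Real.log T)| ≤
        ε * (h ^ (-gam β) * Real.log T) := by
  obtain ⟨k0, hk0⟩ : ∃ k0 : ℝ, k0 = 2 ^ (-(β ^ 2 / 4)) * LibZM.Aconst ((β + 2) / 2) := ⟨_, rfl⟩
  rw [← hk0]
  obtain ⟨A1, hA1⟩ := const_model hβ (ε / 2) (by positivity)
  refine ⟨A1, fun A hA => ?_⟩
  obtain ⟨h0, hh0, hcm⟩ := hA1 A hA
  have hAnn : (0 : ℝ) ≤ A := Nat.cast_nonneg A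
  have hAp : (0 : ℝ) < (A : ℝ) + 1 := by linarith
  have hApg : 0 < ((A : ℝ) + 1) ^ gam β := Real.rpow_pos_of_pos hAp _
  obtain ⟨Λ, hw⟩ := isWeight_ww hAnn
  obtain ⟨CA, hCA, hmain⟩ := weighted_nu hβ hw
  -- the limit constant
  have hCk : |((A : ℝ) + 1) ^ gam β * CA - k0| ≤ ε / 2 := by
    have h1 : Tendsto (fun h : ℝ => h ^ gam β * (∫ x, ‖DY h A x‖ ^ β ∂(nu 0 (((A : ℝ) + 1) / h)))) (𝓝[>] 0)
        (𝓝 (((A : ℝ) + 1) ^ gam β * CA)) := by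
      have h2 : Tendsto (fun h : ℝ => ((A : ℝ) + 1) / h) (𝓝[>] 0) atTop :=
        by simpa [div_eq_mul_inv] using tendsto_inv_nhdsGT_zero.const_mul_atTop hAp
      have h3 := (hCA.comp h2).const_mul (((A : ℝ) + 1) ^ gam β)
      refine h3.congr' ?_
      filter_upwards [self_mem_nhdsWithin] with h hh
      have hh' : (0 : ℝ) < h := hh
      show ((A : ℝ) + 1) ^ gam β * ((∫ x, ‖SS (ww A) (((A : ℝ) + 1) / h) x‖ ^ β ∂(nu 0 (((A : ℝ) + 1) / h))) /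
        (((A : ℝ) + 1) / h) ^ gam β) = _
      rw [Real.div_rpow hAp.le hh'.le]
      have h4 : 0 < h ^ gam β := Real.rpow_pos_of_pos hh' _
      have h5 : ∫ x, ‖SS (ww A) (((A : ℝ) + 1) / h) x‖ ^ β ∂(nu 0 (((A : ℝ) + 1) / h)) =
        ∫ x, ‖DY h A x‖ ^ β ∂(nu 0 (((A : ℝ) + 1) / h)) := rfl
      rw [h5]
      field_simp
    have h2 : Tendsto (fun h : ℝ => |h ^ gam β * (∫ x, ‖DY h A x‖ ^ β ∂(nu 0 (((A : ℝ) + 1) / h))) - k0|) (𝓝[>] 0)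
        (𝓝 |((A : ℝ) + 1) ^ gam β * CA - k0|) := (h1.sub_const k0).abs
    refine le_of_tendsto h2 ?_
    filter_upwards [Ioo_mem_nhdsGT hh0] with h hh
    have := hcm h hh.1 hh.2.le
    rw [← hk0] at this
    exact this
  obtain ⟨ε3, hε3def⟩ : ∃ ε3 : ℝ, ε3 = ε / (2 * ((A : ℝ) + 1) ^ gam β) := ⟨_, rfl⟩
  have hε3 : 0 < ε3 := by rw [hε3def]; positivity
  obtain ⟨θ2, L0, hθ2, hL0, hmain2⟩ := hmain ε3 hε3
  refine ⟨θ2, max L0 1, hθ2, le_max_right _ _, ?_⟩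
  intro T h hT1 hh hhB hAθ
  have hBL : L0 ≤ 1 / h := (le_max_left _ _).trans hhB
  have hh1 : h ≤ 1 := by
    have := (le_max_right L0 1).trans hhB
    rw [le_div_iff₀ hh] at this
    linarith
  have hlT0 : 0 ≤ Real.log T := Real.log_nonneg hT1
  obtain ⟨N, hNdef⟩ : ∃ N : ℝ, N = h ^ (-gam β) * Real.log T := ⟨_, rfl⟩
  have hhg : 0 < h ^ (-gam β) := Real.rpow_pos_of_pos hh _
  have hN : 0 ≤ N := by rw [hNdef]; positivity
  rw [← hNdef]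
  have e1 := hmain2 (((A : ℝ) + 1) / h) T (by
    refine hBL.trans ?_
    exact div_le_div_of_nonneg_right (by linarith) hh.le) hT1 hAθ
  have e2 : (((A : ℝ) + 1) / h) ^ gam β = ((A : ℝ) + 1) ^ gam β * h ^ (-gam β) := by
    rw [Real.div_rpow hAp.le hh.le, Real.rpow_neg hh.le, div_eq_mul_inv]
  rw [e2] at e1
  have e3 : MZ T (fun t => ‖DY h A (xt t)‖ ^ β) = (1 / T) * (∫ t in (0 : ℝ)..T,
    ‖riemannZeta (1 / 2 + t * Complex.I)‖ ^ 2 * ‖SS (ww A) (((A : ℝ) + 1) / h) (xt t)‖ ^ β) := rfl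
  rw [← e3] at e1
  have e4 : CA * (((A : ℝ) + 1) ^ gam β * h ^ (-gam β)) * Real.log T = (((A : ℝ) + 1) ^ gam β * CA) * N := by
    rw [hNdef]; ring
  have e5 : ε3 * (((A : ℝ) + 1) ^ gam β * h ^ (-gam β)) * Real.log T = ε / 2 * N := by
    rw [hNdef, hε3def]
    field_simp
  rw [e4, e5] at e1
  have e6 : |(((A : ℝ) + 1) ^ gam β * CA) * N - k0 * N| ≤ ε / 2 * N := by
    rw [← sub_mul, abs_mul, abs_of_nonneg hN]
    exact mul_le_mul_of_nonneg_right hCk hN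
  have e7 := abs_sub_le (MZ T (fun t => ‖DY h A (xt t)‖ ^ β)) ((((A : ℝ) + 1) ^ gam β * CA) * N) (k0 * N)
  linarith

/-- the sharp lower bound -/
theorem shifted_lower {β : ℝ} (hβ : 2 < β) : ∀ ε : ℝ, 0 < ε → ∃ A : ℝ, 0 < A ∧
    ∀ T h : ℝ, 0 < T → 0 < h → h ≤ 1 / A → A ≤ h * Real.log T →
    2 ^ (-(β ^ 2 / 4)) * LibZM.Aconst ((β + 2) / 2) - ε <
    h ^ gam β * (Real.log T)⁻¹ * ((1 / T) * ∫ t in (0 : ℝ)..T, ‖riemannZeta (1 / 2 + t * Complex.I)‖ ^ 2 *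
      ‖riemannZeta (((1 / 2 + h : ℝ) : ℂ) + t * Complex.I)‖ ^ β) := by
  intro ε hε
  have hβ0 : 0 < β := by linarith
  have hg : 0 < gam β := D5_gam_pos hβ0
  have hg3 : 0 < gam β - 3 := by unfold gam; nlinarith
  obtain ⟨k0, hk0⟩ : ∃ k0 : ℝ, k0 = 2 ^ (-(β ^ 2 / 4)) * LibZM.Aconst ((β + 2) / 2) := ⟨_, rfl⟩
  obtain ⟨φ, hφ⟩ := exists_kernel
  obtain ⟨lam, hldef⟩ : ∃ lam : ℝ, lam = min (ε / (8 * (3 * β) * (|k0| + ε + 1))) (1 / (3 * β)) := ⟨_, rfl⟩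
  have hk1 : 0 < |k0| + ε + 1 := by have := abs_nonneg k0; linarith
  have hl : 0 < lam := by rw [hldef]; exact lt_min (by positivity) (by positivity)
  have hl1 : 3 * β * lam * (|k0| + ε + 1) ≤ ε / 8 := by
    have h1 : lam ≤ ε / (8 * (3 * β) * (|k0| + ε + 1)) := by rw [hldef]; exact min_le_left _ _
    have h2 : 3 * β * (|k0| + ε + 1) * lam ≤ 3 * β * (|k0| + ε + 1) * (ε / (8 * (3 * β) * (|k0| + ε + 1))) :=
      mul_le_mul_of_nonneg_left h1 (by positivity)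
    have h3 : 3 * β * (|k0| + ε + 1) * (ε / (8 * (3 * β) * (|k0| + ε + 1))) = ε / 8 := by field_simp
    calc 3 * β * lam * (|k0| + ε + 1) = 3 * β * (|k0| + ε + 1) * lam := by ring
      _ ≤ ε / 8 := by linarith
  obtain ⟨C1, hC1⟩ : ∃ C1 : ℝ, C1 = β * lam ^ (1 - β) := ⟨_, rfl⟩
  obtain ⟨C2, hC2⟩ : ∃ C2 : ℝ, C2 = β * lam⁻¹ := ⟨_, rfl⟩
  have hC1p : 0 < C1 := by rw [hC1]; positivity
  have hC2p : 0 < C2 := by rw [hC2]; positivity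
  -- constants
  obtain ⟨ε1, hε1def⟩ : ∃ ε1 : ℝ, ε1 = ε / (8 * C1) := ⟨_, rfl⟩
  have hε1 : 0 < ε1 := by rw [hε1def]; positivity
  obtain ⟨ε2, hε2def⟩ : ∃ ε2 : ℝ, ε2 = ε / (8 * C2) := ⟨_, rfl⟩
  have hε2 : 0 < ε2 := by rw [hε2def]; positivity
  obtain ⟨θ1, hθ1, hmid⟩ := middle_T hβ0
  obtain ⟨A0, hA0⟩ := hmid ε1 hε1
  obtain ⟨A1, hA1⟩ := main_part hβ0 (ε := ε / 8) (by positivity)
  rw [← hk0] at hA1
  rw [← hk0]
  obtain ⟨A, hAdef⟩ : ∃ A : ℕ, A = max A0 A1 := ⟨_, rfl⟩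
  have hAA0 : A0 ≤ A := by rw [hAdef]; exact le_max_left _ _
  obtain ⟨θ2, B2, hθ2, hB2, hmain2⟩ := hA1 A (by rw [hAdef]; exact le_max_right _ _)
  have hAnn : (0 : ℝ) ≤ A := Nat.cast_nonneg A
  obtain ⟨θ4, CE, T4, hθ4, hCE, hT4, heta⟩ := tail4 hβ hφ A
  obtain ⟨θ3, CP, T3, hθ3, hCP, hT3, hPO⟩ := PO_mean hβ0 hφ
  obtain ⟨θ, hθdef⟩ : ∃ θ : ℝ, θ = min (min θ1 θ4) (min θ2 θ3) := ⟨_, rfl⟩
  have hθ : 0 < θ := by rw [hθdef]; exact lt_min (lt_min hθ1 hθ4) (lt_min hθ2 hθ3)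
  have hθ1' : θ ≤ θ1 := by rw [hθdef]; exact (min_le_left _ _).trans (min_le_left _ _)
  have hθ4' : θ ≤ θ4 := by rw [hθdef]; exact (min_le_left _ _).trans (min_le_right _ _)
  have hθ2' : θ ≤ θ2 := by rw [hθdef]; exact (min_le_right _ _).trans (min_le_left _ _)
  have hθ3' : θ ≤ θ3 := by rw [hθdef]; exact (min_le_right _ _).trans (min_le_right _ _)
  obtain ⟨K, hK1, hK⟩ := log_le_lin ((A : ℝ) + 2) 2 hθ
  -- the threshold
  obtain ⟨B, hBdef⟩ : ∃ B : ℝ, B = 4 + K + B2 + T4 + T3 + CE / ε2 + CP / ε1 := ⟨_, rfl⟩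
  have p1 : 0 < CE / ε2 := by positivity
  have p2 : 0 < CP / ε1 := by positivity
  have hB4 : 4 ≤ B := by rw [hBdef]; linarith
  have hBK : K ≤ B := by rw [hBdef]; linarith
  have hBB2 : B2 ≤ B := by rw [hBdef]; linarith
  have hBT4 : T4 ≤ B := by rw [hBdef]; linarith
  have hBT3 : T3 ≤ B := by rw [hBdef]; linarith
  have hBCE : CE / ε2 ≤ B := by rw [hBdef]; linarith
  have hBCP : CP / ε1 ≤ B := by rw [hBdef]; linarith
  refine ⟨B, by linarith, ?_⟩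
  intro T h hT hh hhB hBψ
  have hB0 : 0 < B := by linarith
  have hh4 : h ≤ 1 / 4 := hhB.trans (one_div_le_one_div_of_le (by norm_num) hB4)
  have hh1 : h ≤ 1 := by linarith
  have hinv : B ≤ 1 / h := by
    rw [le_div_iff₀ hh]
    rw [le_div_iff₀ hB0] at hhB
    linarith
  obtain ⟨ψ, hψdef⟩ : ∃ ψ : ℝ, ψ = h * Real.log T := ⟨_, rfl⟩
  rw [← hψdef] at hBψ
  have hψ1 : 1 ≤ ψ := by linarith
  have hψ0 : 0 < ψ := by linarith
  have hlogT : Real.log T = ψ / h := by rw [hψdef]; field_simp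
  have hψT : ψ ≤ Real.log T := by
    rw [hlogT, le_div_iff₀ hh]
    nlinarith
  have hBT : B ≤ Real.log T := hBψ.trans hψT
  have hlT0 : 0 < Real.log T := by linarith
  have hTlog : Real.log T ≤ T := by
    have := Real.log_le_sub_one_of_pos hT
    linarith
  have hT1 : 1 ≤ T := by linarith
  -- Y
  obtain ⟨Y, hYdef⟩ : ∃ Y : ℕ, Y = A + ⌈2 * Real.log ψ⌉₊ := ⟨_, rfl⟩
  have hAY : A ≤ Y := by rw [hYdef]; omega
  have hlψ : 0 ≤ Real.log ψ := Real.log_nonneg hψ1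
  have hYlow : 2 * Real.log ψ ≤ (Y : ℝ) := by
    have h1 := Nat.le_ceil (2 * Real.log ψ)
    rw [hYdef]
    push_cast
    linarith
  have hYup : (Y : ℝ) + 1 ≤ (A : ℝ) + 2 + 2 * Real.log ψ := by
    have h1 := Nat.ceil_lt_add_one (mul_nonneg zero_le_two hlψ)
    rw [hYdef]
    push_cast
    linarith
  have hYθ : ((Y : ℝ) + 1) / h ≤ θ * Real.log T := by
    rw [hlogT, ← mul_div_assoc]
    exact div_le_div_of_nonneg_right (hYup.trans (hK ψ (hBK.trans hBψ))) hh.le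
  have hAθ : ((A : ℝ) + 1) / h ≤ θ * Real.log T := by
    refine le_trans (div_le_div_of_nonneg_right ?_ hh.le) hYθ
    have : (A : ℝ) ≤ Y := by exact_mod_cast hAY
    linarith
  -- normalisation
  obtain ⟨N, hNdef⟩ : ∃ N : ℝ, N = h ^ (-gam β) * Real.log T := ⟨_, rfl⟩
  have hhg : 0 < h ^ (-gam β) := Real.rpow_pos_of_pos hh _
  have hhg1 : 1 ≤ h ^ (-gam β) := Real.one_le_rpow_of_pos_of_le_one_of_nonpos hh hh1 (by linarith)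
  have hN : 0 < N := by rw [hNdef]; positivity
  have hNl : Real.log T ≤ N := by rw [hNdef]; nlinarith
  -- main part
  have m1 : |MZ T (fun t => ‖DY h A (xt t)‖ ^ β) - k0 * N| ≤ ε / 8 * N := by
    have e1 := hmain2 T h hT1 hh (hBB2.trans hinv) (hAθ.trans (mul_le_mul_of_nonneg_right hθ2' hlT0.le))
    rw [← hNdef] at e1
    exact e1
  -- middle part
  have m2 : MZ T (fun t => ‖DY h Y (xt t) - DY h A (xt t)‖ ^ β) ≤ ε1 * N := by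
    have e1 := hA0 A Y hAA0 hAY h T hh hh1 hT1 (hYθ.trans (mul_le_mul_of_nonneg_right hθ1' hlT0.le))
    have e2 : ε1 * h ^ (-gam β) * Real.log T = ε1 * N := by rw [hNdef]; ring
    rw [e2] at e1
    exact e1
  -- tail
  have hYnn : (0 : ℝ) ≤ Y := Nat.cast_nonneg Y
  have m3 : MZ T (fun t => ‖DY h A (xt t)‖ ^ (β - 2) * ‖eta φ h Y t‖ ^ 2) ≤ ε2 * N := by
    have e1 := heta h Y T hh hh4 hYnn (hBT4.trans (hBT.trans hTlog))
      (hAθ.trans (mul_le_mul_of_nonneg_right hθ4' hlT0.le))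
    refine e1.trans ?_
    have e2 : Real.exp (-2 * (Y : ℝ)) ≤ ψ⁻¹ ^ 4 := by
      have h1 : ψ⁻¹ ^ 4 = Real.exp (-(4 * Real.log ψ)) := by
        rw [Real.exp_neg, mul_comm, Real.exp_mul, Real.exp_log hψ0]
        norm_num
      rw [h1]
      refine Real.exp_le_exp.2 ?_
      linarith
    have e3 : Real.log T ^ 4 * h ^ (-(gam β - 3)) = ψ ^ 3 * N := by
      have h1 : h ^ (-(gam β - 3)) = h ^ (-gam β) * h ^ 3 := by
        rw [show -(gam β - 3) = -gam β + 3 by ring, Real.rpow_add hh]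
        norm_num
      rw [h1, hNdef, hψdef]
      ring
    have e4 : CE * Real.exp (-2 * (Y : ℝ)) * Real.log T ^ 4 * h ^ (-(gam β - 3)) ≤
        CE * ψ⁻¹ ^ 4 * (ψ ^ 3 * N) := by
      rw [mul_assoc (CE * Real.exp (-2 * (Y : ℝ))), e3]
      exact mul_le_mul_of_nonneg_right (mul_le_mul_of_nonneg_left e2 hCE.le) (by positivity)
    refine e4.trans ?_
    have e6 : CE * ψ⁻¹ ^ 4 * (ψ ^ 3 * N) = CE * ψ⁻¹ * N := by
      field_simp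
    rw [e6]
    refine mul_le_mul_of_nonneg_right ?_ hN.le
    have e7 : CE / ε2 ≤ ψ := hBCE.trans hBψ
    rw [div_le_iff₀ hε2] at e7
    rw [← div_eq_mul_inv, div_le_iff₀ hψ0]
    linarith
  -- pole
  have m4 : MZ T (fun t => ‖PO φ h Y t‖ ^ β) ≤ ε1 * N := by
    have e1 := hPO h Y T hh hh4 hYnn (hBT3.trans (hBT.trans hTlog)) (hYθ.trans (mul_le_mul_of_nonneg_right hθ3' hlT0.le))
    refine e1.trans ?_
    have e2 : CP / ε1 ≤ N := hBCP.trans (hBT.trans hNl)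
    rw [div_le_iff₀ hε1] at e2
    linarith
  -- conclusion
  have core := lower_core hβ hφ hh hh4 hT hl A Y hYnn
  obtain ⟨Z, hZdef⟩ : ∃ Z : ℝ, Z = MZ T (fun t => ‖riemannZeta (((1 / 2 + h : ℝ) : ℂ) + (t : ℂ) * Complex.I)‖ ^ β) := ⟨_, rfl⟩
  obtain ⟨D, hDdef⟩ : ∃ D : ℝ, D = MZ T (fun t => ‖DY h A (xt t)‖ ^ β) := ⟨_, rfl⟩
  rw [← hZdef, ← hDdef, ← hC1, ← hC2] at core
  rw [← hDdef] at m1
  have hD : D ≤ (|k0| + ε + 1) * N := by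
    have h1 := (abs_le.1 m1).2
    have h2 : k0 * N ≤ |k0| * N := mul_le_mul_of_nonneg_right (le_abs_self _) hN.le
    nlinarith
  have s1 : 3 * β * lam * D ≤ ε / 8 * N := by
    calc 3 * β * lam * D ≤ 3 * β * lam * ((|k0| + ε + 1) * N) := mul_le_mul_of_nonneg_left hD (by positivity)
      _ = 3 * β * lam * (|k0| + ε + 1) * N := by ring
      _ ≤ ε / 8 * N := mul_le_mul_of_nonneg_right hl1 hN.le
  have s2 : C1 * (MZ T (fun t => ‖DY h Y (xt t) - DY h A (xt t)‖ ^ β) + MZ T (fun t => ‖PO φ h Y t‖ ^ β)) ≤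
      ε / 4 * N := by
    calc _ ≤ C1 * (ε1 * N + ε1 * N) := mul_le_mul_of_nonneg_left (add_le_add m2 m4) hC1p.le
      _ = ε / 4 * N := by
          rw [hε1def]
          field_simp
          ring
  have s3 : C2 * MZ T (fun t => ‖DY h A (xt t)‖ ^ (β - 2) * ‖eta φ h Y t‖ ^ 2) ≤ ε / 8 * N := by
    calc _ ≤ C2 * (ε2 * N) := mul_le_mul_of_nonneg_left m3 hC2p.le
      _ = ε / 8 * N := by
          rw [hε2def]
          field_simp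
  have s0 := (abs_le.1 m1).1
  have s4 : (k0 - 5 / 8 * ε) * N ≤ Z := by
    have h1 : (1 - 3 * β * lam) * D = D - 3 * β * lam * D := by ring
    rw [h1] at core
    have h2 : (k0 - 5 / 8 * ε) * N = k0 * N - 5 / 8 * ε * N := by ring
    rw [h2]
    linarith
  have s5 : h ^ gam β * (Real.log T)⁻¹ = N⁻¹ := by
    rw [hNdef, mul_inv, Real.rpow_neg hh.le, inv_inv]
  have s6 : (1 / T) * (∫ t in (0 : ℝ)..T, ‖riemannZeta (1 / 2 + t * Complex.I)‖ ^ 2 *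
      ‖riemannZeta (((1 / 2 + h : ℝ) : ℂ) + t * Complex.I)‖ ^ β) = Z := by rw [hZdef]; rfl
  rw [s5, s6, ← div_eq_inv_mul, lt_div_iff₀ hN]
  have s7 : 5 / 8 * ε * N < ε * N := mul_lt_mul_of_pos_right (by linarith) hN
  have s8 : (k0 - ε) * N = k0 * N - ε * N := by ring
  have s9 : (k0 - 5 / 8 * ε) * N = k0 * N - 5 / 8 * ε * N := by ring
  linarith

end Pool.Agent.LibSM93
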